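import Mathlib
import Pool.Agent.Lib.MP_8f66f0_al_Wald.Defs
import Pool.Agent.Lib.MP_8f66f0_al_Ind.Defs

/-! Definitions for the vanishing of the Nil groups of all hierarchical groups.

Conventions: rings are algebras over a commutative ring `LL` (a Euclidean domain at the end);
modules are left modules, matrices act on rows. A word `wd ℓ [a₁, …, a_k]` is the product
`ℓ a_k * ⋯ * ℓ a₁`, so the head of the list is the last (rightmost) letter. -/

set_option autoImplicit false

namespace Pool.Agent.Hier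

open Pool.Agent.Wald Pool.Agent.Ind

section Basic

/-- `K_1(Q)` is generated by the image of `K_1(Q')`: every `K_1`-like invariant of `Q` which
kills the images of the invertible matrices over `Q'` kills all invertible matrices. -/
def KT {Q' Q : Type} [Ring Q'] [Ring Q] (f : Q' →+* Q) : Prop :=
  ∀ (K : Type) [CommGroup K] (κ : K1Fun Q K),
    (∀ (n : Type) [Fintype n] [DecidableEq n] (A : Matrix n n Q'), IsUnit A →
      κ.f (A.map f) = 1) →
    ∀ (n : Type) [Fintype n] [DecidableEq n] (A : Matrix n n Q), IsUnit A → κ.f A = 1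

/-- The product of the letters of a word; the head of the list is the last factor. -/
def wd {T Λ : Type} [Ring T] (ℓ : Λ → T) : List Λ → T
  | [] => 1
  | a :: u => wd ℓ u * ℓ a

variable {Q' T Λ : Type} [Ring Q'] [Ring T]

/-- The linear combination `∑ f(x_a) ℓ_a`. -/
noncomputable def lin (f : Q' →+* T) (ℓ : Λ → T) (x : Λ →₀ Q') : T :=
  x.sum fun a q => f q * ℓ a

/-- The linear combination `∑ f(x_u) wd ℓ u` of words. -/
noncomputable def ev (f : Q' →+* T) (ℓ : Λ → T) (x : List Λ →₀ Q') : T :=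
  x.sum fun u q => f q * wd ℓ u

/-- `T` is left free over `Q'` on the words in the letters `ℓ`. -/
def FreeW (f : Q' →+* T) (ℓ : Λ → T) : Prop := Function.Bijective (ev f ℓ)

/-- The letters move to the right of `Q'`: `ℓ_a f(q) ∈ f(Q') + ∑ f(Q') ℓ_b`. -/
def Cl (f : Q' →+* T) (ℓ : Λ → T) : Prop :=
  ∀ (a : Λ) (q : Q'), ∃ (c : Q') (x : Λ →₀ Q'), ℓ a * f q = f c + lin f ℓ x

end Basic

section LT

variable (LL : Type) [CommRing LL]

/-- The map of the group algebra `LL[E]` to an algebra in which `E` acts. -/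
noncomputable abbrev gr {E : Type} [Group E] {Q : Type} [Ring Q] [Algebra LL Q] (ρ : E →* Q) :
    MonoidAlgebra LL E →ₐ[LL] Q :=
  MonoidAlgebra.lift LL Q E ρ

/-- Land-Tamme data over the group `E`: `Q` is left free over `Q'` on the words in the letters
`w_i`, `w_i q ∈ Q' + ∑ LL[E] w_j` for `q ∈ Q'`, and `LL[E] → Q'` is a split injection of
`LL`-modules. -/
structure IsLT {E Q' Q I : Type} [Group E] [Ring Q'] [Ring Q] [Algebra LL Q'] [Algebra LL Q]
    (f : Q' →ₐ[LL] Q) (ρ : E →* Q') (w : I → Q) : Prop where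
  free : FreeW (f : Q' →+* Q) w
  right : ∀ (i : I) (q : Q'), ∃ (c : Q') (x : I →₀ MonoidAlgebra LL E),
    w i * f q = f c + x.sum fun j r => f (gr LL ρ r) * w j
  ret : ∃ s : Q' →ₗ[LL] MonoidAlgebra LL E, ∀ x, s (gr LL ρ x) = x

/-- For all Land-Tamme data over `E`, `K_1(Q)` is generated by the image of `K_1(Q')`. -/
def SL (E : Type) [Group E] : Prop :=
  ∀ (Q' Q I : Type) [Ring Q'] [Ring Q] [Algebra LL Q'] [Algebra LL Q] [Module.Free LL Q']
    (f : Q' →ₐ[LL] Q) (ρ : E →* Q') (w : I → Q), IsLT LL f ρ w → KT (f : Q' →+* Q)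

end LT

/-- `SL` for all Euclidean domains. -/
def SS (E : Type) [Group E] : Prop :=
  ∀ (LL : Type) [CommRing LL] [IsDomain LL], IsEuc LL → SL LL E

section Letters

/-- A letter system: the right action of `Q'` on a pointed `Q'`-bimodule which is left free on
`1` and the letters; `a q = c_a(q) + ∑ m_a(q)_b b`. -/
structure LS (LL Q' Λ : Type) [CommRing LL] [Ring Q'] [Algebra LL Q'] where
  c : Λ → Q' →ₗ[LL] Q'
  m : Λ → Q' →ₗ[LL] (Λ →₀ Q')
  c_one : ∀ a, c a 1 = 0
  m_one : ∀ a, m a 1 = Finsupp.single a 1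
  c_mul : ∀ a q q', c a (q * q') = c a q * q' + (m a q).sum fun b r => r * c b q'
  m_mul : ∀ a q q', m a (q * q') = (m a q).sum fun b r => r • m b q'

/-- The relations of a letter system hold for the letters `ℓ`. -/
def LS.Rel {LL Q' Λ T : Type} [CommRing LL] [Ring Q'] [Algebra LL Q'] [Ring T]
    (S : LS LL Q' Λ) (f : Q' →+* T) (ℓ : Λ → T) : Prop :=
  ∀ a q, ℓ a * f q = f (S.c a q) + lin f ℓ (S.m a q)

end Letters

section Step

/-- The element `y ⊗ (v - v')`. -/
noncomputable def dl {E V : Type} (y : E) (v v' : V) : (V × E) →₀ ℤ :=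
  Finsupp.single (v, y) 1 - Finsupp.single (v', y) 1

/-- Combinatorial data on the vertices `E / A` of a tree with root `v₀ = A`: a parent function
with a rank function, and elements `y_v` such that the elements `r_v = y_v ⊗ (v - p v)` satisfy
`r_v e ∈ ∑ C r_{v'}`. -/
structure OneStep (E : Type) [Group E] (A C : Subgroup E) where
  p : E ⧸ A → E ⧸ A
  rk : E ⧸ A → ℕ
  y : E ⧸ A → E
  rk_lt : ∀ v, v ≠ ((1 : E) : E ⧸ A) → rk (p v) < rk v
  mem : ∀ v, v ≠ ((1 : E) : E ⧸ A) → ∀ e : E,
    dl (y v * e) (e⁻¹ • v) (e⁻¹ • p v) ∈ AddSubgroup.closure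
      {x | ∃ c ∈ C, ∃ v', v' ≠ ((1 : E) : E ⧸ A) ∧ x = dl (c * y v') v' (p v')}

end Step

section Block

/-- Block data: `L` is an algebra with a homomorphism `ρ` of the group `C` and blocks `b_β` of
size `sz β`; `L` is left free over `LL[C]` on the words in the blocks, and `b_β ρ(c)` is a
combination of blocks of the same size and of words in smaller blocks, with left coefficients
in `LL[C]`. -/
structure Blk (LL : Type) [CommRing LL] {C L β : Type} [Group C] [Ring L] [Algebra LL L]
    (ρ : C →* L) (b : β → L) (sz : β → ℕ) : Prop where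
  free : FreeW (gr LL ρ : MonoidAlgebra LL C →+* L) b
  tri : ∀ (x : β) (c : C), ∃ (y : β →₀ MonoidAlgebra LL C) (z : List β →₀ MonoidAlgebra LL C),
    b x * ρ c = lin (gr LL ρ : MonoidAlgebra LL C →+* L) b y +
      ev (gr LL ρ : MonoidAlgebra LL C →+* L) b z ∧
    (∀ x' ∈ y.support, sz x' = sz x) ∧ ∀ u ∈ z.support, ∀ x' ∈ u, sz x' < sz x

end Block

end Pool.Agent.Hier
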