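import Mathlib
import Pool.Agent.Lib.MP_8f66f0_al_WaldL.KK

/-! The class `KK` is closed under directed colimits with arbitrary structure maps. -/

set_option autoImplicit false

namespace Pool.Agent.Hier

open Pool.Agent.Wald Pool.Agent.Ind Pool.Agent.WaldL Matrix

section Colim

variable {G ι : Type} [Group G] [Preorder ι] [IsDirected ι (· ≤ ·)] [Nonempty ι]
  {H : ι → Type} [∀ i, Group (H i)]

/-- The pull back of an invariant along a ring homomorphism. -/
private def colimPull {Λ Λ' : Type} [Ring Λ] [Ring Λ'] (φ : Λ →+* Λ') {K : Type} [CommGroup K]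
    (κ : K1Fun Λ' K) : K1Fun Λ K where
  f := fun {n} _ _ A => κ.f (A.map φ)
  mul := fun {n} _ _ A B hA hB => by
    rw [Matrix.map_mul]
    exact κ.mul _ _ (hA.map φ.mapMatrix) (hB.map φ.mapMatrix)
  reindex := fun {n m} _ _ _ _ e A hA => by
    have h := κ.reindex e (A.map φ) (hA.map φ.mapMatrix)
    exact h
  tri := fun {n m} _ _ _ _ A B D hA hD => by
    rw [Matrix.fromBlocks_map, Matrix.map_zero _ (map_zero φ)]
    exact κ.tri _ _ _ (hA.map φ.mapMatrix) (hD.map φ.mapMatrix)

/-- Finitely many elements of the colimit which are identified there are identified at a finite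
stage. -/
private theorem colim_stage (t : ∀ i j, i ≤ j → H i →* H j) (f : ∀ i, H i →* G)
    (htt : ∀ i j k (h : i ≤ j) (h' : j ≤ k) x, t j k h' (t i j h x) = t i k (h.trans h') x)
    (hker : ∀ i x, f i x = 1 → ∃ j, ∃ h : i ≤ j, t i j h x = 1) (i : ι)
    (S : Finset (H i × H i)) : ∃ j, ∃ h : i ≤ j, ∀ p ∈ S, f i p.1 = f i p.2 →
      t i j h p.1 = t i j h p.2 := by
  classical
  induction S using Finset.induction_on with
  | empty => exact ⟨i, le_rfl, by simp⟩
  | insert p S _ ih =>
    obtain ⟨j, h, hj⟩ := ih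
    by_cases hp : f i p.1 = f i p.2
    · have h1 : f i (p.1 * p.2⁻¹) = 1 := by rw [map_mul, map_inv, hp, mul_inv_cancel]
      obtain ⟨k, h', hk⟩ := hker i _ h1
      rw [map_mul, map_inv, mul_inv_eq_one] at hk
      obtain ⟨l, hjl, hkl⟩ := exists_ge_ge j k
      refine ⟨l, h.trans hjl, fun q hq hfq => ?_⟩
      rcases Finset.mem_insert.1 hq with rfl | hq
      · rw [← htt i k l h' hkl, ← htt i k l h' hkl, hk]
      · rw [← htt i j l h hjl, ← htt i j l h hjl, hj q hq hfq]
    · refine ⟨j, h, fun q hq hfq => ?_⟩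
      rcases Finset.mem_insert.1 hq with rfl | hq
      · exact absurd hfq hp
      · exact hj q hq hfq

/-- An element of `L[H_i]` which vanishes in `L[G]` vanishes at a finite stage. -/
private theorem colim_zero {L : Type} [CommRing L] (t : ∀ i j, i ≤ j → H i →* H j)
    (f : ∀ i, H i →* G) (hf : ∀ i j (h : i ≤ j) x, f j (t i j h x) = f i x)
    (htt : ∀ i j k (h : i ≤ j) (h' : j ≤ k) x, t j k h' (t i j h x) = t i k (h.trans h') x)
    (hker : ∀ i x, f i x = 1 → ∃ j, ∃ h : i ≤ j, t i j h x = 1) (i : ι)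
    (x : MonoidAlgebra L (H i)) (hx : MonoidAlgebra.mapDomainRingHom L (f i) x = 0) :
    ∃ j, ∃ h : i ≤ j, ∀ k (h' : j ≤ k),
      MonoidAlgebra.mapDomainRingHom L (t i k (h.trans h')) x = 0 := by
  classical
  obtain ⟨j, h, hj⟩ := colim_stage t f htt hker i (x.coeff.support ×ˢ x.coeff.support)
  refine ⟨j, h, fun k h' => ?_⟩
  have hk : ∀ a ∈ x.coeff.support, ∀ b ∈ x.coeff.support,
      (t i k (h.trans h') a = t i k (h.trans h') b ↔ f i a = f i b) := by
    intro a ha b hb
    constructor
    · intro hab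
      rw [← hf i k (h.trans h') a, hab, hf]
    · intro hab
      rw [← htt i j k h h', ← htt i j k h h',
        hj (a, b) (Finset.mem_product.2 ⟨ha, hb⟩) hab]
  apply MonoidAlgebra.coeff_injective
  apply Finsupp.ext
  intro g
  have e1 : ∀ {K : Type} [Group K] (φ : H i →* K) (g : K),
      (MonoidAlgebra.mapDomainRingHom L φ x).coeff g =
        ∑ a ∈ x.coeff.support with φ a = g, x.coeff a := by
    intro K _ φ g
    change (x.coeff.mapDomain φ) g = _
    rw [Finsupp.mapDomain, Finsupp.sum_apply, Finsupp.sum, Finset.sum_filter]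
    apply Finset.sum_congr rfl
    intro a _
    rw [Finsupp.single_apply]
  rw [e1]
  change _ = (0 : L)
  by_cases hg : ∃ a ∈ x.coeff.support, t i k (h.trans h') a = g
  · obtain ⟨a, ha, rfl⟩ := hg
    have e2 := congrArg (fun z : MonoidAlgebra L G => z.coeff (f i a)) hx
    simp only [e1] at e2
    rw [MonoidAlgebra.coeff_zero, Finsupp.zero_apply] at e2
    rw [← e2]
    apply Finset.sum_congr _ fun _ _ => rfl
    apply Finset.filter_congr
    intro b hb
    exact hk b hb a ha
  · apply Finset.sum_eq_zero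
    intro a ha
    rw [Finset.mem_filter] at ha
    exact absurd ⟨a, ha.1, ha.2⟩ hg

/-- Elements of the group ring of the colimit come from a finite stage. -/
private theorem colim_lift {L : Type} [CommRing L] (t : ∀ i j, i ≤ j → H i →* H j)
    (f : ∀ i, H i →* G) (hf : ∀ i j (h : i ≤ j) x, f j (t i j h x) = f i x)
    (hs : ∀ g : G, ∃ i, ∃ x, f i x = g) (x : MonoidAlgebra L G) :
    ∃ i, ∀ j, i ≤ j → ∃ y : MonoidAlgebra L (H j), MonoidAlgebra.mapDomainRingHom L (f j) y = x := by
  induction x using MonoidAlgebra.induction_linear with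
  | zero => exact ⟨Classical.arbitrary ι, fun j _ => ⟨0, map_zero _⟩⟩
  | add x y hx hy =>
    obtain ⟨i, hi⟩ := hx
    obtain ⟨j, hj⟩ := hy
    obtain ⟨k, hik, hjk⟩ := exists_ge_ge i j
    refine ⟨k, fun l hl => ?_⟩
    obtain ⟨a, ha⟩ := hi l (hik.trans hl)
    obtain ⟨b, hb⟩ := hj l (hjk.trans hl)
    exact ⟨a + b, by rw [map_add, ha, hb]⟩
  | single g r =>
    obtain ⟨i, x, hx⟩ := hs g
    refine ⟨i, fun j hj => ⟨MonoidAlgebra.single (t i j hj x) r, ?_⟩⟩
    rw [MonoidAlgebra.mapDomainRingHom_apply, MonoidAlgebra.mapDomain_single, hf, hx]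

private theorem colim_fin {α : Type} [Finite α] (P : α → ι → Prop)
    (h : ∀ a, ∃ i, ∀ j, i ≤ j → P a j) : ∃ i, ∀ j, i ≤ j → ∀ a, P a j := by
  classical
  choose i hi using h
  obtain ⟨k, hk⟩ := Finite.exists_le i
  exact ⟨k, fun j hj a => hi a j ((hk a).trans hj)⟩

/-- `WhTL` passes to directed colimits. -/
theorem whTL_colim (L : Type) [CommRing L] (t : ∀ i j, i ≤ j → H i →* H j) (f : ∀ i, H i →* G)
    (hf : ∀ i j (h : i ≤ j) x, f j (t i j h x) = f i x)
    (htt : ∀ i j k (h : i ≤ j) (h' : j ≤ k) x, t j k h' (t i j h x) = t i k (h.trans h') x)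
    (hs : ∀ g : G, ∃ i, ∃ x, f i x = g)
    (hker : ∀ i x, f i x = 1 → ∃ j, ∃ h : i ≤ j, t i j h x = 1)
    (hK : ∀ i, WhTL L (H i)) : WhTL L G := by
  classical
  intro K _ κ hκ n _ _ A hA
  obtain ⟨A', hAA', hA'A⟩ : ∃ A', A * A' = 1 ∧ A' * A = 1 := by
    obtain ⟨u, hu⟩ := hA
    rw [← hu]
    exact ⟨_, u.mul_inv, u.inv_mul⟩
  -- lift to a finite stage
  obtain ⟨i, hi⟩ := colim_fin (α := Bool × n × n)
    (fun a j => ∃ y : MonoidAlgebra L (H j), MonoidAlgebra.mapDomainRingHom L (f j) y =
      (if a.1 then A else A') a.2.1 a.2.2) (fun a => colim_lift t f hf hs _)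
  have hi' := hi i le_rfl
  choose y hy using hi'
  let M : Matrix n n (MonoidAlgebra L (H i)) := fun a b => y (true, a, b)
  let M' : Matrix n n (MonoidAlgebra L (H i)) := fun a b => y (false, a, b)
  have hM : M.map (MonoidAlgebra.mapDomainRingHom L (f i)) = A := by
    apply Matrix.ext; intro a b
    exact hy (true, a, b)
  have hM' : M'.map (MonoidAlgebra.mapDomainRingHom L (f i)) = A' := by
    apply Matrix.ext; intro a b
    exact hy (false, a, b)
  have hz : ∀ a : Bool × n × n, ∃ j, ∀ k, j ≤ k → ∀ h : i ≤ k,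
      MonoidAlgebra.mapDomainRingHom L (t i k h)
        ((if a.1 then M * M' - 1 else M' * M - 1) a.2.1 a.2.2) = 0 := by
    rintro ⟨a1, a2, a3⟩
    have h0 : MonoidAlgebra.mapDomainRingHom L (f i)
        ((if a1 then M * M' - 1 else M' * M - 1) a2 a3) = 0 := by
      have h1 : (M * M' - 1).map (MonoidAlgebra.mapDomainRingHom L (f i)) = 0 := by
        rw [Matrix.map_sub _ (map_sub _), Matrix.map_mul, hM, hM',
          Matrix.map_one _ (map_zero _) (map_one _), hAA', sub_self]
      have h2 : (M' * M - 1).map (MonoidAlgebra.mapDomainRingHom L (f i)) = 0 := by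
        rw [Matrix.map_sub _ (map_sub _), Matrix.map_mul, hM, hM',
          Matrix.map_one _ (map_zero _) (map_one _), hA'A, sub_self]
      cases a1
      · exact congrFun (congrFun h2 a2) a3
      · exact congrFun (congrFun h1 a2) a3
    obtain ⟨j, h, hj⟩ := colim_zero t f hf htt hker i _ h0
    exact ⟨j, fun k hk _ => hj k hk⟩
  obtain ⟨j, hj⟩ := colim_fin (α := Bool × n × n)
    (fun a k => ∀ h : i ≤ k, MonoidAlgebra.mapDomainRingHom L (t i k h)
        ((if a.1 then M * M' - 1 else M' * M - 1) a.2.1 a.2.2) = 0) hz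
  obtain ⟨k, hik, hjk⟩ := exists_ge_ge i j
  have hk := hj k hjk
  set τ := MonoidAlgebra.mapDomainRingHom L (t i k hik) with hτ
  have hτf : ∀ x, MonoidAlgebra.mapDomainRingHom L (f k) (τ x) =
      MonoidAlgebra.mapDomainRingHom L (f i) x := by
    intro x
    induction x using MonoidAlgebra.induction_linear with
    | zero => simp
    | add x y hx hy => rw [map_add, map_add, map_add, hx, hy]
    | single g r =>
      rw [hτ, MonoidAlgebra.mapDomainRingHom_apply, MonoidAlgebra.mapDomainRingHom_apply,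
        MonoidAlgebra.mapDomainRingHom_apply, MonoidAlgebra.mapDomain_single,
        MonoidAlgebra.mapDomain_single, MonoidAlgebra.mapDomain_single, hf]
  have h1 : M.map τ * M'.map τ = 1 := by
    have h2 : (M * M' - 1).map τ = 0 := by
      apply Matrix.ext; intro a b
      exact hk (true, a, b) hik
    rw [Matrix.map_sub _ (map_sub _), Matrix.map_mul,
      Matrix.map_one _ (map_zero _) (map_one _), sub_eq_zero] at h2
    exact h2
  have h1' : M'.map τ * M.map τ = 1 := by
    have h2 : (M' * M - 1).map τ = 0 := by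
      apply Matrix.ext; intro a b
      exact hk (false, a, b) hik
    rw [Matrix.map_sub _ (map_sub _), Matrix.map_mul,
      Matrix.map_one _ (map_zero _) (map_one _), sub_eq_zero] at h2
    exact h2
  have h3 := hK k K (colimPull (MonoidAlgebra.mapDomainRingHom L (f k)) κ) (by
    intro g v
    have h4 : (Matrix.of fun _ _ : Fin 1 => (MonoidAlgebra.single g (v : L))).map
        (MonoidAlgebra.mapDomainRingHom L (f k)) =
        Matrix.of fun _ _ : Fin 1 => MonoidAlgebra.single (f k g) (v : L) := by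
      apply Matrix.ext; intro a b
      exact MonoidAlgebra.mapDomain_single
    change κ.f _ = 1
    rw [h4]
    exact hκ _ _) n (M.map τ) ⟨⟨_, _, h1, h1'⟩, rfl⟩
  have h5 : (M.map τ).map (MonoidAlgebra.mapDomainRingHom L (f k)) = A := by
    rw [← hM]
    apply Matrix.ext; intro a b
    exact hτf _
  change κ.f _ = 1 at h3
  rw [h5] at h3
  exact h3

/-- `KK` passes to directed colimits. -/
theorem kk_colim (t : ∀ i j, i ≤ j → H i →* H j) (f : ∀ i, H i →* G)
    (hf : ∀ i j (h : i ≤ j) x, f j (t i j h x) = f i x)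
    (htt : ∀ i j k (h : i ≤ j) (h' : j ≤ k) x, t j k h' (t i j h x) = t i k (h.trans h') x)
    (hs : ∀ g : G, ∃ i, ∃ x, f i x = g)
    (hker : ∀ i x, f i x = 1 → ∃ j, ∃ h : i ≤ j, t i j h x = 1)
    (hK : ∀ i, KK (H i)) : KK G := fun L _ _ hL =>
  whTL_colim L t f hf htt hs hker fun i => hK i L hL

end Colim

end Pool.Agent.Hier
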