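import Pool.Agent.Lib.MP_8f66f0_al_Hier.FinalG
import Pool.Agent.Lib.MP_8f66f0_al_WaldL.KK

/-! Amalgams and HNN extensions whose path stabilizers are contained in subgroups with the
property `SS`. -/

set_option autoImplicit false

namespace Pool.Agent.Hier

open Pool.Agent.Wald Pool.Agent.WaldL Pool.Agent.WaldP Pool.Agent.Ind

/-- Amalgams. The amalgamated subgroup `E` has only stably free projective modules, and the
stabilizers of the reduced paths with `k + 1` edges are contained in subgroups with `SS`. -/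
theorem kk_pushout_g (hfam : S_fam) (h2 : S_One) (G : Bool → Type) [∀ i, Group (G i)] (E : Type)
    [Group E] (φ : ∀ i, E →* G i) (hφ : ∀ i, Function.Injective (φ i)) (hG : ∀ i, KK (G i))
    (hE : ∀ (L : Type) [CommRing L] [IsDomain L], IsEuc L → ProjSF (MonoidAlgebra L E)) (k : ℕ)
    (hN : ∀ i, ∀ w ∈ Alt φ k i, ∃ D : Subgroup (Monoid.PushoutI φ),
      (Monoid.PushoutI.base φ).range ⊓ cj w (Monoid.PushoutI.base φ).range ≤ D ∧ SS D) :
    KK (Monoid.PushoutI φ) := fun L _ _ hL =>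
  whTL_of_whT (h2 L hL _) (whT_pushout_g hfam G E φ hφ (fun i => whT_of_whTL (hG i L hL)) k
    (fun i w hw => by
      obtain ⟨D, h3, h4⟩ := hN i w hw
      exact ⟨D, h3, h4 L hL⟩) (hE L hL))

/-- HNN extensions. -/
theorem kk_hnn_g (hfam : S_fam) (h2 : S_One) (G : Type) [Group G] (A B : Subgroup G) (φ : A ≃* B)
    (hG : KK G)
    (hA : ∀ (L : Type) [CommRing L] [IsDomain L], IsEuc L → ProjSF (MonoidAlgebra L A)) (k : ℕ)
    (hN : ∀ i, ∀ w ∈ AltH φ k i, ∃ D : Subgroup (HNNExtension G A B φ),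
      ((HNNExtension.of (φ := φ)).comp B.subtype).range ⊓
        cj w ((HNNExtension.of (φ := φ)).comp B.subtype).range ≤ D ∧ SS D) :
    KK (HNNExtension G A B φ) := fun L _ _ hL =>
  whTL_of_whT (h2 L hL _) (whT_hnn_g hfam G A B φ (whT_of_whTL (hG L hL)) k
    (fun i w hw => by
      obtain ⟨D, h3, h4⟩ := hN i w hw
      exact ⟨D, h3, h4 L hL⟩) (hA L hL))

end Pool.Agent.Hier
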