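import Pool.Agent.Lib.MP_8f66f0_al_Hier.SpecB
import Pool.Agent.Lib.MP_8f66f0_al_Wald.Higman
import Pool.Agent.Lib.MP_8f66f0_al_Wald.K1Lem

/-! Block B: the base case, the trivial group. (helper42) -/

set_option autoImplicit false

namespace Pool.Agent.Hier

open Pool.Agent.Wald Pool.Agent.Ind

namespace BaseAux

section Co

variable {Q' Q I : Type} [Ring Q'] [Ring Q] (f : Q' →+* Q) (w : I → Q)

theorem ev_add (x y : List I →₀ Q') : ev f w (x + y) = ev f w x + ev f w y := by
  unfold ev
  rw [Finsupp.sum_add_index']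
  · intro a
    rw [map_zero, zero_mul]
  · intro a b c
    rw [map_add, add_mul]

theorem ev_single (u : List I) (q : Q') : ev f w (Finsupp.single u q) = f q * wd w u := by
  unfold ev
  rw [Finsupp.sum_single_index]
  rw [map_zero, zero_mul]

theorem ev_smul (q : Q') (x : List I →₀ Q') : ev f w (q • x) = f q * ev f w x := by
  unfold ev
  rw [Finsupp.sum_smul_index', Finsupp.sum, Finsupp.sum, Finset.mul_sum]
  · refine Finset.sum_congr rfl fun u _ => ?_
    rw [smul_eq_mul, map_mul, mul_assoc]
  · intro i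
    rw [map_zero, zero_mul]

variable {f w} (h : FreeW f w)

/-- The coordinates. -/
noncomputable def evE : (List I →₀ Q') ≃+ Q :=
  AddEquiv.ofBijective (AddMonoidHom.mk' (ev f w) (ev_add f w)) h

/-- The coordinates of an element. -/
noncomputable def co (t : Q) : List I →₀ Q' := (evE h).symm t

theorem ev_co (t : Q) : ev f w (co h t) = t := (evE h).apply_symm_apply t

theorem co_ev (x : List I →₀ Q') : co h (ev f w x) = x := (evE h).symm_apply_apply x

theorem co_add (s t : Q) : co h (s + t) = co h s + co h t := map_add (evE h).symm s t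

theorem co_sum {ι : Type} (s : Finset ι) (t : ι → Q) :
    co h (∑ i ∈ s, t i) = ∑ i ∈ s, co h (t i) := map_sum (evE h).symm t s

theorem co_mul (q : Q') (t : Q) : co h (f q * t) = q • co h t := by
  conv_lhs => rw [← ev_co h t, ← ev_smul, co_ev]

theorem co_f (q : Q') : co h (f q) = Finsupp.single [] q := by
  have h1 : ev f w (Finsupp.single [] q) = f q := by
    rw [ev_single]
    change f q * 1 = f q
    rw [mul_one]
  rw [← h1, co_ev]

include h in
theorem f_inj : Function.Injective f := by
  intro a b hab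
  have h1 := co_f h a
  rw [hab, co_f h b] at h1
  exact (Finsupp.single_injective _ h1).symm

theorem f_of_co {t : Q} (ht : ∀ u ∈ (co h t).support, u = []) : t = f (co h t []) := by
  conv_lhs => rw [← ev_co h t]
  have h1 : co h t = Finsupp.single [] (co h t []) := by
    ext u
    by_cases hu : u = []
    · rw [hu, Finsupp.single_eq_same]
    · rw [Finsupp.single_eq_of_ne hu]
      by_contra hne
      exact hu (ht u (Finsupp.mem_support_iff.2 hne))
  rw [h1, ev_single]
  change f _ * 1 = _
  rw [mul_one, Finsupp.single_eq_same]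

theorem co_mul_w (t : Q) (i : I) : co h (t * w i) = (co h t).mapDomain (List.cons i) := by
  have h1 : ev f w ((co h t).mapDomain (List.cons i)) = t * w i := by
    conv_rhs => rw [← ev_co h t]
    unfold ev
    rw [Finsupp.sum_mapDomain_index, Finsupp.sum, Finsupp.sum, Finset.sum_mul]
    · refine Finset.sum_congr rfl fun u _ => ?_
      change f _ * (wd w u * w i) = _
      rw [mul_assoc]
    · intro a
      rw [map_zero, zero_mul]
    · intro a b c
      rw [map_add, add_mul]
  rw [← h1, co_ev]

end Co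

section Inv

variable {Q' Q I : Type} [Ring Q'] [Ring Q] {f : Q' →+* Q} {w : I → Q} (h : FreeW f w)
variable {N : Type} [Fintype N] [DecidableEq N]

/-- The empty word part of a product with a matrix over `Q'`. -/
theorem co_matMul {A B C : Type} [Fintype B] (a : Matrix A B Q') (b : Matrix B C Q) :
    (Matrix.of fun i j => co h ((a.map f * b) i j) []) =
      a * Matrix.of fun i j => co h (b i j) [] := by
  ext i j
  rw [Matrix.of_apply, Matrix.mul_apply, Matrix.mul_apply, co_sum, Finsupp.finsetSum_apply]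
  refine Finset.sum_congr rfl fun k _ => ?_
  rw [Matrix.map_apply, co_mul, Finsupp.smul_apply, smul_eq_mul, Matrix.of_apply]

theorem co_one_mat {A : Type} [DecidableEq A] :
    (Matrix.of fun i j => co h ((1 : Matrix A A Q) i j) []) = 1 := by
  ext i j
  rw [Matrix.of_apply, Matrix.one_apply, Matrix.one_apply]
  split_ifs
  · have h1 := co_f h 1
    rw [map_one] at h1
    rw [h1, Finsupp.single_eq_same]
  · have h1 := co_f h 0
    rw [map_zero] at h1
    rw [h1, Finsupp.single_eq_same]

omit h in
theorem map_mul_one {A : Type} [Fintype A] [DecidableEq A] {a b : Matrix A A Q'} (hab : a * b = 1) :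
    a.map f * b.map f = 1 := by
  rw [← Matrix.map_mul, hab, Matrix.map_one _ (map_zero f) (map_one f)]

include h in
theorem inv_over {a0 : Matrix N N Q'} {b : Matrix N N Q} (hab : a0.map f * b = 1)
    (hba : b * a0.map f = 1) : ∃ b0 : Matrix N N Q', b = b0.map f ∧ IsUnit b0 := by
  let b0 : Matrix N N Q' := Matrix.of fun i j => co h (b i j) []
  have h1 : a0 * b0 = 1 := by
    rw [← co_matMul h a0 b, hab, co_one_mat h]
  have h2 : b = b0.map f := by
    have h3 := map_mul_one (f := f) h1
    calc b = b * (a0.map f * b0.map f) := by rw [h3, Matrix.mul_one]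
      _ = b0.map f := by rw [← Matrix.mul_assoc, hba, Matrix.one_mul]
  refine ⟨b0, h2, ⟨⟨b0, a0, ?_, h1⟩, rfl⟩⟩
  have h4 : (b0 * a0).map f = (1 : Matrix N N Q').map f := by
    rw [Matrix.map_mul, ← h2, hba, Matrix.map_one _ (map_zero f) (map_one f)]
  exact Matrix.map_injective (f_inj h) h4

end Inv

section Step

variable {LL Q' Q I : Type} [CommRing LL] [Ring Q'] [Ring Q] [Algebra LL Q'] [Algebra LL Q]
variable {f : Q' →ₐ[LL] Q} {w : I → Q}

/-- `M = f(Q') + ∑ LL w_j`. -/
def MM (f : Q' →ₐ[LL] Q) (w : I → Q) : AddSubgroup Q where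
  carrier := {t | ∃ (c : Q') (y : I →₀ LL), t = f c + Finsupp.linearCombination LL w y}
  add_mem' := by
    rintro _ _ ⟨c, y, rfl⟩ ⟨c', y', rfl⟩
    refine ⟨c + c', y + y', ?_⟩
    rw [map_add, map_add]
    abel
  zero_mem' := ⟨0, 0, by rw [map_zero, map_zero, add_zero]⟩
  neg_mem' := by
    rintro _ ⟨c, y, rfl⟩
    refine ⟨-c, -y, ?_⟩
    rw [map_neg, map_neg, neg_add]

theorem f_mem_MM (c : Q') : f c ∈ MM f w :=
  ⟨c, 0, by rw [map_zero, add_zero]⟩

/-- `w_i f(q) ∈ M`. -/
def Rt (f : Q' →ₐ[LL] Q) (w : I → Q) : Prop := ∀ i q, w i * f q ∈ MM f w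

theorem smul_mem_MM {t : Q} (ht : t ∈ MM f w) (r : LL) : r • t ∈ MM f w := by
  obtain ⟨c, y, rfl⟩ := ht
  exact ⟨r • c, r • y, by rw [smul_add, map_smul, map_smul]⟩

theorem MM_mul (hr : Rt f w) {t : Q} (ht : t ∈ MM f w) (q : Q') : t * f q ∈ MM f w := by
  obtain ⟨c, y, rfl⟩ := ht
  rw [add_mul, ← map_mul, Finsupp.linearCombination_apply, Finsupp.sum, Finset.sum_mul]
  refine add_mem (f_mem_MM _) (sum_mem fun i _ => ?_)
  rw [smul_mul_assoc]
  exact smul_mem_MM (hr i q) _

/-- The coordinates have length at most `k`. -/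
def Le (h : FreeW (f : Q' →+* Q) w) (k : ℕ) (t : Q) : Prop :=
  ∀ u, k < u.length → co h t u = 0

variable (h : FreeW (f : Q' →+* Q) w)

theorem le_add {k : ℕ} {s t : Q} (hs : Le h k s) (ht : Le h k t) : Le h k (s + t) := by
  intro u hu
  rw [co_add, Finsupp.add_apply, hs u hu, ht u hu, add_zero]

theorem le_zero {k : ℕ} : Le h k (0 : Q) := by
  intro u hu
  have h1 := co_f h 0
  rw [map_zero] at h1
  rw [h1, Finsupp.single_zero, Finsupp.zero_apply]

theorem le_sum {ι : Type} {k : ℕ} (s : Finset ι) (t : ι → Q) (ht : ∀ i ∈ s, Le h k (t i)) :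
    Le h k (∑ i ∈ s, t i) := by
  intro u hu
  rw [co_sum, Finsupp.finsetSum_apply]
  exact Finset.sum_eq_zero fun i hi => ht i hi u hu

theorem le_mul {k : ℕ} {t : Q} (ht : Le h k t) (q : Q') : Le h k (f q * t) := by
  intro u hu
  have h1 := co_mul h q t
  rw [show ((f : Q' →+* Q) q : Q) = f q from rfl] at h1
  rw [h1, Finsupp.smul_apply, ht u hu, smul_zero]

theorem le_smul {k : ℕ} {t : Q} (ht : Le h k t) (r : LL) : Le h k (r • t) := by
  have h1 : r • t = f (algebraMap LL Q' r) * t := by
    rw [AlgHom.commutes, ← Algebra.smul_def]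
  rw [h1]
  exact le_mul h ht _

theorem le_mul_w {k : ℕ} {t : Q} (ht : Le h k t) (i : I) : Le h (k + 1) (t * w i) := by
  intro u hu
  rw [co_mul_w]
  cases u with
  | nil => exact absurd hu (Nat.not_lt_zero _)
  | cons j u =>
    by_cases hj : i = j
    · subst hj
      rw [Finsupp.mapDomain_apply List.cons_injective]
      exact ht u (by simpa using hu)
    · refine Finsupp.mapDomain_of_notMem_range _ _ ?_
      rintro ⟨u', hu'⟩
      exact hj (List.cons.inj hu').1

theorem le_wd (u : List I) : Le h u.length (wd w u) := by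
  intro v hv
  have h1 : (wd w u : Q) = ev (f : Q' →+* Q) w (Finsupp.single u 1) := by
    rw [ev_single, map_one, one_mul]
  rw [h1, co_ev]
  rw [Finsupp.single_eq_of_ne]
  rintro rfl
  exact lt_irrefl _ hv

theorem le_wd_f (hr : Rt f w) (u : List I) : ∀ q : Q', Le h u.length (wd w u * f q) := by
  induction u with
  | nil =>
    intro q
    change Le h 0 (1 * f q)
    rw [one_mul]
    intro v hv
    have h1 := co_f h q
    rw [show ((f : Q' →+* Q) q : Q) = f q from rfl] at h1
    rw [h1, Finsupp.single_eq_of_ne]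
    rintro rfl
    exact lt_irrefl _ hv
  | cons a u ih =>
    intro q
    change Le h (u.length + 1) (wd w u * w a * f q)
    obtain ⟨c, y, hy⟩ := hr a q
    rw [mul_assoc, hy, mul_add, Finsupp.linearCombination_apply, Finsupp.sum, Finset.mul_sum]
    refine le_add h ?_ (le_sum h _ _ fun i _ => ?_)
    · intro v hv
      exact ih c v (by omega)
    · rw [mul_smul_comm]
      exact le_smul h (le_mul_w h (le_wd h u) i) _

theorem le_mul_f (hr : Rt f w) {k : ℕ} {t : Q} (ht : Le h k t) (q : Q') : Le h k (t * f q) := by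
  conv => 
    arg 3
    rw [← ev_co h t]
  unfold ev
  rw [Finsupp.sum, Finset.sum_mul]
  refine le_sum h _ _ fun u hu => ?_
  rw [mul_assoc]
  refine le_mul h ?_ _
  intro v hv
  refine le_wd_f h hr u q v (lt_of_le_of_lt ?_ hv)
  by_contra hlt
  exact (Finsupp.mem_support_iff.1 hu) (ht u (not_le.1 hlt))

/-- The top coefficient of a product. -/
theorem top_coeff (hr : Rt f w) {k : ℕ} {t : Q} (ht : Le h k t) (c : Q') (y : I →₀ LL) (i : I)
    (u : List I) (hu : u.length = k) :
    co h (t * (f c + Finsupp.linearCombination LL w y)) (i :: u) =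
      co h t u * algebraMap LL Q' (y i) := by
  classical
  rw [mul_add, co_add, Finsupp.add_apply, le_mul_f h hr ht c (i :: u) (by simp [hu]), zero_add,
    Finsupp.linearCombination_apply, Finsupp.sum, Finset.mul_sum, co_sum, Finsupp.finsetSum_apply]
  have h1 : ∀ j ∈ y.support, co h (t * (y j • w j)) (i :: u) =
      if j = i then co h t u * algebraMap LL Q' (y i) else 0 := by
    intro j _
    have h2 : t * (y j • w j) = f (algebraMap LL Q' (y j)) * (t * w j) := by
      rw [AlgHom.commutes, ← Algebra.smul_def, mul_smul_comm]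
    have h3 := co_mul h (algebraMap LL Q' (y j)) (t * w j)
    rw [show ((f : Q' →+* Q) (algebraMap LL Q' (y j)) : Q) = f (algebraMap LL Q' (y j)) from rfl]
      at h3
    rw [h2, h3, Finsupp.smul_apply, co_mul_w]
    split_ifs with hj
    · subst hj
      rw [Finsupp.mapDomain_apply List.cons_injective, smul_eq_mul, Algebra.commutes]
    · rw [Finsupp.mapDomain_of_notMem_range, smul_zero]
      rintro ⟨u', hu'⟩
      exact hj (List.cons.inj hu').1
  rw [Finset.sum_congr rfl h1, Finset.sum_ite_eq' y.support i]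
  split_ifs with hi
  · rfl
  · rw [Finsupp.notMem_support_iff.1 hi, map_zero, mul_zero]

end Step

section Main

variable {LL Q' Q I : Type} [CommRing LL] [Ring Q'] [Ring Q] [Algebra LL Q'] [Algebra LL Q]
variable {f : Q' →ₐ[LL] Q} {w : I → Q} (h : FreeW (f : Q' →+* Q) w)
variable {N : Type} [Fintype N] [DecidableEq N]

include h in
theorem normalise (hr : Rt f w) (S : Finset N) (u : Matrix N N Q) (hu : IsUnit u)
    (hS : ∀ r, r ∉ S → ∀ r', ∃ c, u r r' = f c) (hM : ∀ r r', u r r' ∈ MM f w) :
    ∃ (u' v' : Matrix N N Q), u' * v' = 1 ∧ v' * u' = 1 ∧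
      (∀ (K : Type) [CommGroup K] (κ : K1Fun Q K), κ.f u' = κ.f u) ∧
      (∀ r, r ∉ S → ∀ r', ∃ c, u' r r' = f c) ∧ (∀ r r', u' r r' ∈ MM f w) ∧
      (∀ s, s ∉ S → ∀ r, ∃ c, v' r s = f c) := by
  obtain ⟨v, huv, hvu⟩ : ∃ v : Matrix N N Q, u * v = 1 ∧ v * u = 1 := by
    obtain ⟨⟨u, v, huv, hvu⟩, rfl⟩ := hu
    exact ⟨v, huv, hvu⟩
  choose! c hc using hS
  let C : Matrix {r : N // r ∉ S} N Q' := Matrix.of fun r r' => c r.1 r'
  let v1 : Matrix N {r : N // r ∉ S} Q := v.submatrix id Subtype.val
  let d : Matrix N {r : N // r ∉ S} Q' := Matrix.of fun i j => co h (v1 i j) []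
  have hC : C.map (f : Q' →+* Q) = u.submatrix Subtype.val id := by
    ext r r'
    exact (hc r.1 r.2 r').symm
  have hone : ∀ i j : N, (u * v) i j = (1 : Matrix N N Q) i j := fun i j => by rw [huv]
  have h1 : C.map (f : Q' →+* Q) * v1 = 1 := by
    rw [hC]
    ext i j
    change (u * v) i.1 j.1 = _
    rw [hone, Matrix.one_apply, Matrix.one_apply]
    simp only [Subtype.ext_iff]
  have h2 : C * d = 1 := by
    rw [← co_matMul h C v1, h1, co_one_mat h]
  let X : Matrix N {r : N // r ∉ S} Q := v1 - d.map (f : Q' →+* Q)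
  let Y : Matrix {r : N // r ∉ S} N Q := C.map (f : Q' →+* Q)
  have hYX : Y * X = 0 := by
    change C.map (f : Q' →+* Q) * (v1 - d.map (f : Q' →+* Q)) = 0
    rw [Matrix.mul_sub, h1, ← Matrix.map_mul, h2, Matrix.map_one _ (map_zero _) (map_one _),
      sub_self]
  have hXYX : X * Y * (X * Y) = 0 := by
    rw [Matrix.mul_assoc, ← Matrix.mul_assoc Y X Y, hYX, Matrix.zero_mul, Matrix.mul_zero]
  have h3 : (1 + X * Y) * (1 - X * Y) = 1 := by
    rw [add_mul, mul_sub, mul_sub, hXYX]
    simp
  have h4 : (1 - X * Y) * (1 + X * Y) = 1 := by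
    rw [sub_mul, mul_add, mul_add, hXYX]
    simp
  have hu1 : IsUnit (1 + X * Y) := ⟨⟨_, _, h3, h4⟩, rfl⟩
  -- entries of `u X`
  have e1 : ∀ r (s : {r : N // r ∉ S}), (u * v1) r s = (1 : Matrix N N Q) r s.1 :=
    fun r s => hone r s.1
  have e2 : ∀ r (hr : r ∉ S) (s : {r : N // r ∉ S}),
      (u * d.map (f : Q' →+* Q)) r s = (1 : Matrix N N Q) r s.1 := by
    intro r hr s
    have h5 : (u * d.map (f : Q' →+* Q)) r s = f ((C * d) ⟨r, hr⟩ s) := by
      rw [Matrix.mul_apply, Matrix.mul_apply, map_sum]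
      refine Finset.sum_congr rfl fun t _ => ?_
      rw [map_mul, hc r hr t]
      rfl
    rw [h5, h2, Matrix.one_apply, Matrix.one_apply]
    by_cases hrs : r = s.1
    · rw [if_pos (Subtype.ext hrs), if_pos hrs, map_one]
    · rw [if_neg (fun hh => hrs (congrArg Subtype.val hh)), if_neg hrs, map_zero]
  have e3 : ∀ r (_ : r ∉ S) (s : {r : N // r ∉ S}), (u * X) r s = 0 := by
    intro r hr s
    change (u * (v1 - d.map (f : Q' →+* Q))) r s = 0
    rw [Matrix.mul_sub, Matrix.sub_apply, e1, e2 r hr s, sub_self]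
  have eu : ∀ r r', (u * ((1 : Matrix N N Q) + X * Y) : Matrix N N Q) r r' =
      u r r' + ∑ s, (u * X) r s * Y s r' := by
    intro r r'
    rw [mul_add, mul_one, Matrix.add_apply, ← Matrix.mul_assoc, Matrix.mul_apply]
  have e4 : ∀ r (s : {r : N // r ∉ S}), (u * X) r s ∈ MM f w := by
    intro r s
    change (u * (v1 - d.map (f : Q' →+* Q))) r s ∈ MM f w
    rw [Matrix.mul_sub, Matrix.sub_apply, e1, Matrix.mul_apply]
    refine sub_mem ?_ (sum_mem fun t _ => MM_mul hr (hM r t) _)
    rw [Matrix.one_apply]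
    split_ifs
    · have := f_mem_MM (f := f) (w := w) 1
      rwa [map_one] at this
    · exact zero_mem _
  -- entries of `Y v`
  have e5 : ∀ (t : {r : N // r ∉ S}) s', (Y * v) t s' = (1 : Matrix N N Q) t.1 s' := by
    intro t s'
    rw [← hone]
    change (C.map (f : Q' →+* Q) * v) t s' = _
    rw [hC]
    rfl
  refine ⟨u * (1 + X * Y), (1 - X * Y) * v, ?_, ?_, ?_, ?_, ?_, ?_⟩
  · rw [Matrix.mul_assoc, ← Matrix.mul_assoc (1 + X * Y), h3, Matrix.one_mul, huv]
  · rw [Matrix.mul_assoc, ← Matrix.mul_assoc v, hvu, Matrix.one_mul, h4]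
  · intro K _ κ
    have h5 := (sameK_swap Y (-X) (by
      rw [Matrix.mul_neg, hYX, neg_zero, sub_zero]
      exact isUnit_one)).2 K κ
    rw [Matrix.mul_neg, hYX, neg_zero, sub_zero, κ.f_one, Matrix.neg_mul, sub_neg_eq_add] at h5
    rw [κ.mul _ _ hu hu1, h5, mul_one]
  · intro r hr r'
    rw [eu, Finset.sum_eq_zero, add_zero]
    · exact ⟨_, hc r hr r'⟩
    · intro s _
      rw [e3 r hr s, zero_mul]
  · intro r r'
    rw [eu]
    exact add_mem (hM r r') (sum_mem fun s _ => MM_mul hr (e4 r s) _)
  · intro s hs r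
    refine ⟨d r ⟨s, hs⟩, ?_⟩
    rw [sub_mul, one_mul, Matrix.sub_apply, Matrix.mul_assoc, Matrix.mul_apply,
      Finset.sum_eq_single ⟨s, hs⟩]
    · rw [e5, Matrix.one_apply_eq, mul_one]
      change v r s - (v r s - f (d r ⟨s, hs⟩)) = _
      rw [sub_sub_cancel]
    · intro t _ ht
      rw [e5, Matrix.one_apply_ne, mul_zero]
      intro hh
      exact ht (Subtype.ext hh)
    · intro hh
      exact absurd (Finset.mem_univ _) hh

/-- An invertible matrix which acts on the rows in `S`. -/
theorem exists_block {R : Type} [CommRing R] (S : Finset N)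
    (g : Matrix {r // r ∈ S} {r // r ∈ S} R) (hg : IsUnit g) :
    ∃ G : Matrix N N R, IsUnit G ∧ ∀ (M : Matrix N N Q) (φ : R →+* Q),
      (∀ r, r ∉ S → ∀ r', (G.map φ * M) r r' = M r r') ∧
      ∀ (r : {r // r ∈ S}) r', (G.map φ * M) r.1 r' = ∑ s : {r // r ∈ S}, φ (g r s) * M s.1 r' := by
  classical
  let e : {r // r ∈ S} ⊕ {r // ¬ r ∈ S} ≃ N := Equiv.sumCompl (fun r => r ∈ S)
  let G0 : Matrix ({r // r ∈ S} ⊕ {r // ¬ r ∈ S}) ({r // r ∈ S} ⊕ {r // ¬ r ∈ S}) R :=
    Matrix.fromBlocks g 0 0 1
  have hG0 : IsUnit G0 := K1Fun.isUnit_tri 0 hg isUnit_one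
  have key : ∀ (M : Matrix N N Q) (φ : R →+* Q) (p : {r // r ∈ S} ⊕ {r // ¬ r ∈ S}) (r' : N),
      ((G0.submatrix e.symm e.symm).map φ * M) (e p) r' = ∑ q, φ (G0 p q) * M (e q) r' := by
    intro M φ p r'
    rw [Matrix.mul_apply, ← Equiv.sum_comp e]
    refine Finset.sum_congr rfl fun q _ => ?_
    rw [Matrix.map_apply, Matrix.submatrix_apply, e.symm_apply_apply, e.symm_apply_apply]
  refine ⟨G0.submatrix e.symm e.symm, K1Fun.isUnit_submatrix e hG0, fun M φ => ⟨?_, ?_⟩⟩
  · intro r hr r'
    have h1 := key M φ (Sum.inr ⟨r, hr⟩) r'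
    change ((G0.submatrix e.symm e.symm).map φ * M) r r' = _ at h1
    rw [h1, Fintype.sum_sum_type]
    have h2 : ∀ s : {r // r ∈ S}, G0 (Sum.inr ⟨r, hr⟩) (Sum.inl s) = 0 := fun s => rfl
    have h3 : ∀ s : {r // ¬ r ∈ S}, G0 (Sum.inr ⟨r, hr⟩) (Sum.inr s) =
        (1 : Matrix {r // ¬ r ∈ S} {r // ¬ r ∈ S} R) ⟨r, hr⟩ s := fun s => rfl
    simp only [h2, h3, map_zero, zero_mul, Finset.sum_const_zero, zero_add]
    rw [Finset.sum_eq_single ⟨r, hr⟩]
    · rw [Matrix.one_apply_eq, map_one, one_mul]
      rfl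
    · intro s _ hs
      rw [Matrix.one_apply_ne (Ne.symm hs), map_zero, zero_mul]
    · intro hh
      exact absurd (Finset.mem_univ _) hh
  · intro r r'
    have h1 := key M φ (Sum.inl r) r'
    change ((G0.submatrix e.symm e.symm).map φ * M) r.1 r' = _ at h1
    rw [h1, Fintype.sum_sum_type]
    have h2 : ∀ s : {r // ¬ r ∈ S}, G0 (Sum.inl r) (Sum.inr s) = 0 := fun s => rfl
    simp only [h2, map_zero, zero_mul, Finset.sum_const_zero, add_zero]
    rfl

include h in
theorem main [IsDomain LL] [Module.Free LL Q'] (hE : S_euc) (hL : IsEuc LL) (hr : Rt f w)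
    {K : Type} [CommGroup K] (κ : K1Fun Q K)
    (hκ : ∀ (n : Type) [Fintype n] [DecidableEq n] (A : Matrix n n Q'), IsUnit A →
      κ.f (A.map (f : Q' →+* Q)) = 1) : ∀ (k : ℕ) (N : Type) [Fintype N] [DecidableEq N]
    (S : Finset N) (u : Matrix N N Q), S.card ≤ k → IsUnit u →
    (∀ r, r ∉ S → ∀ r', ∃ c, u r r' = f c) → (∀ r r', u r r' ∈ MM f w) → κ.f u = 1 := by
  classical
  intro k
  induction k with
  | zero =>
    intro N _ _ S u hS hu hrow hM
    have hS0 : S = ∅ := Finset.card_eq_zero.1 (Nat.le_zero.1 hS)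
    subst hS0
    obtain ⟨⟨u, v, huv, hvu⟩, rfl⟩ := hu
    choose c hc using fun r => hrow r (Finset.notMem_empty r)
    have h1 : u = (Matrix.of c : Matrix N N Q').map (f : Q' →+* Q) := by
      ext r r'
      exact hc r r'
    obtain ⟨b0, hb0, -⟩ := inv_over h (a0 := Matrix.of c) (b := v) (by rw [← h1, huv])
      (by rw [← h1, hvu])
    obtain ⟨a0, ha0, hu0⟩ := inv_over h (a0 := b0) (b := u) (by rw [← hb0, hvu])
      (by rw [← hb0, huv])
    change κ.f u = 1
    rw [ha0]
    exact hκ N a0 hu0
  | succ k ih =>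
    intro N _ _ S u hS hu hrow hM
    obtain ⟨u', v', huv, hvu, hκ', hrow', hM', hcol⟩ := normalise h hr S u hu hrow hM
    rw [← hκ' K κ]
    let F : Finset (List I) := Finset.univ.biUnion fun r => S.biUnion fun s =>
      (co h (v' r s)).support
    have hF : ∀ u0, u0 ∈ F ↔ ∃ r, ∃ s ∈ S, co h (v' r s) u0 ≠ 0 := by
      intro u0
      simp only [F, Finset.mem_biUnion, Finset.mem_univ, true_and, Finsupp.mem_support_iff]
    by_cases hall : ∀ u0 ∈ F, u0 = []
    · -- everything is over `Q'`
      let b0 : Matrix N N Q' := Matrix.of fun r s => co h (v' r s) []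
      have hb0 : v' = b0.map (f : Q' →+* Q) := by
        ext r s
        by_cases hs : s ∈ S
        · exact f_of_co h fun u0 hu0 => hall u0 ((hF u0).2 ⟨r, s, hs, Finsupp.mem_support_iff.1 hu0⟩)
        · obtain ⟨c, hc⟩ := hcol s hs r
          refine f_of_co h fun u0 hu0 => ?_
          have h1 := co_f h c
          rw [show ((f : Q' →+* Q) c : Q) = f c from rfl, ← hc] at h1
          rw [h1] at hu0
          by_contra hne
          exact (Finsupp.mem_support_iff.1 hu0) (Finsupp.single_eq_of_ne hne)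
      obtain ⟨a0, ha0, hu0⟩ := inv_over h (a0 := b0) (b := u') (by rw [← hb0, hvu])
        (by rw [← hb0, huv])
      rw [ha0]
      exact hκ N a0 hu0
    · push Not at hall
      obtain ⟨u00, hu00, hne⟩ := hall
      obtain ⟨u1, hu1, hmax⟩ := Finset.exists_max_image F List.length ⟨u00, hu00⟩
      obtain ⟨r1, s1, hs1, hco⟩ := (hF u1).1 hu1
      have hk1 : 1 ≤ u1.length := by
        have h2 := hmax u00 hu00
        have h3 : 0 < u00.length := List.length_pos_iff.2 hne
        omega
      have hLe : ∀ r, ∀ s ∈ S, Le h u1.length (v' r s) := by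
        intro r s hs u2 hu2
        by_contra hh
        have := hmax u2 ((hF u2).2 ⟨r, s, hs, hh⟩)
        omega
      choose c y hy using fun r r' => hM' r r'
      have hcomb : ∀ r' i, ∑ s : {r // r ∈ S}, co h (v' r1 s.1) u1 *
          algebraMap LL Q' (y s.1 r' i) = 0 := by
        intro r' i
        have h1 : co h ((v' * u') r1 r') (i :: u1) = 0 := by
          rw [hvu]
          have h2 : (1 : Matrix N N Q) r1 r' = f ((1 : Matrix N N Q') r1 r') := by
            rw [Matrix.one_apply, Matrix.one_apply]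
            split_ifs
            · rw [map_one]
            · rw [map_zero]
          have h3 := co_f h ((1 : Matrix N N Q') r1 r')
          rw [h2]
          rw [show ((f : Q' →+* Q) ((1 : Matrix N N Q') r1 r') : Q) =
            f ((1 : Matrix N N Q') r1 r') from rfl] at h3
          rw [h3]
          exact Finsupp.single_eq_of_ne (List.cons_ne_nil _ _)
        rw [Matrix.mul_apply, co_sum, Finsupp.finsetSum_apply] at h1
        rw [← h1, ← Finset.sum_subset (Finset.subset_univ S)]
        · rw [← Finset.sum_coe_sort S]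
          refine Finset.sum_congr rfl fun s _ => ?_
          rw [hy s.1 r']
          exact (top_coeff h hr (hLe r1 s.1 s.2) _ _ i u1 rfl).symm
        · intro s _ hs
          obtain ⟨a, ha⟩ := hcol s hs r1
          obtain ⟨b, hb⟩ := hrow' s hs r'
          rw [ha, hb, ← map_mul]
          have h3 := co_f h (a * b)
          rw [show ((f : Q' →+* Q) (a * b) : Q) = f (a * b) from rfl] at h3
          rw [h3]
          exact Finsupp.single_eq_of_ne (List.cons_ne_nil _ _)
      let J : Finset I := Finset.univ.biUnion fun s => Finset.univ.biUnion fun r' =>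
        (y s r').support
      let l : Matrix {r // r ∈ S} (N × {i // i ∈ J}) LL := fun s p => y s.1 p.1 p.2.1
      obtain ⟨g, i₀, hg, hgl⟩ := hE LL hL Q' {r // r ∈ S} (N × {i // i ∈ J})
        (fun s => co h (v' r1 s.1) u1) l (by
          intro hh
          exact hco (congrFun hh ⟨s1, hs1⟩)) (fun p => hcomb p.1 p.2.1)
      obtain ⟨G, hG, hGM⟩ := exists_block (Q := Q) S g hg
      obtain ⟨hG1, hG2⟩ := hGM u' ((f : Q' →+* Q).comp (algebraMap LL Q'))
      have hGQ : IsUnit (G.map (algebraMap LL Q')) := hG.map (algebraMap LL Q').mapMatrix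
      have hGf : (G.map ((f : Q' →+* Q).comp (algebraMap LL Q'))) =
          (G.map (algebraMap LL Q')).map (f : Q' →+* Q) := by
        ext r r'
        rfl
      have hGu : IsUnit (G.map ((f : Q' →+* Q).comp (algebraMap LL Q'))) := by
        rw [hGf]
        exact hGQ.map (f : Q' →+* Q).mapMatrix
      have hu' : IsUnit u' := ⟨⟨u', v', huv, hvu⟩, rfl⟩
      have hsm : ∀ (a : LL) (t : Q), ((f : Q' →+* Q).comp (algebraMap LL Q')) a * t = a • t := by
        intro a t
        rw [Algebra.smul_def]
        congr 1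
        exact f.commutes a
      have hfin : κ.f (G.map ((f : Q' →+* Q).comp (algebraMap LL Q')) * u') = 1 := by
        refine ih N (S.erase i₀.1) _ ?_ (hGu.mul hu') ?_ ?_
        · rw [Finset.card_erase_of_mem i₀.2]
          omega
        · intro r hr r'
          by_cases hrS : r ∈ S
          · have hri : r = i₀.1 := by
              by_contra hne'
              exact hr (Finset.mem_erase.2 ⟨hne', hrS⟩)
            subst hri
            rw [hG2 i₀ r']
            refine ⟨∑ s : {r // r ∈ S}, g i₀ s • c s.1 r', ?_⟩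
            have h5 : ∑ s : {r // r ∈ S}, g i₀ s • y s.1 r' = 0 := by
              ext i
              rw [Finsupp.finsetSum_apply, Finsupp.zero_apply]
              by_cases hi : i ∈ J
              · have h6 := hgl (r', ⟨i, hi⟩)
                rw [Matrix.mul_apply] at h6
                rw [← h6]
                exact Finset.sum_congr rfl fun s _ => rfl
              · refine Finset.sum_eq_zero fun s _ => ?_
                rw [Finsupp.smul_apply]
                have h6 : y s.1 r' i = 0 := by
                  by_contra hh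
                  exact hi (Finset.mem_biUnion.2 ⟨s.1, Finset.mem_univ _,
                    Finset.mem_biUnion.2 ⟨r', Finset.mem_univ _, Finsupp.mem_support_iff.2 hh⟩⟩)
                rw [h6, smul_zero]
            have h7 : ∑ s : {r // r ∈ S}, g i₀ s • Finsupp.linearCombination LL w (y s.1 r') = 0 := by
              have h8 := congrArg (Finsupp.linearCombination LL w) h5
              rw [map_sum, map_zero] at h8
              rw [← h8]
              exact Finset.sum_congr rfl fun s _ => (map_smul _ _ _).symm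
            rw [map_sum]
            rw [← add_zero (∑ s : {r // r ∈ S}, f (g i₀ s • c s.1 r')), ← h7,
              ← Finset.sum_add_distrib]
            refine Finset.sum_congr rfl fun s _ => ?_
            rw [hsm, hy s.1 r', smul_add, map_smul]
          · rw [hG1 r hrS r']
            exact hrow' r hrS r'
        · intro r r'
          by_cases hrS : r ∈ S
          · rw [hG2 ⟨r, hrS⟩ r']
            refine sum_mem fun s _ => ?_
            rw [hsm]
            exact smul_mem_MM (hM' _ _) _
          · rw [hG1 r hrS r']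
            exact hM' r r'
      rw [κ.mul _ _ hGu hu', hGf, hκ N _ hGQ, one_mul] at hfin
      exact hfin

end Main

end BaseAux

open BaseAux

theorem base (hE : S_euc) : S_base := by
  intro LL _ _ hL E _ _ Q' Q I _ _ _ _ _ f ρ w hlt K _ κ hκ n _ _ A hA
  have h : FreeW (f : Q' →+* Q) w := hlt.free
  have hr : Rt f w := by
    intro i q
    obtain ⟨c, x, hx⟩ := hlt.right i q
    rw [hx]
    refine add_mem (f_mem_MM c) ?_
    rw [Finsupp.sum]
    refine sum_mem fun j _ => ?_
    obtain ⟨a, h1⟩ : ∃ a : LL, gr LL ρ (x j) = algebraMap LL Q' a := by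
      induction x j using MonoidAlgebra.induction_linear with
      | zero => exact ⟨0, by rw [map_zero, map_zero]⟩
      | add a b ha hb =>
        obtain ⟨a', ha⟩ := ha
        obtain ⟨b', hb⟩ := hb
        exact ⟨a' + b', by rw [map_add, ha, hb, map_add]⟩
      | single g r =>
        refine ⟨r, ?_⟩
        rw [Subsingleton.elim g 1]
        change MonoidAlgebra.lift LL Q' E ρ (MonoidAlgebra.single 1 r) = _
        rw [MonoidAlgebra.lift_single, map_one, Algebra.smul_def, mul_one]
    rw [h1, AlgHom.commutes, ← Algebra.smul_def]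
    exact smul_mem_MM ⟨0, Finsupp.single j 1, by
      rw [map_zero, zero_add, Finsupp.linearCombination_single, one_smul]⟩ _
  let e := Fintype.equivFin n
  have hA' : IsUnit (A.submatrix e.symm e.symm) := K1Fun.isUnit_submatrix e hA
  rw [← κ.reindex e A hA]
  obtain ⟨N, M', hM', hL', hκ'⟩ := higman (MM f w) (by
    have := f_mem_MM (f := f) (w := w) 1
    rwa [map_one] at this) (by
    rw [eq_top_iff]
    intro t _
    rw [← ev_co h t]
    unfold ev
    have hw : ∀ u : List I, wd w u ∈ Subring.closure ((MM f w : AddSubgroup Q) : Set Q) := by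
      intro u
      induction u with
      | nil => exact one_mem _
      | cons a u ih =>
        exact mul_mem ih (Subring.subset_closure ⟨0, Finsupp.single a 1, by
          rw [map_zero, zero_add, Finsupp.linearCombination_single, one_smul]⟩)
    exact sum_mem fun u _ => mul_mem (Subring.subset_closure (f_mem_MM _)) (hw u))
    (A.submatrix e.symm e.symm) hA'
  rw [← hκ' K κ]
  exact main h hE hL hr κ hκ N (Fin N) Finset.univ M' (by simp) hM'
    (fun r hr => absurd (Finset.mem_univ r) hr) hL'

end Pool.Agent.Hier
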