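import Pool.Agent.Lib.MP_8f66f0_al_Hier.SpecC

/-! Block C, C6: base change of a basis of words. -/

set_option autoImplicit false

namespace Pool.Agent.Hier

open Pool.Agent.Wald Pool.Agent.Ind
open scoped TensorProduct

section

variable {LL LL' Q' T Λ : Type} [CommRing LL] [CommRing LL'] [Algebra LL LL'] [Ring Q']
  [Algebra LL Q'] [Ring T] [Algebra LL T]

/-- The evaluation as a linear map. -/
private noncomputable def bcE (f : Q' →ₐ[LL] T) (ℓ : Λ → T) : (List Λ →₀ Q') →ₗ[LL] T :=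
  Finsupp.lsum LL fun u => (LinearMap.mulRight LL (wd ℓ u)).comp f.toLinearMap

private theorem bcE_apply (f : Q' →ₐ[LL] T) (ℓ : Λ → T) (x : List Λ →₀ Q') :
    bcE f ℓ x = ev (f : Q' →+* T) ℓ x := by
  unfold bcE ev
  rw [Finsupp.lsum_apply]
  rfl

private theorem bc_wd (ℓ : Λ → T) (u : List Λ) :
    wd (fun a => (1 : LL') ⊗ₜ[LL] ℓ a) u = (1 : LL') ⊗ₜ[LL] wd ℓ u := by
  induction u with
  | nil => rfl
  | cons a u ih =>
    change wd (fun a => (1 : LL') ⊗ₜ[LL] ℓ a) u * ((1 : LL') ⊗ₜ[LL] ℓ a) =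
      (1 : LL') ⊗ₜ[LL] (wd ℓ u * ℓ a)
    rw [ih, Algebra.TensorProduct.tmul_mul_tmul, one_mul]

end

/-- C6. Base change of a basis of words. -/
theorem bc : S_bc := by
  classical
  intro LL LL' Q' T Λ _ _ _ _ _ _ _ f ℓ hf
  have hb : Function.Bijective (bcE f ℓ) := by
    have h1 : (bcE f ℓ : (List Λ →₀ Q') → T) = ev (f : Q' →+* T) ℓ :=
      funext fun x => bcE_apply f ℓ x
    rw [h1]
    exact hf
  let e : (List Λ →₀ Q') ≃ₗ[LL] T := LinearEquiv.ofBijective (bcE f ℓ) hb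
  let e₁ : (List Λ →₀ LL' ⊗[LL] Q') ≃ₗ[LL'] LL' ⊗[LL] (List Λ →₀ Q') :=
    (TensorProduct.finsuppRight LL LL' LL' Q' (List Λ)).symm
  let e₂ : LL' ⊗[LL] (List Λ →₀ Q') ≃ₗ[LL'] LL' ⊗[LL] T := e.baseChange LL LL' _ _
  set f' : LL' ⊗[LL] Q' →ₐ[LL'] LL' ⊗[LL] T := Algebra.TensorProduct.map (AlgHom.id LL' LL') f
    with hf'
  have key : bcE f' (fun a => (1 : LL') ⊗ₜ[LL] ℓ a) = (e₁.trans e₂).toLinearMap := by
    refine Finsupp.lhom_ext' fun u => ?_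
    refine TensorProduct.AlgebraTensorModule.ext fun t q => ?_
    change bcE f' (fun a => (1 : LL') ⊗ₜ[LL] ℓ a) (Finsupp.single u (t ⊗ₜ[LL] q)) =
      e₂ (e₁ (Finsupp.single u (t ⊗ₜ[LL] q)))
    have h1 : e₁ (Finsupp.single u (t ⊗ₜ[LL] q)) = t ⊗ₜ[LL] Finsupp.single u q :=
      TensorProduct.finsuppRight_symm_apply_single u t q
    have h2 : e₂ (t ⊗ₜ[LL] Finsupp.single u q) = t ⊗ₜ[LL] (f q * wd ℓ u) := by
      change t ⊗ₜ[LL] (bcE f ℓ (Finsupp.single u q)) = t ⊗ₜ[LL] (f q * wd ℓ u)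
      unfold bcE
      rw [Finsupp.lsum_single]
      rfl
    have h3 : bcE f' (fun a => (1 : LL') ⊗ₜ[LL] ℓ a) (Finsupp.single u (t ⊗ₜ[LL] q)) =
        f' (t ⊗ₜ[LL] q) * wd (fun a => (1 : LL') ⊗ₜ[LL] ℓ a) u := by
      unfold bcE
      rw [Finsupp.lsum_single]
      rfl
    rw [h1, h2, h3, bc_wd, hf', Algebra.TensorProduct.map_tmul,
      Algebra.TensorProduct.tmul_mul_tmul, mul_one]
    rfl
  have h4 : (ev (f' : LL' ⊗[LL] Q' →+* LL' ⊗[LL] T) fun a => (1 : LL') ⊗ₜ[LL] ℓ a) =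
      (e₁.trans e₂ : (List Λ →₀ LL' ⊗[LL] Q') → LL' ⊗[LL] T) := by
    funext x
    rw [← bcE_apply, key]
    rfl
  change Function.Bijective (ev (f' : LL' ⊗[LL] Q' →+* LL' ⊗[LL] T)
    fun a => (1 : LL') ⊗ₜ[LL] ℓ a)
  rw [h4]
  exact (e₁.trans e₂).bijective

end Pool.Agent.Hier
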