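import Pool.Agent.Lib.MP_8f66f0_al_Hier.SpecC

/-! Change of letters. -/

set_option autoImplicit false

namespace Pool.Agent.Hier

open Pool.Agent.Wald Pool.Agent.Ind

section ChangeAux

variable {Q' T Λ Λ' : Type} [Ring Q'] [Ring T]

/-- `ev` as an additive map. -/
private noncomputable def chg_ev (f : Q' →+* T) (ℓ : Λ → T) : (List Λ →₀ Q') →+ T :=
  Finsupp.liftAddHom fun u => (AddMonoidHom.mulRight (wd ℓ u)).comp (f : Q' →+ T)

private theorem chg_ev_apply (f : Q' →+* T) (ℓ : Λ → T) (x : List Λ →₀ Q') :
    chg_ev f ℓ x = ev f ℓ x := by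
  rw [chg_ev, Finsupp.liftAddHom_apply, ev]
  rfl

private theorem chg_ev_single (f : Q' →+* T) (ℓ : Λ → T) (u : List Λ) (q : Q') :
    chg_ev f ℓ (Finsupp.single u q) = f q * wd ℓ u := by
  rw [chg_ev, Finsupp.liftAddHom_apply_single]
  rfl

/-- `lin` as an additive map. -/
private noncomputable def chg_lin (f : Q' →+* T) (ℓ : Λ → T) : (Λ →₀ Q') →+ T :=
  Finsupp.liftAddHom fun a => (AddMonoidHom.mulRight (ℓ a)).comp (f : Q' →+ T)

private theorem chg_lin_apply (f : Q' →+* T) (ℓ : Λ → T) (x : Λ →₀ Q') :
    chg_lin f ℓ x = lin f ℓ x := by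
  rw [chg_lin, Finsupp.liftAddHom_apply, lin]
  rfl

private theorem chg_lin_single (f : Q' →+* T) (ℓ : Λ → T) (a : Λ) (q : Q') :
    chg_lin f ℓ (Finsupp.single a q) = f q * ℓ a := by
  rw [chg_lin, Finsupp.liftAddHom_apply_single]
  rfl

private theorem chg_lin_smul (f : Q' →+* T) (ℓ : Λ → T) (r : Q') (x : Λ →₀ Q') :
    chg_lin f ℓ (r • x) = f r * chg_lin f ℓ x := by
  induction x using Finsupp.induction_linear with
  | zero => rw [smul_zero, map_zero, mul_zero]
  | add x y hx hy => rw [smul_add, map_add, hx, hy, map_add, mul_add]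
  | single a q =>
    rw [Finsupp.smul_single, smul_eq_mul, chg_lin_single, chg_lin_single, map_mul, mul_assoc]

/-- Substitution in linear combinations. -/
private theorem chg_lin_subst (f : Q' →+* T) (ℓ : Λ → T) (ℓ' : Λ' → T) (b : Λ' → Λ →₀ Q')
    (hb : ∀ a, ℓ' a = chg_lin f ℓ (b a)) (y : Λ' →₀ Q') :
    chg_lin f ℓ' y = chg_lin f ℓ (y.sum fun a r => r • b a) := by
  induction y using Finsupp.induction_linear with
  | zero => rw [map_zero, Finsupp.sum_zero_index, map_zero]
  | add x y hx hy =>
    rw [map_add, hx, hy, Finsupp.sum_add_index', map_add]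
    · intro a
      rw [zero_smul]
    · intro a r r'
      rw [add_smul]
  | single a q =>
    rw [chg_lin_single, Finsupp.sum_single_index (by rw [zero_smul]), chg_lin_smul, hb]

/-- `∑ t_x ℓ_x`. -/
private noncomputable def chg_S (ℓ : Λ → T) : (Λ →₀ T) →+ T :=
  Finsupp.liftAddHom fun a => AddMonoidHom.mulRight (ℓ a)

private theorem chg_S_single (ℓ : Λ → T) (a : Λ) (s : T) :
    chg_S ℓ (Finsupp.single a s) = s * ℓ a := by
  rw [chg_S, Finsupp.liftAddHom_apply_single]
  rfl

/-- `s f(y)`. -/
private noncomputable def chg_mr (f : Q' →+* T) (s : T) : (Λ →₀ Q') →+ (Λ →₀ T) :=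
  Finsupp.mapRange.addMonoidHom ((AddMonoidHom.mulLeft s).comp (f : Q' →+ T))

private theorem chg_mr_single (f : Q' →+* T) (s : T) (a : Λ) (q : Q') :
    chg_mr f s (Finsupp.single a q) = Finsupp.single a (s * f q) := by
  rw [chg_mr, Finsupp.mapRange.addMonoidHom_apply, Finsupp.mapRange_single]
  rfl

private theorem chg_mr_add (f : Q' →+* T) (s s' : T) (y : Λ →₀ Q') :
    chg_mr f (s + s') y = chg_mr f s y + chg_mr f s' y := by
  induction y using Finsupp.induction_linear with
  | zero => simp
  | add x y hx hy =>
    rw [map_add, hx, hy, map_add, map_add]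
    abel
  | single a q => rw [chg_mr_single, chg_mr_single, chg_mr_single, add_mul, Finsupp.single_add]

private theorem chg_mr_smul (f : Q' →+* T) (s : T) (r : Q') (y : Λ →₀ Q') :
    chg_mr f s (r • y) = chg_mr f (s * f r) y := by
  induction y using Finsupp.induction_linear with
  | zero => simp
  | add x y hx hy => rw [smul_add, map_add, hx, hy, map_add]
  | single a q =>
    rw [Finsupp.smul_single, smul_eq_mul, chg_mr_single, chg_mr_single, map_mul, mul_assoc]

private theorem chg_S_mr (f : Q' →+* T) (ℓ : Λ → T) (s : T) (y : Λ →₀ Q') :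
    chg_S ℓ (chg_mr f s y) = s * chg_lin f ℓ y := by
  induction y using Finsupp.induction_linear with
  | zero => simp
  | add x y hx hy => rw [map_add, map_add, hx, hy, map_add, mul_add]
  | single a q => rw [chg_mr_single, chg_S_single, chg_lin_single, mul_assoc]

/-- The substitution of coefficients. -/
private noncomputable def chg_B (f : Q' →+* T) (b : Λ' → Λ →₀ Q') : (Λ' →₀ T) →+ (Λ →₀ T) :=
  Finsupp.liftAddHom fun a => AddMonoidHom.mk' (fun s => chg_mr f s (b a))
    (fun s s' => chg_mr_add f s s' (b a))

private theorem chg_B_single (f : Q' →+* T) (b : Λ' → Λ →₀ Q') (a : Λ') (s : T) :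
    chg_B f b (Finsupp.single a s) = chg_mr f s (b a) := by
  rw [chg_B, Finsupp.liftAddHom_apply_single]
  rfl

private theorem chg_S_B (f : Q' →+* T) (ℓ : Λ → T) (ℓ' : Λ' → T) (b : Λ' → Λ →₀ Q')
    (hb : ∀ a, ℓ' a = chg_lin f ℓ (b a)) (t : Λ' →₀ T) :
    chg_S ℓ (chg_B f b t) = chg_S ℓ' t := by
  induction t using Finsupp.induction_linear with
  | zero => simp
  | add x y hx hy => rw [map_add, map_add, hx, hy, map_add]
  | single a s => rw [chg_B_single, chg_S_mr, chg_S_single, hb]

private theorem chg_B_mr (f : Q' →+* T) (c : Λ → Λ' →₀ Q') (s : T) (y : Λ →₀ Q') :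
    chg_B f c (chg_mr f s y) = chg_mr f s (y.sum fun x r => r • c x) := by
  induction y using Finsupp.induction_linear with
  | zero => simp
  | add x y hx hy =>
    rw [map_add, map_add, hx, hy, Finsupp.sum_add_index', map_add]
    · intro a
      rw [zero_smul]
    · intro a r r'
      rw [add_smul]
  | single a q =>
    rw [chg_mr_single, chg_B_single, Finsupp.sum_single_index (by rw [zero_smul]), chg_mr_smul]

private theorem chg_B_B (f : Q' →+* T) (b : Λ' → Λ →₀ Q') (c : Λ → Λ' →₀ Q')
    (h : ∀ a, ((b a).sum fun x r => r • c x) = Finsupp.single a 1) (t : Λ' →₀ T) :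
    chg_B f c (chg_B f b t) = t := by
  induction t using Finsupp.induction_linear with
  | zero => simp
  | add x y hx hy => rw [map_add, map_add, hx, hy]
  | single a s => rw [chg_B_single, chg_B_mr, h, chg_mr_single, map_one, mul_one]

/-- Decomposition by the last letter. -/
private theorem chg_dec (f : Q' →+* T) (ℓ : Λ → T) (hf : FreeW f ℓ) (q : Q') (t : Λ →₀ T)
    (h : f q + chg_S ℓ t = 0) : q = 0 ∧ t = 0 := by
  have hbij : Function.Bijective (chg_ev f ℓ) := by
    have e : (chg_ev f ℓ : (List Λ →₀ Q') → T) = ev f ℓ := funext (chg_ev_apply f ℓ)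
    rw [e]
    exact hf
  let E : (List Λ →₀ Q') ≃+ T := AddEquiv.ofBijective (chg_ev f ℓ) hbij
  have hE : ∀ s, chg_ev f ℓ (E.symm s) = s := fun s => E.apply_symm_apply s
  have hcons : ∀ (a : Λ) (y : List Λ →₀ Q'),
      chg_ev f ℓ (Finsupp.mapDomain (List.cons a) y) = chg_ev f ℓ y * ℓ a := by
    intro a y
    induction y using Finsupp.induction_linear with
    | zero => simp
    | add x y hx hy => rw [Finsupp.mapDomain_add, map_add, hx, hy, map_add, add_mul]
    | single u q => rw [Finsupp.mapDomain_single, chg_ev_single, chg_ev_single, wd, mul_assoc]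
  -- the additive map to the words
  let G : (Λ →₀ T) →+ (List Λ →₀ Q') := Finsupp.liftAddHom fun a =>
    (Finsupp.mapDomain.addMonoidHom (List.cons a)).comp (E.symm : T →+ (List Λ →₀ Q'))
  have hG1 : ∀ a s, G (Finsupp.single a s) = Finsupp.mapDomain (List.cons a) (E.symm s) := by
    intro a s
    change Finsupp.liftAddHom _ _ = _
    rw [Finsupp.liftAddHom_apply_single]
    rfl
  have hG2 : ∀ t, chg_ev f ℓ (G t) = chg_S ℓ t := by
    intro t
    induction t using Finsupp.induction_linear with
    | zero => simp
    | add x y hx hy => rw [map_add, map_add, hx, hy, map_add]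
    | single a s => rw [hG1, hcons, hE, chg_S_single]
  have hG3 : ∀ t, G t [] = 0 := by
    intro t
    induction t using Finsupp.induction_linear with
    | zero => simp
    | add x y hx hy => rw [map_add, Finsupp.add_apply, hx, hy, add_zero]
    | single a s =>
      rw [hG1, Finsupp.mapDomain_notin_range]
      rintro ⟨u, hu⟩
      exact List.cons_ne_nil _ _ hu
  have hG4 : ∀ t a u, G t (a :: u) = E.symm (t a) u := by
    intro t a u
    induction t using Finsupp.induction_linear with
    | zero => simp
    | add x y hx hy =>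
      rw [map_add, Finsupp.add_apply, hx, hy, Finsupp.add_apply, map_add, Finsupp.add_apply]
    | single a' s =>
      rw [hG1]
      by_cases haa : a' = a
      · subst haa
        rw [Finsupp.mapDomain_apply (List.cons_injective), Finsupp.single_eq_same]
      · rw [Finsupp.mapDomain_notin_range, Finsupp.single_eq_of_ne (fun h => haa h.symm), map_zero,
          Finsupp.zero_apply]
        rintro ⟨v, hv⟩
        exact haa (List.cons.inj hv).1
  have hz : Finsupp.single [] q + G t = 0 := by
    apply hbij.injective
    rw [map_add, chg_ev_single, hG2, map_zero, wd, mul_one]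
    exact h
  have h0 : q = 0 := by
    have h1 := DFunLike.congr_fun hz ([] : List Λ)
    rw [Finsupp.add_apply, Finsupp.single_eq_same, hG3, add_zero, Finsupp.zero_apply] at h1
    exact h1
  refine ⟨h0, Finsupp.ext fun a => ?_⟩
  rw [h0, Finsupp.single_zero, zero_add] at hz
  have h2 : E.symm (t a) = 0 := by
    refine Finsupp.ext fun u => ?_
    rw [← hG4, hz, Finsupp.zero_apply, Finsupp.zero_apply]
  rw [Finsupp.zero_apply]
  exact (map_eq_zero_iff E.symm E.symm.injective).1 h2

/-- Injectivity. -/
private theorem chg_inj (f : Q' →+* T) (ℓ : Λ → T)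
    (hd : ∀ (q : Q') (t : Λ →₀ T), f q + chg_S ℓ t = 0 → q = 0 ∧ t = 0) (n : ℕ) :
    ∀ x : List Λ →₀ Q', (∀ u ∈ x.support, u.length < n) → chg_ev f ℓ x = 0 → x = 0 := by
  classical
  -- the coefficients of the last letters
  let cm : Λ → (List Λ →₀ Q') →+ (List Λ →₀ Q') := fun a =>
    Finsupp.comapDomain.addMonoidHom (f := List.cons a) (List.cons_injective)
  have hcm : ∀ a x u, cm a x u = x (a :: u) := fun a x u => rfl
  let H : (List Λ →₀ Q') →+ (Λ →₀ T) := Finsupp.liftAddHom fun u =>
    match u with
    | [] => 0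
    | a :: u => (Finsupp.singleAddHom a).comp ((AddMonoidHom.mulRight (wd ℓ u)).comp (f : Q' →+ T))
  have hH0 : ∀ q, H (Finsupp.single [] q) = 0 := by
    intro q
    change Finsupp.liftAddHom _ _ = _
    rw [Finsupp.liftAddHom_apply_single]
    rfl
  have hH1 : ∀ a u q, H (Finsupp.single (a :: u) q) = Finsupp.single a (f q * wd ℓ u) := by
    intro a u q
    change Finsupp.liftAddHom _ _ = _
    rw [Finsupp.liftAddHom_apply_single]
    rfl
  have hev : ∀ x, chg_ev f ℓ x = f (x []) + chg_S ℓ (H x) := by
    intro x
    induction x using Finsupp.induction_linear with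
    | zero => simp
    | add x y hx hy =>
      rw [map_add, hx, hy, Finsupp.add_apply, map_add, map_add, map_add]
      abel
    | single u q =>
      cases u with
      | nil => rw [chg_ev_single, hH0, map_zero, Finsupp.single_eq_same, wd, mul_one, add_zero]
      | cons a u =>
        rw [chg_ev_single, hH1, chg_S_single, Finsupp.single_eq_of_ne (List.cons_ne_nil _ _).symm,
          map_zero, zero_add, wd, mul_assoc]
  have hHa : ∀ x a, H x a = chg_ev f ℓ (cm a x) := by
    intro x a
    induction x using Finsupp.induction_linear with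
    | zero => simp
    | add x y hx hy => rw [map_add, Finsupp.add_apply, hx, hy, map_add, map_add]
    | single u q =>
      cases u with
      | nil =>
        have e : cm a (Finsupp.single [] q) = 0 := by
          refine Finsupp.ext fun v => ?_
          rw [hcm, Finsupp.single_eq_of_ne (List.cons_ne_nil _ _), Finsupp.zero_apply]
        rw [hH0, e, map_zero, Finsupp.zero_apply]
      | cons a' u =>
        rw [hH1]
        by_cases haa : a' = a
        · subst haa
          have e : cm a' (Finsupp.single (a' :: u) q) = Finsupp.single u q := by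
            refine Finsupp.ext fun v => ?_
            rw [hcm, Finsupp.single_apply, Finsupp.single_apply]
            by_cases huv : u = v
            · rw [if_pos huv, if_pos (by rw [huv])]
            · rw [if_neg huv, if_neg (fun h => huv (List.cons.inj h).2)]
          rw [e, Finsupp.single_eq_same, chg_ev_single]
        · have e : cm a (Finsupp.single (a' :: u) q) = 0 := by
            refine Finsupp.ext fun v => ?_
            rw [hcm, Finsupp.single_apply, if_neg (fun h => haa (List.cons.inj h).1),
              Finsupp.zero_apply]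
          rw [e, map_zero, Finsupp.single_apply, if_neg haa]
  induction n with
  | zero =>
    intro x hx _
    rw [← Finsupp.support_eq_empty, Finset.eq_empty_iff_forall_notMem]
    intro u hu
    exact Nat.not_lt_zero _ (hx u hu)
  | succ n ih =>
    intro x hx h0
    rw [hev] at h0
    obtain ⟨h1, h2⟩ := hd _ _ h0
    have h3 : ∀ a, cm a x = 0 := by
      intro a
      refine ih _ ?_ ?_
      · intro u hu
        have h4 : a :: u ∈ x.support := by
          rw [Finsupp.mem_support_iff] at hu ⊢
          exact hu
        have h5 := hx _ h4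
        rw [List.length_cons] at h5
        omega
      · rw [← hHa, h2, Finsupp.zero_apply]
    refine Finsupp.ext fun u => ?_
    cases u with
    | nil => rw [h1, Finsupp.zero_apply]
    | cons a u =>
      have h4 := DFunLike.congr_fun (h3 a) u
      rw [hcm] at h4
      rw [h4, Finsupp.zero_apply, Finsupp.zero_apply]

end ChangeAux

/-- C4. Change of letters. -/
theorem change : S_change := by
  intro Q' T Λ Λ' _ _ f ℓ ℓ' b c hf hcl hb hbc hcb
  have hb' : ∀ a, ℓ' a = chg_lin f ℓ (b a) := fun a => by rw [chg_lin_apply]; exact hb a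
  have hc' : ∀ x, ℓ x = chg_lin f ℓ' (c x) := by
    intro x
    rw [chg_lin_subst f ℓ ℓ' b hb', hcb, chg_lin_single, map_one, one_mul]
  -- closedness
  have hN : ∀ (q : Q') (y : Λ →₀ Q'), ∃ (r : Q') (z : Λ' →₀ Q'),
      chg_lin f ℓ y * f q = f r + chg_lin f ℓ' z := by
    intro q y
    induction y using Finsupp.induction_linear with
    | zero => exact ⟨0, 0, by simp⟩
    | add x y hx hy =>
      obtain ⟨r, z, h1⟩ := hx
      obtain ⟨r', z', h2⟩ := hy
      refine ⟨r + r', z + z', ?_⟩
      rw [map_add, add_mul, h1, h2, map_add, map_add]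
      abel
    | single x s =>
      obtain ⟨r, z, h1⟩ := hcl x q
      rw [← chg_lin_apply] at h1
      refine ⟨s * r, s • (z.sum fun x r => r • c x), ?_⟩
      rw [chg_lin_single, mul_assoc, h1, chg_lin_smul, ← chg_lin_subst f ℓ' ℓ c hc', map_mul,
        mul_add]
  have hcl' : Cl f ℓ' := by
    intro a q
    obtain ⟨r, z, h1⟩ := hN q (b a)
    refine ⟨r, z, ?_⟩
    rw [hb', h1, chg_lin_apply]
  refine ⟨⟨?_, ?_⟩, hcl'⟩
  · -- injectivity
    have hd : ∀ (q : Q') (t : Λ' →₀ T), f q + chg_S ℓ' t = 0 → q = 0 ∧ t = 0 := by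
      intro q t h
      rw [← chg_S_B f ℓ ℓ' b hb'] at h
      obtain ⟨h1, h2⟩ := chg_dec f ℓ hf q _ h
      refine ⟨h1, ?_⟩
      rw [← chg_B_B f b c hbc t, h2, map_zero]
    have hinj : Function.Injective (chg_ev f ℓ') := by
      rw [injective_iff_map_eq_zero]
      intro x hx
      refine chg_inj f ℓ' hd (x.support.sup List.length + 1) x (fun u hu => ?_) hx
      exact Nat.lt_succ_of_le (Finset.le_sup (f := List.length) hu)
    have e : (chg_ev f ℓ' : (List Λ' →₀ Q') → T) = ev f ℓ' := funext (chg_ev_apply f ℓ')
    rw [← e]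
    exact hinj
  · -- surjectivity
    let R : AddSubgroup T := (chg_ev f ℓ').range
    have hmem : ∀ q u, f q * wd ℓ' u ∈ R := fun q u =>
      ⟨Finsupp.single u q, chg_ev_single f ℓ' u q⟩
    have hind : ∀ (P : T → Prop), P 0 → (∀ a b, P a → P b → P (a + b)) →
        (∀ q u, P (f q * wd ℓ' u)) → ∀ t ∈ R, P t := by
      rintro P h0 ha h1 t ⟨x, rfl⟩
      induction x using Finsupp.induction_linear with
      | zero => rw [map_zero]; exact h0
      | add x y hx hy => rw [map_add]; exact ha _ _ hx hy
      | single u q => rw [chg_ev_single]; exact h1 q u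
    have hl : ∀ (a : Λ'), ∀ t ∈ R, t * ℓ' a ∈ R := by
      intro a
      refine hind (fun t => t * ℓ' a ∈ R) ?_ ?_ ?_
      · rw [zero_mul]; exact zero_mem _
      · intro s s' h1 h2
        rw [add_mul]
        exact add_mem h1 h2
      · intro q u
        have e : f q * wd ℓ' u * ℓ' a = f q * wd ℓ' (a :: u) := by rw [wd, mul_assoc]
        rw [e]
        exact hmem q _
    have hlin : ∀ (s : T), (∀ q, s * f q ∈ R) → ∀ z : Λ' →₀ Q', s * chg_lin f ℓ' z ∈ R := by
      intro s hs z
      induction z using Finsupp.induction_linear with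
      | zero => rw [map_zero, mul_zero]; exact zero_mem _
      | add x y hx hy => rw [map_add, mul_add]; exact add_mem hx hy
      | single a q =>
        rw [chg_lin_single, ← mul_assoc]
        exact hl a _ (hs q)
    have hq' : ∀ (u : List Λ') (q' q : Q'), f q' * wd ℓ' u * f q ∈ R := by
      intro u
      induction u with
      | nil =>
        intro q' q
        have := hmem (q' * q) []
        rw [wd, mul_one] at this ⊢
        rw [← map_mul]
        exact this
      | cons a u ih =>
        intro q' q
        obtain ⟨r, z, h1⟩ := hcl' a q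
        have e : f q' * wd ℓ' (a :: u) * f q = f q' * wd ℓ' u * f r +
            f q' * wd ℓ' u * chg_lin f ℓ' z := by
          rw [wd, chg_lin_apply, ← mul_add, ← h1, mul_assoc, mul_assoc, mul_assoc]
        rw [e]
        exact add_mem (ih _ _) (hlin _ (ih q') z)
    have hq : ∀ (q : Q'), ∀ t ∈ R, t * f q ∈ R := by
      intro q
      refine hind (fun t => t * f q ∈ R) ?_ ?_ ?_
      · rw [zero_mul]; exact zero_mem _
      · intro s s' h1 h2
        rw [add_mul]
        exact add_mem h1 h2
      · intro q' u
        exact hq' u q' q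
    have hlx : ∀ (x : Λ), ∀ t ∈ R, t * ℓ x ∈ R := by
      intro x t ht
      rw [hc' x]
      exact hlin t (fun q => hq q t ht) (c x)
    have hw : ∀ (u : List Λ) (q : Q'), f q * wd ℓ u ∈ R := by
      intro u
      induction u with
      | nil =>
        intro q
        exact hmem q []
      | cons x u ih =>
        intro q
        have e : f q * wd ℓ (x :: u) = f q * wd ℓ u * ℓ x := by rw [wd, mul_assoc]
        rw [e]
        exact hlx x _ (ih q)
    intro t
    obtain ⟨x, hx⟩ := hf.2 t
    have hxR : chg_ev f ℓ x ∈ R := by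
      clear hx
      induction x using Finsupp.induction_linear with
      | zero => rw [map_zero]; exact zero_mem _
      | add x y hx hy => rw [map_add]; exact add_mem hx hy
      | single u q => rw [chg_ev_single]; exact hw u q
    rw [chg_ev_apply, hx] at hxR
    obtain ⟨y, hy⟩ := hxR
    exact ⟨y, by rw [← chg_ev_apply]; exact hy⟩

end Pool.Agent.Hier
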