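import Pool.Agent.Lib.MP_8f66f0_al_Hier.SpecB
import Pool.Agent.Lib.MP_8f66f0_al_Ind.Euc

/-! A row which is killed by a matrix over a principal ideal domain. -/

set_option autoImplicit false

namespace Pool.Agent.Hier

open Pool.Agent.Wald Pool.Agent.Ind
open Module

/-- The kernel of the matrix is not zero. -/
private theorem euc_ker {LL Q' t n : Type} [CommRing LL] [Ring Q'] [Algebra LL Q']
    [Module.Free LL Q'] [Fintype t] (x : t → Q') (l : Matrix t n LL) (hx : x ≠ 0)
    (h : ∀ j, ∑ i, x i * algebraMap LL Q' (l i j) = 0) :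
    ∃ y : t → LL, y ≠ 0 ∧ ∀ j, ∑ i, y i * l i j = 0 := by
  let β := Module.Free.chooseBasis LL Q'
  obtain ⟨i, hi⟩ : ∃ i, x i ≠ 0 := by
    by_contra hn
    push Not at hn
    exact hx (funext hn)
  obtain ⟨s, hs⟩ : ∃ s, β.repr (x i) s ≠ 0 := by
    by_contra hn
    push Not at hn
    apply hi
    apply β.repr.injective
    rw [map_zero]
    exact Finsupp.ext hn
  refine ⟨fun i => β.repr (x i) s, fun h0 => hs (congrFun h0 i), fun j => ?_⟩
  have h1 : ∑ i, l i j • x i = 0 := by
    rw [← h j]
    refine Finset.sum_congr rfl fun i _ => ?_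
    rw [Algebra.smul_def]
    exact Algebra.commutes _ _
  have h2 := congrArg (fun z => β.repr z s) h1
  simp only [map_sum, map_smul, map_zero, Finsupp.zero_apply, Finsupp.coe_finsetSum,
    Finset.sum_apply, Finsupp.smul_apply, smul_eq_mul] at h2
  rw [← h2]
  exact Finset.sum_congr rfl fun i _ => mul_comm _ _

/-- B2. A row which is killed by an `LL`-matrix. -/
theorem euc : S_euc := by
  intro LL _ _ hE Q' _ _ _ t n _ _ _ x l hx h
  classical
  have : IsPrincipalIdealRing LL := isPrincipal_of_isEuc hE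
  obtain ⟨y, hy0, hy⟩ := euc_ker x l hx h
  let N : Submodule LL (t → LL) := LinearMap.ker (Matrix.vecMulLinear l)
  have hmem : ∀ z : t → LL, z ∈ N ↔ ∀ j, ∑ i, z i * l i j = 0 := by
    intro z
    rw [LinearMap.mem_ker]
    exact funext_iff
  obtain ⟨m, bM, bN, f, a, snf⟩ := Submodule.smithNormalForm (Pi.basisFun LL t) N
  have hm : m ≠ 0 := by
    rintro rfl
    have hs : Subsingleton N := by
      refine ⟨fun u v => ?_⟩
      apply bN.repr.injective
      exact Finsupp.ext fun i => i.elim0
    have h1 : (⟨y, (hmem y).2 hy⟩ : N) = 0 := Subsingleton.elim _ _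
    exact hy0 (congrArg Subtype.val h1)
  obtain ⟨k⟩ : Nonempty (Fin m) := ⟨⟨0, Nat.pos_of_ne_zero hm⟩⟩
  have hk0 : (bN k : t → LL) ≠ 0 := fun h1 => bN.ne_zero k (Subtype.ext h1)
  have ha : a k ≠ 0 := by
    intro h1
    apply hk0
    rw [snf, h1, zero_smul]
  have hrow : ∀ j, ∑ i, bM (f k) i * l i j = 0 := by
    intro j
    have h1 := (hmem _).1 (bN k).2 j
    rw [snf] at h1
    have h2 : a k * ∑ i, bM (f k) i * l i j = 0 := by
      rw [← h1, Finset.mul_sum]
      refine Finset.sum_congr rfl fun i _ => ?_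
      rw [Pi.smul_apply, smul_eq_mul, mul_assoc]
    exact (mul_eq_zero.1 h2).resolve_left ha
  refine ⟨Matrix.of fun i j => bM i j, f k, ?_, fun j => ?_⟩
  · have h1 : ((Pi.basisFun LL t).toMatrix bM).transpose = Matrix.of fun i j => bM i j := by
      ext i j
      rw [Matrix.transpose_apply, Basis.toMatrix_apply, Pi.basisFun_repr]
      rfl
    rw [← h1, Matrix.isUnit_transpose]
    have := (Pi.basisFun LL t).invertibleToMatrix bM
    exact isUnit_of_invertible _
  · rw [Matrix.mul_apply]
    exact hrow j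

end Pool.Agent.Hier
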