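import Pool.Agent.Lib.MP_8f66f0_al_Hier.SpecP

/-! Block P: explicit patching matrices. -/

set_option autoImplicit false

namespace Pool.Agent.Hier

open Pool.Agent.Wald Pool.Agent.Ind Matrix

private def ExplFac {T : Type} [Ring T] (r : AddSubgroup T) {n : ℕ}
    (M : Matrix (Fin n) (Fin n) T) : Prop :=
  ∃ (l : ℕ) (σ : Matrix (Fin n) (Fin l) T) (ρ : Matrix (Fin l) (Fin n) T),
    (∀ i j, ρ i j ∈ r) ∧ M = σ * ρ

private theorem ExplFac_zero {T : Type} [Ring T] (r : AddSubgroup T) {n : ℕ} :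
    ExplFac r (0 : Matrix (Fin n) (Fin n) T) :=
  ⟨0, 0, 0, fun i j => r.zero_mem, by simp⟩

private theorem ExplFac_add {T : Type} [Ring T] {r : AddSubgroup T} {n : ℕ}
    {M M' : Matrix (Fin n) (Fin n) T} (h : ExplFac r M) (h' : ExplFac r M') :
    ExplFac r (M + M') := by
  obtain ⟨l, σ, ρ, hρ, rfl⟩ := h
  obtain ⟨l', σ', ρ', hρ', rfl⟩ := h'
  refine ⟨l + l', (fromCols σ σ').submatrix id finSumFinEquiv.symm,
    (fromRows ρ ρ').submatrix finSumFinEquiv.symm id, fun i j => ?_, ?_⟩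
  · rw [submatrix_apply]
    rcases finSumFinEquiv.symm i with a | a
    · exact hρ a j
    · exact hρ' a j
  · rw [submatrix_mul_equiv, fromCols_mul_fromRows, submatrix_id_id]

private theorem ExplFac_neg {T : Type} [Ring T] {r : AddSubgroup T} {n : ℕ}
    {M : Matrix (Fin n) (Fin n) T} (h : ExplFac r M) : ExplFac r (-M) := by
  obtain ⟨l, σ, ρ, hρ, rfl⟩ := h
  exact ⟨l, -σ, ρ, hρ, by rw [Matrix.neg_mul]⟩

private theorem ExplFac_single {T : Type} [Ring T] {r : AddSubgroup T} {n : ℕ} (i j : Fin n)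
    (s y : T) (hy : y ∈ r) : ExplFac r (Matrix.single i j (s * y)) := by
  refine ⟨1, Matrix.single i 0 s, Matrix.single 0 j y, fun a b => ?_, ?_⟩
  · rw [single_apply]
    split_ifs
    · exact hy
    · exact r.zero_mem
  · rw [single_mul_single_same]

private theorem ExplFac_sum {T : Type} [Ring T] {r : AddSubgroup T} {n : ℕ} {ι : Type}
    (s : Finset ι) (M : ι → Matrix (Fin n) (Fin n) T) (h : ∀ i ∈ s, ExplFac r (M i)) :
    ExplFac r (∑ i ∈ s, M i) := by
  classical
  induction s using Finset.induction_on with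
  | empty => rw [Finset.sum_empty]; exact ExplFac_zero r
  | insert a s ha ih =>
    rw [Finset.sum_insert ha]
    exact ExplFac_add (h a (Finset.mem_insert_self _ _))
      (ih fun i hi => h i (Finset.mem_insert_of_mem hi))

private theorem ExplFac_of {T : Type} [Ring T] {r : AddSubgroup T} {n : ℕ}
    (M : Matrix (Fin n) (Fin n) T)
    (h : ∀ i j, M i j ∈ AddSubgroup.closure {x | ∃ s, ∃ y ∈ r, x = s * y}) : ExplFac r M := by
  rw [matrix_eq_sum_single M]
  refine ExplFac_sum _ _ fun i _ => ExplFac_sum _ _ fun j _ => ?_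
  refine AddSubgroup.closure_induction (p := fun x _ => ExplFac r (Matrix.single i j x))
    ?_ ?_ ?_ ?_ (h i j)
  · rintro x ⟨s, y, hy, rfl⟩
    exact ExplFac_single i j s y hy
  · rw [single_zero]
    exact ExplFac_zero r
  · intro x y _ _ hx hy
    rw [single_add]
    exact ExplFac_add hx hy
  · intro x _ hx
    rw [← single_neg]
    exact ExplFac_neg hx

private def ExplS {T : Type} [Ring T] (r : AddSubgroup T) {a b : Type} (M : Matrix a b T) : Prop :=
  ∀ i j, M i j ∈ r

private theorem ExplS_mul {T : Type} [Ring T] {r : AddSubgroup T} (hr : ∀ x ∈ r, ∀ t, x * t ∈ r)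
    {a b c : Type} [Fintype b] {M : Matrix a b T} (h : ExplS r M) (N : Matrix b c T) :
    ExplS r (M * N) := by
  intro i j
  rw [mul_apply]
  exact r.sum_mem fun k _ => hr _ (h i k) _

private theorem ExplS_add {T : Type} [Ring T] {r : AddSubgroup T} {a b : Type}
    {M N : Matrix a b T} (h : ExplS r M) (h' : ExplS r N) : ExplS r (M + N) :=
  fun i j => r.add_mem (h i j) (h' i j)

private theorem ExplS_neg {T : Type} [Ring T] {r : AddSubgroup T} {a b : Type}
    {M : Matrix a b T} (h : ExplS r M) : ExplS r (-M) :=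
  fun i j => r.neg_mem (h i j)

private theorem ExplS_zero {T : Type} [Ring T] {r : AddSubgroup T} {a b : Type} :
    ExplS r (0 : Matrix a b T) :=
  fun _ _ => r.zero_mem

private theorem ExplS_blocks {T : Type} [Ring T] {r : AddSubgroup T} {a b c d : Type}
    {M : Matrix a c T} {N : Matrix a d T} {M' : Matrix b c T} {N' : Matrix b d T}
    (h : ExplS r M) (h' : ExplS r N) (h'' : ExplS r M') (h''' : ExplS r N') :
    ExplS r (fromBlocks M N M' N') := by
  rintro (i | i) (j | j)
  · exact h i j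
  · exact h' i j
  · exact h'' i j
  · exact h''' i j

private theorem ExplS_rows {T : Type} [Ring T] {r : AddSubgroup T} {a b c : Type}
    {M : Matrix a c T} {N : Matrix b c T} (h : ExplS r M) (h' : ExplS r N) :
    ExplS r (fromRows M N) := by
  rintro (i | i) j
  · exact h i j
  · exact h' i j

private theorem ExplS_cols {T : Type} [Ring T] {r : AddSubgroup T} {a b c : Type}
    {M : Matrix a b T} {N : Matrix a c T} (h : ExplS r M) (h' : ExplS r N) :
    ExplS r (fromCols M N) := by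
  rintro i (j | j)
  · exact h i j
  · exact h' i j

private theorem ExplBlocks_sub {T : Type} [Ring T] {a b c d : Type}
    (M M' : Matrix a c T) (N N' : Matrix a d T) (P P' : Matrix b c T) (Q Q' : Matrix b d T) :
    fromBlocks M N P Q - fromBlocks M' N' P' Q' =
      fromBlocks (M - M') (N - N') (P - P') (Q - Q') := by
  ext (i | i) (j | j) <;> rfl

/-- The computation. -/
private theorem Expl_core {T : Type} [Ring T] (r : AddSubgroup T)
    (hr : ∀ x ∈ r, ∀ t, x * t ∈ r) {n l l' : Type} [Fintype n] [DecidableEq n]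
    [Fintype l] [DecidableEq l] [Fintype l'] [DecidableEq l']
    (u v : Matrix n n T) (σ : Matrix n l T) (ρ : Matrix l n T) (τ : Matrix n l' T)
    (ρ' : Matrix l' n T) (h1 : u * v + σ * ρ = 1) (h2 : v * u + τ * ρ' = 1)
    (hρ : ExplS r ρ) (hρ' : ExplS r ρ') (U : Matrix (n ⊕ l) (n ⊕ l) T)
    (hU : U = fromBlocks u σ 0 1) :
    ∃ Ξ : Matrix (n ⊕ l) ((n ⊕ l) ⊕ l') T,
      Ξ * fromRows U (fromCols ρ' 0) = 1 ∧
      ExplS r (fromRows U (fromCols ρ' 0) * Ξ -
        (fromBlocks 1 0 0 0 : Matrix ((n ⊕ l) ⊕ l') ((n ⊕ l) ⊕ l') T)) := by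
  set V : Matrix (n ⊕ l) (n ⊕ l) T := fromBlocks v (-(v * σ)) ρ (1 - ρ * σ) with hV
  set P : Matrix l' (n ⊕ l) T := fromCols ρ' 0 with hP
  set W : Matrix n (n ⊕ l) T := fromCols v (-(v * σ)) with hW
  set Ψ : Matrix (n ⊕ l) n T := fromRows (τ * ρ') (-(ρ * u)) with hΨ
  have e1 : V * U = fromBlocks (v * u) 0 (ρ * u) 1 := by
    rw [hV, hU, fromBlocks_multiply]
    congr 1
    · rw [Matrix.mul_zero, add_zero]
    · rw [Matrix.mul_one, add_neg_cancel]
    · rw [Matrix.mul_zero, add_zero]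
    · rw [Matrix.mul_one, add_sub_cancel]
  have e2 : W * U + τ * P = fromCols 1 0 := by
    rw [hW, hU, hP, fromCols_mul_fromBlocks, mul_fromCols, Matrix.mul_zero, Matrix.mul_zero,
      Matrix.mul_one, add_neg_cancel, add_zero]
    ext i (j | j)
    · exact congrFun (congrFun h2 i) j
    · simp
  have e3 : Ψ * (fromCols 1 0 : Matrix n (n ⊕ l) T) = fromBlocks (τ * ρ') 0 (-(ρ * u)) 0 := by
    rw [hΨ, fromRows_mul_fromCols, Matrix.mul_one, Matrix.mul_one, Matrix.mul_zero,
      Matrix.mul_zero]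
  have e4 : U * V = fromBlocks 1 0 ρ (1 - ρ * σ) := by
    rw [hV, hU, fromBlocks_multiply]
    congr 1
    · rw [Matrix.mul_neg, Matrix.mul_sub, Matrix.mul_one, ← Matrix.mul_assoc, ← Matrix.mul_assoc]
      have : (u * v + σ * ρ) * σ = σ := by rw [h1, Matrix.one_mul]
      rw [Matrix.add_mul] at this
      rw [← this]
      abel_nf
      rw [this]
      simp
    · rw [Matrix.zero_mul, Matrix.one_mul, zero_add]
    · rw [Matrix.zero_mul, Matrix.one_mul, zero_add]
  have e5 : U * Ψ = fromRows 0 (-(ρ * u)) := by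
    rw [hU, hΨ, fromBlocks_mul_fromRows]
    have ha : u * (τ * ρ') + σ * -(ρ * u) = 0 := by
      have h3 : τ * ρ' = 1 - v * u := by rw [← h2]; abel
      have h4 : σ * ρ = 1 - u * v := by rw [← h1]; abel
      rw [h3, Matrix.mul_neg, ← Matrix.mul_assoc, h4, Matrix.mul_sub, Matrix.sub_mul,
        Matrix.mul_one, Matrix.one_mul, Matrix.mul_assoc]
      abel
    rw [ha, Matrix.zero_mul, Matrix.one_mul, zero_add]
  refine ⟨fromCols (V + Ψ * W) (Ψ * τ), ?_, ?_⟩
  · rw [fromCols_mul_fromRows, Matrix.add_mul, Matrix.mul_assoc Ψ W U, Matrix.mul_assoc Ψ τ P,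
      add_assoc, ← Matrix.mul_add, e2, e3, e1, fromBlocks_add, h2, add_zero, add_neg_cancel,
      add_zero, fromBlocks_one]
  · rw [fromRows_mul_fromCols, Matrix.mul_add, e4, ← Matrix.mul_assoc U Ψ W,
      ← Matrix.mul_assoc U Ψ τ, e5]
    have hPS : ExplS r P := ExplS_cols hρ' ExplS_zero
    have hB : ExplS r (fromRows 0 (-(ρ * u)) : Matrix (n ⊕ l) n T) :=
      ExplS_rows ExplS_zero (ExplS_neg (ExplS_mul hr hρ u))
    have hC : ExplS r (fromBlocks 1 0 ρ (1 - ρ * σ) - 1 : Matrix (n ⊕ l) (n ⊕ l) T) := by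
      have : (fromBlocks 1 0 ρ (1 - ρ * σ) - 1 : Matrix (n ⊕ l) (n ⊕ l) T) =
          fromBlocks 0 0 ρ (-(ρ * σ)) := by
        rw [← fromBlocks_one, ExplBlocks_sub]
        congr 1
        · rw [sub_self]
        · rw [sub_zero]
        · rw [sub_zero]
        · abel
      rw [this]
      exact ExplS_blocks ExplS_zero ExplS_zero hρ (ExplS_neg (ExplS_mul hr hρ σ))
    have hD : (fromBlocks (fromBlocks 1 0 ρ (1 - ρ * σ) +
          (fromRows 0 (-(ρ * u)) : Matrix (n ⊕ l) n T) * W)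
        ((fromRows 0 (-(ρ * u)) : Matrix (n ⊕ l) n T) * τ) (P * (V + Ψ * W)) (P * (Ψ * τ)) -
        (fromBlocks 1 0 0 0 : Matrix ((n ⊕ l) ⊕ l') ((n ⊕ l) ⊕ l') T)) =
        fromBlocks ((fromBlocks 1 0 ρ (1 - ρ * σ) - 1) +
          (fromRows 0 (-(ρ * u)) : Matrix (n ⊕ l) n T) * W)
        ((fromRows 0 (-(ρ * u)) : Matrix (n ⊕ l) n T) * τ) (P * (V + Ψ * W)) (P * (Ψ * τ)) := by
      rw [ExplBlocks_sub]
      congr 1
      · abel
      · rw [sub_zero]
      · rw [sub_zero]
      · rw [sub_zero]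
    rw [hD]
    exact ExplS_blocks (ExplS_add hC (ExplS_mul hr hB W)) (ExplS_mul hr hB τ)
      (ExplS_mul hr hPS _) (ExplS_mul hr hPS _)

theorem expl : S_Expl := by
  intro T Q _ _ π r hπ hr hrπ hker n u hu
  obtain ⟨w, rfl⟩ := hu
  set g : Q → T := Function.surjInv hπ with hg
  have hgπ : ∀ q, π (g q) = q := fun q => Function.surjInv_eq hπ q
  set A : Matrix (Fin n) (Fin n) T := w.val.map g with hA
  set B : Matrix (Fin n) (Fin n) T := (w⁻¹).val.map g with hB
  have hAπ : A.map π = w.val := by ext i j; exact hgπ _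
  have hBπ : B.map π = (w⁻¹).val := by ext i j; exact hgπ _
  have hfac : ∀ M : Matrix (Fin n) (Fin n) T, M.map π = 0 → ExplFac r M := by
    intro M hM
    refine ExplFac_of M fun i j => hker _ ?_
    exact congrFun (congrFun hM i) j
  have hm1 : (1 - A * B).map π = 0 := by
    have : (1 - A * B).map π = (1 : Matrix (Fin n) (Fin n) Q) - A.map π * B.map π := by
      rw [← Matrix.map_mul]
      ext i j
      rw [map_apply, Matrix.sub_apply, Matrix.sub_apply, map_sub, map_apply, one_apply, one_apply]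
      split_ifs <;> simp
    rw [this, hAπ, hBπ, Units.mul_inv, sub_self]
  have hm2 : (1 - B * A).map π = 0 := by
    have : (1 - B * A).map π = (1 : Matrix (Fin n) (Fin n) Q) - B.map π * A.map π := by
      rw [← Matrix.map_mul]
      ext i j
      rw [map_apply, Matrix.sub_apply, Matrix.sub_apply, map_sub, map_apply, one_apply, one_apply]
      split_ifs <;> simp
    rw [this, hAπ, hBπ, Units.inv_mul, sub_self]
  obtain ⟨l, σ, ρ, hρ, e1⟩ := hfac _ hm1
  obtain ⟨l', τ, ρ', hρ', e2⟩ := hfac _ hm2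
  obtain ⟨Ξ, h1, h2⟩ := Expl_core r hr A B σ ρ τ ρ' (by rw [← e1]; abel) (by rw [← e2]; abel)
    hρ hρ' _ rfl
  refine ⟨l, l', fromRows (fromBlocks A σ 0 1) (fromCols ρ' 0), Ξ, σ.map π, h1, h2, ?_, ?_⟩
  · rintro (i | i) (j | j)
    · exact congrFun (congrFun hAπ i) j
    · rfl
    · exact map_zero π
    · change π ((1 : Matrix (Fin l) (Fin l) T) i j) = (1 : Matrix (Fin l) (Fin l) Q) i j
      rw [one_apply, one_apply]
      split_ifs <;> simp
  · rintro i (j | j)
    · exact hρ' i j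
    · exact r.zero_mem

end Pool.Agent.Hier
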