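import Pool.Agent.Lib.MP_8f66f0_al_Hier.SpecG

/-! The tree of an amalgam gives `OneStep` data. -/

set_option autoImplicit false

namespace Pool.Agent.Hier

open Pool.Agent.Wald

section

variable {G : Type} [Group G] (T : AmTree G)

/-- Elements with a reduced word. -/
private inductive RW : G → Prop
  | e (g : G) : g ∈ T.A ⊓ T.B → RW g
  | a (a h : G) : a ∈ T.A → a ∉ T.B → h ∉ T.SA → RW h → RW (a * h)
  | b (b h : G) : b ∈ T.B → b ∉ T.A → h ∉ T.SB → RW h → RW (b * h)

variable {T}

private theorem RW.left_e {g : G} (h : RW T g) : ∀ e ∈ T.A ⊓ T.B, RW T (e * g) := by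
  intro e he
  cases h with
  | e g hg => exact RW.e _ ((T.A ⊓ T.B).mul_mem he hg)
  | a a h ha ha' hh hr =>
    rw [← mul_assoc]
    refine RW.a _ _ (T.A.mul_mem he.1 ha) (fun hc => ha' ?_) hh hr
    have := T.B.mul_mem (T.B.inv_mem he.2) hc
    rwa [inv_mul_cancel_left] at this
  | b b h hb hb' hh hr =>
    rw [← mul_assoc]
    refine RW.b _ _ (T.B.mul_mem he.2 hb) (fun hc => hb' ?_) hh hr
    have := T.A.mul_mem (T.A.inv_mem he.1) hc
    rwa [inv_mul_cancel_left] at this

private theorem one_SA : (1 : G) ∉ T.SA := fun h => T.disjA 1 h (one_mem _)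

private theorem one_SB : (1 : G) ∉ T.SB := fun h => T.disjB 1 h (one_mem _)

private theorem RW.left_a {g : G} (h : RW T g) : ∀ x ∈ T.A, RW T (x * g) := by
  intro x hx
  by_cases hxB : x ∈ T.B
  · exact h.left_e x ⟨hx, hxB⟩
  cases h with
  | e g hg =>
    by_cases hc : x * g ∈ T.B
    · exact RW.e _ ⟨T.A.mul_mem hx hg.1, hc⟩
    · have := RW.a (T := T) (x * g) 1 (T.A.mul_mem hx hg.1) hc one_SA (RW.e _ (one_mem _))
      rwa [mul_one] at this
  | a a h ha ha' hh hr =>
    rw [← mul_assoc]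
    by_cases hc : x * a ∈ T.B
    · exact hr.left_e _ ⟨T.A.mul_mem hx ha, hc⟩
    · exact RW.a _ _ (T.A.mul_mem hx ha) hc hh hr
  | b b h hb hb' hh hr =>
    exact RW.a _ _ hx hxB (fun hc => T.disj _ hc (T.leftB b hb hb' h hh).1) (RW.b _ _ hb hb' hh hr)

private theorem RW.left_b {g : G} (h : RW T g) : ∀ x ∈ T.B, RW T (x * g) := by
  intro x hx
  by_cases hxA : x ∈ T.A
  · exact h.left_e x ⟨hxA, hx⟩
  cases h with
  | e g hg =>
    by_cases hc : x * g ∈ T.A
    · exact RW.e _ ⟨hc, T.B.mul_mem hx hg.2⟩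
    · have := RW.b (T := T) (x * g) 1 (T.B.mul_mem hx hg.2) hc one_SB (RW.e _ (one_mem _))
      rwa [mul_one] at this
  | b b h hb hb' hh hr =>
    rw [← mul_assoc]
    by_cases hc : x * b ∈ T.A
    · exact hr.left_e _ ⟨hc, T.B.mul_mem hx hb⟩
    · exact RW.b _ _ (T.B.mul_mem hx hb) hc hh hr
  | a a h ha ha' hh hr =>
    exact RW.b _ _ hx hxA (fun hc => T.disj _ (T.leftA a ha ha' h hh).1 hc)
      (RW.a _ _ ha ha' hh hr)

private theorem rw_all (g : G) : RW T g := by
  have hg : g ∈ Subgroup.closure ((T.A : Set G) ∪ T.B) := by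
    rw [T.gen]
    exact Subgroup.mem_top g
  induction hg using Subgroup.closure_induction_left with
  | one => exact RW.e _ (one_mem _)
  | mul_left x hx y _ ih =>
    rcases hx with hx | hx
    · exact ih.left_a x hx
    · exact ih.left_b x hx
  | inv_mul_cancel x hx y _ ih =>
    rcases hx with hx | hx
    · exact ih.left_a _ (T.A.inv_mem hx)
    · exact ih.left_b _ (T.B.inv_mem hx)

private theorem ex_a (g : G) : ∃ a ∈ T.A, a * g ∉ T.SA := by
  by_cases hg : g ∈ T.SA
  · cases rw_all (T := T) g with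
    | e _ he => exact absurd he (T.disjA _ hg)
    | a a h ha ha' hh hr =>
      refine ⟨a⁻¹, T.A.inv_mem ha, ?_⟩
      rwa [inv_mul_cancel_left]
    | b b h hb hb' hh hr => exact absurd (T.leftB b hb hb' h hh).1 (T.disj _ hg)
  · exact ⟨1, one_mem _, by rwa [one_mul]⟩

private theorem ex_b (g : G) : ∃ b ∈ T.B, b * g ∉ T.SB := by
  by_cases hg : g ∈ T.SB
  · cases rw_all (T := T) g with
    | e _ he => exact absurd he (T.disjB _ hg)
    | b b h hb hb' hh hr =>
      refine ⟨b⁻¹, T.B.inv_mem hb, ?_⟩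
      rwa [inv_mul_cancel_left]
    | a a h ha ha' hh hr => exact absurd hg (T.disj _ (T.leftA a ha ha' h hh).1)
  · exact ⟨1, one_mem _, by rwa [one_mul]⟩

end

/-- The coset of the inverse. -/
private def vx {G : Type} [Group G] (A : Subgroup G) (x : G) : G ⧸ A := (x⁻¹ : G)

private theorem vx_eq {G : Type} [Group G] {A : Subgroup G} {x x' : G} :
    vx A x = vx A x' ↔ x * x'⁻¹ ∈ A := by
  rw [vx, vx, QuotientGroup.eq, inv_inv]

private theorem smul_vx {G : Type} [Group G] {A : Subgroup G} (x e : G) :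
    e⁻¹ • vx A x = vx A (x * e) := by
  rw [vx, vx, mul_inv_rev]
  rfl

private theorem vx_one {G : Type} [Group G] {A : Subgroup G} : vx A (1 : G) = ((1 : G) : G ⧸ A) := by
  rw [vx, inv_one]

theorem gam : S_gam := by
  intro G _ T
  classical
  have hex : ∀ v : G ⧸ T.A, ∃ y : G, y ∉ T.SA ∧ vx T.A y = v := by
    intro v
    induction v using QuotientGroup.induction_on with
    | H g =>
      obtain ⟨a, ha, h⟩ := ex_a (T := T) g⁻¹
      refine ⟨a * g⁻¹, h, ?_⟩
      rw [vx, QuotientGroup.eq, inv_inv, inv_mul_cancel_right]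
      exact ha
  choose y hy hyv using hex
  choose b hb hbS using ex_b (T := T)
  -- `y_v` belongs to `SB` if `v ≠ v₀`
  have hySB : ∀ v, v ≠ ((1 : G) : G ⧸ T.A) → y v ∈ T.SB := by
    intro v hv
    rcases T.cover (y v) with h | h | h
    · exfalso
      apply hv
      rw [← hyv v, ← vx_one, vx_eq, inv_one, mul_one]
      exact h.1
    · exact absurd h (hy v)
    · exact h
  have hbA : ∀ v, v ≠ ((1 : G) : G ⧸ T.A) → b (y v) ∉ T.A := by
    intro v hv hc
    exact hbS (y v) (T.leftEB _ ⟨hc, hb _⟩ _ (hySB v hv))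
  -- the key statement
  have key : ∀ z β γ : G, β ∈ T.B → γ ∈ T.B → γ * z ∉ T.SB →
      dl z (vx T.A (β * z)) (vx T.A (γ * z)) ∈ AddSubgroup.closure
        {x | ∃ c ∈ T.B, ∃ v', v' ≠ ((1 : G) : G ⧸ T.A) ∧
          x = dl (c * y v') v' (vx T.A (b (y v') * y v'))} := by
    intro z β γ hβ hγ hz
    by_cases heq : vx T.A (β * z) = vx T.A (γ * z)
    · rw [heq, dl, sub_self]
      exact zero_mem _
    have h1 : γ * β⁻¹ ∉ T.A := by
      intro hc
      apply heq
      rw [vx_eq, mul_inv_rev, mul_assoc, mul_inv_cancel_left]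
      have := T.A.inv_mem hc
      rwa [mul_inv_rev, inv_inv] at this
    have h1' : β * γ⁻¹ ∉ T.A := by
      intro hc
      apply h1
      have := T.A.inv_mem hc
      rwa [mul_inv_rev, inv_inv] at this
    have h2 : β * z ∈ T.SB := by
      have := (T.leftB (β * γ⁻¹) (T.B.mul_mem hβ (T.B.inv_mem hγ)) h1' (γ * z) hz).1
      rwa [mul_assoc, inv_mul_cancel_left] at this
    have h3 : β * z ∉ T.SA := fun hc => T.disj _ hc h2
    set v' := vx T.A (β * z) with hv'
    -- `y_v' = a β z`
    have h4 : y v' * (β * z)⁻¹ ∈ T.A := by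
      rw [← vx_eq, hyv]
    set a := y v' * (β * z)⁻¹ with ha
    have hya : y v' = a * (β * z) := by
      rw [ha, inv_mul_cancel_right]
    have h5 : a ∈ T.B := by
      by_contra hc
      exact hy v' (by rw [hya]; exact (T.leftA a h4 hc _ h3).1)
    have h6 : v' ≠ ((1 : G) : G ⧸ T.A) := by
      intro hc
      rw [hv', ← vx_one, vx_eq, inv_one, mul_one] at hc
      by_cases hB : β * z ∈ T.B
      · exact T.disjB _ h2 ⟨hc, hB⟩
      · have := (T.leftA _ hc hB 1 one_SA).1
        rw [mul_one] at this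
        exact h3 this
    -- the parent
    have h7 : vx T.A (b (y v') * y v') = vx T.A (γ * z) := by
      by_contra hc
      have h8 : b (y v') * y v' * (γ * z)⁻¹ ∉ T.A := fun h => hc (vx_eq.2 h)
      have h9 : b (y v') * y v' * (γ * z)⁻¹ ∈ T.B := by
        have : b (y v') * y v' * (γ * z)⁻¹ = b (y v') * a * β * γ⁻¹ := by
          rw [hya]
          group
        rw [this]
        exact T.B.mul_mem (T.B.mul_mem (T.B.mul_mem (hb _) h5) hβ) (T.B.inv_mem hγ)
      have h10 := (T.leftB _ h9 h8 (γ * z) hz).1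
      rw [inv_mul_cancel_right] at h10
      exact hbS (y v') h10
    refine AddSubgroup.subset_closure ⟨(a * β)⁻¹, T.B.inv_mem (T.B.mul_mem h5 hβ), v', h6, ?_⟩
    rw [h7]
    congr 1
    rw [hya]
    group
  refine ⟨{ p := fun v => vx T.A (b (y v) * y v), rk := fun v => T.len (y v), y := y,
            rk_lt := ?_, mem := ?_ }⟩
  · intro v hv
    have h1 : T.len (y v) = T.len (b (y v) * y v) + 1 := by
      have := (T.leftB (b (y v))⁻¹ (T.B.inv_mem (hb _)) (fun hc => hbA v hv (by
        have := T.A.inv_mem hc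
        rwa [inv_inv] at this)) (b (y v) * y v) (hbS _)).2
      rwa [inv_mul_cancel_left] at this
    set v' := vx T.A (b (y v) * y v) with hv'
    have h2 : y v' * (b (y v) * y v)⁻¹ ∈ T.A := by
      rw [← vx_eq, hyv]
    set a := y v' * (b (y v) * y v)⁻¹ with ha
    have hya : y v' = a * (b (y v) * y v) := by
      rw [ha, inv_mul_cancel_right]
    change T.len (y v') < T.len (y v)
    by_cases haB : a ∈ T.B
    · rw [hya, T.lenE a ⟨h2, haB⟩, h1]
      exact Nat.lt_succ_self _
    · have h3 : b (y v) * y v ∈ T.SA := by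
        by_contra hc
        exact hy v' (by rw [hya]; exact (T.leftA a h2 haB _ hc).1)
      have h4 := (T.leftA a⁻¹ (T.A.inv_mem h2) (fun hc => haB (by
        have := T.B.inv_mem hc
        rwa [inv_inv] at this)) (y v') (hy v')).2
      rw [hya, inv_mul_cancel_left, ← hya] at h4
      omega
  · intro v hv e
    have hbv : b (y v) ∈ T.B := hb _
    obtain ⟨γ, hγ, hγS⟩ := ex_b (T := T) (y v * e)
    have h1 := key (y v * e) 1 γ (one_mem _) hγ hγS
    have h2 := key (y v * e) (b (y v)) γ hbv hγ hγS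
    have h3 := AddSubgroup.sub_mem _ h1 h2
    have h4 : dl (y v * e) (vx T.A (1 * (y v * e))) (vx T.A (γ * (y v * e))) -
        dl (y v * e) (vx T.A (b (y v) * (y v * e))) (vx T.A (γ * (y v * e))) =
        dl (y v * e) (e⁻¹ • v) (e⁻¹ • vx T.A (b (y v) * y v)) := by
      rw [one_mul, smul_vx (b (y v) * y v) e, mul_assoc (b (y v)) (y v) e, ← smul_vx (y v) e, hyv]
      unfold dl
      abel
    rw [h4] at h3
    exact h3

end Pool.Agent.Hier
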