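import Pool.Agent.Lib.MP_8f66f0_al_Hier.SpecG

/-! The tree of an HNN extension gives `OneStep` data. -/

set_option autoImplicit false

namespace Pool.Agent.Hier

open Pool.Agent.Wald

section

variable {G : Type} [Group G] (T : HnnTree G)

/-- The coset of the inverse. -/
private def vh (x : G) : G ⧸ T.H := (x⁻¹ : G)

private theorem vh_eq {x x' : G} : vh T x = vh T x' ↔ x * x'⁻¹ ∈ T.H := by
  rw [vh, vh, QuotientGroup.eq, inv_inv]

private theorem smul_vh (x e : G) : e⁻¹ • vh T x = vh T (x * e) := by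
  rw [vh, vh, mul_inv_rev]
  rfl

private theorem vh_one : vh T (1 : G) = ((1 : G) : G ⧸ T.H) := by
  rw [vh, inv_one]

/-- `y⁻¹ t H`, the other end of the edge of `y`. -/
private def vt (y : G) : G ⧸ T.H := vh T (T.t⁻¹ * y)

private theorem smul_vt (x e : G) : e⁻¹ • vt T x = vt T (x * e) := by
  rw [vt, smul_vh, mul_assoc, vt]

/-- `y` is the edge from `v` towards the root. -/
private def Gd (y : G) (v : G ⧸ T.H) : Prop :=
  (y ∈ T.V ∧ vh T y = v) ∨ (y ∉ T.V ∧ vt T y = v)

open Classical in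
/-- The end of the edge of `y` towards the root. -/
private noncomputable def pr (y : G) : G ⧸ T.H := if y ∈ T.V then vt T y else vh T y

private theorem notV {y : G} (h : y ∈ T.H) : y ∉ T.V := by
  intro hy
  have := T.rightH y hy y⁻¹ (T.H.inv_mem h)
  rw [mul_inv_cancel] at this
  exact T.one_notMem this

private theorem E_H {e : G} (h : e ∈ T.E) : e ∈ T.H := ((T.memE e).1 h).1

private theorem E_V {e g : G} (he : e ∈ T.E) : e * g ∈ T.V ↔ g ∈ T.V := by
  constructor
  · intro h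
    have := T.leftE e⁻¹ (T.E.inv_mem he) _ h
    rwa [inv_mul_cancel_left] at this
  · exact T.leftE e he g

private theorem V_H {g h : G} (hh : h ∈ T.H) : g * h ∈ T.V ↔ g ∈ T.V := by
  constructor
  · intro hg
    have := T.rightH _ hg h⁻¹ (T.H.inv_mem hh)
    rwa [mul_inv_cancel_right] at this
  · exact fun hg => T.rightH g hg h hh

/-- The elements `x` such that `x⁻¹ H` is the root or has an edge towards the root. -/
private def Ex (x : G) : Prop := vh T x = ((1 : G) : G ⧸ T.H) ∨ ∃ y, Gd T y (vh T x)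

private theorem vh_root {x : G} : vh T x = ((1 : G) : G ⧸ T.H) ↔ x ∈ T.H := by
  rw [← vh_one, vh_eq, inv_one, mul_one]

private theorem Ex.mulH {x : G} (hx : Ex T x) {h : G} (hh : h ∈ T.H) : Ex T (x * h) := by
  rcases hx with hx | ⟨y, hy⟩
  · left
    rw [vh_root] at hx ⊢
    exact T.H.mul_mem hx hh
  · right
    refine ⟨y * h, ?_⟩
    rcases hy with ⟨h1, h2⟩ | ⟨h1, h2⟩
    · left
      refine ⟨(V_H T hh).2 h1, ?_⟩
      rw [← smul_vh, ← smul_vh, h2]
    · right
      refine ⟨fun hc => h1 ((V_H T hh).1 hc), ?_⟩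
      rw [← smul_vt, ← smul_vh, h2]

private theorem Ex.mult {x : G} (hx : Ex T x) : Ex T (x * T.t) := by
  rcases hx with hx | ⟨y, hy⟩
  · right
    refine ⟨T.t, Or.inl ⟨T.t_mem, ?_⟩⟩
    rw [vh_root] at hx
    rw [vh_eq, mul_inv_rev, mul_inv_cancel_left]
    exact T.H.inv_mem hx
  · by_cases hE : y ∈ T.E
    · rcases hy with ⟨h1, h2⟩ | ⟨h1, h2⟩
      · exact absurd h1 (notV T (E_H T hE))
      · left
        rw [← smul_vh, ← h2, smul_vt, vt, vh_root, ← mul_assoc]
        exact ((T.memE y).1 hE).2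
    · right
      refine ⟨y * T.t, ?_⟩
      rcases hy with ⟨h1, h2⟩ | ⟨h1, h2⟩
      · left
        refine ⟨(T.edge y hE).1 h1, ?_⟩
        rw [← smul_vh, ← smul_vh, h2]
      · right
        refine ⟨fun hc => h1 ((T.edge y hE).2 hc), ?_⟩
        rw [← smul_vt, ← smul_vh, h2]

private theorem Ex.multi {x : G} (hx : Ex T x) : Ex T (x * T.t⁻¹) := by
  rcases hx with hx | ⟨y, hy⟩
  · right
    refine ⟨1, Or.inr ⟨T.one_notMem, ?_⟩⟩
    rw [vh_root] at hx
    rw [vt, vh_eq, mul_one, mul_inv_rev, inv_inv, inv_mul_cancel_left]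
    exact T.H.inv_mem hx
  · by_cases hE : y * T.t⁻¹ ∈ T.E
    · rcases hy with ⟨h1, h2⟩ | ⟨h1, h2⟩
      · left
        rw [← smul_vh, ← h2, smul_vh, vh_root]
        exact E_H T hE
      · exfalso
        apply h1
        have := T.leftE _ hE T.t T.t_mem
        rwa [inv_mul_cancel_right] at this
    · right
      refine ⟨y * T.t⁻¹, ?_⟩
      have hed := T.edge _ hE
      rw [inv_mul_cancel_right] at hed
      rcases hy with ⟨h1, h2⟩ | ⟨h1, h2⟩
      · left
        refine ⟨hed.2 h1, ?_⟩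
        rw [← smul_vh, ← smul_vh, h2]
      · right
        refine ⟨fun hc => h1 (hed.1 hc), ?_⟩
        rw [← smul_vt, ← smul_vh, h2]

private theorem ex_all (x : G) : Ex T x := by
  have hg : x ∈ Subgroup.closure ((T.H : Set G) ∪ {T.t}) := by
    rw [T.gen]
    exact Subgroup.mem_top x
  induction hg using Subgroup.closure_induction_right with
  | one => exact Or.inl (vh_one T)
  | mul_right x _ y hy ih =>
    rcases hy with hy | hy
    · exact ih.mulH T hy
    · rw [Set.mem_singleton_iff.1 hy]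
      exact ih.mult T
  | mul_inv_cancel x _ y hy ih =>
    rcases hy with hy | hy
    · exact ih.mulH T (T.H.inv_mem hy)
    · rw [Set.mem_singleton_iff.1 hy]
      exact ih.multi T

/-- Uniqueness of the edge towards the root. -/
private theorem uniq {y y' : G} {v : G ⧸ T.H} (h : Gd T y v) (h' : Gd T y' v) :
    ∃ e ∈ T.E, y' = e * y := by
  rcases h with ⟨h1, h2⟩ | ⟨h1, h2⟩ <;> rcases h' with ⟨h1', h2'⟩ | ⟨h1', h2'⟩
  · have h3 : y' * y⁻¹ ∈ T.H := (vh_eq T).1 (h2'.trans h2.symm)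
    refine ⟨y' * y⁻¹, ?_, (inv_mul_cancel_right _ _).symm⟩
    by_contra hc
    have := (T.mp _ h3 hc y (Or.inr h1)).1
    rw [inv_mul_cancel_right] at this
    exact this h1'
  · exfalso
    have h3 : y * (T.t⁻¹ * y')⁻¹ ∈ T.H := (vh_eq T).1 (h2.trans h2'.symm)
    have := (T.mm _ h3 y' h1').1
    apply this
    rw [show y * (T.t⁻¹ * y')⁻¹ * T.t⁻¹ * y' = y by group]
    exact h1
  · exfalso
    have h3 : y' * (T.t⁻¹ * y)⁻¹ ∈ T.H := (vh_eq T).1 (h2'.trans h2.symm)
    have := (T.mm _ h3 y h1).1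
    apply this
    rw [show y' * (T.t⁻¹ * y)⁻¹ * T.t⁻¹ * y = y' by group]
    exact h1'
  · have h3 : T.t⁻¹ * y' * (T.t⁻¹ * y)⁻¹ ∈ T.H := (vh_eq T).1 (h2'.trans h2.symm)
    have h4 : T.t * (T.t⁻¹ * y' * (T.t⁻¹ * y)⁻¹) * T.t⁻¹ = y' * y⁻¹ := by group
    refine ⟨y' * y⁻¹, ?_, (inv_mul_cancel_right _ _).symm⟩
    by_contra hc
    rw [← h4] at hc
    have := (T.pm _ h3 hc y h1).1
    rw [h4, inv_mul_cancel_right] at this
    exact h1' this

private theorem pr_E {e y : G} (he : e ∈ T.E) : pr T (e * y) = pr T y := by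
  have h1 : vh T (e * y) = vh T y := by
    rw [vh_eq, mul_inv_cancel_right]
    exact E_H T he
  have h2 : vt T (e * y) = vt T y := by
    rw [vt, vt, vh_eq, show T.t⁻¹ * (e * y) * (T.t⁻¹ * y)⁻¹ = T.t⁻¹ * e * T.t by group]
    exact ((T.memE e).1 he).2
  unfold pr
  by_cases hy : y ∈ T.V
  · rw [if_pos hy, if_pos ((E_V T he).2 hy), h2]
  · rw [if_neg hy, if_neg (fun hc => hy ((E_V T he).1 hc)), h1]

/-- The length drops towards the root. -/
private theorem len_lt {x y : G} (h : Gd T x (pr T y)) : T.len x < T.len y := by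
  unfold pr at h
  by_cases hy : y ∈ T.V
  · rw [if_pos hy] at h
    rcases h with ⟨h1, h2⟩ | ⟨h1, h2⟩
    · have h3 : T.t⁻¹ * y * x⁻¹ ∈ T.H := (vh_eq T).1 h2.symm
      have h4 := (T.pp _ h3 x (Or.inr h1)).2
      rw [show T.t * (T.t⁻¹ * y * x⁻¹) * x = y by group] at h4
      omega
    · have h3 : T.t⁻¹ * y * (T.t⁻¹ * x)⁻¹ ∈ T.H := (vh_eq T).1 h2.symm
      have h5 : T.t * (T.t⁻¹ * y * (T.t⁻¹ * x)⁻¹) * T.t⁻¹ = y * x⁻¹ := by group
      by_cases hE : y * x⁻¹ ∈ T.E
      · exfalso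
        apply h1
        rw [← E_V T hE, inv_mul_cancel_right]
        exact hy
      · have h4 := (T.pm _ h3 (by rwa [h5]) x h1).2
        rw [h5, inv_mul_cancel_right] at h4
        omega
  · rw [if_neg hy] at h
    rcases h with ⟨h1, h2⟩ | ⟨h1, h2⟩
    · have h3 : y * x⁻¹ ∈ T.H := (vh_eq T).1 h2.symm
      by_cases hE : y * x⁻¹ ∈ T.E
      · exfalso
        apply hy
        have := (E_V T hE).2 h1
        rwa [inv_mul_cancel_right] at this
      · have h4 := (T.mp _ h3 hE x (Or.inr h1)).2.2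
        rw [inv_mul_cancel_right] at h4
        omega
    · have h3 : y * (T.t⁻¹ * x)⁻¹ ∈ T.H := (vh_eq T).1 h2.symm
      have h4 := (T.mm _ h3 x h1).2.2
      rw [show y * (T.t⁻¹ * x)⁻¹ * T.t⁻¹ * x = y by group] at h4
      omega

private theorem gd_root {z : G} {v : G ⧸ T.H} (h : Gd T z v) : v ≠ ((1 : G) : G ⧸ T.H) := by
  rintro rfl
  rcases h with ⟨h1, h2⟩ | ⟨h1, h2⟩
  · exact notV T ((vh_root T).1 h2) h1
  · have h3 : T.t⁻¹ * z ∈ T.H := (vh_root T).1 h2
    have h4 := (T.pp _ h3 1 (Or.inl T.E.one_mem)).1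
    rw [mul_one, mul_inv_cancel_left] at h4
    exact h1 h4

end

theorem ghnn : S_ghnn := by
  intro G _ T
  classical
  have hex : ∀ v : G ⧸ T.H, v ≠ ((1 : G) : G ⧸ T.H) → ∃ y : G, Gd T y v := by
    intro v
    induction v using QuotientGroup.induction_on with
    | H g =>
      intro hv
      have h := ex_all T g⁻¹
      have h1 : vh T g⁻¹ = (g : G ⧸ T.H) := by rw [vh, inv_inv]
      rcases h with h | h
      · exact absurd (h1.symm.trans h) hv
      · rwa [h1] at h
  have hex' : ∀ v : G ⧸ T.H, ∃ y : G, v ≠ ((1 : G) : G ⧸ T.H) → Gd T y v := by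
    intro v
    by_cases hv : v = ((1 : G) : G ⧸ T.H)
    · exact ⟨1, fun h => absurd hv h⟩
    · obtain ⟨y, hy⟩ := hex v hv
      exact ⟨y, fun _ => hy⟩
  choose y hy using hex'
  -- the closure contains `z ⊗ (ends of the edge of z)`
  have key : ∀ (z : G) (v : G ⧸ T.H), Gd T z v →
      dl z v (pr T z) ∈ AddSubgroup.closure
        {x | ∃ c ∈ T.E, ∃ v', v' ≠ ((1 : G) : G ⧸ T.H) ∧
          x = dl (c * y v') v' (pr T (y v'))} := by
    intro z v hz
    have hv := gd_root T hz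
    obtain ⟨e, he, hze⟩ := uniq T (hy v hv) hz
    refine AddSubgroup.subset_closure ⟨e, he, v, hv, ?_⟩
    rw [← hze]
    congr 1
    rw [hze, pr_E T he]
  refine ⟨{ p := fun v => pr T (y v),
            rk := fun v => if v = ((1 : G) : G ⧸ T.H) then 0 else T.len (y v) + 1,
            y := y, rk_lt := ?_, mem := ?_ }⟩
  · intro v hv
    change (if pr T (y v) = ((1 : G) : G ⧸ T.H) then 0 else T.len (y (pr T (y v))) + 1) <
      if v = ((1 : G) : G ⧸ T.H) then 0 else T.len (y v) + 1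
    rw [if_neg hv]
    by_cases h : pr T (y v) = ((1 : G) : G ⧸ T.H)
    · rw [if_pos h]
      exact Nat.succ_pos _
    · rw [if_neg h]
      exact Nat.succ_lt_succ (len_lt T (hy _ h))
  · intro v hv e
    change dl (y v * e) (e⁻¹ • v) (e⁻¹ • pr T (y v)) ∈ _
    have hz : ∀ z : G, dl z (vh T z) (vt T z) ∈ AddSubgroup.closure
        {x | ∃ c ∈ T.E, ∃ v', v' ≠ ((1 : G) : G ⧸ T.H) ∧
          x = dl (c * y v') v' (pr T (y v'))} ∧
        dl z (vt T z) (vh T z) ∈ AddSubgroup.closure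
        {x | ∃ c ∈ T.E, ∃ v', v' ≠ ((1 : G) : G ⧸ T.H) ∧
          x = dl (c * y v') v' (pr T (y v'))} := by
      intro z
      have hneg : ∀ v v' : G ⧸ T.H, dl z v v' = -dl z v' v := by
        intro v v'
        rw [dl, dl, neg_sub]
      by_cases hzV : z ∈ T.V
      · have h := key z (vh T z) (Or.inl ⟨hzV, rfl⟩)
        rw [pr, if_pos hzV] at h
        refine ⟨h, ?_⟩
        rw [hneg]
        exact neg_mem h
      · have h := key z (vt T z) (Or.inr ⟨hzV, rfl⟩)
        rw [pr, if_neg hzV] at h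
        refine ⟨?_, h⟩
        rw [hneg]
        exact neg_mem h
    rcases hy v hv with ⟨h1, h2⟩ | ⟨h1, h2⟩
    · rw [pr, if_pos h1]
      have h3 := (hz (y v * e)).1
      rwa [← smul_vh, ← smul_vt, h2] at h3
    · rw [pr, if_neg h1]
      have h3 := (hz (y v * e)).2
      rwa [← smul_vh, ← smul_vt, h2] at h3

end Pool.Agent.Hier
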