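import Pool.Agent.Lib.MP_8f66f0_al_Hier.SpecP

/-! The map from the base change to the Laurent series. -/

set_option autoImplicit false

namespace Pool.Agent.Hier

open Pool.Agent.Wald Pool.Agent.Ind
open scoped TensorProduct

section HomAux

variable (LL L : Type) [CommRing LL] [Ring L] [Algebra LL L]

/-- The Laurent series with coefficients mapped to the algebra. -/
private noncomputable def homMap : Lau LL →+* LaurentSeries L where
  toFun x := HahnSeries.map (show LaurentSeries LL from x) (algebraMap LL L)
  map_one' := by
    apply HahnSeries.ext
    funext k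
    show (HahnSeries.map (1 : LaurentSeries LL) (algebraMap LL L)).coeff k = _
    rw [HahnSeries.map_coeff, HahnSeries.coeff_one, HahnSeries.coeff_one]
    split_ifs
    · exact map_one _
    · exact map_zero _
  map_mul' x y := HahnSeries.map_mul ((algebraMap LL L : LL →+* L) : LL →ₙ+* L)
  map_zero' := by
    apply HahnSeries.ext
    funext k
    show (HahnSeries.map (0 : LaurentSeries LL) (algebraMap LL L)).coeff k = _
    rw [HahnSeries.map_coeff, HahnSeries.coeff_zero, HahnSeries.coeff_zero, map_zero]
  map_add' x y := by
    apply HahnSeries.ext
    funext k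
    show (HahnSeries.map ((show LaurentSeries LL from x) + (show LaurentSeries LL from y))
      (algebraMap LL L)).coeff k = _
    rw [HahnSeries.map_coeff, HahnSeries.coeff_add, HahnSeries.coeff_add, HahnSeries.map_coeff,
      HahnSeries.map_coeff, map_add]

private theorem homMap_coeff (x : Lau LL) (k : ℤ) :
    (homMap LL L x).coeff k = algebraMap LL L ((show LaurentSeries LL from x).coeff k) := by
  change (HahnSeries.map (show LaurentSeries LL from x) (algebraMap LL L)).coeff k = _
  rw [HahnSeries.map_coeff]

private theorem homMap_comm (x : Lau LL) (y : L) :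
    Commute (homMap LL L x) (HahnSeries.C y) := by
  change homMap LL L x * HahnSeries.single 0 y = HahnSeries.single 0 y * homMap LL L x
  apply HahnSeries.ext
  funext k
  rw [HahnSeries.coeff_mul_single_zero, HahnSeries.coeff_single_zero_mul, homMap_coeff]
  exact Algebra.commutes _ _

end HomAux

/-- P-a. The map from the base change to the Laurent series. -/
theorem hom : S_Hom := by
  intro LL L _ _ _
  let f : Lau LL →ₐ[LL] LaurentSeries L :=
    { homMap LL L with
      commutes' := fun r => by
        show homMap LL L (algebraMap LL (Lau LL) r) = algebraMap LL (LaurentSeries L) r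
        rw [HahnSeries.algebraMap_apply]
        apply HahnSeries.ext
        funext k
        rw [homMap_coeff]
        show algebraMap LL L ((HahnSeries.single 0 r : LaurentSeries LL).coeff k) =
          (HahnSeries.single 0 (algebraMap LL L r) : LaurentSeries L).coeff k
        rw [HahnSeries.coeff_single, HahnSeries.coeff_single]
        split_ifs
        · rfl
        · exact map_zero _ }
  let c : L →ₐ[LL] LaurentSeries L :=
    { (HahnSeries.C : L →+* LaurentSeries L) with
      commutes' := fun r => by
        show HahnSeries.C (algebraMap LL L r) = algebraMap LL (LaurentSeries L) r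
        rw [HahnSeries.algebraMap_apply] }
  let φ : Lau LL ⊗[LL] L →ₐ[LL] LaurentSeries L :=
    Algebra.TensorProduct.lift f c fun x y => homMap_comm LL L x y
  refine ⟨(φ : Lau LL ⊗[LL] L →+* LaurentSeries L), fun a x k => ?_⟩
  have h1 : φ ((show Lau LL from a) ⊗ₜ[LL] x) = f a * c x := Algebra.TensorProduct.lift_tmul _ _ _ _ _
  show (φ ((show Lau LL from a) ⊗ₜ[LL] x)).coeff k = _
  rw [h1]
  show (homMap LL L a * HahnSeries.single 0 x).coeff k = _
  rw [HahnSeries.coeff_mul_single_zero, Algebra.smul_def]
  exact congrArg (fun y => y * x) (homMap_coeff LL L (show Lau LL from a) k)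

end Pool.Agent.Hier
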