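import Pool.Agent.Lib.MP_8f66f0_al_Hier.SpecP

/-! Module Idx: the index of an idempotent matrix. -/

set_option autoImplicit false

namespace Pool.Agent.Hier

open Pool.Agent.Wald Pool.Agent.Ind Matrix

theorem idx : S_Idx := by
  intro T Q _ _ _ _ v D
  obtain ⟨κ, hκ⟩ := exists_index v D
  refine ⟨κ, fun n p hp => ?_⟩
  obtain ⟨h2, h3⟩ := index_idem v D p hp
  rw [hκ (Fin n) _ 0 h3 (by
    intro i j
    rw [pow_zero, mul_one, Matrix.add_apply, Matrix.sub_apply, Matrix.map_apply]
    unfold up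
    rw [Matrix.map_apply]
    refine v.P.add_mem (v.P.sub_mem ?_ (v.P.smul_mem _ v.one_mem))
      (v.mul_mem _ (v.P.smul_mem _ v.one_mem) _ v.y_mem)
    rw [Matrix.one_apply]
    split_ifs
    · exact v.one_mem
    · exact v.P.zero_mem), h2]

end Pool.Agent.Hier
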