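import Pool.Agent.Lib.MP_8f66f0_al_Hier.SpecT

/-! Block U: `SL` passes to isomorphic groups. -/

set_option autoImplicit false

namespace Pool.Agent.Hier

open Pool.Agent.Wald Pool.Agent.Ind

/-- U3. Isomorphic groups. -/
theorem iso : S_iso := by
  intro LL E E' _ _ _ e hSL Q' Q I _ _ _ _ _ f ρ w hLT
  let ρ' : E →* Q' := ρ.comp (e : E →* E')
  let ψ : MonoidAlgebra LL E →ₐ[LL] MonoidAlgebra LL E' :=
    MonoidAlgebra.lift LL (MonoidAlgebra LL E') E ((MonoidAlgebra.of LL E').comp (e : E →* E'))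
  let ψ' : MonoidAlgebra LL E' →ₐ[LL] MonoidAlgebra LL E :=
    MonoidAlgebra.lift LL (MonoidAlgebra LL E) E'
      ((MonoidAlgebra.of LL E).comp (e.symm : E' →* E))
  have h1 : ∀ r, gr LL ρ (ψ r) = gr LL ρ' r := by
    intro r
    have h : (gr LL ρ).comp ψ = gr LL ρ' := by
      refine MonoidAlgebra.algHom_ext (fun x => ?_) (by ext)
      simp [ψ, ρ', gr]
    exact DFunLike.congr_fun h r
  have h2 : ∀ r, ψ (ψ' r) = r := by
    intro r
    have h : ψ.comp ψ' = AlgHom.id LL _ := by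
      refine MonoidAlgebra.algHom_ext (fun x => ?_) (by ext)
      simp [ψ, ψ']
    exact DFunLike.congr_fun h r
  have h3 : ∀ r, ψ' (ψ r) = r := by
    intro r
    have h : ψ'.comp ψ = AlgHom.id LL _ := by
      refine MonoidAlgebra.algHom_ext (fun x => ?_) (by ext)
      simp [ψ, ψ']
    exact DFunLike.congr_fun h r
  refine hSL Q' Q I f ρ' w ⟨hLT.free, ?_, ?_⟩
  · intro i q
    obtain ⟨c, x, hx⟩ := hLT.right i q
    refine ⟨c, x.mapRange ψ' (map_zero ψ'), ?_⟩
    rw [hx, Finsupp.sum_mapRange_index]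
    · congr 1
      refine Finsupp.sum_congr fun j _ => ?_
      rw [← h1, h2]
    · intro j
      rw [map_zero, map_zero, zero_mul]
  · obtain ⟨s, hs⟩ := hLT.ret
    refine ⟨ψ'.toLinearMap.comp s, fun x => ?_⟩
    show ψ' (s (gr LL ρ' x)) = x
    rw [← h1, hs, h3]

end Pool.Agent.Hier
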