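import Pool.Agent.Lib.MP_8f66f0_al_Hier.SpecT

/-! Module Ker: the kernel of `T → Q`. -/

set_option autoImplicit false

namespace Pool.Agent.Hier

open Pool.Agent.Wald Pool.Agent.Ind

private theorem ker_ev_add {Q' T Λ : Type} [Ring Q'] [Ring T] (f : Q' →+* T) (ℓ : Λ → T)
    (x y : List Λ →₀ Q') : ev f ℓ (x + y) = ev f ℓ x + ev f ℓ y := by
  unfold ev
  exact Finsupp.sum_add_index' (fun u => by rw [map_zero, zero_mul])
    (fun u q q' => by rw [map_add, add_mul])

private theorem ker_ev_single {Q' T Λ : Type} [Ring Q'] [Ring T] (f : Q' →+* T) (ℓ : Λ → T)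
    (u : List Λ) (q : Q') : ev f ℓ (Finsupp.single u q) = f q * wd ℓ u := by
  unfold ev
  exact Finsupp.sum_single_index (by rw [map_zero, zero_mul])

private theorem ker_ev_zero {Q' T Λ : Type} [Ring Q'] [Ring T] (f : Q' →+* T) (ℓ : Λ → T) :
    ev f ℓ 0 = 0 := Finsupp.sum_zero_index

section

variable {J T : Type} [Ring T] (d : J → T)

private theorem ker_mul_right {x : T}
    (hx : x ∈ AddSubgroup.closure {s | ∃ t₁ b t₂, s = t₁ * d b * t₂}) (t : T) :
    x * t ∈ AddSubgroup.closure {s | ∃ t₁ b t₂, s = t₁ * d b * t₂} := by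
  induction hx using AddSubgroup.closure_induction with
  | mem s hs =>
    obtain ⟨t₁, b, t₂, rfl⟩ := hs
    exact AddSubgroup.subset_closure ⟨t₁, b, t₂ * t, by simp only [mul_assoc]⟩
  | zero =>
    rw [zero_mul]
    exact zero_mem _
  | add x y _ _ hx hy =>
    rw [add_mul]
    exact add_mem hx hy
  | neg x _ hx =>
    rw [neg_mul]
    exact neg_mem hx

/-- A word either has no letter `d`, or it lies in the ideal. -/
private theorem ker_word {I : Type} (a : I → T) (u : List (I ⊕ J)) :
    (∃ u' : List I, u = u'.map Sum.inl) ∨ ∀ t₀ : T, t₀ * wd (Sum.elim a d) u ∈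
      AddSubgroup.closure {s | ∃ t₁ b t₂, s = t₁ * d b * t₂} := by
  induction u with
  | nil => exact Or.inl ⟨[], rfl⟩
  | cons l u ih =>
    rcases l with i | b
    · rcases ih with ⟨u', rfl⟩ | ih
      · exact Or.inl ⟨i :: u', rfl⟩
      · refine Or.inr fun t₀ => ?_
        change t₀ * (wd (Sum.elim a d) u * a i) ∈ _
        rw [← mul_assoc]
        exact ker_mul_right d (ih t₀) (a i)
    · refine Or.inr fun t₀ => AddSubgroup.subset_closure ⟨t₀ * wd (Sum.elim a d) u, b, 1, ?_⟩
      change t₀ * (wd (Sum.elim a d) u * d b) = _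
      rw [mul_one, mul_assoc]

end

theorem ker : S_ker := by
  intro LL Q' Q I J T _ _ _ _ _ _ _ f g w a d π hT hQ h1 h2 h3 t ht
  set N := AddSubgroup.closure {s : T | ∃ t₁ b t₂, s = t₁ * d b * t₂} with hN
  have hπN : ∀ s ∈ N, π s = 0 := by
    intro s hs
    rw [hN] at hs
    induction hs using AddSubgroup.closure_induction with
    | mem s hs =>
      obtain ⟨t₁, b, t₂, rfl⟩ := hs
      rw [map_mul, map_mul, h3, mul_zero, zero_mul]
    | zero => exact map_zero π
    | add x y _ _ hx hy => rw [map_add, hx, hy, add_zero]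
    | neg x _ hx => rw [map_neg, hx, neg_zero]
  have hwd : ∀ u : List I, wd (Sum.elim a d) (u.map Sum.inl) = wd a u := by
    intro u
    induction u with
    | nil => rfl
    | cons i u ih =>
      change wd (Sum.elim a d) (u.map Sum.inl) * a i = wd a u * a i
      rw [ih]
  have hπwd : ∀ u : List I, π (wd a u) = wd w u := by
    intro u
    induction u with
    | nil => exact map_one π
    | cons i u ih =>
      change π (wd a u * a i) = wd w u * w i
      rw [map_mul, ih, h2]
  have hπev : ∀ z : List I →₀ Q', π (ev (f : Q' →+* T) a z) = ev (g : Q' →+* Q) w z := by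
    intro z
    induction z using Finsupp.induction_linear with
    | zero => rw [ker_ev_zero, ker_ev_zero, map_zero]
    | add x y hx hy => rw [ker_ev_add, ker_ev_add, map_add, hx, hy]
    | single u q =>
      rw [ker_ev_single, ker_ev_single, map_mul, hπwd]
      exact congrArg (· * wd w u) (h1 q)
  -- the part without letters `d`
  have key : ∀ x : List (I ⊕ J) →₀ Q', ∃ z : List I →₀ Q',
      ev (f : Q' →+* T) (Sum.elim a d) x - ev (f : Q' →+* T) a z ∈ N := by
    intro x
    induction x using Finsupp.induction_linear with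
    | zero =>
      refine ⟨0, ?_⟩
      rw [ker_ev_zero, ker_ev_zero, sub_zero]
      exact zero_mem _
    | add x y hx hy =>
      obtain ⟨z, hz⟩ := hx
      obtain ⟨z', hz'⟩ := hy
      refine ⟨z + z', ?_⟩
      rw [ker_ev_add, ker_ev_add, add_sub_add_comm]
      exact add_mem hz hz'
    | single u q =>
      rcases ker_word d a u with ⟨u', rfl⟩ | hu
      · refine ⟨Finsupp.single u' q, ?_⟩
        rw [ker_ev_single, ker_ev_single, hwd, sub_self]
        exact zero_mem _
      · refine ⟨0, ?_⟩
        rw [ker_ev_single, ker_ev_zero, sub_zero]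
        exact hu _
  obtain ⟨x, rfl⟩ := hT.2 t
  obtain ⟨z, hz⟩ := key x
  have h4 := hπN _ hz
  rw [map_sub, ht, hπev, zero_sub, neg_eq_zero, ← ker_ev_zero (g : Q' →+* Q) w] at h4
  have h5 : z = 0 := hQ.1 h4
  rw [h5, ker_ev_zero, sub_zero] at hz
  exact hz

end Pool.Agent.Hier
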