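import Pool.Agent.Lib.MP_8f66f0_al_Hier.SpecT

/-! Block T: `SL LL A` applies to `Q' → T(E/A)`. -/

set_option autoImplicit false

namespace Pool.Agent.Hier

open Pool.Agent.Wald Pool.Agent.Ind

private theorem kq_lin_add {Q' T Λ : Type} [Ring Q'] [Ring T] (f : Q' →+* T) (ℓ : Λ → T)
    (x y : Λ →₀ Q') : lin f ℓ (x + y) = lin f ℓ x + lin f ℓ y := by
  unfold lin
  rw [Finsupp.sum_add_index']
  · intro a
    rw [map_zero, zero_mul]
  · intro a b c
    rw [map_add, add_mul]

private theorem kq_lin_zero {Q' T Λ : Type} [Ring Q'] [Ring T] (f : Q' →+* T) (ℓ : Λ → T) :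
    lin f ℓ 0 = 0 := Finsupp.sum_zero_index

private theorem kq_lin_single {Q' T Λ : Type} [Ring Q'] [Ring T] (f : Q' →+* T) (ℓ : Λ → T)
    (a : Λ) (q : Q') : lin f ℓ (Finsupp.single a q) = f q * ℓ a := by
  unfold lin
  rw [Finsupp.sum_single_index]
  rw [map_zero, zero_mul]

private noncomputable def kq_hom {Q' T Λ : Type} [Ring Q'] [Ring T] (f : Q' →+* T) (ℓ : Λ → T) :
    (Λ →₀ Q') →+ T where
  toFun := lin f ℓ
  map_zero' := kq_lin_zero f ℓ
  map_add' := kq_lin_add f ℓ

private theorem kq_tw {LL E Q' V I T : Type} [CommRing LL] [Group E] [Ring Q'] [Algebra LL Q']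
    [Ring T] [MulAction E V] (ρ : E →* Q') (f : Q' →+* T) (ℓ : V × I → T) (v : V)
    (x : I →₀ MonoidAlgebra LL E) :
    lin f ℓ (tw ρ v x) =
      x.sum fun j r => r.coeff.sum fun e t => f (t • ρ e) * ℓ (e⁻¹ • v, j) := by
  have h1 : lin f ℓ (tw ρ v x) = kq_hom f ℓ (tw ρ v x) := rfl
  rw [h1, tw, Finsupp.sum, map_sum, Finsupp.sum]
  refine Finset.sum_congr rfl fun j _ => ?_
  rw [Finsupp.sum, map_sum, Finsupp.sum]
  refine Finset.sum_congr rfl fun e _ => ?_
  exact kq_lin_single _ _ _ _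

/-- The restriction of the coefficients to a subgroup. -/
private noncomputable def kq_res {LL E : Type} [CommRing LL] [Group E] (A : Subgroup E) :
    MonoidAlgebra LL E →ₗ[LL] MonoidAlgebra LL A where
  toFun r := MonoidAlgebra.ofCoeff (r.coeff.comapDomain A.subtype
    (A.subtype_injective.injOn))
  map_add' r s := by
    ext a
    rfl
  map_smul' t r := by
    ext a
    rfl

/-- T2. `SL LL A` applies to `Q' → T(E/A)`. -/
theorem ktquot (h : S_change) : S_ktquot := by
  classical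
  intro LL E Q' I T _ _ _ _ _ ρ D A _ _ f ℓ hSL hT hret
  -- representatives
  have hrep : ∀ v : E ⧸ A, ∃ s : E, ((s⁻¹ : E) : E ⧸ A) = v := by
    intro v
    obtain ⟨x, hx⟩ := QuotientGroup.mk_surjective v
    exact ⟨x⁻¹, by rw [inv_inv]; exact hx⟩
  choose sv hsv using hrep
  let ℓ' : (E ⧸ A) × I → T := fun a => f (ρ (sv a.1)) * ℓ a
  have hCl : Cl (f : Q' →+* T) ℓ := by
    rintro ⟨v, i⟩ q
    exact ⟨_, _, hT.rel v i q⟩
  obtain ⟨hfree, -⟩ := h Q' T ((E ⧸ A) × I) ((E ⧸ A) × I) (f : Q' →+* T) ℓ ℓ'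
    (fun a => Finsupp.single a (ρ (sv a.1))) (fun a => Finsupp.single a (ρ (sv a.1)⁻¹))
    hT.free hCl
    (fun a => by
      rw [kq_lin_single]
      rfl)
    (fun a => by
      rw [Finsupp.sum_single_index (by rw [zero_smul])]
      rw [Finsupp.smul_single, smul_eq_mul, ← map_mul, mul_inv_cancel, map_one])
    (fun a => by
      rw [Finsupp.sum_single_index (by rw [zero_smul])]
      rw [Finsupp.smul_single, smul_eq_mul, ← map_mul, inv_mul_cancel, map_one])
  -- the elements of `A`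
  have hA : ∀ (v : E ⧸ A) (e : E), sv v * e * (sv (e⁻¹ • v))⁻¹ ∈ A := by
    intro v e
    have h1 : (((sv v * e)⁻¹ : E) : E ⧸ A) = e⁻¹ • v := by
      rw [mul_inv_rev]
      conv_rhs => rw [← hsv v]
      rfl
    have h2 : (((sv v * e)⁻¹ : E) : E ⧸ A) = (((sv (e⁻¹ • v))⁻¹ : E) : E ⧸ A) := by
      rw [h1, hsv]
    rw [QuotientGroup.eq, inv_inv] at h2
    exact h2
  let ρ' : A →* Q' := ρ.comp A.subtype
  have hmul : ∀ (v : E ⧸ A) (e : E) (t : LL) (j : I),
      f (ρ (sv v)) * (f (t • ρ e) * ℓ (e⁻¹ • v, j)) =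
      f (gr LL ρ' (MonoidAlgebra.single ⟨_, hA v e⟩ t)) * ℓ' (e⁻¹ • v, j) := by
    intro v e t j
    show _ = f (gr LL ρ' (MonoidAlgebra.single ⟨_, hA v e⟩ t)) *
      (f (ρ (sv (e⁻¹ • v))) * ℓ (e⁻¹ • v, j))
    rw [← mul_assoc, ← mul_assoc, ← map_mul, ← map_mul]
    congr 2
    have h1 : gr LL ρ' (MonoidAlgebra.single ⟨_, hA v e⟩ t) =
        t • ρ (sv v * e * (sv (e⁻¹ • v))⁻¹) := MonoidAlgebra.lift_single _ _ _
    rw [h1, smul_mul_assoc, ← map_mul, inv_mul_cancel_right, map_mul, mul_smul_comm]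
  have hlt : IsLT LL f ρ' ℓ' := by
    refine ⟨hfree, ?_, ?_⟩
    · rintro ⟨v, i⟩ q
      let F : (((E ⧸ A) × I) →₀ MonoidAlgebra LL A) →+ T :=
        Finsupp.liftAddHom fun j =>
          (AddMonoidHom.mulRight (ℓ' j)).comp
            ((f : Q' →+* T).toAddMonoidHom.comp (gr LL ρ' : MonoidAlgebra LL A →+* Q').toAddMonoidHom)
      have hF : ∀ x : ((E ⧸ A) × I) →₀ MonoidAlgebra LL A,
          (x.sum fun j r => f (gr LL ρ' r) * ℓ' j) = F x := fun x => rfl
      refine ⟨ρ (sv v) * D.c i q, (D.x i q).sum fun j r => r.coeff.sum fun e t =>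
        Finsupp.single (e⁻¹ • v, j) (MonoidAlgebra.single ⟨_, hA v e⟩ t), ?_⟩
      rw [hF, Finsupp.sum, map_sum]
      show f (ρ (sv v)) * ℓ (v, i) * f q = _
      rw [mul_assoc, hT.rel, mul_add, ← map_mul]
      congr 1
      rw [kq_tw, Finsupp.sum, Finset.mul_sum]
      refine Finset.sum_congr rfl fun j _ => ?_
      rw [Finsupp.sum, Finset.mul_sum, Finsupp.sum, map_sum]
      refine Finset.sum_congr rfl fun e _ => ?_
      have h2 : F (Finsupp.single (e⁻¹ • v, j) (MonoidAlgebra.single ⟨_, hA v e⟩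
          (((D.x i q) j).coeff e))) = f (gr LL ρ' (MonoidAlgebra.single ⟨_, hA v e⟩
          (((D.x i q) j).coeff e))) * ℓ' (e⁻¹ • v, j) := by
        rw [← hF, Finsupp.sum_single_index]
        rw [map_zero, map_zero, zero_mul]
      rw [h2]
      exact hmul v e _ j
    · obtain ⟨s, hs⟩ := hret
      refine ⟨(kq_res A).comp s, fun x => ?_⟩
      let ι : MonoidAlgebra LL A →ₐ[LL] MonoidAlgebra LL E :=
        MonoidAlgebra.lift LL (MonoidAlgebra LL E) A ((MonoidAlgebra.of LL E).comp A.subtype)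
      have h1 : ∀ r, gr LL ρ (ι r) = gr LL ρ' r := by
        intro r
        have h : (gr LL ρ).comp ι = gr LL ρ' := by
          refine MonoidAlgebra.algHom_ext (fun x => ?_) (by ext)
          simp [ι, ρ', gr]
        exact DFunLike.congr_fun h r
      have h2 : ∀ r, kq_res A (ι r) = r := by
        intro r
        induction r using MonoidAlgebra.induction_linear with
        | zero => rw [map_zero, map_zero]
        | add x y hx hy => rw [map_add, map_add, hx, hy]
        | single a t =>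
          have h3 : ι (MonoidAlgebra.single a t) = MonoidAlgebra.single (a : E) t := by
            simp [ι]
          rw [h3]
          ext b
          show (MonoidAlgebra.single (a : E) t : MonoidAlgebra LL E).coeff (b : E) =
            (MonoidAlgebra.single a t : MonoidAlgebra LL A).coeff b
          by_cases hab : a = b
          · subst hab
            simp
          · have hab' : (a : E) ≠ (b : E) := fun h => hab (Subtype.ext h)
            simp [MonoidAlgebra.coeff_single, hab, hab']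
      show kq_res A (s (gr LL ρ' x)) = x
      rw [← h1, hs, h2]
  exact hSL Q' T ((E ⧸ A) × I) f ρ' ℓ' hlt

end Pool.Agent.Hier
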