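import Pool.Agent.Lib.MP_8f66f0_al_Hier.SpecT

set_option autoImplicit false

namespace Pool.Agent.Hier

open Pool.Agent.Wald Pool.Agent.Ind

private theorem lt_lin_single {Q' T Λ : Type} [Ring Q'] [Ring T] (f : Q' →+* T) (ℓ : Λ → T)
    (x : Λ) (q : Q') : lin f ℓ (Finsupp.single x q) = f q * ℓ x := by
  unfold lin
  rw [Finsupp.sum_single_index]
  simp

private theorem lt_lin_add {Q' T Λ : Type} [Ring Q'] [Ring T] (f : Q' →+* T) (ℓ : Λ → T)
    (x y : Λ →₀ Q') : lin f ℓ (x + y) = lin f ℓ x + lin f ℓ y := by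
  classical
  unfold lin
  rw [Finsupp.sum_add_index']
  · simp
  · intros
    rw [map_add, add_mul]

private noncomputable def ltLin {Q' T Λ : Type} [Ring Q'] [Ring T] (f : Q' →+* T) (ℓ : Λ → T) :
    (Λ →₀ Q') →+ T where
  toFun := lin f ℓ
  map_zero' := by simp [lin]
  map_add' := lt_lin_add f ℓ

private theorem lt_lin_sub {Q' T Λ : Type} [Ring Q'] [Ring T] (f : Q' →+* T) (ℓ : Λ → T)
    (x y : Λ →₀ Q') : lin f ℓ (x - y) = lin f ℓ x - lin f ℓ y :=
  (ltLin f ℓ).map_sub x y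

private noncomputable def ltC {E Q' I : Type} [Group E] [Ring Q'] (ρ : E →* Q')
    (A C : Subgroup E) (O : OneStep E A C) (i : I) (v : E ⧸ A) :
    (I ⊕ ({v : E ⧸ A // v ≠ ((1 : E) : E ⧸ A)} × I)) →₀ Q' :=
  open Classical in
  if h : v = ((1 : E) : E ⧸ A) then Finsupp.single (Sum.inl i) 1
  else Finsupp.single (Sum.inr (⟨v, h⟩, i)) (ρ (O.y v)⁻¹) + ltC ρ A C O i (O.p v)
termination_by O.rk v
decreasing_by exact O.rk_lt v h

private theorem ltC_one {E Q' I : Type} [Group E] [Ring Q'] (ρ : E →* Q')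
    (A C : Subgroup E) (O : OneStep E A C) (i : I) :
    ltC ρ A C O i ((1 : E) : E ⧸ A) = Finsupp.single (Sum.inl i) 1 := by
  rw [ltC]
  simp

private theorem ltC_ne {E Q' I : Type} [Group E] [Ring Q'] (ρ : E →* Q')
    (A C : Subgroup E) (O : OneStep E A C) (i : I) (v : E ⧸ A) (h : v ≠ ((1 : E) : E ⧸ A)) :
    ltC ρ A C O i v = Finsupp.single (Sum.inr (⟨v, h⟩, i)) (ρ (O.y v)⁻¹) +
      ltC ρ A C O i (O.p v) := by
  rw [ltC]
  simp [h]

private noncomputable def ltB {E Q' I : Type} [Group E] [Ring Q'] (ρ : E →* Q')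
    (A C : Subgroup E) (O : OneStep E A C) :
    (I ⊕ ({v : E ⧸ A // v ≠ ((1 : E) : E ⧸ A)} × I)) → ((E ⧸ A) × I) →₀ Q'
  | Sum.inl i => Finsupp.single (((1 : E) : E ⧸ A), i) 1
  | Sum.inr p => Finsupp.single ((p.1 : E ⧸ A), p.2) (ρ (O.y p.1)) -
      Finsupp.single (O.p p.1, p.2) (ρ (O.y p.1))

private theorem lt_bc {E Q' I : Type} [Group E] [Ring Q'] (ρ : E →* Q')
    (A C : Subgroup E) (O : OneStep E A C)
    (a : I ⊕ ({v : E ⧸ A // v ≠ ((1 : E) : E ⧸ A)} × I)) :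
    ((ltB ρ A C O a).sum fun x r => r • ltC ρ A C O x.2 x.1) = Finsupp.single a 1 := by
  rcases a with i | ⟨⟨v, hv⟩, i⟩
  · show ((Finsupp.single (((1 : E) : E ⧸ A), i) (1 : Q')).sum fun x r =>
      r • ltC ρ A C O x.2 x.1) = _
    rw [Finsupp.sum_single_index (by simp)]
    rw [one_smul]
    exact ltC_one ρ A C O i
  · show ((Finsupp.single (v, i) (ρ (O.y v)) - Finsupp.single (O.p v, i) (ρ (O.y v))).sum
      fun x r => r • ltC ρ A C O x.2 x.1) = _
    rw [Finsupp.sum_sub_index (fun x r r' => sub_smul r r' _),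
      Finsupp.sum_single_index (by simp), Finsupp.sum_single_index (by simp)]
    show ρ (O.y v) • ltC ρ A C O i v - ρ (O.y v) • ltC ρ A C O i (O.p v) = _
    rw [ltC_ne ρ A C O i v hv, smul_add, add_sub_cancel_right, Finsupp.smul_single,
      smul_eq_mul, ← map_mul, mul_inv_cancel, map_one]

private theorem lt_cb {E Q' I : Type} [Group E] [Ring Q'] (ρ : E →* Q')
    (A C : Subgroup E) (O : OneStep E A C) (i : I) : ∀ (n : ℕ) (v : E ⧸ A), O.rk v ≤ n →
    ((ltC ρ A C O i v).sum fun a r => r • ltB ρ A C O a) = Finsupp.single (v, i) 1 := by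
  classical
  have h1 : ((ltC ρ A C O i ((1 : E) : E ⧸ A)).sum fun a r => r • ltB ρ A C O a) =
      Finsupp.single (((1 : E) : E ⧸ A), i) 1 := by
    rw [ltC_one, Finsupp.sum_single_index (by simp), one_smul]
    rfl
  have hstep : ∀ v : E ⧸ A, v ≠ ((1 : E) : E ⧸ A) →
      ((ltC ρ A C O i (O.p v)).sum fun a r => r • ltB ρ A C O a) =
        Finsupp.single (O.p v, i) 1 →
      ((ltC ρ A C O i v).sum fun a r => r • ltB ρ A C O a) = Finsupp.single (v, i) 1 := by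
    intro v hv ih
    rw [ltC_ne ρ A C O i v hv, Finsupp.sum_add_index' (by simp) (fun a r r' => add_smul r r' _),
      ih, Finsupp.sum_single_index (by simp)]
    show ρ (O.y v)⁻¹ • (Finsupp.single (v, i) (ρ (O.y v)) -
      Finsupp.single (O.p v, i) (ρ (O.y v))) + _ = _
    rw [smul_sub, Finsupp.smul_single, Finsupp.smul_single, smul_eq_mul, ← map_mul,
      inv_mul_cancel, map_one, sub_add_cancel]
  intro n
  induction n with
  | zero =>
    intro v hn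
    by_cases hv : v = ((1 : E) : E ⧸ A)
    · rw [hv]
      exact h1
    · have := O.rk_lt v hv
      omega
  | succ n ih =>
    intro v hn
    by_cases hv : v = ((1 : E) : E ⧸ A)
    · rw [hv]
      exact h1
    · have := O.rk_lt v hv
      exact hstep v hv (ih (O.p v) (by omega))

section

variable {LL E Q' I T : Type} [CommRing LL] [Group E] [Ring Q'] [Algebra LL Q'] [Ring T]
  [Algebra LL T]

private noncomputable def ltPsi (ρ : E →* Q') {A : Subgroup E} (f : Q' →ₐ[LL] T)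
    (ℓ : (E ⧸ A) × I → T) (j : I) : (((E ⧸ A) × E) →₀ ℤ) →+ T :=
  Finsupp.liftAddHom fun p => zmultiplesHom T (f (ρ p.2) * ℓ (p.1, j))

private theorem ltPsi_dl (ρ : E →* Q') {A : Subgroup E} (f : Q' →ₐ[LL] T)
    (ℓ : (E ⧸ A) × I → T) (j : I) (y : E) (v v' : E ⧸ A) :
    ltPsi ρ f ℓ j (dl y v v') = f (ρ y) * (ℓ (v, j) - ℓ (v', j)) := by
  unfold ltPsi dl
  rw [map_sub, Finsupp.liftAddHom_apply_single, Finsupp.liftAddHom_apply_single, mul_sub]
  simp

private theorem lt_lin_tw (ρ : E →* Q') {V : Type} [MulAction E V] (f : Q' →ₐ[LL] T)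
    (ℓ : V × I → T) (v : V) (x : I →₀ MonoidAlgebra LL E) :
    lin (f : Q' →+* T) ℓ (tw ρ v x) = ∑ j ∈ x.support, ∑ e ∈ (x j).coeff.support,
      (x j).coeff e • (f (ρ e) * ℓ (e⁻¹ • v, j)) := by
  have h : lin (f : Q' →+* T) ℓ (tw ρ v x) = ltLin (f : Q' →+* T) ℓ (tw ρ v x) := rfl
  rw [h]
  unfold tw Finsupp.sum
  rw [map_sum]
  refine Finset.sum_congr rfl fun j _ => ?_
  rw [map_sum]
  refine Finset.sum_congr rfl fun e _ => ?_
  show lin (f : Q' →+* T) ℓ (Finsupp.single (e⁻¹ • v, j) ((x j).coeff e • ρ e)) = _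
  rw [lt_lin_single]
  show f ((x j).coeff e • ρ e) * ℓ (e⁻¹ • v, j) = _
  rw [map_smul, smul_mul_assoc]

end

theorem letters (h : S_change) : S_letters := by
  intro LL E Q' I T _ _ _ _ _ _ ρ D A C O f ℓ hTV a d ha hd
  have hCl : Cl (f : Q' →+* T) ℓ := fun p q => ⟨D.c p.2 q, tw ρ p.1 (D.x p.2 q), hTV.rel p.1 p.2 q⟩
  have hch := h Q' T ((E ⧸ A) × I) (I ⊕ ({v : E ⧸ A // v ≠ ((1 : E) : E ⧸ A)} × I))
    (f : Q' →+* T) ℓ (Sum.elim a d) (ltB ρ A C O) (fun x => ltC ρ A C O x.2 x.1) hTV.free hCl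
    (by
      rintro (i | ⟨v, i⟩)
      · show a i = lin (f : Q' →+* T) ℓ (Finsupp.single (((1 : E) : E ⧸ A), i) 1)
        rw [lt_lin_single, map_one, one_mul]
        exact ha i
      · show d (v, i) = lin (f : Q' →+* T) ℓ (Finsupp.single ((v : E ⧸ A), i) (ρ (O.y v)) -
          Finsupp.single (O.p v, i) (ρ (O.y v)))
        rw [lt_lin_sub, lt_lin_single, lt_lin_single, ← mul_sub]
        exact hd v i)
    (fun x => lt_bc ρ A C O x)
    (fun x => lt_cb ρ A C O x.2 (O.rk x.1) x.1 le_rfl)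
  refine ⟨hch.1, hch.2, ?_⟩
  rintro ⟨v, i⟩ q
  set M : Submodule LL T := Submodule.span LL {t | ∃ c ∈ C, ∃ b', t = f (ρ c) * d b'} with hM
  have hcl : ∀ (j : I) (z : ((E ⧸ A) × E) →₀ ℤ), z ∈ AddSubgroup.closure
      {x | ∃ c ∈ C, ∃ v', v' ≠ ((1 : E) : E ⧸ A) ∧ x = dl (c * O.y v') v' (O.p v')} →
      ltPsi ρ f ℓ j z ∈ M := by
    intro j z hz
    have hle : AddSubgroup.closure
        {x | ∃ c ∈ C, ∃ v', v' ≠ ((1 : E) : E ⧸ A) ∧ x = dl (c * O.y v') v' (O.p v')} ≤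
        M.toAddSubgroup.comap (ltPsi ρ f ℓ j) := by
      rw [AddSubgroup.closure_le]
      rintro x ⟨c, hc, v', hv', rfl⟩
      show ltPsi ρ f ℓ j _ ∈ M
      rw [ltPsi_dl, map_mul, map_mul, mul_assoc]
      refine Submodule.subset_span ⟨c, hc, (⟨v', hv'⟩, j), ?_⟩
      rw [hd ⟨v', hv'⟩ j]
    exact hle hz
  have h1 : d (v, i) * f q = f (ρ (O.y v)) * (lin (f : Q' →+* T) ℓ (tw ρ (v : E ⧸ A) (D.x i q)) -
      lin (f : Q' →+* T) ℓ (tw ρ (O.p v) (D.x i q))) := by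
    rw [hd v i, mul_assoc, sub_mul, hTV.rel, hTV.rel, add_sub_add_left_eq_sub]
  rw [h1, lt_lin_tw, lt_lin_tw, ← Finset.sum_sub_distrib, Finset.mul_sum]
  refine Submodule.sum_mem _ fun j _ => ?_
  rw [← Finset.sum_sub_distrib, Finset.mul_sum]
  refine Submodule.sum_mem _ fun e _ => ?_
  rw [← smul_sub, mul_smul_comm]
  refine Submodule.smul_mem _ _ ?_
  rw [← mul_sub, ← mul_assoc, ← map_mul, ← map_mul, ← ltPsi_dl]
  exact hcl j _ (O.mem v v.2 e)

end Pool.Agent.Hier
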