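import Pool.Agent.Lib.MP_8f66f0_al_Hier.SpecC

/-! The universal property of the ring of a letter system. -/

set_option autoImplicit false

namespace Pool.Agent.Hier

open Pool.Agent.Wald Pool.Agent.Ind

section LiftAux

variable {LL Q' Λ T Z : Type} [CommRing LL] [Ring Q'] [Algebra LL Q'] [Ring T] [Algebra LL T]
  [Ring Z] [Algebra LL Z]

/-- `ev` as a linear map. -/
private noncomputable def lift_ev (f : Q' →ₐ[LL] T) (ℓ : Λ → T) : (List Λ →₀ Q') →ₗ[LL] T :=
  Finsupp.lsum LL fun u => (LinearMap.mulRight LL (wd ℓ u)).comp f.toLinearMap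

private theorem lift_ev_apply (f : Q' →ₐ[LL] T) (ℓ : Λ → T) (x : List Λ →₀ Q') :
    lift_ev f ℓ x = ev (f : Q' →+* T) ℓ x := by
  rw [lift_ev, Finsupp.lsum_apply, ev]
  rfl

private theorem lift_single (f : Q' →ₐ[LL] T) (ℓ : Λ → T) (u : List Λ) (q : Q') :
    lift_ev f ℓ (Finsupp.single u q) = f q * wd ℓ u := by
  rw [lift_ev, Finsupp.lsum_single]
  rfl

private theorem lift_ind (f : Q' →ₐ[LL] T) (ℓ : Λ → T) (hs : Function.Surjective (lift_ev f ℓ))
    (P : T → Prop) (h0 : P 0) (ha : ∀ a b, P a → P b → P (a + b))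
    (h1 : ∀ q u, P (f q * wd ℓ u)) (t : T) : P t := by
  obtain ⟨x, rfl⟩ := hs t
  induction x using Finsupp.induction_linear with
  | zero => rw [map_zero]; exact h0
  | add x y hx hy => rw [map_add]; exact ha _ _ hx hy
  | single u q => rw [lift_single]; exact h1 q u

end LiftAux

/-- C2. The universal property. -/
theorem lift : S_lift := by
  intro LL Q' Λ T Z _ _ _ _ _ _ _ S f ℓ g z hf hfree hg
  have hbij : Function.Bijective (lift_ev f ℓ) := by
    have e : (lift_ev f ℓ : (List Λ →₀ Q') → T) = ev (f : Q' →+* T) ℓ :=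
      funext (lift_ev_apply f ℓ)
    rw [e]
    exact hfree
  let E : (List Λ →₀ Q') ≃ₗ[LL] T := LinearEquiv.ofBijective (lift_ev f ℓ) hbij
  let φ : T →ₗ[LL] Z := (lift_ev g z).comp E.symm.toLinearMap
  have hφ : ∀ x, φ (lift_ev f ℓ x) = lift_ev g z x := by
    intro x
    have e : E.symm (lift_ev f ℓ x) = x := E.symm_apply_apply x
    change lift_ev g z (E.symm (lift_ev f ℓ x)) = _
    rw [e]
  have hφ1 : ∀ q u, φ (f q * wd ℓ u) = g q * wd z u := by
    intro q u
    rw [← lift_single, hφ, lift_single]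
  have hφf : ∀ q, φ (f q) = g q := by
    intro q
    have h1 := hφ1 q []
    simp only [wd, mul_one] at h1
    exact h1
  have hB : ∀ (b : Λ) (t : T), φ (t * ℓ b) = φ t * z b := by
    intro b t
    refine lift_ind f ℓ hbij.surjective (fun t => φ (t * ℓ b) = φ t * z b) ?_ ?_ ?_ t
    · rw [zero_mul, map_zero, zero_mul]
    · intro a a' h1 h2
      rw [add_mul, map_add, map_add, add_mul, h1, h2]
    · intro q u
      have e : f q * wd ℓ u * ℓ b = f q * wd ℓ (b :: u) := by rw [wd, mul_assoc]
      rw [e, hφ1, hφ1, wd, mul_assoc]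
  have hA' : ∀ (u : List Λ) (q' q : Q'), φ (f q' * wd ℓ u * f q) = φ (f q' * wd ℓ u) * g q := by
    intro u
    induction u with
    | nil =>
      intro q' q
      simp only [wd, mul_one]
      rw [← map_mul, hφf, hφf, map_mul]
    | cons a u ih =>
      intro q' q
      have e1 : ℓ a * f q = f (S.c a q) + lin (f : Q' →+* T) ℓ (S.m a q) := hf a q
      have e2 : z a * g q = g (S.c a q) + lin (g : Q' →+* Z) z (S.m a q) := hg a q
      have e3 : f q' * wd ℓ (a :: u) * f q = f q' * wd ℓ u * f (S.c a q) +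
          (S.m a q).sum fun b r => f q' * wd ℓ u * f r * ℓ b := by
        rw [wd, mul_assoc, mul_assoc, e1, ← mul_assoc, mul_add, lin, Finsupp.mul_sum]
        congr 1
        refine Finsupp.sum_congr fun b _ => ?_
        rw [← mul_assoc]
        rfl
      rw [e3, map_add, ih, map_finsuppSum]
      have e4 : ∀ b, ∀ r : Q', φ (f q' * wd ℓ u * f r * ℓ b) =
          φ (f q' * wd ℓ u) * (g r * z b) := by
        intro b r
        rw [hB, ih, mul_assoc]
      have e5 : ((S.m a q).sum fun b r => φ (f q' * wd ℓ u * f r * ℓ b)) =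
          φ (f q' * wd ℓ u) * lin (g : Q' →+* Z) z (S.m a q) := by
        rw [lin, Finsupp.mul_sum]
        exact Finsupp.sum_congr fun b _ => e4 b _
      rw [e5, ← mul_add, ← e2, ← mul_assoc]
      have e6 : f q' * wd ℓ (a :: u) = f q' * wd ℓ u * ℓ a := by rw [wd, mul_assoc]
      rw [e6, hB]
  have hA : ∀ (q : Q') (t : T), φ (t * f q) = φ t * g q := by
    intro q t
    refine lift_ind f ℓ hbij.surjective (fun t => φ (t * f q) = φ t * g q) ?_ ?_ ?_ t
    · rw [zero_mul, map_zero, zero_mul]
    · intro a a' h1 h2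
      rw [add_mul, map_add, map_add, add_mul, h1, h2]
    · intro q' u
      exact hA' u q' q
  have hC' : ∀ (u : List Λ) (q : Q') (t : T), φ (t * (f q * wd ℓ u)) = φ t * φ (f q * wd ℓ u) := by
    intro u
    induction u with
    | nil =>
      intro q t
      simp only [wd, mul_one]
      rw [hA, hφf]
    | cons a u ih =>
      intro q t
      have e6 : f q * wd ℓ (a :: u) = f q * wd ℓ u * ℓ a := by rw [wd, mul_assoc]
      rw [e6, ← mul_assoc, hB, ih, hB, mul_assoc]
  have hC : ∀ t t' : T, φ (t * t') = φ t * φ t' := by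
    intro t t'
    refine lift_ind f ℓ hbij.surjective (fun t' => φ (t * t') = φ t * φ t') ?_ ?_ ?_ t'
    · rw [mul_zero, map_zero, mul_zero]
    · intro a a' h1 h2
      rw [mul_add, map_add, map_add, mul_add, h1, h2]
    · intro q u
      exact hC' u q t
  have hone : φ 1 = 1 := by
    have h1 := hφf 1
    have e1 : f 1 = 1 := map_one f
    have e2 : g 1 = 1 := map_one g
    rwa [e1, e2] at h1
  refine ⟨AlgHom.ofLinearMap φ hone hC, ?_, ?_, ?_⟩
  · intro q
    exact hφf q
  · intro a
    have h1 := hφ1 1 [a]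
    simp only [wd, one_mul, map_one] at h1
    exact h1
  · intro x
    rw [AlgHom.ofLinearMap_apply, ← lift_ev_apply, ← lift_ev_apply]
    exact hφ x

end Pool.Agent.Hier
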