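import Pool.Agent.Lib.MP_8f66f0_al_Hier.SpecC

/-! Block C, C3: structure constants exist. -/

set_option autoImplicit false

namespace Pool.Agent.Hier

open Pool.Agent.Wald Pool.Agent.Ind

section

variable {LL Q' T Λ : Type} [CommRing LL] [Ring Q'] [Algebra LL Q'] [Ring T] [Algebra LL T]

/-- `lin` as a linear map. -/
private noncomputable def lsL (f : Q' →ₐ[LL] T) (ℓ : Λ → T) : (Λ →₀ Q') →ₗ[LL] T :=
  Finsupp.lsum LL fun a => (LinearMap.mulRight LL (ℓ a)).comp f.toLinearMap

private theorem lsL_apply (f : Q' →ₐ[LL] T) (ℓ : Λ → T) (x : Λ →₀ Q') :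
    lsL f ℓ x = lin (f : Q' →+* T) ℓ x := by
  unfold lsL lin
  rw [Finsupp.lsum_apply]
  rfl

private theorem lsL_single (f : Q' →ₐ[LL] T) (ℓ : Λ → T) (a : Λ) (q : Q') :
    lsL f ℓ (Finsupp.single a q) = f q * ℓ a := by
  rw [lsL, Finsupp.lsum_single]
  rfl

private theorem lsL_smul (f : Q' →ₐ[LL] T) (ℓ : Λ → T) (r : Q') (x : Λ →₀ Q') :
    lsL f ℓ (r • x) = f r * lsL f ℓ x := by
  induction x using Finsupp.induction_linear with
  | zero => rw [smul_zero, map_zero, mul_zero]
  | add x y hx hy => rw [smul_add, map_add, map_add, hx, hy, mul_add]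
  | single a q => rw [Finsupp.smul_single, lsL_single, lsL_single, smul_eq_mul, map_mul, mul_assoc]

/-- The combinations of `1` and the letters. -/
private noncomputable def lsE (f : Q' →ₐ[LL] T) (ℓ : Λ → T) : (Q' × (Λ →₀ Q')) →ₗ[LL] T :=
  f.toLinearMap.coprod (lsL f ℓ)

private theorem lsE_apply (f : Q' →ₐ[LL] T) (ℓ : Λ → T) (c : Q') (x : Λ →₀ Q') :
    lsE f ℓ (c, x) = f c + lsL f ℓ x := by
  rw [lsE, LinearMap.coprod_apply]
  rfl

/-- `ev` as a linear map. -/
private noncomputable def lsV (f : Q' →ₐ[LL] T) (ℓ : Λ → T) : (List Λ →₀ Q') →ₗ[LL] T :=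
  Finsupp.lsum LL fun u => (LinearMap.mulRight LL (wd ℓ u)).comp f.toLinearMap

private theorem lsV_apply (f : Q' →ₐ[LL] T) (ℓ : Λ → T) (x : List Λ →₀ Q') :
    lsV f ℓ x = ev (f : Q' →+* T) ℓ x := by
  unfold lsV ev
  rw [Finsupp.lsum_apply]
  rfl

private theorem lsV_single (f : Q' →ₐ[LL] T) (ℓ : Λ → T) (u : List Λ) (q : Q') :
    lsV f ℓ (Finsupp.single u q) = f q * wd ℓ u := by
  rw [lsV, Finsupp.lsum_single]
  rfl

private theorem ls_map (f : Q' →ₐ[LL] T) (ℓ : Λ → T) (x : Λ →₀ Q') :
    lsV f ℓ (x.mapDomain fun a => [a]) = lsL f ℓ x := by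
  induction x using Finsupp.induction_linear with
  | zero => rw [Finsupp.mapDomain_zero, map_zero, map_zero]
  | add x y hx hy => rw [Finsupp.mapDomain_add, map_add, map_add, hx, hy]
  | single a q =>
    rw [Finsupp.mapDomain_single, lsL_single, lsV_single]
    change f q * (1 * ℓ a) = _
    rw [one_mul]

private theorem lsE_inj (f : Q' →ₐ[LL] T) (ℓ : Λ → T) (hf : FreeW (f : Q' →+* T) ℓ) :
    Function.Injective (lsE f ℓ) := by
  classical
  have hV : Function.Injective (lsV f ℓ) := by
    have h1 : (lsV f ℓ : (List Λ →₀ Q') → T) = ev (f : Q' →+* T) ℓ := funext (lsV_apply f ℓ)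
    rw [h1]
    exact hf.1
  have hinj : Function.Injective fun a : Λ => [a] := fun a b h => List.head_eq_of_cons_eq h
  have key : ∀ (c : Q') (x : Λ →₀ Q'), lsE f ℓ (c, x) =
      lsV f ℓ (Finsupp.single [] c + x.mapDomain fun a => [a]) := by
    intro c x
    rw [lsE_apply, map_add, ls_map, lsV_single]
    change f c + _ = f c * 1 + _
    rw [mul_one]
  rintro ⟨c, x⟩ ⟨c', x'⟩ h
  rw [key, key] at h
  have h1 := hV h
  have h2 : c = c' := by
    have h3 := DFunLike.congr_fun h1 []
    rw [Finsupp.add_apply, Finsupp.add_apply, Finsupp.single_eq_same, Finsupp.single_eq_same,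
      Finsupp.mapDomain_of_notMem_range, Finsupp.mapDomain_of_notMem_range, add_zero, add_zero] at h3
    · exact h3
    · rintro ⟨a, ha⟩
      exact List.cons_ne_nil _ _ ha
    · rintro ⟨a, ha⟩
      exact List.cons_ne_nil _ _ ha
  rw [h2] at h1
  have h3 := add_left_cancel h1
  have h4 := Finsupp.mapDomain_injective hinj h3
  rw [h2, h4]

end

/-- C3. Structure constants exist. -/
theorem ls : S_ls := by
  intro LL Q' Λ T _ _ _ _ _ f ℓ hf hCl
  have hE := lsE_inj f ℓ hf
  let M : Λ → Q' →ₗ[LL] T := fun a => (LinearMap.mulLeft LL (ℓ a)).comp f.toLinearMap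
  have hM : ∀ a q, M a q = ℓ a * f q := fun a q => rfl
  have hr : ∀ a q, M a q ∈ LinearMap.range (lsE f ℓ) := by
    intro a q
    obtain ⟨c, x, h⟩ := hCl a q
    refine ⟨(c, x), ?_⟩
    rw [lsE_apply, lsL_apply, hM]
    exact h.symm
  let G : Λ → Q' →ₗ[LL] (Q' × (Λ →₀ Q')) := fun a =>
    (LinearEquiv.ofInjective (lsE f ℓ) hE).symm.toLinearMap.comp
      (LinearMap.codRestrict (LinearMap.range (lsE f ℓ)) (M a) (hr a))
  have hG : ∀ a q, lsE f ℓ (G a q) = ℓ a * f q := by
    intro a q
    have h1 : (LinearEquiv.ofInjective (lsE f ℓ) hE) (G a q) =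
        LinearMap.codRestrict (LinearMap.range (lsE f ℓ)) (M a) (hr a) q :=
      LinearEquiv.apply_symm_apply _ _
    exact congrArg Subtype.val h1
  have hG1 : ∀ a, G a 1 = (0, Finsupp.single a 1) := by
    intro a
    apply hE
    rw [hG, lsE_apply, lsL_single, map_zero, map_one, mul_one, one_mul, zero_add]
  have hG2 : ∀ a q q', G a (q * q') = ((G a q).1 * q' + (G a q).2.sum fun b r => r * (G b q').1,
      (G a q).2.sum fun b r => r • (G b q').2) := by
    intro a q q'
    apply hE
    rw [hG, map_mul, ← mul_assoc, ← hG a q]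
    obtain ⟨c, x⟩ := G a q
    change lsE f ℓ (c, x) * f q' = lsE f ℓ (c * q' + x.sum fun b r => r * (G b q').1,
      x.sum fun b r => r • (G b q').2)
    rw [lsE_apply, lsE_apply, add_mul, map_add, map_mul, add_assoc]
    congr 1
    induction x using Finsupp.induction_linear with
    | zero => simp
    | add x y hx hy =>
      have s1 : ((x + y).sum fun b r => r * (G b q').1) =
          (x.sum fun b r => r * (G b q').1) + y.sum fun b r => r * (G b q').1 :=
        Finsupp.sum_add_index' (fun b => zero_mul _) fun b r s => add_mul _ _ _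
      have s2 : ((x + y).sum fun b r => r • (G b q').2) =
          (x.sum fun b r => r • (G b q').2) + y.sum fun b r => r • (G b q').2 :=
        Finsupp.sum_add_index' (fun b => zero_smul _ _) fun b r s => add_smul _ _ _
      rw [map_add, add_mul, hx, hy, s1, s2, map_add, map_add]
      abel
    | single b r =>
      have s1 : ((Finsupp.single b r).sum fun b r => r * (G b q').1) = r * (G b q').1 :=
        Finsupp.sum_single_index (zero_mul _)
      have s2 : ((Finsupp.single b r).sum fun b r => r • (G b q').2) = r • (G b q').2 :=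
        Finsupp.sum_single_index (zero_smul _ _)
      rw [lsL_single, s1, s2, mul_assoc, ← hG b q', lsL_smul, map_mul, ← mul_add, ← lsE_apply]
  refine ⟨{ c := fun a => (LinearMap.fst LL Q' (Λ →₀ Q')).comp (G a)
            m := fun a => (LinearMap.snd LL Q' (Λ →₀ Q')).comp (G a)
            c_one := fun a => ?_
            m_one := fun a => ?_
            c_mul := fun a q q' => ?_
            m_mul := fun a q q' => ?_ }, fun a q => ?_⟩
  · exact congrArg Prod.fst (hG1 a)
  · exact congrArg Prod.snd (hG1 a)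
  · exact congrArg Prod.fst (hG2 a q q')
  · exact congrArg Prod.snd (hG2 a q q')
  · have h1 := hG a q
    rw [← lsL_apply]
    exact h1.symm

end Pool.Agent.Hier
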