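import Pool.Agent.Lib.MP_8f66f0_al_WaldL.NilV

/-! Decomposition of vectors over `LL[G]` along the left cosets of `E`. -/

set_option autoImplicit false

namespace Pool.Agent.Hier

open Pool.Agent.Wald Matrix

section Dec
variable {LL : Type} [CommRing LL] {E G : Type} [Group E] [Group G] {φ : E →* G}

private theorem nilB_inj (hφ : Function.Injective φ) (g : G) :
    Function.Injective (fun e => g * φ e) := fun _ _ h => hφ (mul_left_cancel h)

/-- The component of `x` in the coset `g E`. -/
private noncomputable def nilB_pi (hφ : Function.Injective φ) (g : G) (x : MonoidAlgebra LL G) :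
    MonoidAlgebra LL E :=
  MonoidAlgebra.ofCoeff (x.coeff.comapDomain (fun e => g * φ e) (nilB_inj hφ g).injOn)

private theorem nilB_coeff (hφ : Function.Injective φ) (g : G) (x : MonoidAlgebra LL G) (e : E) :
    (nilB_pi hφ g x).coeff e = x.coeff (g * φ e) := rfl

private theorem nilB_zero (hφ : Function.Injective φ) (g : G) :
    nilB_pi hφ g (0 : MonoidAlgebra LL G) = 0 := by
  ext e
  rw [nilB_coeff]
  rfl

private theorem nilB_add (hφ : Function.Injective φ) (g : G) (x y : MonoidAlgebra LL G) :
    nilB_pi hφ g (x + y) = nilB_pi hφ g x + nilB_pi hφ g y := by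
  ext e
  rw [nilB_coeff, MonoidAlgebra.coeff_add, MonoidAlgebra.coeff_add, Finsupp.add_apply,
    Finsupp.add_apply, nilB_coeff, nilB_coeff]

private theorem nilB_sum (hφ : Function.Injective φ) (g : G) {ι : Type} (s : Finset ι)
    (f : ι → MonoidAlgebra LL G) :
    nilB_pi hφ g (∑ i ∈ s, f i) = ∑ i ∈ s, nilB_pi hφ g (f i) := by
  classical
  induction s using Finset.induction_on with
  | empty => rw [Finset.sum_empty, Finset.sum_empty, nilB_zero]
  | insert a s ha ih => rw [Finset.sum_insert ha, Finset.sum_insert ha, nilB_add, ih]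

private theorem nilB_mul (hφ : Function.Injective φ) (g : G) (x : MonoidAlgebra LL G)
    (r : MonoidAlgebra LL E) : nilB_pi hφ g (x * WaldL.inc φ r) = nilB_pi hφ g x * r := by
  induction r using MonoidAlgebra.induction_linear with
  | zero => rw [map_zero, mul_zero, mul_zero, nilB_zero]
  | add r r' h h' => rw [map_add, mul_add, nilB_add, h, h', mul_add]
  | single e a =>
    have h1 : WaldL.inc φ (MonoidAlgebra.single e a) = MonoidAlgebra.single (φ e) a :=
      MonoidAlgebra.mapDomain_single
    rw [h1]
    ext e'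
    rw [nilB_coeff, MonoidAlgebra.coeff_mul_single_apply, MonoidAlgebra.coeff_mul_single_apply,
      nilB_coeff, map_mul φ, map_inv φ, mul_assoc]

private theorem nilB_inc_coeff (hφ : Function.Injective φ) (z : MonoidAlgebra LL E) (e : E) :
    (WaldL.inc φ z).coeff (φ e) = z.coeff e := by
  change ((MonoidAlgebra.mapDomain φ z).coeff) (φ e) = z.coeff e
  rw [MonoidAlgebra.coeff_mapDomain]
  exact Finsupp.mapDomain_apply hφ _ _

private theorem nilB_inc_coeff' (z : MonoidAlgebra LL E) (g : G) (hg : g ∉ φ.range) :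
    (WaldL.inc φ z).coeff g = 0 := by
  change ((MonoidAlgebra.mapDomain φ z).coeff) g = 0
  rw [MonoidAlgebra.coeff_mapDomain]
  exact Finsupp.mapDomain_of_notMem_range _ _ hg

/-- A vector which is killed by a matrix over `LL[E]` is a combination of vectors over `LL[E]`
which are killed by the matrix. -/
theorem nilB_dec (hφ : Function.Injective φ) {n b : ℕ} (y : Fin n → MonoidAlgebra LL G)
    (M : Matrix (Fin n) (Fin b) (MonoidAlgebra LL E))
    (hy : vecMul y (M.map (WaldL.inc φ)) = 0) :
    ∃ (F : Finset G) (c : G → Fin n → MonoidAlgebra LL E),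
      (∀ i, y i = ∑ g ∈ F, MonoidAlgebra.single g (1 : LL) * WaldL.inc φ (c g i)) ∧
      ∀ g, vecMul (c g) M = 0 := by
  classical
  let F : Finset G := (Finset.univ.biUnion fun i => (y i).coeff.support).image
    fun g => (QuotientGroup.mk g : G ⧸ φ.range).out
  have hF : ∀ g ∈ F, (QuotientGroup.mk g : G ⧸ φ.range).out = g := by
    intro g hg
    obtain ⟨g', -, rfl⟩ := Finset.mem_image.1 hg
    rw [QuotientGroup.out_eq']
  refine ⟨F, fun g i => nilB_pi hφ g (y i), ?_, ?_⟩
  · intro i
    ext w
    rw [MonoidAlgebra.coeff_sum, Finsupp.finsetSum_apply]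
    have h1 : ∀ g, (MonoidAlgebra.single g (1 : LL) * WaldL.inc φ (nilB_pi hφ g (y i))).coeff w =
        if g⁻¹ * w ∈ φ.range then (y i).coeff w else 0 := by
      intro g
      rw [MonoidAlgebra.coeff_single_mul_apply, one_mul]
      by_cases h : g⁻¹ * w ∈ φ.range
      · rw [if_pos h]
        obtain ⟨e, he⟩ := h
        rw [← he, nilB_inc_coeff hφ, nilB_coeff, he, mul_inv_cancel_left]
      · rw [if_neg h, nilB_inc_coeff' _ _ h]
    rw [Finset.sum_congr rfl fun g _ => h1 g]
    have h2 : ∀ g ∈ F, (g⁻¹ * w ∈ φ.range ↔ g = (QuotientGroup.mk w : G ⧸ φ.range).out) := by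
      intro g hg
      rw [← QuotientGroup.eq]
      constructor
      · intro h
        rw [← h, hF g hg]
      · intro h
        rw [h, QuotientGroup.out_eq']
    rw [Finset.sum_congr rfl fun g hg => if_congr (h2 g hg) rfl rfl, Finset.sum_ite_eq']
    by_cases hw : (y i).coeff w = 0
    · rw [hw, ite_self]
    · rw [if_pos]
      refine Finset.mem_image.2 ⟨w, Finset.mem_biUnion.2 ⟨i, Finset.mem_univ _, ?_⟩, rfl⟩
      exact Finsupp.mem_support_iff.2 hw
  · intro g
    funext k
    have h1 := congrFun hy k
    have h2 : ∑ i, y i * WaldL.inc φ (M i k) = 0 := h1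
    have h3 : ∑ i, nilB_pi hφ g (y i) * M i k = 0 := by
      rw [← nilB_zero hφ g, ← h2, nilB_sum]
      exact Finset.sum_congr rfl fun i _ => (nilB_mul hφ g _ _).symm
    exact h3

end Dec

end Pool.Agent.Hier
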