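import Pool.Agent.Lib.MP_8f66f0_al_Hier.NilA
import Pool.Agent.Lib.MP_8f66f0_al_Hier.NilB
import Pool.Agent.Lib.MP_8f66f0_al_Wald.K1Lem

/-! The Nil groups over a group with the property `SL` vanish. -/

set_option autoImplicit false

namespace Pool.Agent.Hier

open Pool.Agent.Wald Matrix

section Retract

/-- The pull back of an invariant along a ring homomorphism. -/
def nPull {Λ Λ' : Type} [Ring Λ] [Ring Λ'] (φ : Λ →+* Λ') {K : Type} [CommGroup K]
    (κ : K1Fun Λ' K) : K1Fun Λ K where
  f := fun {n} _ _ A => κ.f (A.map φ)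
  mul := fun {n} _ _ A B hA hB => by
    rw [Matrix.map_mul]
    exact κ.mul _ _ (hA.map φ.mapMatrix) (hB.map φ.mapMatrix)
  reindex := fun {n m} _ _ _ _ e A hA => by
    have h := κ.reindex e (A.map φ) (hA.map φ.mapMatrix)
    exact h
  tri := fun {n m} _ _ _ _ A B D hA hD => by
    rw [Matrix.fromBlocks_map, Matrix.map_zero _ (map_zero φ)]
    exact κ.tri _ _ _ (hA.map φ.mapMatrix) (hD.map φ.mapMatrix)

/-- The quotient of two invariants. -/
def nDiv {Λ : Type} [Ring Λ] {K : Type} [CommGroup K] (κ κ' : K1Fun Λ K) : K1Fun Λ K where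
  f := fun {n} _ _ A => κ.f A * (κ'.f A)⁻¹
  mul := fun {n} _ _ A B hA hB => by
    rw [κ.mul A B hA hB, κ'.mul A B hA hB, mul_inv, mul_mul_mul_comm]
  reindex := fun {n m} _ _ _ _ e A hA => by
    rw [κ.reindex e A hA, κ'.reindex e A hA]
  tri := fun {n m} _ _ _ _ A B D hA hD => by
    rw [κ.tri A B D hA hD, κ'.tri A B D hA hD, mul_inv, mul_mul_mul_comm]

/-- If `K_1` is generated by the image of a retract, then the class of a matrix is the class of
its image in the retract. -/
theorem kt_retract {Q' Q : Type} [Ring Q'] [Ring Q] (f : Q' →+* Q) (g : Q →+* Q')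
    (h : ∀ q, g (f q) = q) (hk : KT f) {K : Type} [CommGroup K] (κ : K1Fun Q K) {n : Type}
    [Fintype n] [DecidableEq n] (A : Matrix n n Q) (hA : IsUnit A) :
    κ.f A = κ.f ((A.map g).map f) := by
  have h1 := hk K (nDiv κ (nPull (f.comp g) κ)) (by
    intro n _ _ B hB
    change κ.f (B.map f) * (κ.f ((B.map f).map (f.comp g)))⁻¹ = 1
    have e : (B.map f).map (f.comp g) = B.map f := by
      ext i j
      change f (g (f (B i j))) = f (B i j)
      rw [h]
    rw [e, mul_inv_cancel]) n A hA
  have h2 : κ.f A * (κ.f (A.map (f.comp g)))⁻¹ = 1 := h1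
  have e : A.map (f.comp g) = (A.map g).map f := rfl
  rw [← e]
  exact mul_inv_eq_one.1 h2

end Retract

section Nil
variable {LL : Type} [CommRing LL] {E G : Type} [Group E] [Group G] {φ : E →* G}
  {T : Type} [Ring T] [Algebra LL T]

/-- The embedding of the bimodule. -/
private noncomputable def nj (φ : E →* G) (f : MonoidAlgebra LL E →ₐ[LL] T) (l : nV φ → T) :
    MonoidAlgebra LL G →ₗ[LL] T :=
  (Finsupp.lsum LL fun v => (LinearMap.mulRight LL (l v)).comp f.toLinearMap).comp (nJ φ)

private theorem nj_apply (f : MonoidAlgebra LL E →ₐ[LL] T) (l : nV φ → T)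
    (x : MonoidAlgebra LL G) :
    nj φ f l x = lin (f : MonoidAlgebra LL E →+* T) l (nJ φ x) := rfl

private theorem lin_smul {Q' T Λ : Type} [Ring Q'] [Ring T] (f : Q' →+* T) (ℓ : Λ → T) (r : Q')
    (x : Λ →₀ Q') : lin f ℓ (r • x) = f r * lin f ℓ x := by
  rw [lin, lin, Finsupp.sum_smul_index' (by intro i; rw [map_zero, zero_mul]), Finsupp.mul_sum]
  refine Finsupp.sum_congr fun i _ => ?_
  rw [smul_eq_mul, map_mul, mul_assoc]

private theorem nj_left (hφ : Function.Injective φ) (f : MonoidAlgebra LL E →ₐ[LL] T)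
    (l : nV φ → T) (r : MonoidAlgebra LL E) (x : MonoidAlgebra LL G) :
    nj φ f l (WaldL.inc φ r * x) = f r * nj φ f l x := by
  rw [nj_apply, nj_apply, nJ_left hφ, lin_smul]
  rfl

private theorem nj_right (hφ : Function.Injective φ) (f : MonoidAlgebra LL E →ₐ[LL] T)
    (l : nV φ → T) (hrel : (nLS hφ).Rel (f : MonoidAlgebra LL E →+* T) l)
    (q : MonoidAlgebra LL E) (x : MonoidAlgebra LL G) :
    nj φ f l (x * WaldL.inc φ q) = nj φ f l x * f q := by
  have h1 : ∀ v, l v * f q =
      nj φ f l (MonoidAlgebra.single (ns φ v) (1 : LL) * WaldL.inc φ q) := by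
    intro v
    have h2 := hrel v q
    have h3 : (nLS hφ).c v q = (0 : MonoidAlgebra LL E) := rfl
    rw [h3, map_zero, zero_add] at h2
    exact h2
  have h4 : nj φ f l x * f q = (nJ φ x).sum fun v r => f r * l v * f q := by
    rw [nj_apply, lin, Finsupp.sum_mul]
    rfl
  rw [h4]
  conv_lhs => rw [← nJi_nJ φ x]
  rw [nJi, Finsupp.sum_mul, map_finsuppSum]
  refine Finsupp.sum_congr fun v _ => ?_
  rw [mul_assoc, nj_left hφ, mul_assoc, h1]

private theorem gr_of (x : MonoidAlgebra LL E) : gr LL (MonoidAlgebra.of LL E) x = x := by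
  have h : gr LL (MonoidAlgebra.of LL E) = AlgHom.id LL (MonoidAlgebra LL E) := by
    apply MonoidAlgebra.algHom_ext
    · intro e
      rw [MonoidAlgebra.lift_single, one_smul]
      rfl
    · apply AlgHom.ext
      intro a
      change gr LL (MonoidAlgebra.of LL E) (MonoidAlgebra.single 1 a) = MonoidAlgebra.single 1 a
      rw [MonoidAlgebra.lift_single, MonoidAlgebra.of_apply, MonoidAlgebra.smul_single,
        smul_eq_mul, mul_one]
  rw [h]
  rfl

theorem nilV_of_SL (hE : SL LL E) : WaldL.NilV LL E := by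
  classical
  intro G _ φ hφ n ν m B h h0 hm hh hu K _ κ
  obtain ⟨T, _, _, f, l, hrel, hfree⟩ := con LL (MonoidAlgebra LL E) (nV φ) (nLS hφ)
  obtain ⟨μ, hμf, hμl, -⟩ := lift LL (MonoidAlgebra LL E) (nV φ) T (MonoidAlgebra LL G) (nLS hφ)
    f l (MonoidAlgebra.mapDomainAlgHom LL LL φ) (fun v => MonoidAlgebra.single (ns φ v) 1)
    hrel hfree (by
      intro v q
      have h3 : (nLS hφ).c v q = (0 : MonoidAlgebra LL E) := rfl
      rw [h3, map_zero, zero_add]
      exact (nJi_nJ φ _).symm)
  obtain ⟨au, hauf, haul, -⟩ := lift LL (MonoidAlgebra LL E) (nV φ) T (MonoidAlgebra LL E)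
    (nLS hφ) f l (AlgHom.id LL _) (fun _ => 0) hrel hfree (by
      intro v q
      have h3 : (nLS hφ).c v q = (0 : MonoidAlgebra LL E) := rfl
      rw [h3, map_zero, zero_add, zero_mul, lin]
      exact (Finset.sum_eq_zero fun i _ => mul_zero _).symm)
  have j3 : ∀ x, μ (nj φ f l x) = x := by
    intro x
    rw [nj_apply, lin, map_finsuppSum]
    conv_rhs => rw [← nJi_nJ φ x]
    refine Finsupp.sum_congr fun v _ => ?_
    rw [map_mul]
    exact congrArg₂ (· * ·) (hμf _) (hμl _)
  have j4 : ∀ x, au (nj φ f l x) = 0 := by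
    intro x
    rw [nj_apply, lin, map_finsuppSum]
    refine Finset.sum_eq_zero fun i _ => ?_
    exact (map_mul au _ _).trans (by rw [haul, mul_zero])
  set N : Matrix (Fin n) (Fin n) T := ν.map (nj φ f l) with hN
  have hind : ∀ i (x : Fin n → MonoidAlgebra LL E), vecMul x (h i) = 0 →
      vecMul (fun a => f (x a)) (N ^ i) = 0 := by
    intro i
    induction i with
    | zero =>
      intro x hx
      rw [h0 x hx, pow_zero, vecMul_one]
      funext a
      exact map_zero f
    | succ i ih =>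
      intro x hx
      obtain ⟨F, c, hc1, hc2⟩ := nilB_dec hφ _ _ (hh i x hx)
      have e1 : vecMul (fun a => f (x a)) N =
          fun b => nj φ f l (vecMul (fun a => WaldL.inc φ (x a)) ν b) := by
        funext b
        change ∑ a, f (x a) * nj φ f l (ν a b) = nj φ f l (∑ a, WaldL.inc φ (x a) * ν a b)
        rw [map_sum]
        exact Finset.sum_congr rfl fun a _ => (nj_left hφ f l _ _).symm
      have e2 : (fun b => nj φ f l (vecMul (fun a => WaldL.inc φ (x a)) ν b)) =
          fun b => ∑ g ∈ F, nj φ f l (MonoidAlgebra.single g 1) * f (c g b) := by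
        funext b
        rw [hc1 b, map_sum]
        exact Finset.sum_congr rfl fun g _ => nj_right hφ f l hrel _ _
      rw [pow_succ', ← vecMul_vecMul, e1, e2]
      funext k
      change ∑ b, (∑ g ∈ F, nj φ f l (MonoidAlgebra.single g 1) * f (c g b)) * (N ^ i) b k = 0
      have e3 : ∀ b, (∑ g ∈ F, nj φ f l (MonoidAlgebra.single g 1) * f (c g b)) * (N ^ i) b k =
          ∑ g ∈ F, nj φ f l (MonoidAlgebra.single g 1) * (f (c g b) * (N ^ i) b k) := by
        intro b
        rw [Finset.sum_mul]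
        exact Finset.sum_congr rfl fun g _ => mul_assoc _ _ _
      rw [Finset.sum_congr rfl fun b _ => e3 b, Finset.sum_comm]
      apply Finset.sum_eq_zero
      intro g _
      rw [← Finset.mul_sum]
      have e4 : ∑ b, f (c g b) * (N ^ i) b k = 0 := congrFun (ih (c g) (hc2 g)) k
      rw [e4, mul_zero]
  have hNm : N ^ m = 0 := by
    ext a k
    have h1 := congrFun (hind m (Pi.single a 1) (by rw [hm, vecMul_zero])) k
    have h2 : (fun b => f ((Pi.single a 1 : Fin n → MonoidAlgebra LL E) b)) = Pi.single a 1 := by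
      funext b
      by_cases hb : b = a
      · subst hb
        rw [Pi.single_eq_same, Pi.single_eq_same, map_one]
      · rw [Pi.single_eq_of_ne hb, Pi.single_eq_of_ne hb, map_zero]
    rw [h2, single_one_vecMul] at h1
    exact h1
  have hunit : IsUnit (1 - N) := IsNilpotent.isUnit_one_sub ⟨m, hNm⟩
  have hLT : IsLT LL f (MonoidAlgebra.of LL E) l := by
    refine ⟨hfree, ?_, LinearMap.id, fun x => gr_of x⟩
    intro i q
    refine ⟨0, nm φ i q, ?_⟩
    have h2 := hrel i q
    have h3 : (nLS hφ).c i q = (0 : MonoidAlgebra LL E) := rfl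
    rw [h3] at h2
    refine h2.trans ?_
    congr 1
    rw [lin]
    refine Finsupp.sum_congr fun j _ => ?_
    rw [gr_of]
    rfl
  have hKT := hE (MonoidAlgebra LL E) T (nV φ) f (MonoidAlgebra.of LL E) l hLT
  have h1 := kt_retract (f : MonoidAlgebra LL E →+* T) (au : T →+* MonoidAlgebra LL E)
    (fun q => hauf q) hKT (nPull (μ : T →+* MonoidAlgebra LL G) κ) (1 - N) hunit
  have h2 : (1 - N).map (au : T →+* MonoidAlgebra LL E) = 1 := by
    rw [Matrix.map_sub _ (fun a b => map_sub _ a b), Matrix.map_one _ (map_zero _) (map_one _),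
      sub_eq_self]
    apply Matrix.ext
    intro a b
    exact j4 (ν a b)
  have h3 : (1 - N).map (μ : T →+* MonoidAlgebra LL G) = 1 - ν := by
    rw [Matrix.map_sub _ (fun a b => map_sub _ a b), Matrix.map_one _ (map_zero _) (map_one _)]
    congr 1
    apply Matrix.ext
    intro a b
    exact j3 (ν a b)
  rw [h2, Matrix.map_one _ (map_zero _) (map_one _), K1Fun.f_one] at h1
  have h4 : κ.f ((1 - N).map (μ : T →+* MonoidAlgebra LL G)) = 1 := h1
  rw [h3] at h4
  exact h4

end Nil

end Pool.Agent.Hier
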