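import Pool.Agent.Lib.MP_8f66f0_al_Hier.SpecT

/-! Block T: the projection `T(V) → Q`. -/

set_option autoImplicit false

namespace Pool.Agent.Hier

open Pool.Agent.Wald Pool.Agent.Ind

private theorem pj_lin_add {Q' T Λ : Type} [Ring Q'] [Ring T] (f : Q' →+* T) (ℓ : Λ → T)
    (x y : Λ →₀ Q') : lin f ℓ (x + y) = lin f ℓ x + lin f ℓ y := by
  unfold lin
  rw [Finsupp.sum_add_index']
  · intro a
    rw [map_zero, zero_mul]
  · intro a b c
    rw [map_add, add_mul]

private theorem pj_lin_zero {Q' T Λ : Type} [Ring Q'] [Ring T] (f : Q' →+* T) (ℓ : Λ → T) :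
    lin f ℓ 0 = 0 := Finsupp.sum_zero_index

private theorem pj_lin_single {Q' T Λ : Type} [Ring Q'] [Ring T] (f : Q' →+* T) (ℓ : Λ → T)
    (a : Λ) (q : Q') : lin f ℓ (Finsupp.single a q) = f q * ℓ a := by
  unfold lin
  rw [Finsupp.sum_single_index]
  rw [map_zero, zero_mul]

private noncomputable def pj_hom {Q' T Λ : Type} [Ring Q'] [Ring T] (f : Q' →+* T) (ℓ : Λ → T) :
    (Λ →₀ Q') →+ T where
  toFun := lin f ℓ
  map_zero' := pj_lin_zero f ℓ
  map_add' := pj_lin_add f ℓ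

private theorem pj_tw {LL E Q' Q V I : Type} [CommRing LL] [Group E] [Ring Q'] [Algebra LL Q']
    [Ring Q] [Algebra LL Q] [MulAction E V] (ρ : E →* Q') (g : Q' →ₐ[LL] Q) (w : I → Q) (v : V)
    (x : I →₀ MonoidAlgebra LL E) :
    lin (g : Q' →+* Q) (fun a : V × I => w a.2) (tw ρ v x) =
      x.sum fun j r => g (gr LL ρ r) * w j := by
  have h1 : lin (g : Q' →+* Q) (fun a : V × I => w a.2) (tw ρ v x) =
      pj_hom (g : Q' →+* Q) (fun a : V × I => w a.2) (tw ρ v x) := rfl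
  rw [h1, tw, Finsupp.sum, map_sum, Finsupp.sum]
  refine Finset.sum_congr rfl fun j _ => ?_
  rw [Finsupp.sum, map_sum, MonoidAlgebra.lift_apply, Finsupp.sum, map_sum, Finset.sum_mul]
  refine Finset.sum_congr rfl fun e _ => ?_
  exact pj_lin_single _ _ _ _

private theorem pj_wd {Q Λ Λ' : Type} [Ring Q] (w : Λ' → Q) (p : Λ → Λ') (u : List Λ) :
    wd (fun a => w (p a)) u = wd w (u.map p) := by
  induction u with
  | nil => rfl
  | cons a u ih => rw [wd, ih, List.map_cons, wd]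

private theorem pj_ev {Q' Q Λ Λ' : Type} [Ring Q'] [Ring Q] (g : Q' →+* Q) (w : Λ' → Q)
    (p : Λ → Λ') (x : List Λ →₀ Q') :
    ev g (fun a => w (p a)) x = ev g w (x.mapDomain (List.map p)) := by
  unfold ev
  rw [Finsupp.sum_mapDomain_index]
  · refine Finsupp.sum_congr fun u _ => ?_
    rw [pj_wd]
  · intro u
    rw [map_zero, zero_mul]
  · intro u a b
    rw [map_add, add_mul]

/-- T3. The projection `T(V) → Q`. -/
theorem proj (h : S_tv) : S_proj := by
  intro LL E Q' Q I V T _ _ _ _ _ _ _ _ _ ρ D g w f ℓ hw hT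
  obtain ⟨-, h2⟩ := h LL E Q' I V ρ D
  obtain ⟨φ, e1, e2, e3⟩ := h2 T Q f ℓ g (fun a => w a.2) hT (fun v i q => by
    rw [pj_tw]
    exact hw i q)
  refine ⟨φ, e1, fun v i => e2 (v, i), fun x => ?_⟩
  rw [e3]
  exact pj_ev (g : Q' →+* Q) w Prod.snd x

end Pool.Agent.Hier
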