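import Pool.Agent.Lib.MP_8f66f0_al_Hier.SpecP

/-! Block P: relative `K_0`. -/

set_option autoImplicit false

namespace Pool.Agent.Hier

open Pool.Agent.Wald Pool.Agent.Ind Matrix
open scoped TensorProduct

/-- The pull back of an invariant along a ring homomorphism. -/
private def RelKpull {Λ Λ' : Type} [Ring Λ] [Ring Λ'] (φ : Λ →+* Λ') {K : Type} [CommGroup K]
    (κ : K1Fun Λ' K) : K1Fun Λ K where
  f := fun {n} _ _ A => κ.f (A.map φ)
  mul := fun {n} _ _ A B hA hB => by
    rw [Matrix.map_mul]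
    exact κ.mul _ _ (hA.map φ.mapMatrix) (hB.map φ.mapMatrix)
  reindex := fun {n m} _ _ _ _ e A hA => by
    have h := κ.reindex e (A.map φ) (hA.map φ.mapMatrix)
    exact h
  tri := fun {n m} _ _ _ _ A B D hA hD => by
    rw [Matrix.fromBlocks_map, Matrix.map_zero _ (map_zero φ)]
    exact κ.tri _ _ _ (hA.map φ.mapMatrix) (hD.map φ.mapMatrix)

/-- The quotient of two invariants. -/
private def RelKdiv {Λ : Type} [Ring Λ] {K : Type} [CommGroup K]
    (κ κ' : K1Fun Λ K) : K1Fun Λ K where
  f := fun {n} _ _ A => κ.f A / κ'.f A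
  mul := fun {n} _ _ A B hA hB => by
    rw [κ.mul _ _ hA hB, κ'.mul _ _ hA hB, mul_div_mul_comm]
  reindex := fun {n m} _ _ _ _ e A hA => by
    rw [κ.reindex e A hA, κ'.reindex e A hA]
  tri := fun {n m} _ _ _ _ A B D hA hD => by
    rw [κ.tri A B D hA hD, κ'.tri A B D hA hD, mul_div_mul_comm]

private theorem RelKinv {Λ : Type} [Ring Λ] {n : Type} [Fintype n] [DecidableEq n]
    {P : Matrix n n Λ} (hP : P * P = P) {y yi : Λ} (hy : ∀ q, y * q = q * y)
    (h : y * yi = 1) :
    (1 - P + P.map fun q => q * y) * (1 - P + P.map fun q => q * yi) = 1 := by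
  have e1 : ∀ (A B : Matrix n n Λ) (c : Λ), A * (B.map fun q => q * c) =
      (A * B).map fun q => q * c := by
    intro A B c
    ext i j
    rw [Matrix.map_apply, Matrix.mul_apply, Matrix.mul_apply, Finset.sum_mul]
    apply Finset.sum_congr rfl
    intro k _
    rw [Matrix.map_apply, mul_assoc]
  have e2 : ∀ (A B : Matrix n n Λ), (A.map fun q => q * y) * B =
      (A * B).map fun q => q * y := by
    intro A B
    ext i j
    rw [Matrix.map_apply, Matrix.mul_apply, Matrix.mul_apply, Finset.sum_mul]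
    apply Finset.sum_congr rfl
    intro k _
    rw [Matrix.map_apply, mul_assoc, hy, mul_assoc]
  have e3 : ((P.map fun q => q * y).map fun q => q * yi) = P := by
    ext i j
    rw [Matrix.map_apply, Matrix.map_apply, mul_assoc, h, mul_one]
  have e4 : (1 - P) * P = 0 := by rw [Matrix.sub_mul, Matrix.one_mul, hP, sub_self]
  have e5 : P * (1 - P) = 0 := by rw [Matrix.mul_sub, Matrix.mul_one, hP, sub_self]
  have e6 : (1 - P) * (1 - P) = 1 - P := by
    rw [Matrix.mul_sub, Matrix.mul_one, e4, sub_zero]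
  have e7 : ∀ c : Λ, (0 : Matrix n n Λ).map (fun q => q * c) = 0 := by
    intro c
    ext i j
    rw [Matrix.map_apply, Matrix.zero_apply, zero_mul]
  rw [Matrix.add_mul, Matrix.mul_add, Matrix.mul_add, e6, e1, e4, e7, e2, e5, e7, e1, e2, hP, e3,
    add_zero, zero_add, sub_add_cancel]

/-- The range of the standard idempotent is free. -/
private theorem RelKfree {L : Type} [Ring L] (D : K0Data L) {A B : Type} [Fintype A]
    [DecidableEq A] [Fintype B] [DecidableEq B] {n : ℕ} (t : A ⊕ B ≃ Fin n) :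
    D.cls (LinearMap.range (Matrix.vecMulLinear
      ((fromBlocks 1 0 0 0 : Matrix (A ⊕ B) (A ⊕ B) L).submatrix t.symm t.symm))) = 1 := by
  let g : (A → L) →ₗ[L] (Fin n → L) :=
    { toFun := fun x j => Sum.elim x (fun _ => 0) (t.symm j)
      map_add' := by
        intro x y
        funext j
        rw [Pi.add_apply]
        rcases t.symm j with a | a
        · rfl
        · exact (add_zero 0).symm
      map_smul' := by
        intro c x
        funext j
        rw [Pi.smul_apply, RingHom.id_apply]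
        rcases t.symm j with a | a
        · rfl
        · exact (smul_zero c).symm }
  have hg : ∀ x j, g x j = Sum.elim x (fun _ => 0) (t.symm j) := fun x j => rfl
  have hinj : Function.Injective g := by
    intro x y h
    funext a
    have := congrFun h (t (Sum.inl a))
    rw [hg, hg, t.symm_apply_apply] at this
    exact this
  have hv : ∀ x : Fin n → L, Matrix.vecMul x
      ((fromBlocks 1 0 0 0 : Matrix (A ⊕ B) (A ⊕ B) L).submatrix t.symm t.symm) =
      g fun a => x (t (Sum.inl a)) := by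
    intro x
    funext j
    rw [hg, Matrix.vecMul, dotProduct]
    rw [← Equiv.sum_comp t, Fintype.sum_sum_type]
    simp only [submatrix_apply, Equiv.symm_apply_apply]
    rcases t.symm j with a | a
    · simp only [fromBlocks_apply₁₁, fromBlocks_apply₂₁, Matrix.zero_apply, mul_zero,
        Finset.sum_const_zero, add_zero, Sum.elim_inl]
      rw [Finset.sum_eq_single a]
      · rw [one_apply_eq, mul_one]
      · intro b _ hb
        rw [one_apply_ne hb, mul_zero]
      · intro h
        exact absurd (Finset.mem_univ a) h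
    · simp only [fromBlocks_apply₁₂, fromBlocks_apply₂₂, Matrix.zero_apply, mul_zero,
        Finset.sum_const_zero, add_zero, Sum.elim_inr]
  have hrange : LinearMap.range (Matrix.vecMulLinear
      ((fromBlocks 1 0 0 0 : Matrix (A ⊕ B) (A ⊕ B) L).submatrix t.symm t.symm)) =
      LinearMap.range g := by
    apply le_antisymm
    · rintro _ ⟨x, rfl⟩
      exact ⟨_, (hv x).symm⟩
    · rintro _ ⟨x, rfl⟩
      refine ⟨g x, ?_⟩
      change Matrix.vecMul (g x) _ = _
      rw [hv]
      congr 1
      funext a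
      rw [hg, t.symm_apply_apply]
      rfl
  let E : (Fin (Fintype.card A) → L) ≃ₗ[L] LinearMap.range (Matrix.vecMulLinear
      ((fromBlocks 1 0 0 0 : Matrix (A ⊕ B) (A ⊕ B) L).submatrix t.symm t.symm)) :=
    (LinearEquiv.funCongrLeft L L (Fintype.equivFin A)).trans
      ((LinearEquiv.ofInjective g hinj).trans (LinearEquiv.ofEq _ _ hrange.symm))
  rw [← D.cls_iso _ _ ⟨inferInstance, inferInstance⟩ E, D.cls_free]

/-- The rank of a stably free module. -/
private theorem RelKcard {L R : Type} [Ring L] [CommRing R] [Nontrivial R] (ψ : L →+* R)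
    {A B : Type} [Fintype A] [DecidableEq A] [Fintype B] [DecidableEq B] {a b : ℕ}
    (e : Matrix (A ⊕ B) (A ⊕ B) L) (he : e.map ψ = fromBlocks 1 0 0 0)
    (X : Matrix ((A ⊕ B) ⊕ Fin a) (Fin b) L) (Y : Matrix (Fin b) ((A ⊕ B) ⊕ Fin a) L)
    (h1 : X * Y = fromBlocks e 0 0 1) (h2 : Y * X = 1) :
    Fintype.card (A ⊕ Fin a) = Fintype.card (Fin b) := by
  let R₁ : Matrix (A ⊕ Fin a) ((A ⊕ B) ⊕ Fin a) R := fromBlocks (fromCols 1 0) 0 0 1
  let R₂ : Matrix ((A ⊕ B) ⊕ Fin a) (A ⊕ Fin a) R := fromBlocks (fromRows 1 0) 0 0 1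
  have e1 : R₁ * R₂ = 1 := by
    simp only [R₁, R₂]
    rw [fromBlocks_multiply, fromCols_mul_fromRows]
    simp only [Matrix.mul_one, Matrix.mul_zero, add_zero, Matrix.zero_mul, zero_add,
      fromBlocks_one]
  have e2 : R₂ * R₁ = (X * Y).map ψ := by
    rw [h1, fromBlocks_map, he, Matrix.map_zero _ (map_zero ψ), Matrix.map_zero _ (map_zero ψ),
      Matrix.map_one _ (map_zero ψ) (map_one ψ)]
    simp only [R₁, R₂]
    rw [fromBlocks_multiply, fromRows_mul_fromCols]
    simp only [Matrix.mul_one, Matrix.mul_zero, add_zero, Matrix.zero_mul, zero_add]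
  rw [Matrix.map_mul] at e2
  have e3 : Y.map ψ * X.map ψ = 1 := by
    rw [← Matrix.map_mul, h2, Matrix.map_one _ (map_zero ψ) (map_one ψ)]
  refine Matrix.square_of_invertible (R₁ * X.map ψ) (Y.map ψ * R₂) ?_ ?_
  · have : R₁ * X.map ψ * (Y.map ψ * R₂) = R₁ * (X.map ψ * Y.map ψ) * R₂ := by
      simp only [Matrix.mul_assoc]
    rw [this, ← e2]
    have : R₁ * (R₂ * R₁) * R₂ = (R₁ * R₂) * (R₁ * R₂) := by simp only [Matrix.mul_assoc]
    rw [this, e1, Matrix.one_mul]
  · have : Y.map ψ * R₂ * (R₁ * X.map ψ) = Y.map ψ * (R₂ * R₁) * X.map ψ := by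
      simp only [Matrix.mul_assoc]
    rw [this, e2]
    have : Y.map ψ * (X.map ψ * Y.map ψ) * X.map ψ = (Y.map ψ * X.map ψ) * (Y.map ψ * X.map ψ) := by
      simp only [Matrix.mul_assoc]
    rw [this, e3, Matrix.one_mul]

/-- The class of the range is trivial. -/
private theorem RelKcls (h1 : S_Hom) (h2 : S_Idx) (LL C L : Type) [CommRing LL] [IsDomain LL]
    [Group C] [Ring L] [Algebra LL L] (ρ : C →* L)
    (eps : L →ₐ[LL] MonoidAlgebra LL C) (heps : ∀ x, eps (gr LL ρ x) = x)
    (hKT : KT (gr (Lau LL) (bch LL (Lau LL) ρ) : MonoidAlgebra (Lau LL) C →+* Lau LL ⊗[LL] L))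
    (D : K0Data L) {A B : Type} [Fintype A] [DecidableEq A] [Fintype B] [DecidableEq B]
    (e : Matrix (A ⊕ B) (A ⊕ B) L) (hee : e * e = e) (he : e.map eps = fromBlocks 1 0 0 0)
    {n : ℕ} (t : A ⊕ B ≃ Fin n) :
    D.cls (LinearMap.range (Matrix.vecMulLinear (e.submatrix t.symm t.symm))) = 1 := by
  obtain ⟨φ, hφ⟩ := h1 LL L
  obtain ⟨v, hvy, -, -⟩ := exists_val L
  obtain ⟨κ, hκ⟩ := h2 L (LaurentSeries L) v D
  let θ : Lau LL ⊗[LL] L →ₐ[LL] Lau LL ⊗[LL] L :=
    Algebra.TensorProduct.map (AlgHom.id LL (Lau LL)) ((gr LL ρ).comp eps)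
  let κ' : K1Fun (Lau LL ⊗[LL] L) D.K := RelKpull φ κ
  let κθ : K1Fun (Lau LL ⊗[LL] L) D.K := RelKpull (θ : Lau LL ⊗[LL] L →+* Lau LL ⊗[LL] L) κ'
  -- `θ` fixes the image of the group ring
  have hρ : ∀ c, gr LL ρ (eps (ρ c)) = ρ c := by
    intro c
    have : ρ c = gr LL ρ (MonoidAlgebra.single c 1) := by
      rw [gr, MonoidAlgebra.lift_single, one_smul]
    rw [this, heps]
  have hθ1 : ∀ (a : Lau LL) (x : L), θ (a ⊗ₜ[LL] x) = a ⊗ₜ[LL] gr LL ρ (eps x) := by
    intro a x
    rfl
  have hθ : ∀ x : MonoidAlgebra (Lau LL) C,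
      θ (gr (Lau LL) (bch LL (Lau LL) ρ) x) = gr (Lau LL) (bch LL (Lau LL) ρ) x := by
    intro x
    induction x using MonoidAlgebra.induction_linear with
    | zero => rw [map_zero, map_zero]
    | add x y hx hy => rw [map_add, map_add, hx, hy]
    | single c a =>
      have : gr (Lau LL) (bch LL (Lau LL) ρ) (MonoidAlgebra.single c a) = a ⊗ₜ[LL] ρ c := by
        rw [gr, MonoidAlgebra.lift_single]
        change a • ((1 : Lau LL) ⊗ₜ[LL] ρ c) = _
        rw [TensorProduct.smul_tmul', smul_eq_mul, mul_one]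
      rw [this, hθ1, hρ]
  have hkey : ∀ (m : Type) [Fintype m] [DecidableEq m] (M : Matrix m m (Lau LL ⊗[LL] L)),
      IsUnit M → κ'.f M = κθ.f M := by
    intro m _ _ M hM
    have := hKT D.K (RelKdiv κ' κθ) (by
      intro m _ _ N hN
      change κ'.f _ / κθ.f _ = 1
      rw [div_eq_one]
      change κ'.f _ = κ'.f (((N.map _).map _))
      congr 1
      ext i j
      exact (hθ _).symm) m M hM
    exact div_eq_one.1 this
  -- the matrix
  let y : Lau LL := (HahnSeries.single 1 1 : LaurentSeries LL)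
  let yi : Lau LL := (HahnSeries.single (-1) 1 : LaurentSeries LL)
  have hs : (HahnSeries.single 1 1 : LaurentSeries LL) * HahnSeries.single (-1) 1 = 1 := by
    rw [HahnSeries.single_mul_single, add_neg_cancel, one_mul]
    rfl
  have hyyi : y * yi = 1 := hs
  let Y : Lau LL ⊗[LL] L := y ⊗ₜ[LL] 1
  let Yi : Lau LL ⊗[LL] L := yi ⊗ₜ[LL] 1
  have hc : ∀ (z : Lau LL) (q : Lau LL ⊗[LL] L), (z ⊗ₜ[LL] 1) * q = q * (z ⊗ₜ[LL] 1) := by
    intro z q
    induction q using TensorProduct.induction_on with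
    | zero => rw [mul_zero, zero_mul]
    | tmul a x =>
      rw [Algebra.TensorProduct.tmul_mul_tmul, Algebra.TensorProduct.tmul_mul_tmul, one_mul,
        mul_one, mul_comm]
    | add a b ha hb => rw [mul_add, add_mul, ha, hb]
  have hYYi : Y * Yi = 1 := by
    rw [Algebra.TensorProduct.tmul_mul_tmul, hyyi, one_mul]
    rfl
  have hYiY : Yi * Y = 1 := by rw [hc, hYYi]
  let inc : L →+* Lau LL ⊗[LL] L :=
    (Algebra.TensorProduct.includeRight : L →ₐ[LL] Lau LL ⊗[LL] L)
  have hinc : ∀ x, inc x = (1 : Lau LL) ⊗ₜ[LL] x := fun x => rfl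
  have hunit : ∀ p : Matrix (Fin n) (Fin n) L, p * p = p →
      IsUnit (1 - p.map inc + (p.map inc).map fun q => q * Y) := by
    intro p hp
    have hP : p.map inc * p.map inc = p.map inc := by rw [← Matrix.map_mul, hp]
    exact ⟨⟨_, _, RelKinv hP (hc y) hYYi, RelKinv hP (hc yi) hYiY⟩, rfl⟩
  have hφinc : ∀ x : L, φ (inc x) = x • (1 : LaurentSeries L) := by
    intro x
    apply HahnSeries.ext
    funext k
    rw [hinc]
    have := hφ (1 : LaurentSeries LL) x k
    change (φ ((1 : Lau LL) ⊗ₜ[LL] x)).coeff k = _ at this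
    rw [this, HahnSeries.coeff_smul, HahnSeries.coeff_one, HahnSeries.coeff_one]
    split_ifs
    · rw [one_smul, smul_eq_mul, mul_one]
    · rw [zero_smul, smul_zero]
  have hφY : φ Y = v.y := by
    rw [hvy]
    apply HahnSeries.ext
    funext k
    have := hφ (HahnSeries.single 1 1 : LaurentSeries LL) (1 : L) k
    change (φ Y).coeff k = _ at this
    rw [this, HahnSeries.coeff_single, HahnSeries.coeff_single]
    split_ifs
    · rw [one_smul]
    · rw [zero_smul]
  have hval : ∀ p : Matrix (Fin n) (Fin n) L, p * p = p →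
      κ'.f (1 - p.map inc + (p.map inc).map fun q => q * Y) =
        D.cls (LinearMap.range (Matrix.vecMulLinear p)) := by
    intro p hp
    rw [← hκ n p hp]
    change κ.f (Matrix.map _ φ) = _
    congr 1
    have e0 : (p.map inc).map φ = up L (LaurentSeries L) p := by
      apply Matrix.ext
      intro i j
      exact hφinc (p i j)
    have e1 : ((p.map inc).map fun q => q * Y).map φ = ((p.map inc).map φ).map fun q => q * v.y := by
      apply Matrix.ext
      intro i j
      rw [Matrix.map_apply, Matrix.map_apply, Matrix.map_apply (M := (p.map inc).map φ),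
        Matrix.map_apply, map_mul, hφY]
      rfl
    rw [Matrix.map_add _ (map_add φ), Matrix.map_sub _ (map_sub φ), e1, e0,
      Matrix.map_one _ (map_zero φ) (map_one φ)]
  have hp : (e.submatrix t.symm t.symm) * (e.submatrix t.symm t.symm) =
      e.submatrix t.symm t.symm := by
    rw [submatrix_mul_equiv, hee]
  set e₀ : Matrix (A ⊕ B) (A ⊕ B) L := fromBlocks 1 0 0 0 with he₀
  have hp₀ : (e₀.submatrix t.symm t.symm) * (e₀.submatrix t.symm t.symm) =
      e₀.submatrix t.symm t.symm := by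
    rw [submatrix_mul_equiv, he₀, fromBlocks_multiply]
    simp
  have hmap : (1 - (e.submatrix t.symm t.symm).map inc +
      ((e.submatrix t.symm t.symm).map inc).map fun q => q * Y).map θ =
      1 - (e₀.submatrix t.symm t.symm).map inc +
      ((e₀.submatrix t.symm t.symm).map inc).map fun q => q * Y := by
    have hee₀ : ∀ i j, gr LL ρ (eps (e i j)) = e₀ i j := by
      intro i j
      have := congrFun (congrFun he i) j
      rw [Matrix.map_apply] at this
      rw [this, he₀]
      rcases i with i | i <;> rcases j with j | j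
      · rw [fromBlocks_apply₁₁, fromBlocks_apply₁₁, one_apply, one_apply]
        split_ifs
        · exact map_one _
        · exact map_zero _
      · exact map_zero _
      · exact map_zero _
      · exact map_zero _
    have e0 : ((e.submatrix t.symm t.symm).map inc).map θ =
        (e₀.submatrix t.symm t.symm).map inc := by
      apply Matrix.ext
      intro i j
      change θ (inc (e _ _)) = inc (e₀ _ _)
      rw [hinc, hθ1, hee₀]
      rfl
    have hθY : θ Y = Y := by
      rw [hθ1, map_one, map_one]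
    have e1 : (((e.submatrix t.symm t.symm).map inc).map fun q => q * Y).map θ =
        (((e.submatrix t.symm t.symm).map inc).map θ).map fun q => q * Y := by
      apply Matrix.ext
      intro i j
      change θ (inc (e _ _) * Y) = θ (inc (e _ _)) * Y
      rw [map_mul, hθY]
    rw [Matrix.map_add _ (map_add θ), Matrix.map_sub _ (map_sub θ), e1, e0,
      Matrix.map_one _ (map_zero θ) (map_one θ)]
  rw [← hval _ hp, hkey _ _ (hunit _ hp)]
  change κ'.f (Matrix.map _ θ) = 1
  rw [hmap, hval _ hp₀]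
  exact RelKfree D t

theorem relK (h1 : S_Hom) (h2 : S_Idx) (h3 : S_Sfm) : S_RelK := by
  intro LL C L _ _ _ _ _ ρ eps heps hKT A B _ _ _ _ e hee he
  obtain ⟨D⟩ := exists_k0 L
  let t : A ⊕ B ≃ Fin (Fintype.card (A ⊕ B)) := Fintype.equivFin _
  have hcls := RelKcls h1 h2 LL C L ρ eps heps hKT D e hee he t
  obtain ⟨a, b, X₀, Y₀, hXY, hYX⟩ := h3 L _ D (e.submatrix t.symm t.symm)
    (by rw [submatrix_mul_equiv, hee]) hcls
  let t' : (A ⊕ B) ⊕ Fin a ≃ Fin (Fintype.card (A ⊕ B)) ⊕ Fin a := Equiv.sumCongr t (Equiv.refl _)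
  let X : Matrix ((A ⊕ B) ⊕ Fin a) (Fin b) L := X₀.submatrix t' id
  let Y : Matrix (Fin b) ((A ⊕ B) ⊕ Fin a) L := Y₀.submatrix id t'
  have h4 : X * Y = fromBlocks e 0 0 1 := by
    simp only [X, Y]
    have : X₀.submatrix t' id * Y₀.submatrix id t' = (X₀ * Y₀).submatrix t' t' := by
      rw [← submatrix_mul_equiv X₀ Y₀ t' (Equiv.refl _) t']
      rfl
    rw [this, hXY]
    ext (i | i) (j | j)
    · change e (t.symm (t i)) (t.symm (t j)) = e i j
      rw [t.symm_apply_apply, t.symm_apply_apply]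
    · rfl
    · rfl
    · rfl
  have h5 : Y * X = 1 := by
    simp only [X, Y]
    rw [submatrix_mul_equiv, hYX]
    rfl
  have hcard := RelKcard ((gr LL (1 : C →* LL) : MonoidAlgebra LL C →+* LL).comp
    (eps : L →+* MonoidAlgebra LL C)) e (by
      have : e.map ((gr LL (1 : C →* LL) : MonoidAlgebra LL C →+* LL).comp
          (eps : L →+* MonoidAlgebra LL C)) = (e.map eps).map (gr LL (1 : C →* LL)) := rfl
      rw [this, he, fromBlocks_map, Matrix.map_zero _ (map_zero _), Matrix.map_zero _ (map_zero _),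
        Matrix.map_zero _ (map_zero _), Matrix.map_one _ (map_zero _) (map_one _)]) X Y h4 h5
  let w : Fin b ≃ A ⊕ Fin a := Fintype.equivOfCardEq hcard.symm
  refine ⟨a, X.submatrix id w.symm, Y.submatrix w.symm id, ?_, ?_⟩
  · rw [submatrix_mul_equiv, h4]
    rfl
  · have : Y.submatrix w.symm id * X.submatrix id w.symm = (Y * X).submatrix w.symm w.symm := by
      rw [← submatrix_mul_equiv Y X w.symm (Equiv.refl _) w.symm]
      rfl
    rw [this, h5, submatrix_one_equiv]

end Pool.Agent.Hier
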