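import Pool.Agent.Lib.MP_8f66f0_al_Hier.SpecT

/-! Structure constants of Land-Tamme data. -/

set_option autoImplicit false

namespace Pool.Agent.Hier

open Pool.Agent.Wald Pool.Agent.Ind

section ScAux

variable {LL E Q' Q I : Type} [CommRing LL] [Group E] [Ring Q'] [Ring Q] [Algebra LL Q']
  [Algebra LL Q] (f : Q' →ₐ[LL] Q) (ρ : E →* Q') (w : I → Q)

/-- `ev` as an additive map. -/
private noncomputable def scEv : (List I →₀ Q') →+ Q :=
  Finsupp.liftAddHom fun u => (AddMonoidHom.mulRight (wd w u)).comp ((f : Q' →+* Q) : Q' →+ Q)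

private theorem scEv_single (u : List I) (q : Q') :
    scEv f w (Finsupp.single u q) = f q * wd w u := by
  rw [scEv, Finsupp.liftAddHom_apply_single]
  rfl

/-- The sum `∑ f(x_j) w_j`. -/
private noncomputable def scL : (I →₀ MonoidAlgebra LL E) →ₗ[LL] Q :=
  Finsupp.lsum LL fun j => (LinearMap.mulRight LL (w j)).comp
    (f.toLinearMap.comp (gr LL ρ).toLinearMap)

private theorem scL_apply (x : I →₀ MonoidAlgebra LL E) :
    scL f ρ w x = x.sum fun j r => f (gr LL ρ r) * w j := by
  rw [scL, Finsupp.lsum_apply]
  rfl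

private theorem scL_single (j : I) (r : MonoidAlgebra LL E) :
    scL f ρ w (Finsupp.single j r) = f (gr LL ρ r) * w j := by
  rw [scL, Finsupp.lsum_single]
  rfl

private theorem scL_smul (r : MonoidAlgebra LL E) (x : I →₀ MonoidAlgebra LL E) :
    scL f ρ w (r • x) = f (gr LL ρ r) * scL f ρ w x := by
  induction x using Finsupp.induction_linear with
  | zero => rw [smul_zero, map_zero, mul_zero]
  | add x y hx hy => rw [smul_add, map_add, map_add, hx, hy, mul_add]
  | single j s =>
    rw [Finsupp.smul_single, scL_single, scL_single, smul_eq_mul, map_mul, map_mul, mul_assoc]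

/-- The map `(c, x) ↦ f c + ∑ f(x_j) w_j`. -/
private noncomputable def scW : Q' × (I →₀ MonoidAlgebra LL E) →ₗ[LL] Q :=
  f.toLinearMap.coprod (scL f ρ w)

private theorem scW_apply (c : Q') (x : I →₀ MonoidAlgebra LL E) :
    scW f ρ w (c, x) = f c + scL f ρ w x := rfl

/-- The corresponding combination of words. -/
private noncomputable def scV : (I →₀ MonoidAlgebra LL E) →+ (List I →₀ Q') :=
  Finsupp.liftAddHom fun j => (Finsupp.singleAddHom [j]).comp
    ((gr LL ρ : MonoidAlgebra LL E →+* Q') : MonoidAlgebra LL E →+ Q')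

private theorem scV_single (j : I) (r : MonoidAlgebra LL E) :
    scV ρ (Finsupp.single j r) = Finsupp.single [j] (gr LL ρ r) := by
  rw [scV, Finsupp.liftAddHom_apply_single]
  rfl

private theorem scV_nil (x : I →₀ MonoidAlgebra LL E) : scV ρ x [] = 0 := by
  induction x using Finsupp.induction_linear with
  | zero => rw [map_zero]; rfl
  | add x y hx hy => rw [map_add, Finsupp.add_apply, hx, hy, add_zero]
  | single j s =>
    rw [scV_single]
    exact Finsupp.single_eq_of_ne (by simp)

private theorem scV_one (x : I →₀ MonoidAlgebra LL E) (j : I) : scV ρ x [j] = gr LL ρ (x j) := by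
  classical
  induction x using Finsupp.induction_linear with
  | zero => rw [map_zero, Finsupp.zero_apply, Finsupp.zero_apply, map_zero]
  | add x y hx hy => rw [map_add, Finsupp.add_apply, hx, hy, Finsupp.add_apply, map_add]
  | single i s =>
    rw [scV_single, Finsupp.single_apply, Finsupp.single_apply]
    by_cases h : i = j
    · rw [if_pos h, if_pos (by rw [h])]
    · rw [if_neg h, if_neg (by simpa using h), map_zero]

private theorem scV_ev (x : I →₀ MonoidAlgebra LL E) : scEv f w (scV ρ x) = scL f ρ w x := by
  induction x using Finsupp.induction_linear with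
  | zero => rw [map_zero, map_zero, map_zero]
  | add x y hx hy => rw [map_add, map_add, hx, hy, map_add]
  | single i s =>
    rw [scV_single, scEv_single, scL_single]
    show f (gr LL ρ s) * (1 * w i) = _
    rw [one_mul]

private theorem scW_inj (h : IsLT LL f ρ w) : Function.Injective (scW f ρ w) := by
  obtain ⟨s, hs⟩ := h.ret
  have hgr : Function.Injective (gr LL ρ : MonoidAlgebra LL E →ₐ[LL] Q') := fun x y hxy => by
    rw [← hs x, ← hs y, hxy]
  have hfree : Function.Injective (scEv f w) := h.free.1
  rintro ⟨c, x⟩ ⟨c', x'⟩ hxy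
  rw [scW_apply, scW_apply, ← scV_ev, ← scV_ev] at hxy
  have e : ∀ (c : Q') (x : I →₀ MonoidAlgebra LL E), f c + scEv f w (scV ρ x) =
      scEv f w (Finsupp.single [] c + scV ρ x) := by
    intro c x
    rw [map_add, scEv_single]
    show f c + _ = f c * 1 + _
    rw [mul_one]
  rw [e, e] at hxy
  have h1 := hfree hxy
  refine Prod.ext ?_ (Finsupp.ext fun j => hgr ?_)
  · have h2 := DFunLike.congr_fun h1 []
    rw [Finsupp.add_apply, Finsupp.add_apply, scV_nil, scV_nil, add_zero, add_zero,
      Finsupp.single_eq_same, Finsupp.single_eq_same] at h2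
    exact h2
  · have h2 := DFunLike.congr_fun h1 [j]
    rw [Finsupp.add_apply, Finsupp.add_apply, scV_one, scV_one,
      Finsupp.single_eq_of_ne (by simp), Finsupp.single_eq_of_ne (by simp), zero_add,
      zero_add] at h2
    exact h2

end ScAux

/-- T0. Structure constants exist. -/
theorem sc : S_sc := by
  intro LL E Q' Q I _ _ _ _ _ _ f ρ w h
  have hinj := scW_inj f ρ w h
  have hex : ∀ (i : I) (q : Q'), ∃ P : Q' × (I →₀ MonoidAlgebra LL E),
      scW f ρ w P = w i * f q := by
    intro i q
    obtain ⟨c, x, hx⟩ := h.right i q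
    exact ⟨(c, x), by rw [scW_apply, scL_apply, ← hx]⟩
  choose P hP using hex
  let PL : ∀ i : I, Q' →ₗ[LL] Q' × (I →₀ MonoidAlgebra LL E) := fun i =>
    { toFun := P i
      map_add' := fun q q' => hinj (by rw [map_add, hP, hP, hP, map_add, mul_add])
      map_smul' := fun r q => hinj (by
        rw [RingHom.id_apply, map_smul, hP, hP, map_smul, mul_smul_comm]) }
  have hPL : ∀ i q, scW f ρ w (PL i q) = w i * f q := hP
  have hrel : ∀ i q, w i * f q = f (PL i q).1 + scL f ρ w (PL i q).2 := fun i q => (hPL i q).symm
  have hmul : ∀ i q q', PL i (q * q') =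
      ((PL i q).1 * q' + ((PL i q).2.sum fun j r => gr LL ρ r * (PL j q').1),
        (PL i q).2.sum fun j r => r • (PL j q').2) := by
    intro i q q'
    apply hinj
    rw [hPL, map_mul, ← mul_assoc, hrel, scW_apply, map_add, map_mul, add_mul, add_assoc]
    congr 1
    rw [scL_apply, Finsupp.sum, Finsupp.sum, Finsupp.sum, map_sum, map_sum, Finset.sum_mul,
      ← Finset.sum_add_distrib]
    refine Finset.sum_congr rfl fun j _ => ?_
    rw [scL_smul, map_mul, ← mul_add, ← hrel, mul_assoc]
  refine ⟨⟨fun i => (LinearMap.fst LL _ _).comp (PL i), fun i => (LinearMap.snd LL _ _).comp (PL i),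
    fun i => ?_, fun i => ?_, fun i q q' => congrArg Prod.fst (hmul i q q'),
    fun i q q' => congrArg Prod.snd (hmul i q q')⟩, fun i q => ?_⟩
  · have e : PL i 1 = (0, Finsupp.single i 1) := hinj (by
      rw [hPL, scW_apply, scL_single, map_one, map_one, map_one, map_zero, zero_add, mul_one,
        one_mul])
    exact congrArg Prod.fst e
  · have e : PL i 1 = (0, Finsupp.single i 1) := hinj (by
      rw [hPL, scW_apply, scL_single, map_one, map_one, map_one, map_zero, zero_add, mul_one,
        one_mul])
    exact congrArg Prod.snd e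
  · rw [hrel, scL_apply]
    rfl

end Pool.Agent.Hier
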