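import Pool.Agent.Lib.MP_8f66f0_al_Hier.SpecP

/-! Block P, P-c: the matrix form of the stable freeness of the range of an idempotent matrix. -/

set_option autoImplicit false

namespace Pool.Agent.Hier

open Pool.Agent.Wald Pool.Agent.Ind Matrix

section Sfm

variable {R : Type} [Ring R]

/-- the matrix of a linear map of free left modules (row convention) -/
private noncomputable def sfm_mat {A B : Type} [Fintype A] [DecidableEq A]
    (F : (A → R) →ₗ[R] (B → R)) : Matrix A B R := fun i => F (Pi.single i 1)

private theorem sfm_vecMul {A B : Type} [Fintype A] [DecidableEq A]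
    (F : (A → R) →ₗ[R] (B → R)) (x : A → R) : vecMul x (sfm_mat F) = F x := by
  have hx : x = ∑ i, x i • (Pi.single i 1 : A → R) := by
    funext j
    rw [Finset.sum_apply, Finset.sum_eq_single j]
    · simp
    · intro b _ hb
      simp [Pi.single_eq_of_ne (Ne.symm hb)]
    · intro h
      exact absurd (Finset.mem_univ j) h
  conv_rhs => rw [hx]
  rw [map_sum]
  funext j
  rw [Finset.sum_apply]
  unfold vecMul dotProduct
  refine Finset.sum_congr rfl fun i _ => ?_
  rw [map_smul]
  rfl

private theorem sfm_mul {A B C : Type} [Fintype A] [DecidableEq A] [Fintype B] [DecidableEq B]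
    (F : (A → R) →ₗ[R] (B → R)) (G : (B → R) →ₗ[R] (C → R)) (i : A) :
    (sfm_mat F * sfm_mat G) i = G (F (Pi.single i 1)) := by
  rw [Matrix.mul_apply_eq_vecMul]
  exact sfm_vecMul G _

private theorem sfm_single {A : Type} [Fintype A] [DecidableEq A] {C : Type}
    (M : Matrix A C R) (i : A) : vecMul (Pi.single i (1 : R)) M = M i := by
  rw [Matrix.single_one_vecMul]
  rfl

end Sfm

theorem sfm : S_Sfm := by
  intro L I _ _ _ D p hp hcls
  set e : (I → L) →ₗ[L] (I → L) := Matrix.vecMulLinear p with he
  have hee : ∀ x, e (e x) = e x := by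
    intro x
    rw [he, Matrix.vecMulLinear_apply, Matrix.vecMulLinear_apply, Matrix.vecMul_vecMul, hp]
  set P := LinearMap.range e with hP
  have hPe : ∀ x ∈ P, e x = x := by
    rintro x ⟨y, rfl⟩
    exact hee y
  set sP : (I → L) →ₗ[L] P := e.rangeRestrict with hsP
  have h1 : sP.comp P.subtype = LinearMap.id := by
    ext x
    exact congrFun (hPe x x.2) _
  have i1 : Module.Projective L P := Module.Projective.of_split P.subtype sP h1
  have i2 : Module.Finite L P := Module.Finite.of_surjective sP
    (fun y => ⟨y, LinearMap.congr_fun h1 y⟩)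
  have hsPP : ∀ x : P, sP (x : I → L) = x := fun x => LinearMap.congr_fun h1 x
  obtain ⟨a, b, ⟨φ⟩⟩ := D.cls_one P ⟨i2, i1⟩ hcls
  let F : (I ⊕ Fin a → L) →ₗ[L] (Fin b → L) :=
    { toFun := fun z => φ (sP (z ∘ Sum.inl), z ∘ Sum.inr)
      map_add' := by
        intro x y
        have e1 : (sP ((x + y) ∘ Sum.inl), (x + y) ∘ Sum.inr) =
            (sP (x ∘ Sum.inl), x ∘ (Sum.inr : Fin a → I ⊕ Fin a)) +
              (sP (y ∘ (Sum.inl : I → I ⊕ Fin a)), y ∘ (Sum.inr : Fin a → I ⊕ Fin a)) := by
          rw [Prod.mk_add_mk, ← map_add]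
          rfl
        rw [e1, map_add]
      map_smul' := by
        intro r x
        have e1 : (sP ((r • x) ∘ Sum.inl), (r • x) ∘ Sum.inr) =
            r • (sP (x ∘ (Sum.inl : I → I ⊕ Fin a)), x ∘ (Sum.inr : Fin a → I ⊕ Fin a)) := by
          rw [Prod.smul_mk, ← map_smul]
          rfl
        rw [e1, map_smul]
        rfl }
  let F' : (Fin b → L) →ₗ[L] (I ⊕ Fin a → L) :=
    { toFun := fun x => Sum.elim (((φ.symm x).1 : P) : I → L) (φ.symm x).2
      map_add' := by
        intro x y
        rw [map_add]
        funext z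
        rcases z with i | j
        · rfl
        · rfl
      map_smul' := by
        intro r x
        rw [map_smul]
        funext z
        rcases z with i | j
        · rfl
        · rfl }
  have hF : ∀ z, F z = φ (sP (z ∘ Sum.inl), z ∘ Sum.inr) := fun z => rfl
  have hF' : ∀ x, F' x = Sum.elim (((φ.symm x).1 : P) : I → L) (φ.symm x).2 := fun x => rfl
  refine ⟨a, b, sfm_mat F, sfm_mat F', ?_, ?_⟩
  · funext i
    refine (sfm_mul F F' i).trans ?_
    refine Eq.trans ?_ (sfm_single _ i)
    rw [hF', hF, LinearEquiv.symm_apply_apply, Matrix.vecMul_fromBlocks]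
    simp only [Matrix.vecMul_zero, Matrix.vecMul_one, add_zero, zero_add]
    rfl
  · funext i
    refine (sfm_mul F' F i).trans ?_
    refine Eq.trans ?_ (sfm_single _ i)
    rw [hF, hF', Sum.elim_comp_inl, Sum.elim_comp_inr, hsPP, Matrix.vecMul_one]
    exact φ.apply_symm_apply _

end Pool.Agent.Hier
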