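import Pool.Agent.Lib.MP_8f66f0_al_Hier.SpecC

/-! Splitting of words. -/

set_option autoImplicit false

namespace Pool.Agent.Hier

open Pool.Agent.Wald Pool.Agent.Ind

section SplitAux

variable {Q' T Λ X Y : Type} [Ring Q'] [Ring T]

/-- `ev` as an additive map. -/
private noncomputable def spEv (f : Q' →+* T) (ℓ : Λ → T) : (List Λ →₀ Q') →+ T :=
  Finsupp.liftAddHom fun u => (AddMonoidHom.mulRight (wd ℓ u)).comp (f : Q' →+ T)

private theorem spEv_apply (f : Q' →+* T) (ℓ : Λ → T) (x : List Λ →₀ Q') :
    spEv f ℓ x = ev f ℓ x := rfl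

private theorem spEv_single (f : Q' →+* T) (ℓ : Λ → T) (u : List Λ) (q : Q') :
    spEv f ℓ (Finsupp.single u q) = f q * wd ℓ u := by
  rw [spEv, Finsupp.liftAddHom_apply_single]
  rfl

private theorem sp_append (ℓ : Λ → T) (u v : List Λ) : wd ℓ (u ++ v) = wd ℓ v * wd ℓ u := by
  induction u with
  | nil => exact (mul_one _).symm
  | cons a u ih =>
    show wd ℓ (u ++ v) * ℓ a = wd ℓ v * (wd ℓ u * ℓ a)
    rw [ih, mul_assoc]

private theorem sp_map (a : X → T) (d : Y → T) (u : List X) :
    wd (Sum.elim a d) (u.map Sum.inl) = wd a u := by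
  induction u with
  | nil => rfl
  | cons x u ih =>
    show wd (Sum.elim a d) (u.map Sum.inl) * a x = wd a u * a x
    rw [ih]

/-- Composition of words. -/
private def spC : List (Y × List X) → List X → List (X ⊕ Y)
  | [], u₀ => u₀.map Sum.inl
  | p :: w, u₀ => p.2.map Sum.inl ++ Sum.inr p.1 :: spC w u₀

/-- Insertion of a letter of `X` at the head. -/
private def spI (x : X) : List (Y × List X) × List X → List (Y × List X) × List X
  | ([], u₀) => ([], x :: u₀)
  | (p :: w, u₀) => ((p.1, x :: p.2) :: w, u₀)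

/-- Decomposition of words. -/
private def spD : List (X ⊕ Y) → List (Y × List X) × List X
  | [] => ([], [])
  | Sum.inl x :: l => spI x (spD l)
  | Sum.inr y :: l => ((y, []) :: (spD l).1, (spD l).2)

private theorem spC_I (x : X) (q : List (Y × List X) × List X) :
    spC (spI x q).1 (spI x q).2 = Sum.inl x :: spC q.1 q.2 := by
  obtain ⟨w, u₀⟩ := q
  cases w <;> rfl

private theorem spC_D (l : List (X ⊕ Y)) : spC (spD l).1 (spD l).2 = l := by
  induction l with
  | nil => rfl
  | cons z l ih =>
    cases z with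
    | inl x =>
      show spC (spI x (spD l)).1 (spI x (spD l)).2 = _
      rw [spC_I, ih]
    | inr y =>
      show ([] : List X).map Sum.inl ++ Sum.inr y :: spC (spD l).1 (spD l).2 = _
      rw [ih]
      rfl

private theorem spD_map (u : List X) : spD (u.map (Sum.inl : X → X ⊕ Y)) = ([], u) := by
  induction u with
  | nil => rfl
  | cons x u ih =>
    show spI x (spD (u.map Sum.inl)) = _
    rw [ih]
    rfl

private theorem spD_app (y : Y) (l : List (X ⊕ Y)) (u : List X) :
    spD (u.map Sum.inl ++ Sum.inr y :: l) = ((y, u) :: (spD l).1, (spD l).2) := by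
  induction u with
  | nil => rfl
  | cons x u ih =>
    show spI x (spD (u.map Sum.inl ++ Sum.inr y :: l)) = _
    rw [ih]
    rfl

private theorem spD_C (w : List (Y × List X)) (u₀ : List X) : spD (spC w u₀) = (w, u₀) := by
  induction w with
  | nil => exact spD_map u₀
  | cons p w ih =>
    show spD (p.2.map Sum.inl ++ Sum.inr p.1 :: spC w u₀) = _
    rw [spD_app, ih]

/-- The decomposition of words as an equivalence. -/
private def spE : List (X ⊕ Y) ≃ List (Y × List X) × List X where
  toFun := spD
  invFun := fun q => spC q.1 q.2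
  left_inv := spC_D
  right_inv := fun q => spD_C q.1 q.2

private theorem sp_wd (a : X → T) (d : Y → T) (w : List (Y × List X)) (u₀ : List X) :
    wd (Sum.elim a d) (spC w u₀) = wd a u₀ * wd (fun p : Y × List X => d p.1 * wd a p.2) w := by
  induction w with
  | nil =>
    show wd (Sum.elim a d) (u₀.map Sum.inl) = wd a u₀ * 1
    rw [sp_map, mul_one]
  | cons p w ih =>
    show wd (Sum.elim a d) (p.2.map Sum.inl ++ Sum.inr p.1 :: spC w u₀) = wd a u₀ *
      (wd (fun p : Y × List X => d p.1 * wd a p.2) w * (d p.1 * wd a p.2))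
    rw [sp_append, sp_map]
    show wd (Sum.elim a d) (spC w u₀) * d p.1 * wd a p.2 = _
    rw [ih]
    simp only [mul_assoc]

section Sub

variable (f : Q' →+* T) (a : X → T)

private theorem sp_mem (q : Q') (u : List X) : f q * wd a u ∈ (spEv f a).range :=
  ⟨Finsupp.single u q, spEv_single f a u q⟩

private theorem sp_ind {P : T → Prop} (h0 : P 0) (hadd : ∀ s t, P s → P t → P (s + t))
    (h1 : ∀ q u, P (f q * wd a u)) {t : T} (ht : t ∈ (spEv f a).range) : P t := by
  obtain ⟨x, rfl⟩ := ht
  induction x using Finsupp.induction_linear with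
  | zero => rw [map_zero]; exact h0
  | add x y hx hy => rw [map_add]; exact hadd _ _ hx hy
  | single u q => rw [spEv_single]; exact h1 q u

private theorem sp_left (q : Q') {t : T} (ht : t ∈ (spEv f a).range) :
    f q * t ∈ (spEv f a).range := by
  refine sp_ind f a (P := fun t => f q * t ∈ (spEv f a).range) ?_ ?_ ?_ ht
  · rw [mul_zero]; exact zero_mem _
  · intro s t hs ht
    rw [mul_add]
    exact add_mem hs ht
  · intro q' u
    rw [← mul_assoc, ← map_mul]
    exact sp_mem f a _ u

private theorem sp_right (x : X) {t : T} (ht : t ∈ (spEv f a).range) :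
    t * a x ∈ (spEv f a).range := by
  refine sp_ind f a (P := fun t => t * a x ∈ (spEv f a).range) ?_ ?_ ?_ ht
  · rw [zero_mul]; exact zero_mem _
  · intro s t hs ht
    rw [add_mul]
    exact add_mem hs ht
  · intro q' u
    rw [mul_assoc]
    exact sp_mem f a q' (x :: u)

private theorem sp_word (hcl : Cl f a) (u : List X) : ∀ q, wd a u * f q ∈ (spEv f a).range := by
  induction u with
  | nil =>
    intro q
    have h := sp_mem f a q []
    have e : wd a ([] : List X) = 1 := rfl
    rw [e, mul_one] at h
    rw [e, one_mul]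
    exact h
  | cons x u ih =>
    intro q
    obtain ⟨c, y, hcy⟩ := hcl x q
    have e : wd a (x :: u) * f q = wd a u * f c + y.sum fun b r => wd a u * f r * a b := by
      show wd a u * a x * f q = _
      rw [mul_assoc, hcy, mul_add, lin, Finsupp.mul_sum]
      congr 1
      exact Finsupp.sum_congr fun b _ => (mul_assoc _ _ _).symm
    rw [e]
    refine add_mem (ih c) (sum_mem fun b _ => sp_right f a b (ih _))

private theorem sp_rf (hcl : Cl f a) (q : Q') {t : T} (ht : t ∈ (spEv f a).range) :
    t * f q ∈ (spEv f a).range := by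
  refine sp_ind f a (P := fun t => t * f q ∈ (spEv f a).range) ?_ ?_ ?_ ht
  · rw [zero_mul]; exact zero_mem _
  · intro s t hs ht
    rw [add_mul]
    exact add_mem hs ht
  · intro q' u
    rw [mul_assoc]
    exact sp_left f a q' (sp_word f a hcl u q)

private theorem sp_rw (u : List X) : ∀ {t : T}, t ∈ (spEv f a).range →
    t * wd a u ∈ (spEv f a).range := by
  induction u with
  | nil =>
    intro t ht
    show t * 1 ∈ _
    rwa [mul_one]
  | cons x u ih =>
    intro t ht
    show t * (wd a u * a x) ∈ _
    rw [← mul_assoc]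
    exact sp_right f a x (ih ht)

private theorem sp_mul (hcl : Cl f a) {s t : T} (hs : s ∈ (spEv f a).range)
    (ht : t ∈ (spEv f a).range) : s * t ∈ (spEv f a).range := by
  refine sp_ind f a (P := fun t => s * t ∈ (spEv f a).range) ?_ ?_ ?_ ht
  · rw [mul_zero]; exact zero_mem _
  · intro s t hs ht
    rw [mul_add]
    exact add_mem hs ht
  · intro q' u
    rw [← mul_assoc]
    exact sp_rw f a u (sp_rf f a hcl q' hs)

end Sub

end SplitAux

/-- C5. Splitting of words. -/
theorem split : S_split := by
  intro LL Q' T X Y _ _ _ _ _ f a d hfree hcl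
  let T₀ : Subalgebra LL T :=
    { carrier := {t | t ∈ (spEv (f : Q' →+* T) a).range}
      mul_mem' := fun hs ht => sp_mul (f : Q' →+* T) a hcl hs ht
      add_mem' := fun hs ht => (spEv (f : Q' →+* T) a).range.add_mem hs ht
      algebraMap_mem' := fun r => by
        have h := sp_mem (f : Q' →+* T) a (algebraMap LL Q' r) []
        have e : wd a ([] : List X) = 1 := rfl
        rw [e, mul_one] at h
        have e2 : (f : Q' →+* T) (algebraMap LL Q' r) = algebraMap LL T r := f.commutes r
        rw [e2] at h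
        exact h }
  have hf : ∀ q, f q ∈ T₀ := fun q => by
    have h := sp_mem (f : Q' →+* T) a q []
    have e : wd a ([] : List X) = 1 := rfl
    rw [e, mul_one] at h
    exact h
  have ha : ∀ x, a x ∈ T₀ := fun x => by
    have h := sp_mem (f : Q' →+* T) a 1 [x]
    have e : wd a [x] = 1 * a x := rfl
    rw [e, one_mul, map_one, one_mul] at h
    exact h
  let f₀ : Q' →ₐ[LL] T₀ := f.codRestrict T₀ hf
  let a₀ : X → T₀ := fun x => ⟨a x, ha x⟩
  have hf₀ : ∀ q, (f₀ q : T) = f q := fun q => rfl
  have hwd : ∀ u, ((wd a₀ u : T₀) : T) = wd a u := by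
    intro u
    induction u with
    | nil => rfl
    | cons x u ih =>
      show ((wd a₀ u * a₀ x : T₀) : T) = wd a u * a x
      rw [← ih]
      rfl
  have hev : ∀ x, ((spEv (f₀ : Q' →+* T₀) a₀ x : T₀) : T) = spEv (f : Q' →+* T) a x := by
    intro x
    have h : (T₀.val : T₀ →+ T).comp (spEv (f₀ : Q' →+* T₀) a₀) = spEv (f : Q' →+* T) a := by
      refine Finsupp.addHom_ext fun u q => ?_
      show ((spEv (f₀ : Q' →+* T₀) a₀ (Finsupp.single u q) : T₀) : T) = _
      rw [spEv_single, spEv_single]
      show (f₀ q : T) * ((wd a₀ u : T₀) : T) = _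
      rw [hwd]
      rfl
    exact DFunLike.congr_fun h x
  have hinj : Function.Injective (spEv (f : Q' →+* T) a) := by
    have e : spEv (f : Q' →+* T) a = (spEv (f : Q' →+* T) (Sum.elim a d)).comp
        (Finsupp.mapDomain.addMonoidHom (List.map Sum.inl)) := by
      refine Finsupp.addHom_ext fun u q => ?_
      rw [spEv_single, AddMonoidHom.comp_apply, Finsupp.mapDomain.addMonoidHom_apply,
        Finsupp.mapDomain_single, spEv_single, sp_map]
    rw [e]
    exact hfree.1.comp (Finsupp.mapDomain_injective (List.map_injective_iff.2 Sum.inl_injective))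
  have hbij : Function.Bijective (spEv (f₀ : Q' →+* T₀) a₀) := by
    constructor
    · intro x y h
      apply hinj
      rw [← hev, ← hev, h]
    · rintro ⟨t, x, rfl⟩
      exact ⟨x, Subtype.ext (hev x)⟩
  refine ⟨T₀, f₀, a₀, hf₀, fun x => rfl, fun t => ?_, hbij, ?_, ?_⟩
  · constructor
    · rintro ⟨x, rfl⟩
      exact ⟨x, rfl⟩
    · rintro ⟨x, rfl⟩
      exact ⟨x, rfl⟩
  · intro x q
    obtain ⟨c, y, hcy⟩ := hcl x q
    refine ⟨c, y, Subtype.ext ?_⟩
    show a x * f q = f c + ((lin (f₀ : Q' →+* T₀) a₀ y : T₀) : T)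
    have e : ((lin (f₀ : Q' →+* T₀) a₀ y : T₀) : T) = lin (f : Q' →+* T) a y := by
      rw [lin, lin, Finsupp.sum, Finsupp.sum]
      exact map_sum T₀.val _ _
    rw [e]
    exact hcy
  · -- the basis of words
    let E : (List (X ⊕ Y) →₀ Q') ≃+ (List (Y × List X) →₀ T₀) :=
      (Finsupp.domCongr spE).trans (Finsupp.curryAddEquiv.trans
        (Finsupp.mapRange.addEquiv (AddEquiv.ofBijective (spEv (f₀ : Q' →+* T₀) a₀) hbij)))
    have hE : (spEv ((T₀.val : T₀ →ₐ[LL] T) : T₀ →+* T)
        (fun p : Y × List X => d p.1 * wd a p.2)).comp (E : _ →+ _) =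
        spEv (f : Q' →+* T) (Sum.elim a d) := by
      refine Finsupp.addHom_ext fun l q => ?_
      obtain ⟨p, rfl⟩ := (spE (X := X) (Y := Y)).symm.surjective l
      have e1 : E (Finsupp.single (spE.symm p) q) =
          Finsupp.single p.1 (spEv (f₀ : Q' →+* T₀) a₀ (Finsupp.single p.2 q)) := by
        show Finsupp.mapRange (AddEquiv.ofBijective (spEv (f₀ : Q' →+* T₀) a₀) hbij)
          (map_zero _) (Finsupp.curry (Finsupp.equivMapDomain spE
          (Finsupp.single (spE.symm p) q))) = _
        rw [Finsupp.equivMapDomain_single, Equiv.apply_symm_apply]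
        obtain ⟨w, u₀⟩ := p
        rw [Finsupp.curry_single, Finsupp.mapRange_single]
        rfl
      show spEv _ _ (E (Finsupp.single (spE.symm p) q)) = _
      rw [e1, spEv_single, spEv_single, spEv_single]
      show (f q * ((wd a₀ p.2 : T₀) : T)) * _ = f q * wd (Sum.elim a d) (spC p.1 p.2)
      rw [sp_wd, hwd, mul_assoc]
    have h3 : ∀ x, spEv ((T₀.val : T₀ →ₐ[LL] T) : T₀ →+* T)
        (fun p : Y × List X => d p.1 * wd a p.2) x =
        spEv (f : Q' →+* T) (Sum.elim a d) (E.symm x) := by
      intro x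
      have h4 := DFunLike.congr_fun hE (E.symm x)
      rw [← h4]
      show _ = spEv _ _ (E (E.symm x))
      rw [AddEquiv.apply_symm_apply]
    have h5 : (ev ((T₀.val : T₀ →ₐ[LL] T) : T₀ →+* T)
        (fun p : Y × List X => d p.1 * wd a p.2)) =
        (ev (f : Q' →+* T) (Sum.elim a d)) ∘ E.symm := funext h3
    show Function.Bijective _
    rw [h5]
    exact hfree.comp E.symm.bijective

end Pool.Agent.Hier
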