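import Pool.Agent.Lib.MP_8f66f0_al_Hier.SpecT

/-! Module Step: the step theorem. -/

set_option autoImplicit false

namespace Pool.Agent.Hier

open Pool.Agent.Wald Pool.Agent.Ind

/-- The pullback of a `K_1`-like invariant. -/
private def stp_pull {T Q : Type} [Ring T] [Ring Q] (π : T →+* Q) {K : Type} [CommGroup K]
    (κ : K1Fun Q K) : K1Fun T K where
  f := fun {n} _ _ A => κ.f (A.map π)
  mul := fun {n} _ _ A B hA hB => by
    have h1 : (A * B).map π = A.map π * B.map π := Matrix.map_mul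
    rw [h1]
    exact κ.mul _ _ (hA.map π.mapMatrix) (hB.map π.mapMatrix)
  reindex := fun {n m} _ _ _ _ e A hA => by
    have h1 : (A.submatrix e.symm e.symm).map π = (A.map π).submatrix e.symm e.symm := rfl
    rw [h1]
    exact κ.reindex e _ (hA.map π.mapMatrix)
  tri := fun {n m} _ _ _ _ A B D hA hD => by
    have h1 : (Matrix.fromBlocks A B 0 D).map π =
        Matrix.fromBlocks (A.map π) (B.map π) 0 (D.map π) := by
      rw [Matrix.fromBlocks_map]
      congr 1
      ext i j
      simp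
    rw [h1]
    exact κ.tri _ _ _ (hA.map π.mapMatrix) (hD.map π.mapMatrix)

private theorem stp_comp {Q' T Q : Type} [Ring Q'] [Ring T] [Ring Q] (f : Q' →+* T) (π : T →+* Q)
    (g : Q' →+* Q) (h : ∀ q, π (f q) = g q) (hf : KT f) (hπ : KT π) : KT g := by
  intro K _ κ hκ
  refine hπ K κ fun n _ _ A hA => ?_
  refine hf K (stp_pull π κ) (fun n _ _ A hA => ?_) n A hA
  change κ.f ((A.map f).map π) = 1
  have h1 : (A.map f).map π = A.map g := by
    ext i j
    exact h _
  rw [h1]
  exact hκ n A hA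

/-- The restriction of the coefficients to a subgroup. -/
private noncomputable def stp_res (LL : Type) [CommRing LL] {E : Type} [Group E] (C : Subgroup E) :
    MonoidAlgebra LL E →ₗ[LL] MonoidAlgebra LL C where
  toFun := MonoidAlgebra.comapDomain C.subtype Subtype.val_injective
  map_add' x y := MonoidAlgebra.comapDomain_add _ _ x y
  map_smul' r x := by
    ext c
    simp

private theorem stp_ret (LL : Type) [CommRing LL] {E Q' : Type} [Group E] [Ring Q'] [Algebra LL Q']
    (ρ : E →* Q') (C : Subgroup E) (s : Q' →ₗ[LL] MonoidAlgebra LL E)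
    (hs : ∀ x, s (gr LL ρ x) = x) (x : MonoidAlgebra LL C) :
    (stp_res LL C ∘ₗ s) (gr LL (ρ.comp C.subtype) x) = x := by
  induction x using MonoidAlgebra.induction_linear with
  | zero => rw [map_zero, map_zero]
  | add x y hx hy => rw [map_add, map_add, hx, hy]
  | single c t =>
    have h1 : gr LL (ρ.comp C.subtype) (MonoidAlgebra.single c t) =
        gr LL ρ (MonoidAlgebra.single (c : E) t) := by
      rw [gr, gr, MonoidAlgebra.lift_single, MonoidAlgebra.lift_single]
      rfl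
    rw [h1, LinearMap.comp_apply, hs]
    change MonoidAlgebra.comapDomain C.subtype Subtype.val_injective
      (MonoidAlgebra.single (c : E) t) = MonoidAlgebra.single c t
    ext c'
    rw [MonoidAlgebra.coeff_comapDomain, Finsupp.comapDomain_apply, MonoidAlgebra.coeff_single,
      MonoidAlgebra.coeff_single]
    by_cases h : c = c'
    · subst h
      rw [Finsupp.single_eq_same]
      exact Finsupp.single_eq_same
    · rw [Finsupp.single_eq_of_ne' h, Finsupp.single_eq_of_ne']
      exact fun h' => h (Subtype.ext h')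

theorem step (h1 : S_sc) (h2 : S_tv) (h3 : S_proj) (h4 : S_letters) (h5 : S_ker) (h6 : S_pl)
    (h7 : S_ktquot) : S_step := by
  intro LL E _ _ _ A C O hA hC Q' Q I _ _ _ _ _ g ρ w hLT
  obtain ⟨D, hD⟩ := h1 LL E Q' Q I g ρ w hLT
  obtain ⟨T, _, _, f, ℓ, hTV⟩ := (h2 LL E Q' I (E ⧸ A) ρ D).1
  obtain ⟨π, p1, p2, p3⟩ := h3 LL E Q' Q I (E ⧸ A) T ρ D g w f ℓ hD hTV
  let a : I → T := fun i => ℓ (((1 : E) : E ⧸ A), i)
  let d : {v : E ⧸ A // v ≠ ((1 : E) : E ⧸ A)} × I → T := fun b =>
    f (ρ (O.y b.1)) * (ℓ ((b.1 : E ⧸ A), b.2) - ℓ (O.p b.1, b.2))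
  obtain ⟨l1, l2, l3⟩ := h4 LL E Q' I T ρ D A C O f ℓ hTV a d (fun _ => rfl) (fun _ _ => rfl)
  have hd : ∀ b, π (d b) = 0 := by
    intro b
    change π (f (ρ (O.y b.1)) * (ℓ ((b.1 : E ⧸ A), b.2) - ℓ (O.p b.1, b.2))) = 0
    rw [map_mul, map_sub, p2, p2, sub_self, mul_zero]
  have hker := h5 LL Q' Q I _ T f g w a d π l1 hLT.free p1 (fun i => p2 _ i) hd
  have hsurj : Function.Surjective π := by
    intro q
    obtain ⟨x, rfl⟩ := hLT.free.2 q
    refine ⟨ev (f : Q' →+* T) ℓ (x.mapDomain (List.map fun i => (((1 : E) : E ⧸ A), i))), ?_⟩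
    rw [p3, ← Finsupp.mapDomain_comp]
    have h8 : (List.map (Prod.snd : (E ⧸ A) × I → I)) ∘
        (List.map fun i => (((1 : E) : E ⧸ A), i)) = id := by
      funext u
      rw [Function.comp_apply, List.map_map]
      exact List.map_id u
    rw [h8, Finsupp.mapDomain_id]
  obtain ⟨s, hs⟩ := hLT.ret
  -- the retraction to the group algebra of `C`
  have hret : ∃ s : Q' →ₗ[LL] MonoidAlgebra LL C, ∀ x, s (gr LL (ρ.comp C.subtype) x) = x :=
    ⟨stp_res LL C ∘ₗ s, stp_ret LL ρ C s hs⟩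
  have hKπ : KT (π : T →+* Q) :=
    h6 LL C Q' Q I _ T (ρ.comp C.subtype) f a d π hret l1 l2
      (fun b q => Submodule.span_mono (by
        rintro t ⟨c, hc, b', rfl⟩
        exact ⟨⟨c, hc⟩, b', rfl⟩) (l3 b q)) hsurj hd hker hC
  have hKf : KT (f : Q' →+* T) := h7 LL E Q' I T ρ D A f ℓ hA hTV ⟨s, hs⟩
  exact stp_comp _ _ _ (fun q => p1 q) hKf hKπ

end Pool.Agent.Hier
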