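import Pool.Agent.Lib.MP_8f66f0_al_Hier.SpecT

/-! Block T: existence of `T(V)` and the universal property. -/

set_option autoImplicit false

namespace Pool.Agent.Hier

open Pool.Agent.Wald Pool.Agent.Ind

/-- T1b. Existence of `T(V)` and the universal property. -/
theorem tv (h1 : S_con) (h2 : S_lift) (h3 : S_tvls) : S_tv := by
  intro LL E Q' I V _ _ _ _ _ ρ D
  obtain ⟨S, hc, hm⟩ := h3 LL E Q' I V ρ D
  constructor
  · obtain ⟨T, iT, iA, f, ℓ, hrel, hfree⟩ := h1 LL Q' (V × I) S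
    refine ⟨T, iT, iA, f, ℓ, hfree, fun v i q => ?_⟩
    have h := hrel (v, i) q
    rw [hc, hm] at h
    exact h
  · intro T Z _ _ _ _ f ℓ g z hT hz
    have r1 : S.Rel (f : Q' →+* T) ℓ := by
      rintro ⟨v, i⟩ q
      rw [hc, hm]
      exact hT.rel v i q
    have r2 : S.Rel (g : Q' →+* Z) z := by
      rintro ⟨v, i⟩ q
      rw [hc, hm]
      exact hz v i q
    exact h2 LL Q' (V × I) T Z S f ℓ g z r1 hT.free r2

end Pool.Agent.Hier
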