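import Pool.Agent.Lib.MP_8f66f0_al_Hier.SpecT

/-! Block T: the letter system of `T(V)` (helper7). -/

set_option autoImplicit false

namespace Pool.Agent.Hier

open Pool.Agent.Wald Pool.Agent.Ind

section

variable {LL E Q' V I : Type} [CommRing LL] [Group E] [Ring Q'] [Algebra LL Q'] [MulAction E V]
  (ρ : E →* Q')

/-- coefficients, as a linear map -/
private noncomputable def tvls_co : MonoidAlgebra LL E →ₗ[LL] (E →₀ LL) where
  toFun := MonoidAlgebra.coeff
  map_add' _ _ := rfl
  map_smul' _ _ := rfl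

/-- `tw` for one letter, as a linear map -/
private noncomputable def tvls_l1 (v : V) (j : I) :
    MonoidAlgebra LL E →ₗ[LL] ((V × I) →₀ Q') :=
  (Finsupp.lsum LL fun e : E => (Finsupp.lsingle (e⁻¹ • v, j)).comp
    (LinearMap.toSpanSingleton LL Q' (ρ e))).comp tvls_co

private theorem tvls_l1_apply (v : V) (j : I) (r : MonoidAlgebra LL E) :
    tvls_l1 ρ v j r = r.coeff.sum fun e t => Finsupp.single (e⁻¹ • v, j) (t • ρ e) := by
  unfold tvls_l1
  rw [LinearMap.comp_apply, Finsupp.lsum_apply]
  rfl

/-- `tw` as a linear map -/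
private noncomputable def tvls_l (v : V) :
    (I →₀ MonoidAlgebra LL E) →ₗ[LL] ((V × I) →₀ Q') :=
  Finsupp.lsum LL fun j => tvls_l1 ρ v j

private theorem tvls_l_apply (v : V) (x : I →₀ MonoidAlgebra LL E) :
    tvls_l ρ v x = tw ρ v x := by
  unfold tvls_l tw
  rw [Finsupp.lsum_apply]
  exact Finsupp.sum_congr fun j _ => tvls_l1_apply ρ v j _

private theorem tvls_single (v : V) (j : I) (r : MonoidAlgebra LL E) :
    tw ρ v (Finsupp.single j r) =
      r.coeff.sum fun e t => Finsupp.single (e⁻¹ • v, j) (t • ρ e) := by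
  rw [← tvls_l_apply]
  unfold tvls_l
  rw [Finsupp.lsum_single, tvls_l1_apply]

/-- sums over `tw` -/
private theorem tvls_sum {N : Type} [AddCommMonoid N] (v : V) (x : I →₀ MonoidAlgebra LL E)
    (F : V × I → Q' → N) (h0 : ∀ b, F b 0 = 0) (hF : ∀ b r r', F b (r + r') = F b r + F b r') :
    (tw ρ v x).sum F = x.sum fun j r => r.coeff.sum fun e t => F (e⁻¹ • v, j) (t • ρ e) := by
  unfold tw
  rw [Finsupp.sum_sum_index h0 hF]
  refine Finsupp.sum_congr fun j _ => ?_
  rw [Finsupp.sum_sum_index h0 hF]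
  refine Finsupp.sum_congr fun e _ => ?_
  rw [Finsupp.sum_single_index (h0 _)]

private theorem tvls_smul1 (v : V) (j : I) (r s : MonoidAlgebra LL E) :
    tw ρ v (Finsupp.single j (r * s)) =
      r.coeff.sum fun e t => (t • ρ e) • tw ρ (e⁻¹ • v) (Finsupp.single j s) := by
  induction r using MonoidAlgebra.induction_linear with
  | zero =>
    rw [zero_mul, Finsupp.single_zero, ← tvls_l_apply, map_zero]
    rfl
  | add r r' h h' =>
    rw [add_mul, Finsupp.single_add, ← tvls_l_apply, map_add, tvls_l_apply, tvls_l_apply, h, h',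
      MonoidAlgebra.coeff_add, Finsupp.sum_add_index']
    · intro e
      rw [zero_smul, zero_smul]
    · intro e t t'
      rw [add_smul, add_smul]
  | single e t =>
    rw [MonoidAlgebra.coeff_single, Finsupp.sum_single_index (by rw [zero_smul, zero_smul])]
    induction s using MonoidAlgebra.induction_linear with
    | zero =>
      rw [mul_zero, Finsupp.single_zero, ← tvls_l_apply, ← tvls_l_apply, map_zero, map_zero,
        smul_zero]
    | add s s' h h' =>
      rw [mul_add, Finsupp.single_add, ← tvls_l_apply, map_add, tvls_l_apply, tvls_l_apply, h, h',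
        Finsupp.single_add, ← tvls_l_apply, ← tvls_l_apply, ← tvls_l_apply, map_add, smul_add]
    | single e' t' =>
      rw [MonoidAlgebra.single_mul_single, tvls_single, tvls_single, MonoidAlgebra.coeff_single,
        MonoidAlgebra.coeff_single, Finsupp.sum_single_index (by rw [zero_smul]; simp),
        Finsupp.sum_single_index (by rw [zero_smul]; simp), Finsupp.smul_single, mul_inv_rev,
        mul_smul, smul_eq_mul, map_mul, smul_mul_smul_comm]

private theorem tvls_smul (v : V) (r : MonoidAlgebra LL E) (x : I →₀ MonoidAlgebra LL E) :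
    tw ρ v (r • x) = r.coeff.sum fun e t => (t • ρ e) • tw ρ (e⁻¹ • v) x := by
  induction x using Finsupp.induction_linear with
  | zero =>
    rw [smul_zero, ← tvls_l_apply, map_zero]
    symm
    refine Finset.sum_eq_zero fun e _ => ?_
    simp only
    rw [← tvls_l_apply, map_zero, smul_zero]
  | add x y h h' =>
    rw [smul_add, ← tvls_l_apply, map_add, tvls_l_apply, tvls_l_apply, h, h', ← Finsupp.sum_add]
    refine Finsupp.sum_congr fun e _ => ?_
    rw [← tvls_l_apply, ← tvls_l_apply, ← tvls_l_apply, map_add, smul_add]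
  | single j s =>
    rw [Finsupp.smul_single, smul_eq_mul]
    exact tvls_smul1 ρ v j r s

end

/-- T1. The letter system of `T(V)`. -/
theorem tvls : S_tvls := by
  intro LL E Q' I V _ _ _ _ _ ρ D
  refine ⟨⟨fun a => D.c a.2, fun a => (tvls_l ρ a.1).comp (D.x a.2), ?_, ?_, ?_, ?_⟩,
    fun v i q => rfl, fun v i q => tvls_l_apply ρ v _⟩
  · rintro ⟨v, i⟩
    exact D.c_one i
  · rintro ⟨v, i⟩
    change tvls_l ρ v (D.x i 1) = _
    rw [D.x_one, tvls_l_apply, tvls_single]
    have h : (1 : MonoidAlgebra LL E).coeff = Finsupp.single 1 1 := rfl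
    rw [h, Finsupp.sum_single_index (by rw [zero_smul]; simp), inv_one, one_smul, map_one,
      one_smul]
  · rintro ⟨v, i⟩ q q'
    change D.c i (q * q') = D.c i q * q' +
      (tvls_l ρ v (D.x i q)).sum fun b r => r * D.c b.2 q'
    rw [D.c_mul, tvls_l_apply, tvls_sum ρ v _ (fun b r => r * D.c b.2 q')
      (fun b => zero_mul _) (fun b r r' => add_mul _ _ _)]
    congr 1
    refine Finsupp.sum_congr fun j _ => ?_
    rw [MonoidAlgebra.lift_apply, Finsupp.sum_mul]
  · rintro ⟨v, i⟩ q q'
    change tvls_l ρ v (D.x i (q * q')) = (tvls_l ρ v (D.x i q)).sum fun b r =>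
      r • tvls_l ρ b.1 (D.x b.2 q')
    rw [D.x_mul, map_finsuppSum, tvls_l_apply ρ v (D.x i q), tvls_sum ρ v _
      (fun b r => r • tvls_l ρ b.1 (D.x b.2 q')) (fun b => zero_smul _ _)
      (fun b r r' => add_smul _ _ _)]
    refine Finsupp.sum_congr fun j _ => ?_
    rw [tvls_l_apply, tvls_smul]
    exact Finsupp.sum_congr fun e _ => by rw [tvls_l_apply]

end Pool.Agent.Hier
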