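import Pool.Agent.Lib.MP_8f66f0_al_Hier.SpecT

set_option autoImplicit false

namespace Pool.Agent.Hier

open Pool.Agent.Wald Pool.Agent.Ind

private theorem un_unit {R S n : Type} [Ring R] [Ring S] [Fintype n] [DecidableEq n]
    (φ : R →+* S) {A : Matrix n n R} (hA : IsUnit A) : IsUnit (A.map φ) :=
  hA.map (RingHom.mapMatrix φ)

private noncomputable def unPull {R S K : Type} [Ring R] [Ring S] [CommGroup K] (φ : R →+* S)
    (κ : K1Fun S K) : K1Fun R K where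
  f A := κ.f (A.map φ)
  mul A B hA hB := by
    rw [Matrix.map_mul]
    exact κ.mul _ _ (un_unit φ hA) (un_unit φ hB)
  reindex e A hA := κ.reindex e (A.map φ) (un_unit φ hA)
  tri A B D hA hD := by
    rw [Matrix.fromBlocks_map, Matrix.map_zero _ (map_zero φ)]
    exact κ.tri _ _ _ (un_unit φ hA) (un_unit φ hD)

private theorem un_wd {T Z Λ : Type} [Ring T] [Ring Z] (ℓ : Λ → T) (φ φ' : T →+* Z)
    (h : ∀ a, φ (ℓ a) = φ' (ℓ a)) : ∀ u : List Λ, φ (wd ℓ u) = φ' (wd ℓ u)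
  | [] => by
    show φ 1 = φ' 1
    rw [map_one, map_one]
  | a :: u => by
    show φ (wd ℓ u * ℓ a) = φ' (wd ℓ u * ℓ a)
    rw [map_mul, map_mul, un_wd ℓ φ φ' h u, h a]

private theorem un_ext {Q' T Z Λ : Type} [Ring Q'] [Ring T] [Ring Z] (f : Q' →+* T) (ℓ : Λ → T)
    (hf : FreeW f ℓ) (φ φ' : T →+* Z) (h0 : ∀ q, φ (f q) = φ' (f q))
    (h : ∀ a, φ (ℓ a) = φ' (ℓ a)) (t : T) : φ t = φ' t := by
  obtain ⟨x, rfl⟩ := hf.2 t
  unfold ev Finsupp.sum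
  rw [map_sum, map_sum]
  refine Finset.sum_congr rfl fun u _ => ?_
  rw [map_mul, map_mul, h0, un_wd ℓ φ φ' h]

private theorem un_lin_tw {LL E Q' I V T : Type} [CommRing LL] [Group E] [Ring Q']
    [Algebra LL Q'] [Ring T] [Algebra LL T] (ρ : E →* Q') [MulAction E V] (f : Q' →ₐ[LL] T)
    (ℓ : V × I → T) (v : V) (x : I →₀ MonoidAlgebra LL E) :
    lin (f : Q' →+* T) ℓ (tw ρ v x) = ∑ j ∈ x.support, ∑ e ∈ (x j).coeff.support,
      f ((x j).coeff e • ρ e) * ℓ (e⁻¹ • v, j) := by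
  classical
  have hadd : ∀ y z : (V × I) →₀ Q', lin (f : Q' →+* T) ℓ (y + z) =
      lin (f : Q' →+* T) ℓ y + lin (f : Q' →+* T) ℓ z := by
    intro y z
    unfold lin
    rw [Finsupp.sum_add_index']
    · simp
    · intros
      rw [map_add, add_mul]
  let L : ((V × I) →₀ Q') →+ T :=
    { toFun := lin (f : Q' →+* T) ℓ
      map_zero' := by simp [lin]
      map_add' := hadd }
  have h : lin (f : Q' →+* T) ℓ (tw ρ v x) = L (tw ρ v x) := rfl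
  rw [h]
  unfold tw Finsupp.sum
  rw [map_sum]
  refine Finset.sum_congr rfl fun j _ => ?_
  rw [map_sum]
  refine Finset.sum_congr rfl fun e _ => ?_
  show lin (f : Q' →+* T) ℓ (Finsupp.single (e⁻¹ • v, j) ((x j).coeff e • ρ e)) = _
  unfold lin
  rw [Finsupp.sum_single_index (by simp)]
  rfl

private theorem un_dir {E : Type} [Group E] (S : Set (Subgroup E)) (hd : DirectedOn (· ≤ ·) S)
    (hc : ∀ g : E, ∃ K ∈ S, g ∈ K) (K₁ : Subgroup E) (h1 : K₁ ∈ S) (F : Finset E) :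
    ∃ K₂ ∈ S, K₁ ≤ K₂ ∧ ∀ x ∈ F, x ∈ K₂ := by
  classical
  induction F using Finset.induction_on with
  | empty => exact ⟨K₁, h1, le_rfl, by simp⟩
  | insert a F _ ih =>
    obtain ⟨K₂, h2, h12, hF⟩ := ih
    obtain ⟨K₃, h3, ha⟩ := hc a
    obtain ⟨K₄, h4, h24, h34⟩ := hd K₂ h2 K₃ h3
    refine ⟨K₄, h4, h12.trans h24, fun x hx => ?_⟩
    rcases Finset.mem_insert.1 hx with rfl | hx
    · exact h34 ha
    · exact h24 (hF x hx)

private theorem un_surj {Q' Q T I V : Type} [Ring Q'] [Ring Q] [Ring T] (f : Q' →+* T)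
    (g : Q' →+* Q) (w : I → Q) (ℓ : V × I → T) (v₀ : V) (hg : FreeW g w) (π : T →+* Q)
    (hπ : ∀ x, π (ev f ℓ x) = ev g w (x.mapDomain (List.map Prod.snd))) :
    Function.Surjective π := by
  intro t
  obtain ⟨x, rfl⟩ := hg.2 t
  refine ⟨ev f ℓ (x.mapDomain (List.map fun i => (v₀, i))), ?_⟩
  rw [hπ, ← Finsupp.mapDomain_comp]
  have : (List.map (Prod.snd : V × I → I) ∘ List.map fun i => (v₀, i)) = id := by
    funext u
    simp [Function.comp_def]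
  rw [this, Finsupp.mapDomain_id]

theorem union (h1 : S_sc) (h2 : S_tv) (h3 : S_proj) (h4 : S_die) (h5 : S_ktquot) : S_union := by
  intro LL E _ _ S hne hd hc hSL Q' Q I _ _ _ _ _ g ρ w hLT K _ κ hκ n _ _ A hA
  classical
  obtain ⟨D, hD⟩ := h1 LL E Q' Q I g ρ w hLT
  obtain ⟨K₁, hK₁⟩ := hne
  obtain ⟨T₁, _, _, f₁, ℓ₁, hT₁⟩ := (h2 LL E Q' I (E ⧸ K₁) ρ D).1
  obtain ⟨π₁, hπf₁, hπℓ₁, hπe₁⟩ := h3 LL E Q' Q I (E ⧸ K₁) T₁ ρ D g w f₁ ℓ₁ hD hT₁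
  have hs₁ : Function.Surjective π₁ :=
    un_surj (f₁ : Q' →+* T₁) (g : Q' →+* Q) w ℓ₁ ((1 : E) : E ⧸ K₁) hLT.free (π₁ : T₁ →+* Q) hπe₁
  obtain ⟨u, rfl⟩ := hA
  obtain ⟨B, hB⟩ : ∃ B : Matrix n n T₁, B.map π₁ = (u : Matrix n n Q) :=
    ⟨Matrix.of fun i j => (hs₁ ((u : Matrix n n Q) i j)).choose, by
      ext i j
      exact (hs₁ ((u : Matrix n n Q) i j)).choose_spec⟩
  obtain ⟨B', hB'⟩ : ∃ B' : Matrix n n T₁, B'.map π₁ = ((u⁻¹ : (Matrix n n Q)ˣ) : Matrix n n Q) :=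
    ⟨Matrix.of fun i j => (hs₁ (((u⁻¹ : (Matrix n n Q)ˣ) : Matrix n n Q) i j)).choose, by
      ext i j
      exact (hs₁ (((u⁻¹ : (Matrix n n Q)ˣ) : Matrix n n Q) i j)).choose_spec⟩
  have hker : ∀ i j, π₁ ((B * B' - 1) i j) = 0 := by
    have : (B * B' - 1).map (π₁ : T₁ →+* Q) = 0 := by
      rw [Matrix.map_sub _ (map_sub (π₁ : T₁ →+* Q)), Matrix.map_mul,
        Matrix.map_one _ (map_zero _) (map_one _)]
      show B.map π₁ * B'.map π₁ - 1 = 0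
      rw [hB, hB', Units.mul_inv, sub_self]
    intro i j
    exact congrFun (congrFun this i) j
  have hker' : ∀ i j, π₁ ((B' * B - 1) i j) = 0 := by
    have : (B' * B - 1).map (π₁ : T₁ →+* Q) = 0 := by
      rw [Matrix.map_sub _ (map_sub (π₁ : T₁ →+* Q)), Matrix.map_mul,
        Matrix.map_one _ (map_zero _) (map_one _)]
      show B'.map π₁ * B.map π₁ - 1 = 0
      rw [hB, hB', Units.inv_mul, sub_self]
    intro i j
    exact congrFun (congrFun this i) j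
  have hdie := h4 LL E Q' Q I T₁ ρ D g w K₁ f₁ ℓ₁ hD hLT.free hT₁ π₁ hπf₁ hπℓ₁
  choose F hF using fun i j => hdie _ (hker i j)
  choose F' hF' using fun i j => hdie _ (hker' i j)
  obtain ⟨K₂, hK₂, h12, hsub⟩ := un_dir S hd hc K₁ hK₁
    ((Finset.univ : Finset (n × n)).biUnion fun p => F p.1 p.2 ∪ F' p.1 p.2)
  have hsubF : ∀ i j, ∀ x ∈ F i j, x ∈ K₂ := fun i j x hx =>
    hsub x (Finset.mem_biUnion.2 ⟨(i, j), Finset.mem_univ _, Finset.mem_union_left _ hx⟩)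
  have hsubF' : ∀ i j, ∀ x ∈ F' i j, x ∈ K₂ := fun i j x hx =>
    hsub x (Finset.mem_biUnion.2 ⟨(i, j), Finset.mem_univ _, Finset.mem_union_right _ hx⟩)
  obtain ⟨T₂, _, _, f₂, ℓ₂, hT₂⟩ := (h2 LL E Q' I (E ⧸ K₂) ρ D).1
  obtain ⟨π₂, hπf₂, hπℓ₂, hπe₂⟩ := h3 LL E Q' Q I (E ⧸ K₂) T₂ ρ D g w f₂ ℓ₂ hD hT₂
  -- the transition map
  have hmap : ∀ (e : E) (v : E ⧸ K₁), Subgroup.quotientMapOfLE h12 (e • v) =
      e • Subgroup.quotientMapOfLE h12 v := by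
    intro e v
    induction v using QuotientGroup.induction_on with
    | H x => rfl
  obtain ⟨τ, hτf, hτℓ, -⟩ := (h2 LL E Q' I (E ⧸ K₁) ρ D).2 T₁ T₂ f₁ ℓ₁ f₂
    (fun p => ℓ₂ (Subgroup.quotientMapOfLE h12 p.1, p.2)) hT₁ (by
      intro v i q
      show ℓ₂ (Subgroup.quotientMapOfLE h12 v, i) * f₂ q = _
      rw [hT₂.rel, un_lin_tw, un_lin_tw]
      simp only [hmap])
  have hτ1 : ∀ t, π₂ (τ t) = π₁ t := by
    intro t
    refine un_ext (f₁ : Q' →+* T₁) ℓ₁ hT₁.free ((π₂ : T₂ →+* Q).comp (τ : T₁ →+* T₂))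
      (π₁ : T₁ →+* Q) (fun q => ?_) (fun p => ?_) t
    · show π₂ (τ (f₁ q)) = π₁ (f₁ q)
      rw [hτf, hπf₁, hπf₂]
    · show π₂ (τ (ℓ₁ p)) = π₁ (ℓ₁ p)
      rw [hτℓ, hπℓ₂, ← hπℓ₁ p.1 p.2]
  have hτx : ∀ (x : E) i, τ (ℓ₁ ((x : E ⧸ K₁), i)) = ℓ₂ ((x : E ⧸ K₂), i) := by
    intro x i
    rw [hτℓ]
    rfl
  have hz : (B * B' - 1).map (τ : T₁ →+* T₂) = 0 := by
    ext i j
    exact hF i j K₂ h12 (hsubF i j) T₂ f₂ ℓ₂ τ hτf hτx
  have hz' : (B' * B - 1).map (τ : T₁ →+* T₂) = 0 := by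
    ext i j
    exact hF' i j K₂ h12 (hsubF' i j) T₂ f₂ ℓ₂ τ hτf hτx
  rw [Matrix.map_sub _ (map_sub (τ : T₁ →+* T₂)), Matrix.map_mul,
    Matrix.map_one _ (map_zero _) (map_one _), sub_eq_zero] at hz hz'
  have hU : IsUnit (B.map (τ : T₁ →+* T₂)) := ⟨⟨_, _, hz, hz'⟩, rfl⟩
  have hAB : (B.map (τ : T₁ →+* T₂)).map (π₂ : T₂ →+* Q) = (u : Matrix n n Q) := by
    rw [← hB]
    ext i j
    exact hτ1 (B i j)
  have hKT : KT (f₂ : Q' →+* T₂) :=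
    h5 LL E Q' I T₂ ρ D K₂ f₂ ℓ₂ (hSL K₂ hK₂) hT₂ hLT.ret
  have := hKT K (unPull (π₂ : T₂ →+* Q) κ) (by
    intro m _ _ M hM
    show κ.f ((M.map (f₂ : Q' →+* T₂)).map (π₂ : T₂ →+* Q)) = 1
    have : (M.map (f₂ : Q' →+* T₂)).map (π₂ : T₂ →+* Q) = M.map (g : Q' →+* Q) := by
      ext i j
      exact hπf₂ (M i j)
    rw [this]
    exact hκ m M hM) n (B.map (τ : T₁ →+* T₂)) hU
  rw [← hAB]
  exact this

end Pool.Agent.Hier
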