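import Pool.Agent.Lib.MP_8f66f0_al_Hier.Constr
import Pool.Agent.Lib.MP_8f66f0_al_Hier.Lift
import Pool.Agent.Lib.MP_8f66f0_al_Hier.Ls
import Pool.Agent.Lib.MP_8f66f0_al_Hier.Change
import Pool.Agent.Lib.MP_8f66f0_al_Hier.Split
import Pool.Agent.Lib.MP_8f66f0_al_Hier.Bc
import Pool.Agent.Lib.MP_8f66f0_al_Hier.Sc
import Pool.Agent.Lib.MP_8f66f0_al_Hier.Tvls
import Pool.Agent.Lib.MP_8f66f0_al_Hier.Tv
import Pool.Agent.Lib.MP_8f66f0_al_Hier.Ktquot
import Pool.Agent.Lib.MP_8f66f0_al_Hier.Proj
import Pool.Agent.Lib.MP_8f66f0_al_Hier.Die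
import Pool.Agent.Lib.MP_8f66f0_al_Hier.Union
import Pool.Agent.Lib.MP_8f66f0_al_Hier.Iso
import Pool.Agent.Lib.MP_8f66f0_al_Hier.Letters
import Pool.Agent.Lib.MP_8f66f0_al_Hier.Ker
import Pool.Agent.Lib.MP_8f66f0_al_Hier.Step
import Pool.Agent.Lib.MP_8f66f0_al_Hier.Hom
import Pool.Agent.Lib.MP_8f66f0_al_Hier.Idx
import Pool.Agent.Lib.MP_8f66f0_al_Hier.Sfm
import Pool.Agent.Lib.MP_8f66f0_al_Hier.RelK
import Pool.Agent.Lib.MP_8f66f0_al_Hier.Expl
import Pool.Agent.Lib.MP_8f66f0_al_Hier.Patch
import Pool.Agent.Lib.MP_8f66f0_al_Hier.PlC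
import Pool.Agent.Lib.MP_8f66f0_al_Hier.Euc
import Pool.Agent.Lib.MP_8f66f0_al_Hier.Base
import Pool.Agent.Lib.MP_8f66f0_al_Hier.Gam
import Pool.Agent.Lib.MP_8f66f0_al_Hier.Ghnn
import Pool.Agent.Lib.MP_8f66f0_al_Hier.Nil
import Pool.Agent.Lib.MP_8f66f0_al_Wald.AmPush
import Pool.Agent.Lib.MP_8f66f0_al_Wald.HnnExt

/-! The class of the groups with the property `SS`: closure under amalgams, HNN extensions and
directed unions. -/

set_option autoImplicit false

namespace Pool.Agent.Hier

open Pool.Agent.Wald Pool.Agent.Ind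

theorem tv_all : S_tv := tv con lift tvls

theorem ktquot_all : S_ktquot := ktquot change

theorem pl_all : S_pl := LB.pl_of_patch (patch (relK hom idx sfm) expl)

theorem step_all : S_step :=
  step sc tv_all (proj tv_all) (letters change) ker pl_all ktquot_all

theorem union_all : S_union := union sc tv_all (proj tv_all) die ktquot_all

theorem base_all : S_base := base euc

theorem ss_triv (E : Type) [Group E] [Subsingleton E] : SS E :=
  fun LL _ _ hL => base_all LL hL E

theorem ss_iso {E E' : Type} [Group E] [Group E'] (e : E ≃* E') (h : SS E) : SS E' :=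
  fun LL _ _ hL => iso LL E E' e (h LL hL)

theorem ss_directed {E : Type} [Group E] (S : Set (Subgroup E)) (hne : S.Nonempty)
    (hd : DirectedOn (· ≤ ·) S) (hS : ∀ g : E, ∃ K ∈ S, g ∈ K) (h : ∀ K ∈ S, SS K) : SS E :=
  fun LL _ _ hL => union_all LL E S hne hd hS fun K hK => h K hK LL hL

/-- The step: a group with one step data over `A` and `C`. -/
theorem ss_step {E : Type} [Group E] (A C : Subgroup E) (O : OneStep E A C) (hA : SS A)
    (hC : SS C) : SS E :=
  fun LL _ _ hL => step_all LL E A C O (hA LL hL) (hC (LaurentSeries LL) (isEuc_laurent hL))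

/-- The data of a step for a larger group `C`. -/
def OneStep.mono {E : Type} [Group E] {A C C' : Subgroup E} (O : OneStep E A C) (h : C ≤ C') :
    OneStep E A C' where
  p := O.p
  rk := O.rk
  y := O.y
  rk_lt := O.rk_lt
  mem := fun v hv e => by
    refine AddSubgroup.closure_mono ?_ (O.mem v hv e)
    rintro x ⟨c, hc, v', hv', hx⟩
    exact ⟨c, h hc, v', hv', hx⟩

/-- Amalgams, without a condition on the amalgamated subgroup. -/
theorem ss_pushout (G : Bool → Type) [∀ i, Group (G i)] (E : Type) [Group E]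
    (φ : ∀ i, E →* G i) (hφ : ∀ i, Function.Injective (φ i)) (hG : ∀ i, SS (G i)) :
    SS (Monoid.PushoutI φ) := by
  obtain ⟨T, hTA, hTB, hTE⟩ := amTree_pushout G E φ hφ
  obtain ⟨O⟩ := gam (Monoid.PushoutI φ) T
  have h1 : SS ((Monoid.PushoutI.of (φ := φ) true).range) :=
    ss_iso (MonoidHom.ofInjective (Monoid.PushoutI.of_injective hφ true)) (hG true)
  have h2 : SS ((Monoid.PushoutI.of (φ := φ) false).range) :=
    ss_iso (MonoidHom.ofInjective (Monoid.PushoutI.of_injective hφ false)) (hG false)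
  rw [← hTA] at h1
  rw [← hTB] at h2
  exact ss_step T.A T.B O h1 h2

/-- HNN extensions, without a condition on the associated subgroups. -/
theorem ss_hnn (G : Type) [Group G] (A B : Subgroup G) (φ : A ≃* B) (hG : SS G) :
    SS (HNNExtension G A B φ) := by
  obtain ⟨T, hTH, hTt, hTE⟩ := hnnTree_ext G A B φ
  obtain ⟨O⟩ := ghnn (HNNExtension G A B φ) T
  have h1 : SS ((HNNExtension.of (φ := φ)).range) :=
    ss_iso (MonoidHom.ofInjective (HNNExtension.of_injective φ)) hG
  rw [← hTH] at h1
  exact ss_step T.H T.H (O.mono fun g hg => ((T.memE g).1 hg).1) h1 h1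

/-- The Nil groups vanish over groups with the property `SS`. -/
theorem nilV_of_SS {E : Type} [Group E] (h : SS E) (L : Type) [CommRing L] [IsDomain L]
    (hL : IsEuc L) : WaldL.NilV L E :=
  nilV_of_SL (h L hL)

/-- Hierarchical groups: the least class which contains the trivial group and is closed under
isomorphism, directed unions, and arbitrary amalgams and HNN extensions of groups of the class
(without a condition on the amalgamated or associated subgroups). -/
inductive Hr : (E : Type) → [Group E] → Prop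
  | triv {E : Type} [Group E] [Subsingleton E] : Hr E
  | iso {E E' : Type} [Group E] [Group E'] (e : E ≃* E') : Hr E → Hr E'
  | directed {E : Type} [Group E] (S : Set (Subgroup E)) : S.Nonempty →
      DirectedOn (· ≤ ·) S → (∀ g : E, ∃ K ∈ S, g ∈ K) → (∀ K ∈ S, Hr K) → Hr E
  | amalgam (G : Bool → Type) [∀ i, Group (G i)] (E : Type) [Group E] (φ : ∀ i, E →* G i) :
      (∀ i, Function.Injective (φ i)) → (∀ i, Hr (G i)) → Hr (Monoid.PushoutI φ)
  | hnn (G : Type) [Group G] (A B : Subgroup G) (φ : A ≃* B) : Hr G →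
      Hr (HNNExtension G A B φ)

/-- Theorem H. -/
theorem hr_ss {E : Type} [Group E] (h : Hr E) : SS E := by
  induction h with
  | triv => exact ss_triv _
  | iso e _ ih => exact ss_iso e ih
  | directed S hne hd hS _ ih => exact ss_directed S hne hd hS ih
  | amalgam G E φ hφ _ ih => exact ss_pushout G E φ hφ ih
  | hnn G A B φ _ ih => exact ss_hnn G A B φ ih

end Pool.Agent.Hier
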