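import Pool.Agent.Lib.MP_8f66f0_al_Hier.Defs

/-! Block C: letter systems and the rings with a basis of words. Statements with proofs. -/

set_option autoImplicit false

namespace Pool.Agent.Hier

open Pool.Agent.Wald Pool.Agent.Ind
open scoped TensorProduct

/-- C1. Every letter system is realised by a ring which is left free on the words.

Proof. `F = List Λ →₀ Q'` (left `Q'`-module). Define `act : List Λ → Q' →ₗ[LL] F` by recursion:
`act [] q = single [] q`, `act (a :: u) q = act u (c_a q) + ∑_b cons_b (act u (m_a(q) b))`, where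
`cons_b : F → F` is the left linear map `single u x ↦ single (b :: u) x` (the new letter is the
LAST factor). Let `R_q : F → F` be the left `Q'`-linear map `single u x ↦ x • act u q`. Then
`act u (q q') = R_{q'} (act u q)` (induction on `u`; `R_{q'} (cons_b y) = R_{c_b q'} y +
∑_{b'} cons_{b'} (R_{m_b(q') b'} y)` for `y = single u x` by definition and hence for all `y`;
use `c_mul`, `m_mul`), `act u 1 = single u 1`. Hence `q ↦ R_q` is a homomorphism to
`(Module.End Q' F)ᵐᵒᵖ` and `cons_b` then `R_{q'}` is the relation. For `x ∈ F` let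
`R_x = ∑_u (first R_{x u}, then the letters of u from left to right)` in `(Module.End Q' F)ᵐᵒᵖ`;
`R_x (single [] 1) = x`. The set of all `R_x` is a subring (closed under products by the relation
and induction on words). `T` is this subring (or `F` with the transported structure),
`ℓ_a = cons_a`. The algebra structure: `c_a(t) = t c_a(1) = 0`, `m_a(t) = t • single a 1` for
`t ∈ LL`, so `f(algebraMap t)` is central. -/
def S_con : Prop :=
  ∀ (LL Q' Λ : Type) [CommRing LL] [Ring Q'] [Algebra LL Q'] (S : LS LL Q' Λ),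
    ∃ (T : Type) (_ : Ring T) (_ : Algebra LL T) (f : Q' →ₐ[LL] T) (ℓ : Λ → T),
      S.Rel (f : Q' →+* T) ℓ ∧ FreeW (f : Q' →+* T) ℓ

/-- C2. The universal property.

Proof. Define `φ (ev f ℓ x) = ev g z x` (additive, `LL`-linear). `φ (t * f q) = φ t * g q` for
`t = f q' * wd ℓ u` by induction on `u` (for all `q`): `wd ℓ (a :: u) * f q = wd ℓ u * (ℓ_a f q) =
wd ℓ u * f (c_a q) + ∑ (wd ℓ u * f (m_a(q) b)) * ℓ_b`, and `φ (t * ℓ_b) = φ t * z_b` by
definition. So `φ (t * t') = φ t * φ t'` for `t' = f q * wd ℓ u'` by induction on `u'`. -/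
def S_lift : Prop :=
  ∀ (LL Q' Λ T Z : Type) [CommRing LL] [Ring Q'] [Algebra LL Q'] [Ring T] [Algebra LL T] [Ring Z]
    [Algebra LL Z] (S : LS LL Q' Λ) (f : Q' →ₐ[LL] T) (ℓ : Λ → T) (g : Q' →ₐ[LL] Z) (z : Λ → Z),
    S.Rel (f : Q' →+* T) ℓ → FreeW (f : Q' →+* T) ℓ → S.Rel (g : Q' →+* Z) z →
    ∃ φ : T →ₐ[LL] Z, (∀ q, φ (f q) = g q) ∧ (∀ a, φ (ℓ a) = z a) ∧
      ∀ x, φ (ev (f : Q' →+* T) ℓ x) = ev (g : Q' →+* Z) z x

/-- C3. Structure constants exist.

Proof. `{1} ∪ {ℓ_b}` is left independent (words of length `≤ 1`), so `ℓ_a f q = f c + lin f ℓ x`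
determines `c` and `x`, which are linear in `q`; compare coefficients in `ℓ_a * (q q')`. -/
def S_ls : Prop :=
  ∀ (LL Q' Λ T : Type) [CommRing LL] [Ring Q'] [Algebra LL Q'] [Ring T] [Algebra LL T]
    (f : Q' →ₐ[LL] T) (ℓ : Λ → T), FreeW (f : Q' →+* T) ℓ → Cl (f : Q' →+* T) ℓ →
    ∃ S : LS LL Q' Λ, S.Rel (f : Q' →+* T) ℓ

/-- C4. Change of letters.

Proof. Write `ℓ_x = lin f ℓ' (c x)` (from the two matrix identities). From `FreeW f ℓ` the map
`Q' × (Λ →₀ T) → T`, `(q, t) ↦ f q + ∑ t_x ℓ_x` is bijective (group the words by the last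
letter), hence so is `Q' × (Λ' →₀ T) → T`, `(q, t') ↦ f q + ∑ t'_a ℓ'_a` (the substitution
`t ↦ t' = ∑ t_x f(c x a)`). `Cl f ℓ'`: `ℓ'_a f q = ∑ f(b a x) ℓ_x f q`, use `Cl f ℓ` and
`ℓ_y = lin f ℓ' (c y)`. Injectivity of `ev f ℓ'`: if `ev f ℓ' x = 0` then `x [] = 0` and
`ev f ℓ' (x(a :: ·)) = 0` for all `a`; induction on the maximal length of the words in the
support. Surjectivity: the range of `ev f ℓ'` is stable under right multiplication by `f q`
(induction on words, `Cl f ℓ'`) and by `ℓ'_a`, hence by `ℓ_x`, and contains `1`. -/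
def S_change : Prop :=
  ∀ (Q' T Λ Λ' : Type) [Ring Q'] [Ring T] (f : Q' →+* T) (ℓ : Λ → T) (ℓ' : Λ' → T)
    (b : Λ' → Λ →₀ Q') (c : Λ → Λ' →₀ Q'), FreeW f ℓ → Cl f ℓ →
    (∀ a, ℓ' a = lin f ℓ (b a)) →
    (∀ a, ((b a).sum fun x r => r • c x) = Finsupp.single a 1) →
    (∀ x, ((c x).sum fun a r => r • b a) = Finsupp.single x 1) →
    FreeW f ℓ' ∧ Cl f ℓ'

/-- C5. Splitting of words: the letters `a` are closed by themselves; then `T` is left free over
the subalgebra `T₀` generated by `Q'` and the `a` on the words in the letters `d_y * wd a u`.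

Proof. `T₀` = the range of `ev f a`; it is closed under products by `Cl f a` (right
multiplication of words by `f q`). `FreeW` of `Q' → T₀`: injectivity since the words in `a` are
part of the basis of `T`. A word in `X ⊕ Y` is in a unique way the product of a word in `X` and
of words `y₁ u₁, y₂ u₂, …` with `y_i ∈ Y`, `u_i` words in `X` (in list notation, with the head as
the last factor: `List (X ⊕ Y) ≃ List (Y × List X) × List X`), so the basis of `T` over `Q'` is
the product of the basis `wd a u₀` of `T₀` over `Q'` and the words in the new letters. -/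
def S_split : Prop :=
  ∀ (LL Q' T X Y : Type) [CommRing LL] [Ring Q'] [Algebra LL Q'] [Ring T] [Algebra LL T]
    (f : Q' →ₐ[LL] T) (a : X → T) (d : Y → T),
    FreeW (f : Q' →+* T) (Sum.elim a d) → Cl (f : Q' →+* T) a →
    ∃ (T₀ : Subalgebra LL T) (f₀ : Q' →ₐ[LL] T₀) (a₀ : X → T₀),
      (∀ q, (f₀ q : T) = f q) ∧ (∀ x, (a₀ x : T) = a x) ∧
      (∀ t, t ∈ T₀ ↔ ∃ x : List X →₀ Q', t = ev (f : Q' →+* T) a x) ∧
      FreeW (f₀ : Q' →+* T₀) a₀ ∧ Cl (f₀ : Q' →+* T₀) a₀ ∧
      FreeW ((T₀.val : T₀ →ₐ[LL] T) : T₀ →+* T) (fun p : Y × List X => d p.1 * wd a p.2)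

/-- C6. Base change of a basis of words.

Proof. `LL' ⊗ (List Λ →₀ Q') ≃ (List Λ →₀ LL' ⊗ Q')` (`TensorProduct.finsuppRight`), and the
square with `LL' ⊗ ev f ℓ` (bijective) commutes: check on `t ⊗ single u q`. -/
def S_bc : Prop :=
  ∀ (LL LL' Q' T Λ : Type) [CommRing LL] [CommRing LL'] [Algebra LL LL'] [Ring Q']
    [Algebra LL Q'] [Ring T] [Algebra LL T] (f : Q' →ₐ[LL] T) (ℓ : Λ → T),
    FreeW (f : Q' →+* T) ℓ →
    FreeW ((Algebra.TensorProduct.map (AlgHom.id LL' LL') f :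
      LL' ⊗[LL] Q' →ₐ[LL'] LL' ⊗[LL] T) : LL' ⊗[LL] Q' →+* LL' ⊗[LL] T)
      (fun a => (1 : LL') ⊗ₜ[LL] ℓ a)

end Pool.Agent.Hier
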