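import Pool.Agent.Lib.MP_8f66f0_al_Hier.Lau
import Pool.Agent.Lib.MP_8f66f0_al_Ind.PSF
import Pool.Agent.Lib.MP_8f66f0_al_Ind.LaurVal
import Pool.Agent.Lib.MP_8f66f0_al_Ind.K0

/-! Block P: patching. Statements with proofs. Row conventions: matrices act on the right of rows. -/

set_option autoImplicit false

namespace Pool.Agent.Hier

open Pool.Agent.Wald Pool.Agent.Ind Matrix
open scoped TensorProduct

/-- P-a (Hom). The map from the base change to the Laurent series.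

Proof. `Algebra.TensorProduct.lift` (over `LL`) of the two algebra maps `a ↦ (the series with
coefficients algebraMap LL L (a_k))` (`HahnSeries.map`, compare `laurMap` and `exists_hom` in
Ind/LaurHom.lean: ring homomorphism because `algebraMap` is a ring homomorphism) and
`x ↦ HahnSeries.C x`; they commute since `algebraMap LL L` is central. The algebra structure of
`LaurentSeries L` over `LL`: the instance of `HahnSeries`, or work with `liftNCRingHom`-like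
constructions / an additive map on the tensor product (`TensorProduct.liftAddHom`) if instances
are missing; only a ring homomorphism is claimed. Then
`(φ (a ⊗ x)).coeff k = a.coeff k • x` by `HahnSeries.coeff_mul_single_zero`. -/
def S_Hom : Prop :=
  ∀ (LL L : Type) [CommRing LL] [Ring L] [Algebra LL L],
    ∃ φ : Lau LL ⊗[LL] L →+* LaurentSeries L,
      ∀ (a : LaurentSeries LL) (x : L) (k : ℤ),
        (φ ((show Lau LL from a) ⊗ₜ[LL] x)).coeff k = a.coeff k • x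

/-- P-b (Idx). The index of an idempotent matrix.

Proof. `exists_index` (Ind/Bd2), and the computation at the end of the proof of `projSF_of_val`
(Ind/PSF.lean) with `index_idem` (Ind/Bd3). -/
def S_Idx : Prop :=
  ∀ (T Q : Type) [Ring T] [Ring Q] [Module T Q] [IsScalarTower T Q Q] (v : Val T Q)
    (D : K0Data T), ∃ κ : K1Fun Q D.K, ∀ (n : ℕ) (p : Matrix (Fin n) (Fin n) T), p * p = p →
      κ.f (1 - up T Q p + (up T Q p).map fun q => q * v.y) =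
        D.cls (LinearMap.range (Matrix.vecMulLinear p))

/-- P-c (Sfm). Stably free ranges, matrix form.

Proof. `f : range p × L^a ≃ L^b`. `X` is the matrix of `(x, y) ↦ f (x p, y)`, `L^I × L^a → L^b`, and
`Y` the matrix of `z ↦ (inclusion × id) (f⁻¹ z)`. `Y X = 1`, `X Y = diag(p, 1)`. See
`StabIdem_mat`, `StabIdem_vecMul`, `StabIdem_inv` in Wald/StabIdem.lean (copy them, they are
private); the class is trivial: `D.cls_one`. -/
def S_Sfm : Prop :=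
  ∀ (L I : Type) [Ring L] [Fintype I] [DecidableEq I] (D : K0Data L) (p : Matrix I I L),
    p * p = p → D.cls (LinearMap.range (Matrix.vecMulLinear p)) = 1 →
    ∃ (a b : ℕ) (X : Matrix (I ⊕ Fin a) (Fin b) L) (Y : Matrix (Fin b) (I ⊕ Fin a) L),
      X * Y = fromBlocks p 0 0 1 ∧ Y * X = 1

/-- P1 (Rel). Relative `K_0`: idempotent matrices which are `diag(1, 0)` modulo the augmentation
are stably free of the right rank.

Proof. `Φ : LL' ⊗ L → LaurentSeries L` (P-a), `v` (`exists_val L`, Ind/LaurVal.lean), `D`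
(`exists_k0 L`), `κ` from P-b, `κ'` = the pull back of `κ` along `Φ` (see `psfPull` in
Ind/LaurPSF.lean, copy it). `θ = Algebra.TensorProduct.map (AlgHom.id LL' LL') ((gr LL ρ).comp
eps)`, an endomorphism of `LL' ⊗ L` which fixes the image of `gr LL' (bch LL' ρ)` (on `single c a`:
`a ⊗ ρ c ↦ a ⊗ gr (eps (ρ c)) = a ⊗ ρ c`). `κ''(A) = κ'(A) / κ'(θ A)` is a `K1Fun` which kills the
matrices from `LL'[C]`, so `κ'' = 1` by `KT`, i.e. `κ'(A) = κ'(θ A)` for invertible `A`. Reindex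
`A ⊕ B` by `Fin n`. For `M = 1 - 1 ⊗ e + y ⊗ e` (`y = single 1 1 ∈ LL'`), which is invertible
(`psf_inv` in Ind/LaurPSF.lean), `Φ(M) = 1 - up e + (up e) y`, so `κ'(M) = cls (range e)`, and
`κ'(θ M) = cls (range e₀)`, `e₀ = gr eps e = diag(1, 0)`, whose range is free, so the class is `1`
(`cls_iso`, `cls_free`). By P-c there are `a, b, X, Y`. Apply `eps` and the augmentation
`LL[C] → LL` to `X` and `Y`: `diag(diag(1, 0), 1) = X̄ Ȳ`, `Ȳ X̄ = 1` over the nontrivial commutative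
ring `LL`, so `b = |A| + a` (trace or rank: `X̄` restricted to the rows `A ⊕ Fin a`, `Ȳ` restricted
to the columns, are inverse to each other, since `Ȳ` times the zero block vanishes: `Ȳ = Ȳ X̄ Ȳ =
Ȳ diag(diag(1,0),1)`; then `Matrix.square_of_invertible`). Reindex `Fin b ≃ A ⊕ Fin a`. -/
def S_RelK : Prop :=
  ∀ (LL C L : Type) [CommRing LL] [IsDomain LL] [Group C] [Ring L] [Algebra LL L] (ρ : C →* L)
    (eps : L →ₐ[LL] MonoidAlgebra LL C), (∀ x, eps (gr LL ρ x) = x) →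
    KT (gr (Lau LL) (bch LL (Lau LL) ρ) : MonoidAlgebra (Lau LL) C →+* Lau LL ⊗[LL] L) →
    ∀ (A B : Type) [Fintype A] [DecidableEq A] [Fintype B] [DecidableEq B]
      (e : Matrix (A ⊕ B) (A ⊕ B) L), e * e = e → e.map eps = fromBlocks 1 0 0 0 →
      ∃ (s : ℕ) (X : Matrix ((A ⊕ B) ⊕ Fin s) (A ⊕ Fin s) L)
        (Y : Matrix (A ⊕ Fin s) ((A ⊕ B) ⊕ Fin s) L), X * Y = fromBlocks e 0 0 1 ∧ Y * X = 1

/-- P2 (Expl). Explicit matrices.

Proof. Lifts `ũ, ṽ` of `u`, `u⁻¹`. The entries of `1 - ũ ṽ` are in the closure, so `1 - ũ ṽ = σ ρ`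
with `ρ` over `r` (one auxiliary index for each summand of each entry; prove first: every matrix
`M : Matrix (Fin n) (Fin n) T` with entries in the closure is `σ ρ`, `σ : n × l`, `ρ : l × n` over
`r`), `1 - ṽ ũ = τ ρ'`. `u₁ = [[ũ, σ], [0, 1]]`, `v₂ = [[ṽ, -ṽσ], [ρ, 1 - ρσ]]`,
`Ψ = [τρ'; -ρũ]` (`(n + l) × n`), `Φ = [u₁; (ρ', 0)]`, `Ξ = [v₂ + Ψ (ṽ, -ṽσ), Ψ τ]`.
`u₁ v₂ = [[1, 0], [ρ, 1 - ρσ]]`, `v₂ u₁ = [[ṽũ, 0], [ρũ, 1]] = 1 - Ψ (1, 0)`,
`(ṽ, -ṽσ) u₁ = (ṽũ, 0)`, so `Ξ Φ = 1 - Ψ (1, 0) + Ψ (ṽũ + τρ', 0) = 1`.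
`u₁ Ψ = [0; -ρũ]` (`ũτρ' = ũ(1 - ṽũ) = (1 - ũṽ)ũ = σρũ`). So `u₁ (v₂ + Ψ(ṽ, -ṽσ)) =
[[1, 0], [ρ, 1 - ρσ]] + [0; -ρũ] (ṽ, -ṽσ)` is `1` plus entries in `r` (a right ideal),
`u₁ Ψ τ = [0; -ρũτ]` is over `r`, `(ρ', 0) Ξ` is over `r`. -/
def S_Expl : Prop :=
  ∀ (T Q : Type) [Ring T] [Ring Q] (π : T →+* Q) (r : AddSubgroup T), Function.Surjective π →
    (∀ x ∈ r, ∀ t, x * t ∈ r) → (∀ x ∈ r, π x = 0) →
    (∀ t, π t = 0 → t ∈ AddSubgroup.closure {x | ∃ s, ∃ y ∈ r, x = s * y}) →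
    ∀ (n : ℕ) (u : Matrix (Fin n) (Fin n) Q), IsUnit u →
    ∃ (l l' : ℕ) (Φ : Matrix ((Fin n ⊕ Fin l) ⊕ Fin l') (Fin n ⊕ Fin l) T)
      (Ξ : Matrix (Fin n ⊕ Fin l) ((Fin n ⊕ Fin l) ⊕ Fin l') T) (σ : Matrix (Fin n) (Fin l) Q),
      Ξ * Φ = 1 ∧ (∀ i j, (Φ * Ξ - fromBlocks 1 0 0 0 :
        Matrix ((Fin n ⊕ Fin l) ⊕ Fin l') ((Fin n ⊕ Fin l) ⊕ Fin l') T) i j ∈ r) ∧
      (∀ i j, π (Φ (Sum.inl i) j) = (fromBlocks u σ 0 1 : Matrix (Fin n ⊕ Fin l) _ Q) i j) ∧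
      ∀ i j, Φ (Sum.inr i) j ∈ r

/-- P3 (Patch). The patching theorem.

Proof. Let `κ` kill the matrices from `GL(T)`, `u ∈ GL_n(Q)` (`n` may be taken to be `Fin n`, by
`κ.reindex`). `r = {emb x | eps x = 0}`. P2: `Φ, Ξ`. The entries of `Φ Ξ` are in the image of `emb`:
`Φ Ξ = e.map emb`, `e.map eps = diag(1, 0)`; `e e = e` since `emb` is injective and `Φ Ξ Φ Ξ =
Φ Ξ`. P1: `X, Y`. `Γ = Y.map emb * diag(Φ, 1_s)`, with inverse `diag(Ξ, 1_s) * X.map emb`: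
`Γ Γ⁻¹ = Y diag(e, 1) X = Y X Y X = 1`, `Γ⁻¹ Γ = diag(Ξ, 1) (X Y) diag(Φ, 1) = diag(Ξ e Φ, 1) = 1`.
`π (emb x) = π (emb (gr (eps x)))` since `x - gr (eps x)` is in the kernel of `eps`. So with
`ι : ((A ⊕ B) ⊕ Fin s) × (A ⊕ Fin s)` the inclusion (`A = Fin n ⊕ Fin l`, `B = Fin l'`) and
`g = (Y.map eps) ι`, which is invertible over `LL[C]` with inverse `ιᵗ (X.map eps)` (use
`(X Y).map eps = diag(diag(1, 0), 1) = ι ιᵗ`): `π Γ = π (emb (gr g)) * diag(u₁, 1)`,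
`u₁ = [[u, σ], [0, 1]]`. Now `κ (π Γ) = 1`, `κ (π emb gr g) = 1`, hence `κ (diag(u₁, 1)) = 1` and
`κ u = κ u₁ = 1` by `tri`. -/
def S_Patch : Prop :=
  ∀ (LL C L T Q : Type) [CommRing LL] [IsDomain LL] [Group C] [Ring L] [Algebra LL L] [Ring T]
    [Algebra LL T] [Ring Q] [Algebra LL Q] (ρ : C →* L) (eps : L →ₐ[LL] MonoidAlgebra LL C)
    (emb : L →ₐ[LL] T) (π : T →ₐ[LL] Q), (∀ x, eps (gr LL ρ x) = x) →
    KT (gr (Lau LL) (bch LL (Lau LL) ρ) : MonoidAlgebra (Lau LL) C →+* Lau LL ⊗[LL] L) →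
    Function.Injective emb → Function.Surjective π →
    (∀ x, eps x = 0 → ∀ t, ∃ x', eps x' = 0 ∧ emb x * t = emb x') →
    (∀ x, eps x = 0 → π (emb x) = 0) →
    (∀ t, π t = 0 → t ∈ AddSubgroup.closure {z | ∃ s, ∃ x, eps x = 0 ∧ z = s * emb x}) →
    KT (π : T →+* Q)

end Pool.Agent.Hier
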