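import Pool.Agent.Lib.MP_8f66f0_al_Hier.SpecC

/-! Blocks T, U, E: the rings `T(V)`, directed unions, the step. Statements with proofs. -/

set_option autoImplicit false

namespace Pool.Agent.Hier

open Pool.Agent.Wald Pool.Agent.Ind

section TV

/-- Structure constants `w_i q = c_i(q) + ∑ x_i(q)_j w_j` of Land-Tamme data, with
`x_i(q)_j ∈ LL[E]`. -/
structure SC (LL : Type) [CommRing LL] {E Q' : Type} [Group E] [Ring Q'] [Algebra LL Q']
    (ρ : E →* Q') (I : Type) where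
  c : I → Q' →ₗ[LL] Q'
  x : I → Q' →ₗ[LL] (I →₀ MonoidAlgebra LL E)
  c_one : ∀ i, c i 1 = 0
  x_one : ∀ i, x i 1 = Finsupp.single i 1
  c_mul : ∀ i q q', c i (q * q') = c i q * q' + (x i q).sum fun j r => gr LL ρ r * c j q'
  x_mul : ∀ i q q', x i (q * q') = (x i q).sum fun j r => r • x j q'

/-- `∑ x_j(e) ρ(e) [e⁻¹ v, j]`. -/
noncomputable def tw {LL E Q' V I : Type} [CommRing LL] [Group E] [Ring Q'] [Algebra LL Q']
    (ρ : E →* Q') [MulAction E V] (v : V) (x : I →₀ MonoidAlgebra LL E) : (V × I) →₀ Q' :=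
  x.sum fun j r => r.coeff.sum fun e t => Finsupp.single (e⁻¹ • v, j) (t • ρ e)

/-- The ring `T(V)` of the `E`-set `V`: left free over `Q'` on the words in the letters
`ℓ (v, i)`, with `ℓ_{v,i} q = c_i(q) + ∑ x_i(q)_j(e) ρ(e) ℓ_{e⁻¹ v, j}`. -/
structure IsTV {LL E Q' I V T : Type} [CommRing LL] [Group E] [Ring Q'] [Algebra LL Q']
    {ρ : E →* Q'} (D : SC LL ρ I) [MulAction E V] [Ring T] [Algebra LL T] (f : Q' →ₐ[LL] T)
    (ℓ : V × I → T) : Prop where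
  free : FreeW (f : Q' →+* T) ℓ
  rel : ∀ v i q, ℓ (v, i) * f q = f (D.c i q) + lin (f : Q' →+* T) ℓ (tw ρ v (D.x i q))

/-- T0. Structure constants exist.

Proof. The words of length at most one are left independent over `Q'` and `gr LL ρ` is injective
(`ret`), so `c` and `x` in `IsLT.right` are unique; uniqueness gives linearity over `LL`,
the values at `1`, and (compare `w_i * (f q * f q')` with `(w_i * f q) * f q'`) `c_mul`,
`x_mul`. -/
def S_sc : Prop :=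
  ∀ (LL E Q' Q I : Type) [CommRing LL] [Group E] [Ring Q'] [Ring Q] [Algebra LL Q'] [Algebra LL Q]
    (f : Q' →ₐ[LL] Q) (ρ : E →* Q') (w : I → Q), IsLT LL f ρ w →
    ∃ D : SC LL ρ I, ∀ i q, w i * f q = f (D.c i q) +
      (D.x i q).sum fun j r => f (gr LL ρ r) * w j

/-- T1. The letter system of `T(V)`.

Proof. `tw ρ v` is linear, `tw ρ v (r • x) = ∑_e r(e) ρ(e) • tw ρ (e⁻¹ v) x` (because
`(e e')⁻¹ v = e'⁻¹ (e⁻¹ v)`, `ρ (e e') = ρ e * ρ e'`; the coefficients `r(e) ∈ LL` are central),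
`tw ρ v (single i 1) = single (v, i) 1`. With this `c_mul` and `m_mul` follow from `D.c_mul`,
`D.x_mul`: `c_mul`: `(tw ρ v (D.x i q)).sum (fun (u,j) r => r * D.c j q') =
(D.x i q).sum fun j r => gr LL ρ r * D.c j q'` since `gr LL ρ r = ∑_e r(e) ρ(e)`. -/
def S_tvls : Prop :=
  ∀ (LL E Q' I V : Type) [CommRing LL] [Group E] [Ring Q'] [Algebra LL Q'] [MulAction E V]
    (ρ : E →* Q') (D : SC LL ρ I),
    ∃ S : LS LL Q' (V × I), (∀ v i q, S.c (v, i) q = D.c i q) ∧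
      ∀ v i q, S.m (v, i) q = tw ρ v (D.x i q)

/-- T1b. Existence of `T(V)` and the universal property.

Proof. `con`, `lift` for the letter system of T1. -/
def S_tv : Prop :=
  ∀ (LL E Q' I V : Type) [CommRing LL] [Group E] [Ring Q'] [Algebra LL Q'] [MulAction E V]
    (ρ : E →* Q') (D : SC LL ρ I),
    (∃ (T : Type) (_ : Ring T) (_ : Algebra LL T) (f : Q' →ₐ[LL] T) (ℓ : V × I → T),
      IsTV D f ℓ) ∧
    ∀ (T Z : Type) [Ring T] [Algebra LL T] [Ring Z] [Algebra LL Z] (f : Q' →ₐ[LL] T)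
      (ℓ : V × I → T) (g : Q' →ₐ[LL] Z) (z : V × I → Z), IsTV D f ℓ →
      (∀ v i q, z (v, i) * g q = g (D.c i q) + lin (g : Q' →+* Z) z (tw ρ v (D.x i q))) →
      ∃ φ : T →ₐ[LL] Z, (∀ q, φ (f q) = g q) ∧ (∀ a, φ (ℓ a) = z a) ∧
        ∀ x, φ (ev (f : Q' →+* T) ℓ x) = ev (g : Q' →+* Z) z x

/-- T2. `SL LL A` applies to `Q' → T(E/A)`.

Proof. For `v ∈ E/A` choose `s_v ∈ E` with `s_v⁻¹ A = v`. Letters `ℓ'_{v,i} = f(ρ s_v) ℓ_{v,i}`:
`FreeW` by `S_change` with the diagonal matrices `single (v,i) (ρ s_v)`,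
`single (v,i) (ρ s_v⁻¹)`. `IsLT` over `A` with `ρ.comp A.subtype`:
`ℓ'_{v,i} f q = f(ρ(s_v) c_i(q)) + ∑_{j,e} x_i(q)_j(e) f(ρ(s_v e)) ℓ_{e⁻¹ v, j}` and
`s_v e = a s_{e⁻¹ v}` with `a ∈ A` (both `(s_v e)⁻¹ A` and `s_{e⁻¹ v}⁻¹ A` are `e⁻¹ v`), so the
sum is `∑ x_i(q)_j(e) f(ρ a) ℓ'_{e⁻¹ v, j}`. Retraction: `Q' → LL[E] → LL[A]` (restriction of the
coefficients to `A`). -/
def S_ktquot : Prop :=
  ∀ (LL E Q' I T : Type) [CommRing LL] [Group E] [Ring Q'] [Algebra LL Q'] [Module.Free LL Q']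
    (ρ : E →* Q') (D : SC LL ρ I) (A : Subgroup E) [Ring T] [Algebra LL T] (f : Q' →ₐ[LL] T)
    (ℓ : (E ⧸ A) × I → T), SL LL A → IsTV D f ℓ →
    (∃ s : Q' →ₗ[LL] MonoidAlgebra LL E, ∀ x, s (gr LL ρ x) = x) → KT (f : Q' →+* T)

/-- T3. The projection `T(V) → Q`.

Proof. The letters `w_i` of `Q` satisfy the relations of `T(V)` for every `V`:
`lin f (fun (v, i) => w i) (tw ρ v x) = ∑ x_j(e) f(ρ e) w_j`. Apply the universal property. The
last statement: `ev f (fun a => w a.2) x = ev f w (x.mapDomain (List.map Prod.snd))`. -/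
def S_proj : Prop :=
  ∀ (LL E Q' Q I V T : Type) [CommRing LL] [Group E] [Ring Q'] [Algebra LL Q'] [MulAction E V]
    [Ring Q] [Algebra LL Q] [Ring T] [Algebra LL T] (ρ : E →* Q') (D : SC LL ρ I)
    (g : Q' →ₐ[LL] Q) (w : I → Q) (f : Q' →ₐ[LL] T) (ℓ : V × I → T),
    (∀ i q, w i * g q = g (D.c i q) + (D.x i q).sum fun j r => g (gr LL ρ r) * w j) →
    IsTV D f ℓ →
    ∃ π : T →ₐ[LL] Q, (∀ q, π (f q) = g q) ∧ (∀ v i, π (ℓ (v, i)) = w i) ∧
      ∀ x, π (ev (f : Q' →+* T) ℓ x) =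
        ev (g : Q' →+* Q) w (x.mapDomain (List.map Prod.snd))

end TV

section Union

/-- U1. Transition maps, and elements of the kernel of `T(E/K₁) → Q` die in `T(E/K₂)`.

Proof. The map `τ`: the letters `ℓ₂ (xK₂, i)` satisfy the relations of `T(E/K₁)` (universal
property in `S_tv`). `t = ev f₁ ℓ₁ x`. Let `F` be the finite set of the `a⁻¹ b`, where `a`, `b`
run over chosen representatives of the cosets `v` which occur in the words of the support of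
`x`. If `F ⊆ K₂` all these cosets have the same image `v*` in `E/K₂`. Then
`τ t = ev f₂ ℓ₂ (x.mapDomain (List.map (v,i ↦ (v*, i))))` (on the support) and
`x.mapDomain (List.map Prod.snd) = 0` because `π t = 0` and `FreeW g w`. -/
def S_die : Prop :=
  ∀ (LL E Q' Q I T₁ : Type) [CommRing LL] [Group E] [Ring Q'] [Algebra LL Q']
    [Ring Q] [Algebra LL Q] (ρ : E →* Q') (D : SC LL ρ I)
    (g : Q' →ₐ[LL] Q) (w : I → Q) (K₁ : Subgroup E) [Ring T₁] [Algebra LL T₁]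
    (f₁ : Q' →ₐ[LL] T₁) (ℓ₁ : (E ⧸ K₁) × I → T₁),
    (∀ i q, w i * g q = g (D.c i q) + (D.x i q).sum fun j r => g (gr LL ρ r) * w j) →
    FreeW (g : Q' →+* Q) w → IsTV D f₁ ℓ₁ →
    ∀ π₁ : T₁ →ₐ[LL] Q, (∀ q, π₁ (f₁ q) = g q) → (∀ v i, π₁ (ℓ₁ (v, i)) = w i) →
    ∀ t : T₁, π₁ t = 0 → ∃ F : Finset E, ∀ K₂ : Subgroup E, K₁ ≤ K₂ → (∀ x ∈ F, x ∈ K₂) →
      ∀ (T₂ : Type) [Ring T₂] [Algebra LL T₂] (f₂ : Q' →ₐ[LL] T₂) (ℓ₂ : (E ⧸ K₂) × I → T₂)
        (τ : T₁ →ₐ[LL] T₂), (∀ q, τ (f₁ q) = f₂ q) →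
        (∀ (x : E) i, τ (ℓ₁ ((x : E ⧸ K₁), i)) = ℓ₂ ((x : E ⧸ K₂), i)) → τ t = 0

/-- U2. `SL` passes to directed unions.

Proof. Let `IsLT LL g ρ w` be given over `E`, `D` its structure constants, `T_K = T(E/K)`,
`π_K : T_K → Q` (onto, since `Q` is spanned by words), `τ : T_K → T_{K'}` for `K ≤ K'`,
`π_{K'} τ = π_K` (on words). Let `A A' = A' A = 1` over `Q`; lift `A`, `A'` to matrices over
`T_K` for some `K ∈ S`; the finitely many entries of `Ã Ã' - 1`, `Ã' Ã - 1` lie in the kernel of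
`π_K`, so they die in `T_{K'}` for some `K' ∈ S` (S_die, directedness). So `A` is the image of an
invertible matrix over `T_{K'}`; `κ ∘ π_{K'}` is a `K_1`-like invariant of `T_{K'}` which kills
the image of `GL(Q')`, and `KT (Q' → T_{K'})` by `S_ktquot` (with `SL LL K'`). -/
def S_union : Prop :=
  ∀ (LL E : Type) [CommRing LL] [Group E] (S : Set (Subgroup E)), S.Nonempty →
    DirectedOn (· ≤ ·) S → (∀ g : E, ∃ K ∈ S, g ∈ K) → (∀ K ∈ S, SL LL K) → SL LL E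

/-- U3. Isomorphic groups.

Proof. `IsLT` over `E'` is `IsLT` over `E` with `ρ.comp e` (the group algebras are
isomorphic). -/
def S_iso : Prop :=
  ∀ (LL E E' : Type) [CommRing LL] [Group E] [Group E'], (E ≃* E') → SL LL E → SL LL E'

end Union

section StepE

/-- E1. The letters `a_i = ℓ_{v₀,i}`, `d_{v,i} = ρ(y_v) (ℓ_{v,i} - ℓ_{p v,i})`.

Proof. `FreeW`, `Cl` by `S_change`: `b (inl i) = single (v₀,i) 1`,
`b (inr (v,i)) = single (v,i) (ρ y_v) - single (p v,i) (ρ y_v)`;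
`c (v₀,i) = single (inl i) 1` and recursively on the rank
`c (v,i) = single (inr (v,i)) (ρ y_v⁻¹) + c (p v,i)`. (`Cl f ℓ` is `IsTV.rel`.) Last statement:
`d_{v,i} f q = f(ρ y_v) (ℓ_{v,i} f q - ℓ_{pv,i} f q) =
∑_{j,e} x_i(q)_j(e) f(ρ(y_v e)) (ℓ_{e⁻¹v,j} - ℓ_{e⁻¹pv,j})` (the terms `c_i(q)` cancel). The
additive map `Ψ_j : ((E⧸A) × E →₀ ℤ) → T`, `(v,y) ↦ f(ρ y) ℓ_{v,j}`, maps `dl (y_v e) (e⁻¹v)
(e⁻¹pv)` to the bracket and `dl (c y_{v'}) v' (p v')` to `f(ρ c) d_{v',j}`; use `O.mem`. -/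
def S_letters : Prop :=
  ∀ (LL E Q' I T : Type) [CommRing LL] [Group E] [Ring Q'] [Algebra LL Q'] [Ring T]
    [Algebra LL T] (ρ : E →* Q') (D : SC LL ρ I) (A C : Subgroup E) (O : OneStep E A C)
    (f : Q' →ₐ[LL] T) (ℓ : (E ⧸ A) × I → T), IsTV D f ℓ →
    ∀ (a : I → T) (d : {v : E ⧸ A // v ≠ ((1 : E) : E ⧸ A)} × I → T),
    (∀ i, a i = ℓ (((1 : E) : E ⧸ A), i)) →
    (∀ v i, d (v, i) = f (ρ (O.y v)) * (ℓ ((v : E ⧸ A), i) - ℓ (O.p v, i))) →
    FreeW (f : Q' →+* T) (Sum.elim a d) ∧ Cl (f : Q' →+* T) (Sum.elim a d) ∧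
    ∀ b q, d b * f q ∈ Submodule.span LL {t | ∃ c ∈ C, ∃ b', t = f (ρ c) * d b'}

/-- E2. The kernel of `T → Q`.

Proof. `t = ev f (Sum.elim a d) x`; split `x` into the words without `d`-letters and the others.
A word with a `d`-letter is `t₁ * d_b * t₂`. The image of the rest is
`ev g w` of the same coefficients (`π d_b = 0`, `π a_i = w_i`), so they vanish by `FreeW g w`. -/
def S_ker : Prop :=
  ∀ (LL Q' Q I J T : Type) [CommRing LL] [Ring Q'] [Algebra LL Q'] [Ring Q] [Algebra LL Q]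
    [Ring T] [Algebra LL T] (f : Q' →ₐ[LL] T) (g : Q' →ₐ[LL] Q) (w : I → Q) (a : I → T)
    (d : J → T) (π : T →ₐ[LL] Q), FreeW (f : Q' →+* T) (Sum.elim a d) →
    FreeW (g : Q' →+* Q) w → (∀ q, π (f q) = g q) → (∀ i, π (a i) = w i) → (∀ b, π (d b) = 0) →
    ∀ t, π t = 0 → t ∈ AddSubgroup.closure {s | ∃ t₁ b t₂, s = t₁ * d b * t₂}

/-- PL (blocks L and P together; helper36 and helper50). -/
def S_pl : Prop :=
  ∀ (LL C Q' Q I J T : Type) [CommRing LL] [IsDomain LL] [Group C] [Ring Q'] [Algebra LL Q']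
    [Module.Free LL Q'] [Ring Q] [Algebra LL Q] [Ring T] [Algebra LL T] (ρ : C →* Q')
    (f : Q' →ₐ[LL] T) (a : I → T) (d : J → T) (π : T →ₐ[LL] Q),
    (∃ s : Q' →ₗ[LL] MonoidAlgebra LL C, ∀ x, s (gr LL ρ x) = x) →
    FreeW (f : Q' →+* T) (Sum.elim a d) → Cl (f : Q' →+* T) (Sum.elim a d) →
    (∀ b q, d b * f q ∈ Submodule.span LL {t | ∃ c b', t = f (ρ c) * d b'}) →
    Function.Surjective π → (∀ b, π (d b) = 0) →
    (∀ t, π t = 0 → t ∈ AddSubgroup.closure {s | ∃ t₁ b t₂, s = t₁ * d b * t₂}) →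
    SL (LaurentSeries LL) C → KT (π : T →+* Q)

/-- E3. The step.

Proof. `IsLT LL g ρ w` over `E`; `D` (S_sc), `T = T(E/A)` (S_tv), `π` (S_proj; onto because `Q`
is spanned by words), `a`, `d` as in S_letters; `π d = 0`; S_ker, S_pl (with `ρ` restricted to
`C` and the retraction `Q' → LL[E] → LL[C]`) give `KT π`; S_ktquot gives `KT f`; `g = π ∘ f`, so
`KT g` (if `κ` kills the image of `GL(Q')` then `κ ∘ π` does, so `κ ∘ π` kills `GL(T)`). -/
def S_step : Prop :=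
  ∀ (LL E : Type) [CommRing LL] [IsDomain LL] [Group E] (A C : Subgroup E), OneStep E A C →
    SL LL A → SL (LaurentSeries LL) C → SL LL E

end StepE

end Pool.Agent.Hier
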