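import Pool.Agent.Lib.MP_8f66f0_al_Hier.PlB
import Pool.Agent.Lib.MP_8f66f0_al_Hier.SpecP
import Pool.Agent.Lib.MP_8f66f0_al_Hier.SpecT

/-! Block L and the patching theorem together. -/

set_option autoImplicit false

namespace Pool.Agent.Hier.LB

open Pool.Agent.Wald Pool.Agent.Ind Pool.Agent.Hier Function

section

variable {LL C Q' Q I J T : Type} [CommRing LL] [Group C] [Ring Q'] [Algebra LL Q'] [Ring T]
  [Algebra LL T] [Ring Q] [Algebra LL Q] {ρ : C →* Q'} {f : Q' →ₐ[LL] T} {a : I → T} {d : J → T}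

theorem pi_rr {π : T →ₐ[LL] Q} (hπ : ∀ b, π (d b) = 0) {t : T} (ht : t ∈ rr ρ f a d) :
    π t = 0 := by
  have h : rr ρ f a d ≤ LinearMap.ker π.toLinearMap := by
    refine Submodule.span_le.mpr ?_
    rintro _ ⟨c, s, hs, rfl⟩
    rw [SetLike.mem_coe, LinearMap.mem_ker]
    change π (f (ρ c) * wd (bk a d) s) = 0
    cases s with
    | nil => exact absurd rfl hs
    | cons x s =>
      rw [wd_cons, bk, map_mul, map_mul, map_mul, hπ, zero_mul, mul_zero, mul_zero]
  exact h ht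

/-- The hypotheses of the patching theorem hold, given `KT` for the base change of `L`. -/
theorem patch_pl (hP : S_Patch) [IsDomain LL] (hCl : Cl (f : Q' →+* T) (Sum.elim a d))
    (hd : HD ρ f d) (hF : FreeW (f : Q' →+* T) (Sum.elim a d)) (hg : Injective (gr LL ρ))
    (π : T →ₐ[LL] Q) (hπs : Surjective π) (hπ : ∀ b, π (d b) = 0)
    (hker : ∀ t, π t = 0 → t ∈ AddSubgroup.closure {s | ∃ t₁ b t₂, s = t₁ * d b * t₂})
    (hKT : KT (gr (Lau LL) (bch LL (Lau LL) (rL hCl hd)) :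
      MonoidAlgebra (Lau LL) C →+* TensorProduct LL (Lau LL) (LA hCl hd))) :
    KT (π : T →+* Q) := by
  have hFi := hF.1
  have hFs := hF.2
  refine hP LL C (LA hCl hd) T Q (rL hCl hd) (epsL hCl hd hFi hg hFs) (LA hCl hd).val π
    (fun x => eps0_gr hCl hd hFi hg x) hKT Subtype.val_injective hπs ?_ ?_ ?_
  · intro x hx t
    have h1 : (x : T) ∈ rr ρ f a d := by
      have := sub_eps0 hCl hd hFi hg x
      change eps0 hCl hd hFi hg x = 0 at hx
      rwa [hx, map_zero, map_zero, sub_zero] at this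
    have h2 := rr_mul hCl hd hFs h1 t
    refine ⟨⟨(x : T) * t, rr_le h2⟩, ?_, rfl⟩
    exact eps0_zero hCl hd hFi hg h2
  · intro x hx
    refine pi_rr hπ (ρ := ρ) (f := f) (a := a) ?_
    have := sub_eps0 hCl hd hFi hg x
    change eps0 hCl hd hFi hg x = 0 at hx
    rwa [hx, map_zero, map_zero, sub_zero] at this
  · intro t ht
    refine AddSubgroup.closure_mono ?_ (hker t ht)
    rintro _ ⟨t₁, b, t₂, rfl⟩
    have h1 : d b ∈ rr ρ f a d := by
      refine Submodule.subset_span ⟨1, [(b, [])], by simp, ?_⟩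
      rw [wd_cons, wd_nil, one_mul, bk_nil, map_one, map_one, one_mul]
    have h2 := rr_mul hCl hd hFs h1 t₂
    refine ⟨t₁, ⟨d b * t₂, rr_le h2⟩, eps0_zero hCl hd hFi hg h2, ?_⟩
    rw [mul_assoc]
    rfl

end

/-- **Blocks L and P together.** -/
theorem pl_of_patch (hP : S_Patch) : S_pl := by
  intro LL C Q' Q I J T _ _ _ _ _ _ _ _ _ _ ρ f a d π hret hF hCl hd hπs hπ hker hS
  obtain ⟨s, hs⟩ := hret
  have hg : Injective (gr LL ρ) := fun x y h => by
    have := congrArg s h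
    rwa [hs, hs] at this
  have hS' : SL (Lau LL) C := hS
  exact patch_pl hP hCl hd hF hg π hπs hπ hker (blk_kt (Lau LL) (blk_L hCl hd hF.1 hg) hS')

end Pool.Agent.Hier.LB
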