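import Pool.Agent.Lib.MP_8f66f0_al_Hier.Defs
import Pool.Agent.Lib.MP_8f66f0_al_Ind.Euc

/-! Laurent series as coefficients. The type synonym `Lau` avoids two different algebra structures
on `LaurentSeries LL`. -/

set_option autoImplicit false

namespace Pool.Agent.Hier

open Pool.Agent.Wald Pool.Agent.Ind
open scoped TensorProduct

/-- Laurent series over `LL`. -/
def Lau (LL : Type) [CommRing LL] : Type := LaurentSeries LL

noncomputable instance instCommRingLau (LL : Type) [CommRing LL] : CommRing (Lau LL) :=
  inferInstanceAs (CommRing (LaurentSeries LL))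

instance instIsDomainLau (LL : Type) [CommRing LL] [IsDomain LL] : IsDomain (Lau LL) :=
  inferInstanceAs (IsDomain (LaurentSeries LL))

noncomputable instance instAlgebraLau (LL : Type) [CommRing LL] : Algebra LL (Lau LL) :=
  (HahnSeries.C : LL →+* LaurentSeries LL).toAlgebra

theorem isEuc_lau {LL : Type} [CommRing LL] [IsDomain LL] (h : IsEuc LL) : IsEuc (Lau LL) :=
  isEuc_laurent h

/-- The homomorphism to the algebra after base change. -/
noncomputable def bch (LL : Type) [CommRing LL] (LL' : Type) [CommRing LL'] [Algebra LL LL']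
    {C L : Type} [Group C] [Ring L] [Algebra LL L] (ρ : C →* L) : C →* LL' ⊗[LL] L :=
  ((Algebra.TensorProduct.includeRight : L →ₐ[LL] LL' ⊗[LL] L) : L →* LL' ⊗[LL] L).comp ρ

end Pool.Agent.Hier
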