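import Pool.Agent.Lib.MP_8f66f0_al_Hier.Defs

/-! Words, bases of words, and `KT`: general lemmas for the block part. -/

set_option autoImplicit false

namespace Pool.Agent.Hier.LB

open Pool.Agent.Wald Pool.Agent.Ind Pool.Agent.Hier Function

section Words

variable {T Λ : Type} [Ring T]

theorem wd_nil (ℓ : Λ → T) : wd ℓ [] = 1 := rfl

theorem wd_cons (ℓ : Λ → T) (a : Λ) (u : List Λ) : wd ℓ (a :: u) = wd ℓ u * ℓ a := rfl

theorem wd_append (ℓ : Λ → T) (u v : List Λ) : wd ℓ (u ++ v) = wd ℓ v * wd ℓ u := by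
  induction u with
  | nil => simp [wd_nil]
  | cons a u ih => rw [List.cons_append, wd_cons, wd_cons, ih, mul_assoc]

theorem wd_map {Λ' : Type} (ℓ : Λ → T) (j : Λ' → Λ) (u : List Λ') :
    wd ℓ (u.map j) = wd (fun a => ℓ (j a)) u := by
  induction u with
  | nil => rfl
  | cons a u ih => rw [List.map_cons, wd_cons, wd_cons, ih]

theorem map_wd {T' : Type} [Ring T'] (φ : T →+* T') (ℓ : Λ → T) (u : List Λ) :
    φ (wd ℓ u) = wd (fun a => φ (ℓ a)) u := by
  induction u with
  | nil => simp [wd_nil]
  | cons a u ih => rw [wd_cons, wd_cons, map_mul, ih]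

end Words

section Ev

variable {Q' T Λ : Type} [Ring Q'] [Ring T]

/-- `ev` as an additive homomorphism. -/
noncomputable def evH (f : Q' →+* T) (ℓ : Λ → T) : (List Λ →₀ Q') →+ T :=
  Finsupp.liftAddHom fun u => (AddMonoidHom.mulRight (wd ℓ u)).comp f.toAddMonoidHom

theorem evH_apply (f : Q' →+* T) (ℓ : Λ → T) (x : List Λ →₀ Q') : evH f ℓ x = ev f ℓ x := rfl

theorem evH_single (f : Q' →+* T) (ℓ : Λ → T) (u : List Λ) (r : Q') :
    evH f ℓ (Finsupp.single u r) = f r * wd ℓ u := by
  simp [evH]

theorem ev_single (f : Q' →+* T) (ℓ : Λ → T) (u : List Λ) (r : Q') :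
    ev f ℓ (Finsupp.single u r) = f r * wd ℓ u := evH_single f ℓ u r

theorem freeW_iff (f : Q' →+* T) (ℓ : Λ → T) : FreeW f ℓ ↔ Bijective (evH f ℓ) := Iff.rfl

theorem freeW_restrict {R S L X β : Type} [Ring R] [Ring S] [Ring L] (f : R →+* L) (b : β → L)
    (hf : FreeW f b) (g : R →+* S) (ι : S →+* L) (hg : ∀ r, ι (g r) = f r)
    (x : X → S) (j : X → β) (hj : Injective j) (hx : ∀ a, ι (x a) = b (j a))
    (hs : ∀ s : S, ∃ z : List X →₀ R, ev g x z = s) : FreeW g x := by
  refine ⟨fun z z' h => ?_, hs⟩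
  have key : ∀ z : List X →₀ R, ι (evH g x z) = evH f b (Finsupp.mapDomain (List.map j) z) := by
    intro z
    have : ι.toAddMonoidHom.comp (evH g x) =
        (evH f b).comp (Finsupp.mapDomain.addMonoidHom (List.map j)) := by
      refine Finsupp.addHom_ext fun u r => ?_
      change ι (evH g x (Finsupp.single u r)) =
        evH f b (Finsupp.mapDomain (List.map j) (Finsupp.single u r))
      rw [Finsupp.mapDomain_single, evH_single, evH_single, map_mul, hg, map_wd, wd_map]
      simp only [hx]
    exact DFunLike.congr_fun this z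
  have h1 : evH f b (Finsupp.mapDomain (List.map j) z) =
      evH f b (Finsupp.mapDomain (List.map j) z') := by
    rw [← key, ← key]
    exact congrArg ι h
  exact Finsupp.mapDomain_injective (List.map_injective_iff.mpr hj) (hf.1 h1)

end Ev

section Split

variable {X Y : Type}

/-- Join of a word in the blocks `(y, v)` and a word `u`. -/
def jn : List (Y × List X) → List X → List (X ⊕ Y)
  | [], u => u.map Sum.inl
  | p :: s, u => p.2.map Sum.inl ++ Sum.inr p.1 :: jn s u

/-- Auxiliary function: put a letter in front. -/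
def cs (x : X) : List (Y × List X) × List X → List (Y × List X) × List X
  | ([], u) => ([], x :: u)
  | (p :: s, u) => ((p.1, x :: p.2) :: s, u)

/-- Splitting of a word. -/
def sp : List (X ⊕ Y) → List (Y × List X) × List X
  | [] => ([], [])
  | Sum.inl x :: t => cs x (sp t)
  | Sum.inr y :: t => ((y, []) :: (sp t).1, (sp t).2)

theorem jn_cs (x : X) (p : List (Y × List X) × List X) :
    jn (cs x p).1 (cs x p).2 = Sum.inl x :: jn p.1 p.2 := by
  obtain ⟨s, u⟩ := p
  cases s with
  | nil => rfl
  | cons p s => rfl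

theorem jn_sp (t : List (X ⊕ Y)) : jn (sp t).1 (sp t).2 = t := by
  induction t with
  | nil => rfl
  | cons a t ih =>
    cases a with
    | inl x =>
      change jn (cs x (sp t)).1 (cs x (sp t)).2 = _
      rw [jn_cs, ih]
    | inr y =>
      change ([] : List X).map Sum.inl ++ Sum.inr y :: jn (sp t).1 (sp t).2 = _
      rw [ih]
      rfl

theorem sp_map (v : List X) (y : Y) (t : List (X ⊕ Y)) :
    sp (v.map Sum.inl ++ Sum.inr y :: t) = ((y, v) :: (sp t).1, (sp t).2) := by
  induction v with
  | nil => rfl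
  | cons x v ih =>
    change cs x (sp (v.map Sum.inl ++ Sum.inr y :: t)) = _
    rw [ih]
    rfl

theorem sp_inl (v : List X) : sp (v.map Sum.inl : List (X ⊕ Y)) = ([], v) := by
  induction v with
  | nil => rfl
  | cons x v ih =>
    change cs x (sp (v.map Sum.inl)) = _
    rw [ih]
    rfl

theorem sp_jn (s : List (Y × List X)) (u : List X) : sp (jn s u) = (s, u) := by
  induction s with
  | nil => exact sp_inl u
  | cons p s ih =>
    change sp (p.2.map Sum.inl ++ Sum.inr p.1 :: jn s u) = _
    rw [sp_map, ih]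

/-- The splitting of words as an equivalence. -/
def spE : List (Y × List X) × List X ≃ List (X ⊕ Y) where
  toFun p := jn p.1 p.2
  invFun := sp
  left_inv p := sp_jn p.1 p.2
  right_inv t := jn_sp t

theorem wd_jn {S T : Type} [Ring S] [Ring T] (h : S →+* T) (x : X → S) (y : Y → T)
    (s : List (Y × List X)) (u : List X) :
    wd (Sum.elim (fun a => h (x a)) y) (jn s u) =
      h (wd x u) * wd (fun l : Y × List X => y l.1 * h (wd x l.2)) s := by
  induction s with
  | nil =>
    change wd _ (u.map Sum.inl) = _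
    rw [wd_map, wd_nil, mul_one, map_wd]
    rfl
  | cons p s ih =>
    change wd _ (p.2.map Sum.inl ++ Sum.inr p.1 :: jn s u) = _
    rw [wd_append, wd_cons, ih, wd_map, wd_cons, map_wd h x p.2]
    simp only [Sum.elim_inl, Sum.elim_inr, mul_assoc]

theorem freeW_split {R S T : Type} [Ring R] [Ring S] [Ring T] (g : R →+* S) (h : S →+* T)
    (x : X → S) (y : Y → T) (hS : FreeW g x)
    (hT : FreeW (h.comp g) (Sum.elim (fun a => h (x a)) y)) :
    FreeW h (fun l : Y × List X => y l.1 * h (wd x l.2)) := by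
  set eS : (List X →₀ R) ≃+ S := AddEquiv.ofBijective (evH g x) hS with heS
  set Φ : (List (Y × List X) →₀ (List X →₀ R)) ≃+ (List (X ⊕ Y) →₀ R) :=
    Finsupp.curryAddEquiv.symm.trans (Finsupp.domCongr spE) with hΦ
  set M : (List (Y × List X) →₀ (List X →₀ R)) ≃+ (List (Y × List X) →₀ S) :=
    Finsupp.mapRange.addEquiv eS with hM
  have key : (evH h (fun l : Y × List X => y l.1 * h (wd x l.2))).comp M.toAddMonoidHom =
      (evH (h.comp g) (Sum.elim (fun a => h (x a)) y)).comp Φ.toAddMonoidHom := by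
    refine Finsupp.addHom_ext fun s z => ?_
    have : ((evH h (fun l : Y × List X => y l.1 * h (wd x l.2))).comp M.toAddMonoidHom).comp
          (Finsupp.singleAddHom s) =
        ((evH (h.comp g) (Sum.elim (fun a => h (x a)) y)).comp Φ.toAddMonoidHom).comp
          (Finsupp.singleAddHom s) := by
      refine Finsupp.addHom_ext fun u r => ?_
      change evH h _ (Finsupp.mapRange eS eS.map_zero (Finsupp.single s (Finsupp.single u r))) =
        evH (h.comp g) _ (Finsupp.domCongr spE
          (Finsupp.curryAddEquiv.symm (Finsupp.single s (Finsupp.single u r))))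
      have h1 : Finsupp.curryAddEquiv.symm (Finsupp.single s (Finsupp.single u r)) =
          Finsupp.single (s, u) r := by
        rw [AddEquiv.symm_apply_eq]
        simp [Finsupp.curryAddEquiv]
      rw [h1, Finsupp.mapRange_single, evH_single, Finsupp.domCongr_apply,
        Finsupp.equivMapDomain_single, evH_single]
      change h (evH g x (Finsupp.single u r)) * _ = h (g r) * wd _ (jn s u)
      rw [evH_single, wd_jn, map_mul, mul_assoc]
    exact DFunLike.congr_fun this z
  rw [freeW_iff]
  have hb : Bijective ((evH (h.comp g) (Sum.elim (fun a => h (x a)) y)).comp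
      Φ.toAddMonoidHom) := hT.comp Φ.bijective
  rw [← key] at hb
  have : ⇑(evH h (fun l : Y × List X => y l.1 * h (wd x l.2))) =
      (⇑((evH h (fun l : Y × List X => y l.1 * h (wd x l.2))).comp M.toAddMonoidHom)) ∘
        ⇑M.symm := by
    funext z
    simp
  rw [this]
  exact hb.comp M.symm.bijective

end Split

section KTl

/-- Pull back of a `K_1`-like invariant. -/
noncomputable def pull {A B K : Type} [Ring A] [Ring B] [CommGroup K] (φ : A →+* B)
    (κ : K1Fun B K) : K1Fun A K where
  f M := κ.f (M.map φ)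
  mul M N hM hN := by
    rw [Matrix.map_mul]
    exact κ.mul _ _ (hM.map φ.mapMatrix) (hN.map φ.mapMatrix)
  reindex e M hM := by
    have := κ.reindex e (M.map φ) (hM.map φ.mapMatrix)
    rw [← this]
    rfl
  tri M N D hM hD := by
    rw [Matrix.fromBlocks_map, Matrix.map_zero φ (map_zero φ)]
    exact κ.tri _ _ _ (hM.map φ.mapMatrix) (hD.map φ.mapMatrix)

theorem KT.comp {A B C : Type} [Ring A] [Ring B] [Ring C] {f : A →+* B} {g : B →+* C}
    (hf : KT f) (hg : KT g) : KT (g.comp f) := by
  intro K _ κ h n _ _ M hM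
  refine hg K κ (fun n _ _ M hM => ?_) n M hM
  exact hf K (pull g κ) (fun n _ _ M hM => h n M hM) n M hM

theorem KT.of_surj {A B : Type} [Ring A] [Ring B] {f : A →+* B} (hf : Bijective f) : KT f := by
  intro K _ κ h n _ _ M hM
  set e : A ≃+* B := RingEquiv.ofBijective f hf with he
  have h1 : M = (M.map e.symm).map f := by
    ext i j
    simp only [Matrix.map_apply]
    exact (e.apply_symm_apply (M i j)).symm
  rw [h1]
  exact h n _ (hM.map (RingEquiv.toRingHom e.symm).mapMatrix)

theorem KT.of_union {A L : Type} [Ring A] [Ring L] {f : A →+* L} (S : ℕ → Type)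
    [∀ n, Ring (S n)] (g : ∀ n, A →+* S n) (ι : ∀ n, S n →+* L) (hι : ∀ n, Injective (ι n))
    (hg : ∀ n a, ι n (g n a) = f a) (hKT : ∀ n, KT (g n))
    (hu : ∀ x : L, ∃ n, ∀ m, n ≤ m → ∃ s : S m, ι m s = x) : KT f := by
  intro K _ κ h n _ _ M hM
  obtain ⟨N, hN, hN'⟩ : ∃ N, M * N = 1 ∧ N * M = 1 := by
    obtain ⟨u, hu⟩ := hM
    exact ⟨↑u⁻¹, by rw [← hu]; simp, by rw [← hu]; simp⟩
  choose d hd using hu
  set m : ℕ := (Finset.univ.sup fun p : n × n => d (M p.1 p.2)) ⊔
    (Finset.univ.sup fun p : n × n => d (N p.1 p.2)) with hm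
  have hM1 : ∀ i j, ∃ s : S m, ι m s = M i j := fun i j => hd _ _
    (le_trans (Finset.le_sup (f := fun p : n × n => d (M p.1 p.2)) (Finset.mem_univ (i, j)))
      le_sup_left)
  have hN1 : ∀ i j, ∃ s : S m, ι m s = N i j := fun i j => hd _ _
    (le_trans (Finset.le_sup (f := fun p : n × n => d (N p.1 p.2)) (Finset.mem_univ (i, j)))
      le_sup_right)
  choose M' hM' using hM1
  choose N' hN' using hN1
  have e1 : M = (Matrix.of M').map (ι m) := by
    ext i j
    exact (hM' i j).symm
  have e2 : N = (Matrix.of N').map (ι m) := by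
    ext i j
    exact (hN' i j).symm
  have inj : Injective fun X : Matrix n n (S m) => X.map (ι m) := by
    intro X Y hXY
    ext i j
    exact hι m (congrFun (congrFun hXY i) j)
  have u1 : Matrix.of M' * Matrix.of N' = 1 := by
    apply inj
    change (Matrix.of M' * Matrix.of N').map (ι m) = (1 : Matrix n n (S m)).map (ι m)
    rw [Matrix.map_mul, ← e1, ← e2, hN, Matrix.map_one _ (map_zero _) (map_one _)]
  have u2 : Matrix.of N' * Matrix.of M' = 1 := by
    apply inj
    change (Matrix.of N' * Matrix.of M').map (ι m) = (1 : Matrix n n (S m)).map (ι m)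
    rw [Matrix.map_mul, ← e1, ← e2, ‹N * M = 1›, Matrix.map_one _ (map_zero _) (map_one _)]
  have hu' : IsUnit (Matrix.of M') := ⟨⟨_, _, u1, u2⟩, rfl⟩
  rw [e1]
  refine hKT m K (pull (ι m) κ) (fun n' _ _ X hX => ?_) n (Matrix.of M') hu'
  have := h n' X hX
  rw [← this]
  change κ.f ((X.map (g m)).map (ι m)) = κ.f (X.map f)
  congr 1
  ext i j
  exact hg m _

end KTl

end Pool.Agent.Hier.LB
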