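import Pool.Agent.Lib.MP_8f66f0_al_Hier.Defs

/-! Block B: the base case, the trivial group. Statements with proofs. (helper42) -/

set_option autoImplicit false

namespace Pool.Agent.Hier

open Pool.Agent.Wald Pool.Agent.Ind

/-- B2. A row which is killed by an `LL`-matrix, over a torsion free algebra.

Proof. The `LL`-linear map `y ↦ y l`, `LL^t → LL^n` is not injective: otherwise `l` has a right
inverse `m` over the field of fractions; clear the denominators: `l m = δ 1`, `δ ≠ 0`, so
`δ x = x l m = 0` and `x = 0` (`Q'` is free over `LL`, so torsion free). Let `N ≠ 0` be its kernel;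
`LL` is a principal ideal domain, so there is a basis `b` of `LL^t` and a basis `b'` of `N` with
`b' j = a_j • b (f j)` (`Submodule.smithNormalForm`). `a_j ≠ 0`, `a_j (b (f j) l) = 0`, so
`b (f j) l = 0`. `g` = the matrix with the rows `b i`, `i₀ = f j` for one `j`. -/
def S_euc : Prop :=
  ∀ (LL : Type) [CommRing LL] [IsDomain LL], IsEuc LL →
    ∀ (Q' : Type) [Ring Q'] [Algebra LL Q'] [Module.Free LL Q'] (t n : Type) [Fintype t]
      [DecidableEq t] [Fintype n] (x : t → Q') (l : Matrix t n LL), x ≠ 0 →
      (∀ j, ∑ i, x i * algebraMap LL Q' (l i j) = 0) →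
      ∃ (g : Matrix t t LL) (i₀ : t), IsUnit g ∧ ∀ j, (g * l) i₀ j = 0

/-- B. The base case.

Proof. Let `IsLT` be given over the trivial group: `w_i f(q) ∈ f(Q') + ∑ LL w_j`. Let
`M = f(Q') + ∑ LL w_j`, an additive group with `M f(Q') ⊆ M`, which contains `1` and generates `Q`
as a ring. Higman's trick (`Wald/Higman.lean`): it is enough to show that `κ` (which kills the
image of `GL(Q')`) kills every `u ∈ GL_N(Q)` with entries in `M`. Induction on the number of the
rows, the set `S`, whose entries are not all in `f(Q')`. Let `s` be the complement of `S`,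
`v = u⁻¹`, `c = u` restricted to the rows in `s`, `v₁ = v` restricted to the columns in `s`, `v₂` =
the other columns, `d` the part of `v₁` of the empty word (over `Q'`). `c v₁ = 1` and `c` is over
`Q'`, so `c d = 1`. `u' = u (1 + (v₁ - d) c)`; `c (v₁ - d) = 0`, so `κ(u') = κ(u)`
(`sameK_swap`). The rows of `u'` in `s` are `c`, the others are those of `u (1 - d c)`, with entries
in `M`; `v' = u'⁻¹` has the columns `d` and `v₂`. If `v₂` is over `f(Q')` so are `v'` and its
inverse `u'` (if `a b = 1`, `a` over `f(Q')`, then `a b₀ = 1` for the part `b₀` of `b` of the empty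
word, and `b₀ = b`). Otherwise let `k ≥ 1` be the maximal length of the words in `v₂`. In
`v₂ m' = 1 - d c`, `m'` = the rows of `u'` in `S`, `m' = f(c') + ∑ l_i w_i` with `l_i` over `LL`, the
words of length `k + 1` give `(v₂)_u l_i = 0` for all words `u` of length `k` and all `i` (right
multiplication by `f(Q')` does not raise the length, the `l_i` are central). Take a nonzero row of
some `(v₂)_u`, `|u| = k`, and apply B2 to it: after multiplication of `u'` on the left by `diag(1, g)`
one more row is over `f(Q')`. -/
def S_base : Prop :=
  ∀ (LL : Type) [CommRing LL] [IsDomain LL], IsEuc LL → ∀ (E : Type) [Group E] [Subsingleton E],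
    SL LL E

end Pool.Agent.Hier
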