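import Pool.Agent.Lib.MP_8f66f0_al_Hier.PathB
import Pool.Agent.Lib.MP_8f66f0_al_WaldP.PStep

/-! # Vanishing for path-type nilpotents whose path stabilizers are contained in subgroups with
the property `SL` -/

set_option autoImplicit false

namespace Pool.Agent.WaldP

open Pool.Agent.Wald Matrix

section PathVanK
variable {G : Type} [Group G] {LL : Type} [CommRing LL]

/-- Supports of the powers. -/
private theorem pathV_pow {H : Subgroup G} {T : Type} (D : PathData G H T) {n : ℕ}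
    (ty : Fin n → T) (ν : Matrix (Fin n) (Fin n) (MonoidAlgebra LL G))
    (hν : ∀ a b, WaldL.SuppIn (D.X (ty a) (ty b)) (ν a b)) (i : ℕ) :
    ∀ a b, WaldL.SuppIn {g | g ∈ D.Y (ty a) ∧ D.len g = i} ((ν ^ i) a b) := by
  induction i with
  | zero =>
    intro a b
    rw [pow_zero, Matrix.one_apply]
    split_ifs
    · exact WaldL.SuppIn.one ⟨D.one_mem _, D.len_one⟩
    · exact WaldL.SuppIn.zero
  | succ i ih =>
    intro a b
    rw [pow_succ', Matrix.mul_apply]
    refine WaldL.SuppIn.sum fun j _ => (hν a j).mul (ih j b) ?_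
    rintro u hu v ⟨hv, hl⟩
    obtain ⟨h1, h2⟩ := D.add _ _ u hu v hv
    exact ⟨h1, by rw [h2, hl]⟩

private theorem pathV_powc {H : Subgroup G} {T : Type} (D : PathData G H T) {n : ℕ}
    (ty : Fin n → T) (ν c : Matrix (Fin n) (Fin n) (MonoidAlgebra LL G))
    (hν : ∀ a b, WaldL.SuppIn (D.X (ty a) (ty b)) (ν a b))
    (hc : ∀ a b, WaldL.SuppIn (D.Y (ty a)) (c a b)) (i : ℕ) :
    ∀ a b, WaldL.SuppIn {g | g ∈ D.Y (ty a) ∧ i ≤ D.len g} ((ν ^ i * c) a b) := by
  induction i with
  | zero =>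
    intro a b
    rw [pow_zero, Matrix.one_mul]
    exact (hc a b).mono fun g hg => ⟨hg, Nat.zero_le _⟩
  | succ i ih =>
    intro a b
    rw [pow_succ', Matrix.mul_assoc, Matrix.mul_apply]
    refine WaldL.SuppIn.sum fun j _ => (hν a j).mul (ih j b) ?_
    rintro u hu v ⟨hv, hl⟩
    obtain ⟨h1, h2⟩ := D.add _ _ u hu v hv
    exact ⟨h1, by omega⟩

private theorem pathV_geom {n : ℕ} (ν c : Matrix (Fin n) (Fin n) (MonoidAlgebra LL G))
    (h2 : (1 - ν) * c = 1) (k : ℕ) : c = ∑ j ∈ Finset.range k, ν ^ j + ν ^ k * c := by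
  induction k with
  | zero => rw [Finset.sum_range_zero, pow_zero, Matrix.one_mul, zero_add]
  | succ k ih =>
    have h3 : c = 1 + ν * c := by
      rw [Matrix.sub_mul, Matrix.one_mul] at h2
      rw [← h2, sub_add_cancel]
    calc c = ∑ j ∈ Finset.range k, ν ^ j + ν ^ k * c := ih
      _ = ∑ j ∈ Finset.range k, ν ^ j + ν ^ k * (1 + ν * c) := by rw [← h3]
      _ = ∑ j ∈ Finset.range (k + 1), ν ^ j + ν ^ (k + 1) * c := by
        rw [Finset.sum_range_succ, Matrix.mul_add, Matrix.mul_one, ← Matrix.mul_assoc, pow_succ,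
          add_assoc]

private theorem pathV_nil {H : Subgroup G} {T : Type} (D : PathData G H T) {n : ℕ}
    (ty : Fin n → T) (ν c : Matrix (Fin n) (Fin n) (MonoidAlgebra LL G))
    (hν : ∀ a b, WaldL.SuppIn (D.X (ty a) (ty b)) (ν a b))
    (hc : ∀ a b, WaldL.SuppIn (D.Y (ty a)) (c a b)) (h1 : c * (1 - ν) = 1) (h2 : (1 - ν) * c = 1) :
    ∃ m, ν ^ m = 0 := by
  classical
  let k : ℕ := (Finset.univ.sup fun ab : Fin n × Fin n =>
    (c ab.1 ab.2).coeff.support.sup D.len) + 1
  have hk : ∀ a b g, k ≤ D.len g → (c a b).coeff g = 0 := by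
    intro a b g hg
    by_contra hne
    have e1 : D.len g ≤ (c a b).coeff.support.sup D.len :=
      Finset.le_sup (Finsupp.mem_support_iff.mpr hne)
    have e2 : (c a b).coeff.support.sup D.len ≤ Finset.univ.sup fun ab : Fin n × Fin n =>
        (c ab.1 ab.2).coeff.support.sup D.len :=
      Finset.le_sup (f := fun ab : Fin n × Fin n => (c ab.1 ab.2).coeff.support.sup D.len)
        (Finset.mem_univ (a, b))
    have e3 : k ≤ Finset.univ.sup fun ab : Fin n × Fin n =>
        (c ab.1 ab.2).coeff.support.sup D.len := le_trans hg (e1.trans e2)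
    exact absurd e3 (by
      change ¬ (_ + 1 ≤ _)
      omega)
  have hz : ν ^ k * c = 0 := by
    ext1 a b
    rw [Matrix.zero_apply]
    ext g
    by_cases hg : k ≤ D.len g
    · have e1 := congrArg (fun M : Matrix (Fin n) (Fin n) (MonoidAlgebra LL G) =>
        (M a b).coeff g) (pathV_geom ν c h2 k)
      have e2 : (c a b).coeff g = ((∑ j ∈ Finset.range k, ν ^ j) a b).coeff g +
          ((ν ^ k * c) a b).coeff g := e1
      have e3 : ((∑ j ∈ Finset.range k, ν ^ j) a b).coeff g = 0 := by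
        have e4 : WaldL.SuppIn {g | D.len g < k} ((∑ j ∈ Finset.range k, ν ^ j) a b) := by
          rw [Matrix.sum_apply]
          refine WaldL.SuppIn.sum fun j hj => (pathV_pow D ty ν hν j a b).mono ?_
          rintro w ⟨_, hw⟩
          change D.len w < k
          rw [hw]
          exact Finset.mem_range.mp hj
        exact e4 g (fun h => absurd (show D.len g < k from h) (not_lt.mpr hg))
      rw [hk a b g hg, e3, zero_add] at e2
      rw [← e2]
      rfl
    · rw [pathV_powc D ty ν c hν hc k a b g (fun h => hg h.2)]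
      rfl
  refine ⟨k, ?_⟩
  have e1 : ν ^ k * c * (1 - ν) = ν ^ k := by rw [Matrix.mul_assoc, h1, Matrix.mul_one]
  rw [← e1, hz, Matrix.zero_mul]


/-- Vanishing for path-type nilpotents if the stabilizers of the paths of length `k` are
contained in subgroups with the property `SL`. -/
theorem path_vanish_g (hfam : Hier.S_fam) {H : Subgroup G} {T : Type} (D : PathData G H T)
    (hdisj : ∀ i j, ∀ g ∈ D.Y i, g ∈ D.Y j → i ≠ j → D.len g = 0) (k : ℕ)
    (hN : ∀ s t w, w ∈ PY (fun _ => H) D.X k s t → Hier.SubS LL (H ⊓ cj w H)) {n : ℕ}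
    (ty : Fin n → T) (ν c : Matrix (Fin n) (Fin n) (MonoidAlgebra LL G))
    (hν : ∀ a b, WaldL.SuppIn (D.X (ty a) (ty b)) (ν a b))
    (hc : ∀ a b, WaldL.SuppIn (D.Y (ty a)) (c a b))
    (h1 : c * (1 - ν) = 1) (h2 : (1 - ν) * c = 1)
    {K : Type} [CommGroup K] (κ : K1Fun (MonoidAlgebra LL G) K) :
    κ.f (1 - ν) = 1 := by
  obtain ⟨m, hm⟩ := pathV_nil D ty ν c hν hc h1 h2
  let N : PNil LL (PSys.ofPath D hdisj) (Fin n) ty := ⟨ν, hν, m, hm⟩
  obtain ⟨T', S, b, I', _, _, ty', N', hs, _, hD⟩ := PNil.iter (PSys.ofPath D hdisj) k N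
  have hu : IsUnit (1 - ν) := ⟨⟨1 - ν, c, h2, h1⟩, rfl⟩
  have h3 := (hs hu).2 K κ
  change κ.f (1 - N'.ν) = κ.f (1 - ν) at h3
  rw [← h3]
  refine Hier.vanish_sub hfam N' (fun a => ?_) κ
  obtain ⟨l, w, hw, hle⟩ := hD a
  exact (hN _ l w hw).mono hle

end PathVanK

end Pool.Agent.WaldP
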