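import Pool.Agent.Lib.MP_8f66f0_al_Hier.SpecC

/-! Construction of the ring of a letter system. -/

set_option autoImplicit false

namespace Pool.Agent.Hier

open Pool.Agent.Wald Pool.Agent.Ind

section ConAux

variable {LL Q' Λ T : Type} [CommRing LL] [Ring Q'] [Algebra LL Q']

/-- The new letter. -/
private noncomputable def con_cons (b : Λ) : (List Λ →₀ Q') →ₗ[Q'] (List Λ →₀ Q') :=
  Finsupp.lmapDomain Q' Q' (List.cons b)

private noncomputable def con_consL (LL : Type) [CommRing LL] {Q' : Type} [Ring Q']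
    [Algebra LL Q'] (b : Λ) : (List Λ →₀ Q') →ₗ[LL] (List Λ →₀ Q') :=
  Finsupp.lmapDomain Q' LL (List.cons b)

private theorem con_cons_single (b : Λ) (u : List Λ) (x : Q') :
    con_cons b (Finsupp.single u x) = Finsupp.single (b :: u) x := by
  rw [con_cons, Finsupp.lmapDomain_apply, Finsupp.mapDomain_single]

private theorem con_consL_eq (b : Λ) (y : List Λ →₀ Q') : con_consL LL b y = con_cons b y := rfl

/-- The right action on the words. -/
private noncomputable def con_act (S : LS LL Q' Λ) : List Λ → Q' →ₗ[LL] (List Λ →₀ Q')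
  | [] => Finsupp.lsingle []
  | a :: u => (con_act S u).comp (S.c a) +
      (Finsupp.lsum LL fun b => (con_consL LL b).comp (con_act S u)).comp (S.m a)

private theorem con_act_cons (S : LS LL Q' Λ) (a : Λ) (u : List Λ) (q : Q') :
    con_act S (a :: u) q = con_act S u (S.c a q) +
      (S.m a q).sum fun b r => con_cons b (con_act S u r) := by
  rw [con_act, LinearMap.add_apply, LinearMap.comp_apply, LinearMap.comp_apply,
    Finsupp.lsum_apply]
  rfl

private theorem con_act_one (S : LS LL Q' Λ) (u : List Λ) :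
    con_act S u 1 = Finsupp.single u 1 := by
  induction u with
  | nil => rfl
  | cons a u ih =>
    rw [con_act_cons, S.c_one, S.m_one, map_zero, zero_add, Finsupp.sum_single_index, ih,
      con_cons_single]
    rw [map_zero, map_zero]

/-- Right multiplication by `q`. -/
private noncomputable def con_R (S : LS LL Q' Λ) (q : Q') :
    (List Λ →₀ Q') →ₗ[Q'] (List Λ →₀ Q') :=
  Finsupp.linearCombination Q' fun u => con_act S u q

private theorem con_R_single (S : LS LL Q' Λ) (q : Q') (u : List Λ) (x : Q') :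
    con_R S q (Finsupp.single u x) = x • con_act S u q := by
  rw [con_R, Finsupp.linearCombination_single]

private theorem con_rel (S : LS LL Q' Λ) (a : Λ) (q : Q') (y : List Λ →₀ Q') :
    con_R S q (con_cons a y) = con_R S (S.c a q) y +
      (S.m a q).sum fun b r => con_cons b (con_R S r y) := by
  induction y using Finsupp.induction_linear with
  | zero =>
    simp
  | add y z hy hz =>
    rw [map_add, map_add, hy, hz, map_add]
    have e : ((S.m a q).sum fun b r => con_cons b (con_R S r (y + z))) =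
        ((S.m a q).sum fun b r => con_cons b (con_R S r y)) +
          (S.m a q).sum fun b r => con_cons b (con_R S r z) := by
      rw [← Finsupp.sum_add]
      refine Finsupp.sum_congr fun b _ => ?_
      rw [map_add, map_add]
    rw [e]
    abel
  | single u x =>
    rw [con_cons_single, con_R_single, con_R_single, con_act_cons, smul_add, Finsupp.smul_sum]
    congr 1
    refine Finsupp.sum_congr fun b _ => ?_
    rw [con_R_single, map_smul]

private theorem con_act_mul (S : LS LL Q' Λ) (u : List Λ) (q q' : Q') :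
    con_act S u (q * q') = con_R S q' (con_act S u q) := by
  induction u generalizing q q' with
  | nil =>
    change Finsupp.single [] (q * q') = con_R S q' (Finsupp.single [] q)
    rw [con_R_single]
    change _ = q • Finsupp.single [] q'
    rw [Finsupp.smul_single, smul_eq_mul]
  | cons a u ih =>
    rw [con_act_cons, S.c_mul, S.m_mul, map_add, ih, con_act_cons, map_add, add_assoc]
    congr 1
    rw [map_finsuppSum, map_finsuppSum]
    have e1 : ((S.m a q).sum fun b r => con_R S q' (con_cons b (con_act S u r))) =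
        ((S.m a q).sum fun b r => con_act S u (r * S.c b q')) +
          (S.m a q).sum fun b r => (r • S.m b q').sum fun b' r' =>
            con_cons b' (con_act S u r') := by
      rw [← Finsupp.sum_add]
      refine Finsupp.sum_congr fun b _ => ?_
      rw [con_rel, ih]
      congr 1
      rw [Finsupp.sum_smul_index]
      · refine Finsupp.sum_congr fun b' _ => ?_
        rw [ih]
      · intro i
        rw [map_zero, map_zero]
    rw [e1]
    congr 1
    rw [Finsupp.sum_sum_index]
    · intro b
      rw [map_zero, map_zero]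
    · intro b r r'
      rw [map_add, map_add]

/-- The homomorphism to the opposite of the endomorphism ring. -/
private noncomputable def con_f (S : LS LL Q' Λ) :
    Q' →ₐ[LL] (Module.End Q' (List Λ →₀ Q'))ᵐᵒᵖ :=
  AlgHom.ofLinearMap
    { toFun := fun q => MulOpposite.op (con_R S q)
      map_add' := by
        intro q q'
        rw [← MulOpposite.op_add]
        congr 1
        refine Finsupp.lhom_ext fun u x => ?_
        rw [LinearMap.add_apply, con_R_single, con_R_single, con_R_single, map_add, smul_add]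
      map_smul' := by
        intro t q
        rw [RingHom.id_apply, ← MulOpposite.op_smul]
        congr 1
        refine Finsupp.lhom_ext fun u x => ?_
        rw [LinearMap.smul_apply, con_R_single, con_R_single, map_smul, smul_comm] }
    (by
      change MulOpposite.op (con_R S 1) = 1
      rw [← MulOpposite.op_one]
      congr 1
      refine Finsupp.lhom_ext fun u x => ?_
      rw [con_R_single, con_act_one, Finsupp.smul_single, smul_eq_mul, mul_one]
      rfl)
    (by
      intro q q'
      change MulOpposite.op (con_R S (q * q')) =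
        MulOpposite.op (con_R S q) * MulOpposite.op (con_R S q')
      rw [← MulOpposite.op_mul]
      congr 1
      refine Finsupp.lhom_ext fun u x => ?_
      rw [Module.End.mul_apply, con_R_single, con_R_single, con_act_mul, map_smul])

private theorem con_f_apply (S : LS LL Q' Λ) (q : Q') :
    con_f S q = MulOpposite.op (con_R S q) := rfl

private noncomputable def con_l (Q' : Type) [Ring Q'] (a : Λ) :
    (Module.End Q' (List Λ →₀ Q'))ᵐᵒᵖ := MulOpposite.op (con_cons a)

private theorem con_Rel (S : LS LL Q' Λ) :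
    S.Rel (con_f S : Q' →+* (Module.End Q' (List Λ →₀ Q'))ᵐᵒᵖ) (con_l Q') := by
  intro a q
  apply MulOpposite.unop_injective
  have e1 : MulOpposite.unop (lin (con_f S : Q' →+* (Module.End Q' (List Λ →₀ Q'))ᵐᵒᵖ) (con_l Q')
      (S.m a q)) = (S.m a q).sum fun b r => con_cons b * con_R S r := by
    rw [lin]
    exact map_finsuppSum (MulOpposite.opAddEquiv.symm :
      (Module.End Q' (List Λ →₀ Q'))ᵐᵒᵖ ≃+ Module.End Q' (List Λ →₀ Q')) _ _
  rw [MulOpposite.unop_add, e1]
  change con_R S q * con_cons a = con_R S (S.c a q) + _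
  refine LinearMap.ext fun y => ?_
  rw [Module.End.mul_apply, con_rel, LinearMap.add_apply]
  congr 1
  rw [Finsupp.sum, Finsupp.sum, LinearMap.sum_apply]
  rfl

private theorem con_wd (u : List Λ) (x : Q') :
    MulOpposite.unop (wd (con_l Q') u) (Finsupp.single [] x) = Finsupp.single u x := by
  induction u with
  | nil => rfl
  | cons a u ih =>
    rw [wd, MulOpposite.unop_mul, Module.End.mul_apply, ih]
    exact con_cons_single a u x

private theorem con_ev (S : LS LL Q' Λ) (x : List Λ →₀ Q') :
    MulOpposite.unop (ev (con_f S : Q' →+* (Module.End Q' (List Λ →₀ Q'))ᵐᵒᵖ) (con_l Q') x)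
      (Finsupp.single [] 1) = x := by
  have e1 : MulOpposite.unop (ev (con_f S : Q' →+* (Module.End Q' (List Λ →₀ Q'))ᵐᵒᵖ)
      (con_l Q') x) = x.sum fun u q => MulOpposite.unop (wd (con_l Q') u) * con_R S q := by
    rw [ev]
    exact map_finsuppSum (MulOpposite.opAddEquiv.symm :
      (Module.End Q' (List Λ →₀ Q'))ᵐᵒᵖ ≃+ Module.End Q' (List Λ →₀ Q')) _ _
  rw [e1, Finsupp.sum, LinearMap.sum_apply]
  conv_rhs => rw [← Finsupp.sum_single x, Finsupp.sum]
  refine Finset.sum_congr rfl fun u _ => ?_
  rw [Module.End.mul_apply, con_R_single, one_smul]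
  change MulOpposite.unop (wd (con_l Q') u) (Finsupp.single [] (x u)) = _
  exact con_wd u (x u)

variable [Ring T] [Algebra LL T]

private theorem con_map_wd {T' : Type} [Ring T'] (φ : T →+* T') (ℓ : Λ → T) (u : List Λ) :
    φ (wd ℓ u) = wd (fun a => φ (ℓ a)) u := by
  induction u with
  | nil => rw [wd, wd, map_one]
  | cons a u ih => rw [wd, wd, map_mul, ih]

/-- `ev` as a linear map. -/
private noncomputable def con_evl (f : Q' →ₐ[LL] T) (ℓ : Λ → T) : (List Λ →₀ Q') →ₗ[LL] T :=
  Finsupp.lsum LL fun u => (LinearMap.mulRight LL (wd ℓ u)).comp f.toLinearMap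

private theorem con_evl_apply (f : Q' →ₐ[LL] T) (ℓ : Λ → T) (x : List Λ →₀ Q') :
    con_evl f ℓ x = ev (f : Q' →+* T) ℓ x := by
  rw [con_evl, Finsupp.lsum_apply, ev]
  rfl

private theorem con_evl_single (f : Q' →ₐ[LL] T) (ℓ : Λ → T) (u : List Λ) (q : Q') :
    con_evl f ℓ (Finsupp.single u q) = f q * wd ℓ u := by
  rw [con_evl, Finsupp.lsum_single]
  rfl

private theorem con_ind (f : Q' →ₐ[LL] T) (ℓ : Λ → T) (P : T → Prop) (h0 : P 0)
    (ha : ∀ a b, P a → P b → P (a + b)) (h1 : ∀ q u, P (f q * wd ℓ u)) (t : T)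
    (ht : t ∈ LinearMap.range (con_evl f ℓ)) : P t := by
  obtain ⟨x, rfl⟩ := ht
  induction x using Finsupp.induction_linear with
  | zero => rw [map_zero]; exact h0
  | add x y hx hy => rw [map_add]; exact ha _ _ hx hy
  | single u q => rw [con_evl_single]; exact h1 q u

private theorem con_mem (f : Q' →ₐ[LL] T) (ℓ : Λ → T) (q : Q') (u : List Λ) :
    f q * wd ℓ u ∈ LinearMap.range (con_evl f ℓ) :=
  ⟨Finsupp.single u q, con_evl_single f ℓ u q⟩

private theorem con_mem_l (f : Q' →ₐ[LL] T) (ℓ : Λ → T) (b : Λ) (t : T)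
    (ht : t ∈ LinearMap.range (con_evl f ℓ)) : t * ℓ b ∈ LinearMap.range (con_evl f ℓ) := by
  refine con_ind f ℓ (fun t => t * ℓ b ∈ LinearMap.range (con_evl f ℓ)) ?_ ?_ ?_ t ht
  · rw [zero_mul]; exact zero_mem _
  · intro a a' h1 h2
    rw [add_mul]
    exact add_mem h1 h2
  · intro q u
    have e : f q * wd ℓ u * ℓ b = f q * wd ℓ (b :: u) := by rw [wd, mul_assoc]
    rw [e]
    exact con_mem f ℓ q _

private theorem con_mem_f' (S : LS LL Q' Λ) (f : Q' →ₐ[LL] T) (ℓ : Λ → T)
    (hf : S.Rel (f : Q' →+* T) ℓ) (u : List Λ) (q' q : Q') :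
    f q' * wd ℓ u * f q ∈ LinearMap.range (con_evl f ℓ) := by
  induction u generalizing q' q with
  | nil =>
    rw [wd, mul_one, ← map_mul]
    have := con_mem f ℓ (q' * q) []
    rwa [wd, mul_one] at this
  | cons a u ih =>
    have e1 : ℓ a * f q = f (S.c a q) + lin (f : Q' →+* T) ℓ (S.m a q) := hf a q
    have e3 : f q' * wd ℓ (a :: u) * f q = f q' * wd ℓ u * f (S.c a q) +
        (S.m a q).sum fun b r => f q' * wd ℓ u * f r * ℓ b := by
      rw [wd, mul_assoc, mul_assoc, e1, ← mul_assoc, mul_add, lin, Finsupp.mul_sum]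
      congr 1
      refine Finsupp.sum_congr fun b _ => ?_
      rw [← mul_assoc]
      rfl
    rw [e3]
    refine add_mem (ih _ _) ?_
    rw [Finsupp.sum]
    exact sum_mem fun b _ => con_mem_l f ℓ b _ (ih _ _)

private theorem con_mem_mul (S : LS LL Q' Λ) (f : Q' →ₐ[LL] T) (ℓ : Λ → T)
    (hf : S.Rel (f : Q' →+* T) ℓ) (t t' : T) (ht : t ∈ LinearMap.range (con_evl f ℓ))
    (ht' : t' ∈ LinearMap.range (con_evl f ℓ)) : t * t' ∈ LinearMap.range (con_evl f ℓ) := by
  have hA : ∀ (q : Q') (t : T), t ∈ LinearMap.range (con_evl f ℓ) →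
      t * f q ∈ LinearMap.range (con_evl f ℓ) := by
    intro q t ht
    refine con_ind f ℓ (fun t => t * f q ∈ LinearMap.range (con_evl f ℓ)) ?_ ?_ ?_ t ht
    · rw [zero_mul]; exact zero_mem _
    · intro a a' h1 h2
      rw [add_mul]
      exact add_mem h1 h2
    · intro q' u
      exact con_mem_f' S f ℓ hf u q' q
  have hC : ∀ (u : List Λ) (q : Q') (t : T), t ∈ LinearMap.range (con_evl f ℓ) →
      t * (f q * wd ℓ u) ∈ LinearMap.range (con_evl f ℓ) := by
    intro u
    induction u with
    | nil =>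
      intro q t ht
      rw [wd, mul_one]
      exact hA q t ht
    | cons a u ih =>
      intro q t ht
      have e6 : t * (f q * wd ℓ (a :: u)) = t * (f q * wd ℓ u) * ℓ a := by
        rw [wd, mul_assoc, mul_assoc]
      rw [e6]
      exact con_mem_l f ℓ a _ (ih q t ht)
  refine con_ind f ℓ (fun t' => t * t' ∈ LinearMap.range (con_evl f ℓ)) ?_ ?_ ?_ t' ht'
  · rw [mul_zero]; exact zero_mem _
  · intro a a' h1 h2
    rw [mul_add]
    exact add_mem h1 h2
  · intro q u
    exact hC u q t ht

/-- The subalgebra spanned by the words. -/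
private noncomputable def con_T (S : LS LL Q' Λ) (f : Q' →ₐ[LL] T) (ℓ : Λ → T)
    (hf : S.Rel (f : Q' →+* T) ℓ) : Subalgebra LL T where
  carrier := LinearMap.range (con_evl f ℓ)
  mul_mem' := fun {a b} ha hb => con_mem_mul S f ℓ hf a b ha hb
  add_mem' := fun {a b} ha hb => add_mem (S := Submodule LL T) ha hb
  algebraMap_mem' := by
    intro t
    have h1 := con_mem f ℓ (algebraMap LL Q' t) []
    rw [wd, mul_one, AlgHom.commutes] at h1
    exact h1

private theorem con_final (S : LS LL Q' Λ) (f₀ : Q' →ₐ[LL] T) (ℓ₀ : Λ → T)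
    (hR : S.Rel (f₀ : Q' →+* T) ℓ₀) (hinj : Function.Injective (ev (f₀ : Q' →+* T) ℓ₀)) :
    ∃ (T : Type) (_ : Ring T) (_ : Algebra LL T) (f : Q' →ₐ[LL] T) (ℓ : Λ → T),
      S.Rel (f : Q' →+* T) ℓ ∧ FreeW (f : Q' →+* T) ℓ := by
  let T₁ := con_T S f₀ ℓ₀ hR
  have hfT : ∀ q, f₀ q ∈ T₁ := by
    intro q
    have h1 := con_mem f₀ ℓ₀ q []
    rw [wd, mul_one] at h1
    exact h1
  have hℓT : ∀ a, ℓ₀ a ∈ T₁ := by
    intro a
    have h1 := con_mem f₀ ℓ₀ 1 [a]
    rw [wd, wd, map_one, one_mul, one_mul] at h1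
    exact h1
  let f : Q' →ₐ[LL] T₁ := f₀.codRestrict T₁ hfT
  let ℓ : Λ → T₁ := fun a => ⟨ℓ₀ a, hℓT a⟩
  have hval : ∀ q, ((f q : T₁) : T) = f₀ q := fun _ => rfl
  have hwd : ∀ u, ((wd ℓ u : T₁) : T) = wd ℓ₀ u := by
    intro u
    exact con_map_wd (T₁.val : T₁ →+* T) ℓ u
  have hev : ∀ x, ((ev (f : Q' →+* T₁) ℓ x : T₁) : T) = ev (f₀ : Q' →+* T) ℓ₀ x := by
    intro x
    rw [ev, ev]
    have e1 := map_finsuppSum (T₁.val : T₁ →+* T) x (fun u q => (f : Q' →+* T₁) q * wd ℓ u)
    refine e1.trans (Finsupp.sum_congr fun u _ => ?_)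
    rw [map_mul]
    exact congrArg₂ (· * ·) (hval _) (hwd u)
  have hlin : ∀ x, ((lin (f : Q' →+* T₁) ℓ x : T₁) : T) = lin (f₀ : Q' →+* T) ℓ₀ x := by
    intro x
    rw [lin, lin]
    exact map_finsuppSum (T₁.val : T₁ →+* T) x (fun b r => (f : Q' →+* T₁) r * ℓ b)
  refine ⟨T₁, inferInstance, inferInstance, f, ℓ, ?_, ?_, ?_⟩
  · intro a q
    apply Subtype.ext
    have h1 := hR a q
    refine h1.trans ?_
    rw [← hlin]
    rfl
  · intro x y hxy
    have h1 := congrArg (fun t : T₁ => (t : T)) hxy
    simp only [hev] at h1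
    exact hinj h1
  · rintro ⟨t, x, hx⟩
    exact ⟨x, Subtype.ext ((hev x).trans ((con_evl_apply f₀ ℓ₀ x).symm.trans hx))⟩

end ConAux

/-- C1. Every letter system is realised. -/
theorem con : S_con := by
  intro LL Q' Λ _ _ _ S
  refine con_final S (con_f S) (con_l Q') (con_Rel S) ?_
  intro x y hxy
  rw [← con_ev S x, ← con_ev S y, hxy]

end Pool.Agent.Hier
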