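import Pool.Agent.Lib.MP_8f66f0_al_Hier.SpecT

/-! Module Die: elements of the kernel of `T(E/K₁) → Q` die in a larger stage. -/

set_option autoImplicit false

namespace Pool.Agent.Hier

open Pool.Agent.Wald Pool.Agent.Ind

private theorem die_wd {T T' Λ Λ' : Type} [Ring T] [Ring T'] (φ : T →+* T') (ℓ : Λ → T)
    (ℓ' : Λ' → T') (h : Λ → Λ') (u : List Λ) (hu : ∀ a ∈ u, φ (ℓ a) = ℓ' (h a)) :
    φ (wd ℓ u) = wd ℓ' (u.map h) := by
  induction u with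
  | nil => simp [wd]
  | cons a u ih =>
    rw [wd, map_mul, ih fun b hb => hu b (List.mem_cons_of_mem _ hb), hu a List.mem_cons_self,
      List.map_cons, wd]

private theorem die_ev {Q' T T' Λ Λ' : Type} [Ring Q'] [Ring T] [Ring T'] (φ : T →+* T')
    (f : Q' →+* T) (f' : Q' →+* T') (hf : ∀ q, φ (f q) = f' q) (ℓ : Λ → T) (ℓ' : Λ' → T')
    (h : Λ → Λ') (x : List Λ →₀ Q') (hx : ∀ u ∈ x.support, ∀ a ∈ u, φ (ℓ a) = ℓ' (h a)) :
    φ (ev f ℓ x) = ev f' ℓ' (x.mapDomain (List.map h)) := by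
  rw [ev, ev, Finsupp.sum_mapDomain_index, map_finsuppSum]
  · refine Finsupp.sum_congr fun u hu => ?_
    rw [map_mul, hf, die_wd φ ℓ ℓ' h u (hx u hu)]
  · intro u
    rw [map_zero, zero_mul]
  · intro u q q'
    rw [map_add, add_mul]

theorem die : S_die := by
  intro LL E Q' Q I T₁ _ _ _ _ _ _ ρ D g w K₁ _ _ f₁ ℓ₁ _ hw hT π₁ hπf hπℓ t ht
  classical
  obtain ⟨x, hx⟩ := hT.free.2 t
  -- the coefficients vanish after forgetting the cosets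
  have h0 : x.mapDomain (List.map Prod.snd) = 0 := by
    have h1 : (π₁ : T₁ →+* Q) (ev (f₁ : Q' →+* T₁) ℓ₁ x) =
        ev (g : Q' →+* Q) w (x.mapDomain (List.map Prod.snd)) :=
      die_ev (π₁ : T₁ →+* Q) (f₁ : Q' →+* T₁) (g : Q' →+* Q) hπf ℓ₁ w Prod.snd x
        fun u _ a _ => hπℓ a.1 a.2
    have h2 : ev (g : Q' →+* Q) w (x.mapDomain (List.map Prod.snd)) = 0 := by
      rw [← h1, hx]
      exact ht
    apply hw.1
    rw [h2, ev, Finsupp.sum_zero_index]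
  -- the cosets which occur
  set V : Finset (E ⧸ K₁) := x.support.biUnion fun u => (u.map Prod.fst).toFinset with hV
  refine ⟨(V ×ˢ V).image fun c => (Quotient.out c.1)⁻¹ * Quotient.out c.2, ?_⟩
  intro K₂ _ hF T₂ _ _ f₂ ℓ₂ τ hτf hτℓ
  obtain ⟨v₂, hv₂⟩ : ∃ v₂ : E ⧸ K₂, ∀ v ∈ V, ((Quotient.out v : E) : E ⧸ K₂) = v₂ := by
    rcases V.eq_empty_or_nonempty with hV0 | ⟨v₀, hv₀⟩
    · refine ⟨((1 : E) : E ⧸ K₂), fun v hv => ?_⟩
      rw [hV0] at hv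
      simp at hv
    · refine ⟨((Quotient.out v₀ : E) : E ⧸ K₂), fun v hv => ?_⟩
      rw [QuotientGroup.eq]
      exact hF _ (Finset.mem_image.2 ⟨(v, v₀), Finset.mk_mem_product hv hv₀, rfl⟩)
  have h3 : (τ : T₁ →+* T₂) (ev (f₁ : Q' →+* T₁) ℓ₁ x) =
      ev (f₂ : Q' →+* T₂) (fun i => ℓ₂ (v₂, i)) (x.mapDomain (List.map Prod.snd)) := by
    refine die_ev (τ : T₁ →+* T₂) (f₁ : Q' →+* T₁) (f₂ : Q' →+* T₂) hτf ℓ₁ _ Prod.snd x ?_
    intro u hu a ha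
    have h4 : a.1 ∈ V := by
      rw [hV, Finset.mem_biUnion]
      exact ⟨u, hu, List.mem_toFinset.2 (List.mem_map_of_mem ha)⟩
    have h5 : ((Quotient.out a.1 : E) : E ⧸ K₁) = a.1 := Quotient.out_eq' a.1
    have h6 := hτℓ (Quotient.out a.1) a.2
    rw [h5, hv₂ a.1 h4] at h6
    exact h6
  rw [hx, h0] at h3
  have h7 : ev (f₂ : Q' →+* T₂) (fun i => ℓ₂ (v₂, i)) 0 = 0 := by
    rw [ev, Finsupp.sum_zero_index]
  rw [h7] at h3
  exact h3

end Pool.Agent.Hier
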