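import Pool.Agent.Lib.MP_8f66f0_al_Hier.Defs

/-! The explicit form of the statement that `K_1(Q)` is generated by the image of `K_1(Q')`. -/

set_option autoImplicit false

namespace Pool.Agent.Hier

open Pool.Agent.Wald Matrix

/-- `K_1(Q)` is generated by the image of `K_1(Q')`: every invertible matrix over `Q`, stabilised
by an identity block, is an invertible matrix over `Q'` times a product of commutators of
invertible matrices over `Q`. -/
def GenK1 {Q' Q : Type} [Ring Q'] [Ring Q] (f : Q' →+* Q) : Prop :=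
  ∀ (n : ℕ) (A : (Matrix (Fin n) (Fin n) Q)ˣ),
    ∃ (m : ℕ) (B : (Matrix (Fin n ⊕ Fin m) (Fin n ⊕ Fin m) Q')ˣ)
      (C : (Matrix (Fin n ⊕ Fin m) (Fin n ⊕ Fin m) Q)ˣ),
      C ∈ commutator (Matrix (Fin n ⊕ Fin m) (Fin n ⊕ Fin m) Q)ˣ ∧
      Matrix.fromBlocks (A : Matrix (Fin n) (Fin n) Q) 0 0 (1 : Matrix (Fin m) (Fin m) Q) =
        (B : Matrix (Fin n ⊕ Fin m) (Fin n ⊕ Fin m) Q').map f *
          (C : Matrix (Fin n ⊕ Fin m) (Fin n ⊕ Fin m) Q)

namespace KTX

section General

variable {Λ : Type} [Ring Λ]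
variable {n m k k' l M M' : Type} [Fintype n] [DecidableEq n] [Fintype m] [DecidableEq m]
  [Fintype k] [DecidableEq k] [Fintype k'] [DecidableEq k'] [Fintype l] [DecidableEq l]
  [Fintype M] [DecidableEq M] [Fintype M'] [DecidableEq M']

/-- Enlarging a matrix by the identity matrix. -/
private def big (e : n ⊕ k ≃ M) : Matrix n n Λ →* Matrix M M Λ where
  toFun A := (fromBlocks A 0 0 (1 : Matrix k k Λ)).submatrix e.symm e.symm
  map_one' := by rw [fromBlocks_one, submatrix_one_equiv]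
  map_mul' A B := by
    rw [submatrix_mul_equiv, fromBlocks_multiply]
    simp

private theorem big_apply (e : n ⊕ k ≃ M) (A : Matrix n n Λ) (x y : n ⊕ k) :
    big e A (e x) (e y) = fromBlocks A 0 0 (1 : Matrix k k Λ) x y := by
  change fromBlocks A 0 0 (1 : Matrix k k Λ) (e.symm (e x)) (e.symm (e y)) = _
  rw [e.symm_apply_apply, e.symm_apply_apply]

private def ext (e : n ⊕ k ≃ M) : (Matrix n n Λ)ˣ →* (Matrix M M Λ)ˣ := Units.map (big e)

private theorem ext_val (e : n ⊕ k ≃ M) (A : (Matrix n n Λ)ˣ) :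
    (ext e A : Matrix M M Λ) = big e (A : Matrix n n Λ) := rfl

/-- The matrix of a permutation. -/
private def perm (σ : M ≃ M) : (Matrix M M Λ)ˣ where
  val := (1 : Matrix M M Λ).submatrix σ.symm id
  inv := (1 : Matrix M M Λ).submatrix id σ.symm
  val_inv := by
    have := submatrix_mul_equiv (1 : Matrix M M Λ) (1 : Matrix M M Λ) σ.symm (Equiv.refl M) σ.symm
    rw [Equiv.coe_refl] at this
    rw [this, mul_one, submatrix_one_equiv]
  inv_val := by
    rw [submatrix_mul_equiv, mul_one, submatrix_id_id]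

private theorem perm_conj (σ : M ≃ M) (X : (Matrix M M Λ)ˣ) :
    ((perm σ * X * (perm σ)⁻¹ : (Matrix M M Λ)ˣ) : Matrix M M Λ) =
      (X : Matrix M M Λ).submatrix σ.symm σ.symm := by
  change (1 : Matrix M M Λ).submatrix σ.symm id * (X : Matrix M M Λ) *
    (1 : Matrix M M Λ).submatrix id σ.symm = _
  have h1 := submatrix_mul_equiv (1 : Matrix M M Λ) (X : Matrix M M Λ) σ.symm (Equiv.refl M) id
  have h2 := submatrix_mul_equiv (X : Matrix M M Λ) (1 : Matrix M M Λ) σ.symm (Equiv.refl M) σ.symm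
  rw [Equiv.coe_refl] at h1 h2
  rw [submatrix_id_id, one_mul] at h1
  rw [mul_one] at h2
  rw [h1, h2]

private theorem of_ext (e : n ⊕ k ≃ M) (e' : n ⊕ k' ≃ M) (A : (Matrix n n Λ)ˣ) :
    Abelianization.of (ext e A) = Abelianization.of (ext e' A) := by
  obtain ⟨g⟩ : Nonempty (k ≃ k') := by
    rw [← Fintype.card_eq]
    have h1 := Fintype.card_congr e
    have h2 := Fintype.card_congr e'
    rw [Fintype.card_sum] at h1 h2
    omega
  have h : ext e' A = perm (e.symm.trans ((Equiv.sumCongr (Equiv.refl n) g).trans e')) *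
      ext e A * (perm (e.symm.trans ((Equiv.sumCongr (Equiv.refl n) g).trans e')))⁻¹ := by
    refine Units.ext ?_
    rw [perm_conj]
    ext a b
    obtain ⟨x, rfl⟩ := e'.surjective a
    obtain ⟨y, rfl⟩ := e'.surjective b
    rw [ext_val, big_apply, submatrix_apply, ext_val]
    change _ = fromBlocks (A : Matrix n n Λ) 0 0 (1 : Matrix k k Λ)
      (e.symm (e ((Equiv.sumCongr (Equiv.refl n) g).symm (e'.symm (e' x)))))
      (e.symm (e ((Equiv.sumCongr (Equiv.refl n) g).symm (e'.symm (e' y)))))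
    rw [e.symm_apply_apply, e.symm_apply_apply, e'.symm_apply_apply, e'.symm_apply_apply]
    rcases x with x | x <;> rcases y with y | y
    · rfl
    · rfl
    · rfl
    · change (1 : Matrix k' k' Λ) x y = (1 : Matrix k k Λ) (g.symm x) (g.symm y)
      rw [one_apply, one_apply]
      simp only [EmbeddingLike.apply_eq_iff_eq]
  rw [h, map_mul, map_mul, map_inv, mul_comm (Abelianization.of _) (Abelianization.of (ext e A)),
    mul_inv_cancel_right]

private theorem ext_comp (e : n ⊕ k ≃ M) (e' : M ⊕ l ≃ M') (A : (Matrix n n Λ)ˣ) :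
    ext e' (ext e A) = ext ((Equiv.sumAssoc n k l).symm.trans
      ((Equiv.sumCongr e (Equiv.refl l)).trans e')) A := by
  refine Units.ext ?_
  ext a b
  obtain ⟨x, rfl⟩ := e'.surjective a
  obtain ⟨y, rfl⟩ := e'.surjective b
  rw [ext_val, big_apply, ext_val, ext_val]
  change _ = fromBlocks (A : Matrix n n Λ) 0 0 (1 : Matrix (k ⊕ l) (k ⊕ l) Λ)
    (Equiv.sumAssoc n k l ((Equiv.sumCongr e (Equiv.refl l)).symm (e'.symm (e' x))))
    (Equiv.sumAssoc n k l ((Equiv.sumCongr e (Equiv.refl l)).symm (e'.symm (e' y))))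
  rw [e'.symm_apply_apply, e'.symm_apply_apply]
  have h1 : ∀ z : n ⊕ k, (Equiv.sumCongr e (Equiv.refl l)).symm (Sum.inl (e z)) = Sum.inl z := by
    intro z
    rw [Equiv.symm_apply_eq]
    rfl
  have h2 : ∀ z : l, (Equiv.sumCongr e (Equiv.refl l)).symm (Sum.inr z) = Sum.inr z := fun z => rfl
  rcases x with x | x <;> rcases y with y | y
  · obtain ⟨x, rfl⟩ := e.surjective x
    obtain ⟨y, rfl⟩ := e.surjective y
    rw [h1, h1, fromBlocks_apply₁₁, big_apply]
    rcases x with x | x <;> rcases y with y | y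
    · rfl
    · rfl
    · rfl
    · simp [one_apply]
  · obtain ⟨x, rfl⟩ := e.surjective x
    rw [h1, h2]
    rcases x with x | x
    · rfl
    · simp [one_apply]
  · obtain ⟨y, rfl⟩ := e.surjective y
    rw [h1, h2]
    rcases y with y | y
    · rfl
    · simp [one_apply]
  · rw [h2, h2]
    simp [one_apply]

open Classical in
/-- The class of a matrix in the abelianization of the general linear group of rank `M`. -/
private noncomputable def tau (M : Type) [Fintype M] [DecidableEq M] (A : Matrix n n Λ) :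
    Abelianization (Matrix M M Λ)ˣ :=
  if h : IsUnit A ∧ Nonempty (n ⊕ Fin (Fintype.card M - Fintype.card n) ≃ M) then
    Abelianization.of (ext h.2.some h.1.unit) else 1

private theorem exists_equiv (h : Fintype.card n ≤ Fintype.card M) :
    Nonempty (n ⊕ Fin (Fintype.card M - Fintype.card n) ≃ M) := by
  rw [← Fintype.card_eq, Fintype.card_sum, Fintype.card_fin]
  omega

private theorem tau_eq (e : n ⊕ k ≃ M) (A : (Matrix n n Λ)ˣ) :
    tau M (A : Matrix n n Λ) = Abelianization.of (ext e A) := by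
  have hc : Fintype.card n ≤ Fintype.card M := by
    rw [← Fintype.card_congr e, Fintype.card_sum]
    omega
  have h : IsUnit (A : Matrix n n Λ) ∧
      Nonempty (n ⊕ Fin (Fintype.card M - Fintype.card n) ≃ M) := ⟨A.isUnit, exists_equiv hc⟩
  rw [tau, dif_pos h]
  have h2 : h.1.unit = A := Units.ext rfl
  rw [h2]
  exact of_ext _ _ A

private theorem tau_mul (h : Fintype.card n ≤ Fintype.card M) (A B : (Matrix n n Λ)ˣ) :
    tau M ((A * B : (Matrix n n Λ)ˣ) : Matrix n n Λ) =
      tau M (A : Matrix n n Λ) * tau M (B : Matrix n n Λ) := by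
  obtain ⟨e⟩ := exists_equiv h
  rw [tau_eq e, tau_eq e, tau_eq e, map_mul, map_mul]

private theorem tau_one (h : Fintype.card n ≤ Fintype.card M) :
    tau M (1 : Matrix n n Λ) = 1 := by
  obtain ⟨e⟩ := exists_equiv h
  have := tau_eq e (1 : (Matrix n n Λ)ˣ)
  rw [map_one, map_one] at this
  exact this

private theorem tau_big (e : n ⊕ k ≃ m) (h : Fintype.card m ≤ Fintype.card M)
    (A : (Matrix n n Λ)ˣ) : tau M (ext e A : Matrix m m Λ) = tau M (A : Matrix n n Λ) := by
  obtain ⟨e'⟩ := exists_equiv h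
  rw [tau_eq e' (ext e A), ext_comp, ← tau_eq]

private theorem tau_reindex (e : n ≃ m) (h : Fintype.card m ≤ Fintype.card M)
    (A : (Matrix n n Λ)ˣ) :
    tau M ((A : Matrix n n Λ).submatrix e.symm e.symm) = tau M (A : Matrix n n Λ) :=
  tau_big ((Equiv.sumEmpty n Empty).trans e) h A

/-- Elementary block matrices. -/
private def upU (x : Matrix n m Λ) : (Matrix (n ⊕ m) (n ⊕ m) Λ)ˣ where
  val := fromBlocks 1 x 0 1
  inv := fromBlocks 1 (-x) 0 1
  val_inv := by rw [fromBlocks_multiply]; simp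
  inv_val := by rw [fromBlocks_multiply]; simp

private def loU (y : Matrix m n Λ) : (Matrix (n ⊕ m) (n ⊕ m) Λ)ˣ where
  val := fromBlocks 1 0 y 1
  inv := fromBlocks 1 0 (-y) 1
  val_inv := by rw [fromBlocks_multiply]; simp
  inv_val := by rw [fromBlocks_multiply]; simp

private theorem tau_up (h : Fintype.card n + 2 * Fintype.card m ≤ Fintype.card M)
    (X : Matrix n m Λ) : tau M (upU X : Matrix (n ⊕ m) (n ⊕ m) Λ) = 1 := by
  have hc : Fintype.card ((n ⊕ m) ⊕ m) ≤ Fintype.card M := by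
    rw [Fintype.card_sum, Fintype.card_sum]
    omega
  rw [← tau_big (Equiv.refl ((n ⊕ m) ⊕ m)) hc (upU X)]
  have key : ext (Equiv.refl ((n ⊕ m) ⊕ m)) (upU X) *
      (loU (fromCols (0 : Matrix m n Λ) (1 : Matrix m m Λ)) *
        upU (fromRows X (0 : Matrix m m Λ))) =
      upU (fromRows X (0 : Matrix m m Λ)) *
        loU (fromCols (0 : Matrix m n Λ) (1 : Matrix m m Λ)) := by
    refine Units.ext ?_
    change fromBlocks (fromBlocks 1 X 0 1) 0 0 1 *
      (fromBlocks 1 0 (fromCols (0 : Matrix m n Λ) (1 : Matrix m m Λ)) 1 *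
        fromBlocks 1 (fromRows X (0 : Matrix m m Λ)) 0 1) =
      fromBlocks 1 (fromRows X (0 : Matrix m m Λ)) 0 1 *
        fromBlocks 1 0 (fromCols (0 : Matrix m n Λ) (1 : Matrix m m Λ)) 1
    simp only [fromBlocks_multiply]
    have h1 : fromCols (0 : Matrix m n Λ) (1 : Matrix m m Λ) * fromRows X (0 : Matrix m m Λ) =
        0 := by
      rw [fromCols_mul_fromRows]
      simp
    have h2 : fromRows X (0 : Matrix m m Λ) * fromCols (0 : Matrix m n Λ) (1 : Matrix m m Λ) =
        fromBlocks 0 X 0 0 := by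
      rw [fromRows_mul_fromCols]
      simp
    have h3 : fromBlocks (1 : Matrix n n Λ) X 0 (1 : Matrix m m Λ) *
        fromRows X (0 : Matrix m m Λ) = fromRows X 0 := by
      rw [fromBlocks_mul_fromRows]
      simp
    have h4 : (1 : Matrix (n ⊕ m) (n ⊕ m) Λ) + fromBlocks 0 X 0 0 = fromBlocks 1 X 0 1 := by
      rw [← fromBlocks_one, fromBlocks_add]
      simp
    simp [h1, h2, h3, h4]
  have := congrArg (fun u : (Matrix ((n ⊕ m) ⊕ m) ((n ⊕ m) ⊕ m) Λ)ˣ =>
    tau M (u : Matrix ((n ⊕ m) ⊕ m) ((n ⊕ m) ⊕ m) Λ)) key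
  simp only [tau_mul hc] at this
  rw [mul_comm (tau M (loU (fromCols (0 : Matrix m n Λ) (1 : Matrix m m Λ)) :
    Matrix ((n ⊕ m) ⊕ m) ((n ⊕ m) ⊕ m) Λ))] at this
  exact mul_eq_right.1 this

private theorem tau_tri (h : Fintype.card n + 2 * Fintype.card m ≤ Fintype.card M)
    (A : (Matrix n n Λ)ˣ) (B : Matrix n m Λ) (D : (Matrix m m Λ)ˣ) :
    tau M (fromBlocks (A : Matrix n n Λ) B 0 (D : Matrix m m Λ)) =
      tau M (A : Matrix n n Λ) * tau M (D : Matrix m m Λ) := by
  have hc : Fintype.card (n ⊕ m) ≤ Fintype.card M := by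
    rw [Fintype.card_sum]
    omega
  have key : fromBlocks (A : Matrix n n Λ) B 0 (D : Matrix m m Λ) =
      ((upU (B * ((D⁻¹ : (Matrix m m Λ)ˣ) : Matrix m m Λ)) * (ext (Equiv.refl (n ⊕ m)) A *
        ext (Equiv.sumComm m n) D) : (Matrix (n ⊕ m) (n ⊕ m) Λ)ˣ) :
          Matrix (n ⊕ m) (n ⊕ m) Λ) := by
    have h1 : (ext (Equiv.sumComm m n) D : Matrix (n ⊕ m) (n ⊕ m) Λ) =
        fromBlocks 1 0 0 (D : Matrix m m Λ) := by
      ext a b
      rcases a with a | a <;> rcases b with b | b <;> rfl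
    have h2 : (ext (Equiv.refl (n ⊕ m)) A : Matrix (n ⊕ m) (n ⊕ m) Λ) =
        fromBlocks (A : Matrix n n Λ) 0 0 1 := rfl
    rw [Units.val_mul, Units.val_mul, h1, h2]
    change _ = fromBlocks 1 (B * ((D⁻¹ : (Matrix m m Λ)ˣ) : Matrix m m Λ)) 0 1 * _
    rw [fromBlocks_multiply, fromBlocks_multiply]
    simp [Matrix.mul_assoc]
  rw [key, tau_mul hc, tau_mul hc, tau_up h, one_mul, tau_big _ hc, tau_big _ hc]

private theorem ext_empty (X : (Matrix M M Λ)ˣ) : ext (Equiv.sumEmpty M Empty) X = X :=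
  Units.ext rfl

private theorem of_inj (s : M ≃ M') (X Y : (Matrix M M Λ)ˣ)
    (h : tau M' (X : Matrix M M Λ) = tau M' (Y : Matrix M M Λ)) :
    Abelianization.of X = Abelianization.of Y := by
  have key : ∀ X : (Matrix M M Λ)ˣ, Abelianization.map (ext ((Equiv.sumEmpty M' Empty).trans s.symm))
      (tau M' (X : Matrix M M Λ)) = Abelianization.of X := by
    intro X
    rw [tau_eq ((Equiv.sumEmpty M Empty).trans s), Abelianization.map_of, ext_comp,
      of_ext _ (Equiv.sumEmpty M Empty), ext_empty]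
  rw [← key X, ← key Y, h]


variable {Q' : Type} [Ring Q'] (f : Q' →+* Λ)

/-- The image of an invertible matrix. -/
private def mp : (Matrix n n Q')ˣ →* (Matrix n n Λ)ˣ :=
  Units.map (f.mapMatrix : Matrix n n Q' →+* Matrix n n Λ).toMonoidHom

private theorem mp_val (B : (Matrix n n Q')ˣ) :
    (mp f B : Matrix n n Λ) = (B : Matrix n n Q').map f := rfl

private theorem mp_ext (e : n ⊕ k ≃ M) (B : (Matrix n n Q')ˣ) : mp f (ext e B) = ext e (mp f B) := by
  refine Units.ext ?_
  refine Matrix.ext fun a b => ?_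
  obtain ⟨x, rfl⟩ := e.surjective a
  obtain ⟨y, rfl⟩ := e.surjective b
  rw [ext_val, big_apply, mp_val, map_apply, ext_val, big_apply, mp_val]
  rcases x with x | x <;> rcases y with y | y
  · rfl
  · exact map_zero f
  · exact map_zero f
  · change f ((1 : Matrix k k Q') x y) = (1 : Matrix k k Λ) x y
    rw [one_apply, one_apply]
    split_ifs
    · exact map_one f
    · exact map_zero f

variable (Λ) in
/-- Sequences of classes in the abelianizations. -/
private abbrev Seq : Type := ∀ N : ℕ, Abelianization (Matrix (Fin N) (Fin N) Λ)ˣ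

private def S : Subgroup (Seq Λ) where
  carrier := {x | ∃ (k : ℕ) (B : (Matrix (Fin k) (Fin k) Q')ˣ) (N₀ : ℕ), ∀ N ≥ N₀,
    x N = tau (Fin N) (mp f B).val}
  mul_mem' := by
    rintro x y ⟨k, B, N₀, h⟩ ⟨k', B', N₁, h'⟩
    let e : Fin k ⊕ Fin k' ≃ Fin (k + k') := finSumFinEquiv
    let e' : Fin k' ⊕ Fin k ≃ Fin (k + k') := (Equiv.sumComm _ _).trans finSumFinEquiv
    refine ⟨k + k', ext e B * ext e' B', max (k + k') (max N₀ N₁), fun N hN => ?_⟩
    have h1 : k + k' ≤ N := (le_max_left _ _).trans hN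
    have h2 : N₀ ≤ N := ((le_max_left _ _).trans (le_max_right _ _)).trans hN
    have h3 : N₁ ≤ N := ((le_max_right _ _).trans (le_max_right _ _)).trans hN
    have h4 : Fintype.card (Fin (k + k')) ≤ Fintype.card (Fin N) := by simpa using h1
    have h5 : mp f (ext e B * ext e' B') = ext e (mp f B) * ext e' (mp f B') := by
      rw [← mp_ext, ← mp_ext, map_mul]
    rw [Pi.mul_apply, h N h2, h' N h3, h5, tau_mul h4, tau_big e h4, tau_big e' h4]
  one_mem' := by
    refine ⟨0, 1, 0, fun N _ => ?_⟩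
    have h1 : (mp f (1 : (Matrix (Fin 0) (Fin 0) Q')ˣ)).val = (1 : Matrix (Fin 0) (Fin 0) Λ) :=
      Subsingleton.elim _ _
    rw [h1, tau_one (by simp)]
    rfl
  inv_mem' := by
    rintro x ⟨k, B, N₀, h⟩
    refine ⟨k, B⁻¹, max k N₀, fun N hN => ?_⟩
    have h1 : k ≤ N := (le_max_left _ _).trans hN
    have h2 : N₀ ≤ N := (le_max_right _ _).trans hN
    have h3 : mp f B⁻¹ = (mp f B)⁻¹ := map_inv (mp f) B
    rw [Pi.inv_apply, h N h2, inv_eq_iff_mul_eq_one, h3, ← tau_mul (by simpa using h1),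
      mul_inv_cancel, Units.val_one, tau_one (by simpa using h1)]

private abbrev KK : Type := Seq Λ ⧸ S f

private theorem mk_eq {x y : Seq Λ} (N₀ : ℕ) (h : ∀ N ≥ N₀, x N = y N) :
    (QuotientGroup.mk x : KK f) = QuotientGroup.mk y := by
  rw [QuotientGroup.eq]
  refine ⟨0, 1, N₀, fun N hN => ?_⟩
  have h1 : (mp f (1 : (Matrix (Fin 0) (Fin 0) Q')ˣ)).val = (1 : Matrix (Fin 0) (Fin 0) Λ) :=
    Subsingleton.elim _ _
  rw [Pi.mul_apply, Pi.inv_apply, h N hN, inv_mul_cancel, h1, tau_one (by simp)]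

private noncomputable def kap : K1Fun Λ (KK f) where
  f A := QuotientGroup.mk fun N => tau (Fin N) A
  mul {n} _ _ A B hA hB := by
    rw [← QuotientGroup.mk_mul]
    refine mk_eq f (Fintype.card n) fun N hN => ?_
    obtain ⟨A, rfl⟩ := hA
    obtain ⟨B, rfl⟩ := hB
    exact tau_mul (by simpa using hN) A B
  reindex {n m} _ _ _ _ e A hA := by
    refine mk_eq f (Fintype.card m) fun N hN => ?_
    obtain ⟨A, rfl⟩ := hA
    exact tau_reindex e (by simpa using hN) A
  tri {n m} _ _ _ _ A B D hA hD := by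
    rw [← QuotientGroup.mk_mul]
    refine mk_eq f (Fintype.card n + 2 * Fintype.card m) fun N hN => ?_
    obtain ⟨A, rfl⟩ := hA
    obtain ⟨D, rfl⟩ := hD
    exact tau_tri (by simpa using hN) A B D

private theorem kap_kills (B : (Matrix n n Q')ˣ) : (kap f).f (mp f B).val = 1 := by
  have h1 : (kap f).f (ext ((Equiv.sumEmpty n Empty).trans (Fintype.equivFin n)) (mp f B)).val =
      (kap f).f (mp f B).val := (kap f).reindex (Fintype.equivFin n) _ (mp f B).isUnit
  rw [← h1, ← mp_ext]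
  change (QuotientGroup.mk _ : KK f) = 1
  rw [QuotientGroup.eq_one_iff]
  exact ⟨_, _, 0, fun N _ => rfl⟩

end General

end KTX

open KTX

theorem genK1_of_KT {Q' Q : Type} [Ring Q'] [Ring Q] (f : Q' →+* Q) (h : KT f) : GenK1 f := by
  intro n A
  have h1 := h (KK f) (kap f) (by
    rintro n _ _ _ ⟨B, rfl⟩
    exact kap_kills f B) (Fin n) _ A.isUnit
  change (QuotientGroup.mk _ : KK f) = 1 at h1
  rw [QuotientGroup.eq_one_iff] at h1
  obtain ⟨k, B, N₀, hN⟩ := h1
  have h2 : tau (Fin (n + (N₀ + k))) A.val = tau (Fin (n + (N₀ + k))) (mp f B).val :=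
    hN (n + (N₀ + k)) (by omega)
  have hc : Fintype.card (Fin n ⊕ Fin (N₀ + k)) ≤ Fintype.card (Fin (n + (N₀ + k))) := by
    simp
  obtain ⟨e⟩ : Nonempty (Fin k ⊕ Fin (n + N₀) ≃ Fin n ⊕ Fin (N₀ + k)) := by
    rw [← Fintype.card_eq]
    simp only [Fintype.card_sum, Fintype.card_fin]
    omega
  rw [← tau_big (Equiv.refl (Fin n ⊕ Fin (N₀ + k))) hc A, ← tau_big e hc (mp f B), ← mp_ext] at h2
  have h3 := of_inj finSumFinEquiv _ _ h2
  refine ⟨N₀ + k, ext e B, (mp f (ext e B))⁻¹ * ext (Equiv.refl (Fin n ⊕ Fin (N₀ + k))) A,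
    ?_, ?_⟩
  · have h4 : Abelianization.of ((mp f (ext e B))⁻¹ *
        ext (Equiv.refl (Fin n ⊕ Fin (N₀ + k))) A) = 1 := by
      rw [map_mul, map_inv, h3, inv_mul_cancel]
    exact (QuotientGroup.eq_one_iff _).1 h4
  · rw [← mp_val, ← Units.val_mul, mul_inv_cancel_left]
    rfl

end Pool.Agent.Hier
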