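import Pool.Agent.Lib.MP_8f66f0_al_Hier.Nil
import Pool.Agent.Lib.MP_8f66f0_al_HierZ.SpecZP

/-! The letter system of a family of subgroups: the tensor ring over `LL[G]` of the sum of the
bimodules `LL[G] ⊗_{D_s} LL[G] ⊗_{D_t} LL[G]`. -/

set_option autoImplicit false

namespace Pool.Agent.Hier

open Pool.Agent.Wald

section Coset
variable {G : Type} [Group G] (K : Subgroup G)

/-- Right multiplication on the right cosets. -/
noncomputable def pact (v : nV K.subtype) (h : G) : nV K.subtype :=
  nmk K.subtype (ns K.subtype v * h)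

/-- The cocycle of the right multiplication. -/
noncomputable def pco (v : nV K.subtype) (h : G) : K := nt K.subtype (ns K.subtype v * h)

theorem pco_spec (v : nV K.subtype) (h : G) :
    (pco K v h : G) * ns K.subtype (pact K v h) = ns K.subtype v * h :=
  nt_spec K.subtype (ns K.subtype v * h)

theorem pact_one (v : nV K.subtype) : pact K v 1 = v := by
  rw [pact, mul_one, nmk_ns]

theorem pco_one (v : nV K.subtype) : pco K v 1 = 1 := by
  rw [pco, mul_one, nt_ns K.subtype_injective]

theorem pact_mul (v : nV K.subtype) (h h' : G) :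
    pact K v (h * h') = pact K (pact K v h) h' := by
  have h1 : ns K.subtype v * (h * h') =
      K.subtype (pco K v h) * (ns K.subtype (pact K v h) * h') := by
    rw [← mul_assoc, ← pco_spec K v h, mul_assoc]
    rfl
  rw [pact, h1, nmk_mul]
  rfl

theorem pco_mul (v : nV K.subtype) (h h' : G) :
    pco K v (h * h') = pco K v h * pco K (pact K v h) h' := by
  have h1 : ns K.subtype v * (h * h') =
      K.subtype (pco K v h) * (ns K.subtype (pact K v h) * h') := by
    rw [← mul_assoc, ← pco_spec K v h, mul_assoc]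
    rfl
  rw [pco, h1, nt_mul K.subtype_injective]
  rfl

end Coset

section Fam
variable {LL : Type} [CommRing LL] {G : Type} [Group G] {ι : Type} (Ds : ι → Subgroup G)

/-- The letters. -/
abbrev PLet : Type := Σ p : ι × ι, nV (Ds p.1).subtype × nV (Ds p.2).subtype

variable {Ds}

/-- Right multiplication on the letters. -/
noncomputable def aact (a : PLet Ds) (h : G) : PLet Ds :=
  ⟨a.1, pact (Ds a.1.1) a.2.1 h, pact (Ds a.1.2) a.2.2 h⟩

theorem aact_one (a : PLet Ds) : aact a 1 = a := by
  obtain ⟨p, b, c⟩ := a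
  change (⟨p, pact _ b 1, pact _ c 1⟩ : PLet Ds) = _
  rw [pact_one, pact_one]

theorem aact_mul (a : PLet Ds) (h h' : G) : aact a (h * h') = aact (aact a h) h' := by
  obtain ⟨p, b, c⟩ := a
  change (⟨p, pact _ b (h * h'), pact _ c (h * h')⟩ : PLet Ds) = _
  rw [pact_mul, pact_mul]
  rfl

/-- The coefficients of the right multiplication, in the group algebra of `D_s`. -/
noncomputable def xm (a : PLet Ds) :
    MonoidAlgebra LL G →ₗ[LL] (PLet Ds →₀ MonoidAlgebra LL (Ds a.1.1)) :=
  (Finsupp.lsum LL fun h => (Finsupp.lsingle (aact a h)).comp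
    ((MonoidAlgebra.coeffLinearEquiv LL).symm.toLinearMap.comp
      (Finsupp.lsingle (pco (Ds a.1.1) a.2.1 h)))).comp
    (MonoidAlgebra.coeffLinearEquiv LL).toLinearMap

theorem xm_single (a : PLet Ds) (h : G) (r : LL) : xm a (MonoidAlgebra.single h r) =
    Finsupp.single (aact a h) (MonoidAlgebra.single (pco (Ds a.1.1) a.2.1 h) r) := by
  change Finsupp.lsum LL _ (Finsupp.single h r) = _
  rw [Finsupp.lsum_single]
  rfl

theorem xm_support (a : PLet Ds) (q : MonoidAlgebra LL G) : ∀ b ∈ (xm a q).support, b.1 = a.1 := by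
  classical
  induction q using MonoidAlgebra.induction_linear with
  | zero =>
    intro b hb
    rw [map_zero, Finsupp.support_zero] at hb
    exact absurd hb (Finset.notMem_empty _)
  | add q q' h h' =>
    intro b hb
    rw [map_add] at hb
    rcases Finset.mem_union.1 (Finsupp.support_add hb) with h1 | h1
    · exact h b h1
    · exact h' b h1
  | single h r =>
    intro b hb
    rw [xm_single] at hb
    have h1 := Finset.mem_singleton.1 (Finsupp.support_single_subset hb)
    rw [h1]
    rfl

/-- Right multiplication in coordinates. -/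
noncomputable def pm (a : PLet Ds) :
    MonoidAlgebra LL G →ₗ[LL] (PLet Ds →₀ MonoidAlgebra LL G) :=
  (Finsupp.mapRange.linearMap
    (MonoidAlgebra.mapDomainAlgHom LL LL (Ds a.1.1).subtype).toLinearMap).comp (xm a)

theorem pm_single (a : PLet Ds) (h : G) (r : LL) : pm a (MonoidAlgebra.single h r) =
    Finsupp.single (aact a h) (MonoidAlgebra.single (pco (Ds a.1.1) a.2.1 h : G) r) := by
  rw [pm, LinearMap.comp_apply, xm_single]
  rw [Finsupp.mapRange.linearMap_apply, Finsupp.mapRange_single]
  congr 1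
  exact MonoidAlgebra.mapDomain_single

/-- The letter system. -/
noncomputable def pLS : LS LL (MonoidAlgebra LL G) (PLet Ds) where
  c := fun _ => 0
  m := pm
  c_one := fun _ => rfl
  m_one := fun a => by
    change pm a (MonoidAlgebra.single 1 1) = _
    rw [pm_single, aact_one, pco_one]
    rfl
  c_mul := fun a q q' => by
    simp
  m_mul := fun a q q' => by
    induction q using MonoidAlgebra.induction_linear with
    | zero =>
      rw [zero_mul, map_zero]
      exact Finsupp.sum_zero_index.symm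
    | add q₁ q₂ h₁ h₂ =>
      rw [add_mul, map_add, map_add, h₁, h₂, Finsupp.sum_add_index']
      · intro b
        rw [zero_smul]
      · intro b r r'
        rw [add_smul]
    | single h r =>
      induction q' using MonoidAlgebra.induction_linear with
      | zero =>
        rw [mul_zero, map_zero]
        simp
      | add q₁ q₂ h₁ h₂ =>
        rw [mul_add, map_add, h₁, h₂, ← Finsupp.sum_add]
        refine Finsupp.sum_congr fun b _ => ?_
        rw [map_add, smul_add]
      | single h' r' =>
        rw [MonoidAlgebra.single_mul_single, pm_single, pm_single, Finsupp.sum_single_index,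
          pm_single, Finsupp.smul_single, smul_eq_mul, MonoidAlgebra.single_mul_single, aact_mul,
          pco_mul]
        · rfl
        · rw [zero_smul]

theorem gr_sub (K : Subgroup G) (r : MonoidAlgebra LL K) :
    gr LL ((MonoidAlgebra.of LL G).comp K.subtype) r =
      MonoidAlgebra.mapDomainAlgHom LL LL K.subtype r := by
  induction r using MonoidAlgebra.induction_linear with
  | zero => rw [map_zero, map_zero]
  | add x y hx hy => rw [map_add, map_add, hx, hy]
  | single k a =>
    have h1 : MonoidAlgebra.mapDomainAlgHom LL LL K.subtype (MonoidAlgebra.single k a) =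
        MonoidAlgebra.single (k : G) a := MonoidAlgebra.mapDomain_single
    rw [h1, MonoidAlgebra.lift_single]
    change a • MonoidAlgebra.single (k : G) (1 : LL) = _
    rw [MonoidAlgebra.smul_single, smul_eq_mul, mul_one]

theorem gr_of_id (x : MonoidAlgebra LL G) : gr LL (MonoidAlgebra.of LL G) x = x := by
  induction x using MonoidAlgebra.induction_linear with
  | zero => rw [map_zero]
  | add x y hx hy => rw [map_add, hx, hy]
  | single k a =>
    rw [MonoidAlgebra.lift_single]
    change a • MonoidAlgebra.single k (1 : LL) = _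
    rw [MonoidAlgebra.smul_single, smul_eq_mul, mul_one]

variable {T : Type} [Ring T] [Algebra LL T]

/-- `K_1` of the ring of the letter system is generated by `K_1(LL[G])`. -/
theorem kt_fam (hfam : S_fam) (hSL : ∀ s, SL LL (Ds s)) (f : MonoidAlgebra LL G →ₐ[LL] T)
    (ℓ : PLet Ds → T) (hrel : (pLS (LL := LL) (Ds := Ds)).Rel (f : MonoidAlgebra LL G →+* T) ℓ)
    (hfree : FreeW (f : MonoidAlgebra LL G →+* T) ℓ) : KT (f : MonoidAlgebra LL G →+* T) := by
  refine hfam (ι × ι) LL G (MonoidAlgebra LL G) T (PLet Ds) f (MonoidAlgebra.of LL G) ℓ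
    (fun a => a.1) (fun p => Ds p.1) ⟨LinearMap.id, fun x => gr_of_id x⟩ hfree ?_
    (fun p => hSL p.1)
  intro a q
  refine ⟨0, xm a q, xm_support a q, ?_⟩
  have h1 := hrel a q
  have h2 : (pLS (LL := LL) (Ds := Ds)).c a q = (0 : MonoidAlgebra LL G) := rfl
  rw [h2] at h1
  refine h1.trans ?_
  congr 1
  have h3 : (pLS (LL := LL) (Ds := Ds)).m a q = (xm a q).mapRange
      (MonoidAlgebra.mapDomainAlgHom LL LL (Ds a.1.1).subtype) (map_zero _) := rfl
  rw [h3, lin, Finsupp.sum_mapRange_index]
  · refine Finsupp.sum_congr fun b _ => ?_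
    rw [gr_sub]
    rfl
  · intro b
    rw [map_zero, zero_mul]

/-- The element `[x]`. -/
noncomputable def pJ (f : MonoidAlgebra LL G →ₐ[LL] T) (ℓ : PLet Ds → T) (s t : ι) (x : G) : T :=
  f (MonoidAlgebra.single ((nt (Ds s).subtype x : Ds s) : G) 1) *
    ℓ ⟨(s, t), nmk (Ds s).subtype x, nmk (Ds t).subtype 1⟩

theorem pJ_left (f : MonoidAlgebra LL G →ₐ[LL] T) (ℓ : PLet Ds → T) (s t : ι) (d : G)
    (hd : d ∈ Ds s) (x : G) :
    pJ f ℓ s t (d * x) = f (MonoidAlgebra.single d 1) * pJ f ℓ s t x := by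
  have h1 : nmk (Ds s).subtype (d * x) = nmk (Ds s).subtype x :=
    nmk_mul (Ds s).subtype ⟨d, hd⟩ x
  have h2 : nt (Ds s).subtype (d * x) = ⟨d, hd⟩ * nt (Ds s).subtype x :=
    nt_mul (Ds s).subtype_injective ⟨d, hd⟩ x
  have h3 : (MonoidAlgebra.single ((nt (Ds s).subtype (d * x) : Ds s) : G) (1 : LL)) =
      MonoidAlgebra.single d 1 * MonoidAlgebra.single ((nt (Ds s).subtype x : Ds s) : G) 1 := by
    rw [h2, MonoidAlgebra.single_mul_single, mul_one]
    rfl
  rw [pJ, pJ, h1, h3, map_mul, mul_assoc]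

theorem pJ_right (f : MonoidAlgebra LL G →ₐ[LL] T) (ℓ : PLet Ds → T)
    (hrel : (pLS (LL := LL) (Ds := Ds)).Rel (f : MonoidAlgebra LL G →+* T) ℓ) (s t : ι) (d : G)
    (hd : d ∈ Ds t) (x : G) :
    pJ f ℓ s t (x * d) = pJ f ℓ s t x * f (MonoidAlgebra.single d 1) := by
  obtain ⟨a, ha⟩ : ∃ a : PLet Ds, a = ⟨(s, t), nmk (Ds s).subtype x, nmk (Ds t).subtype 1⟩ :=
    ⟨_, rfl⟩
  have h1 := hrel a (MonoidAlgebra.single d 1)
  have h2 : (pLS (LL := LL) (Ds := Ds)).c a (MonoidAlgebra.single d 1) =
    (0 : MonoidAlgebra LL G) := rfl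
  have h3 : (pLS (LL := LL) (Ds := Ds)).m a (MonoidAlgebra.single d 1) =
    Finsupp.single (aact a d) (MonoidAlgebra.single (pco (Ds a.1.1) a.2.1 d : G) 1) :=
    pm_single a d 1
  have h4 : lin (f : MonoidAlgebra LL G →+* T) ℓ ((pLS (LL := LL) (Ds := Ds)).m a
      (MonoidAlgebra.single d 1)) =
      f (MonoidAlgebra.single (pco (Ds a.1.1) a.2.1 d : G) 1) * ℓ (aact a d) := by
    rw [h3, lin, Finsupp.sum_single_index]
    · rfl
    · rw [map_zero, zero_mul]
  rw [h2, map_zero, zero_add, h4] at h1
  have h5 : ℓ a * f (MonoidAlgebra.single d 1) =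
      f (MonoidAlgebra.single (pco (Ds a.1.1) a.2.1 d : G) 1) * ℓ (aact a d) := h1
  have h6 : pJ f ℓ s t x = f (MonoidAlgebra.single ((nt (Ds s).subtype x : Ds s) : G) 1) * ℓ a := by
    rw [ha]
    rfl
  have h7 : x * d = (Ds s).subtype (nt (Ds s).subtype x) *
      (ns (Ds s).subtype (nmk (Ds s).subtype x) * d) := by
    rw [← mul_assoc, nt_spec]
  have h8 : nmk (Ds s).subtype (x * d) = pact (Ds s) (nmk (Ds s).subtype x) d := by
    rw [h7, nmk_mul]
    rfl
  have h9 : nt (Ds s).subtype (x * d) =
      nt (Ds s).subtype x * pco (Ds s) (nmk (Ds s).subtype x) d := by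
    rw [h7, nt_mul (Ds s).subtype_injective]
    rfl
  have h10 : pact (Ds t) (nmk (Ds t).subtype 1) d = nmk (Ds t).subtype 1 := by
    have e1 := nt_spec (Ds t).subtype 1
    have e2 : ns (Ds t).subtype (nmk (Ds t).subtype 1) * d =
        (Ds t).subtype ((nt (Ds t).subtype 1)⁻¹ * ⟨d, hd⟩) * 1 := by
      rw [mul_one, map_mul, map_inv]
      congr 1
      exact eq_inv_of_mul_eq_one_right e1
    rw [pact, e2, nmk_mul]
  rw [h6, mul_assoc, h5, ← mul_assoc, ← map_mul, MonoidAlgebra.single_mul_single, mul_one, pJ, h8,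
    h9, ha]
  congr 2
  change (⟨(s, t), pact (Ds s) (nmk (Ds s).subtype x) d, nmk (Ds t).subtype 1⟩ : PLet Ds) =
    ⟨(s, t), pact (Ds s) (nmk (Ds s).subtype x) d, pact (Ds t) (nmk (Ds t).subtype 1) d⟩
  rw [h10]

/-- The projection to the group algebra. -/
theorem exists_mu (f : MonoidAlgebra LL G →ₐ[LL] T) (ℓ : PLet Ds → T)
    (hrel : (pLS (LL := LL) (Ds := Ds)).Rel (f : MonoidAlgebra LL G →+* T) ℓ)
    (hfree : FreeW (f : MonoidAlgebra LL G →+* T) ℓ) :
    ∃ μ : T →ₐ[LL] MonoidAlgebra LL G, (∀ q, μ (f q) = q) ∧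
      ∀ s t x, μ (pJ f ℓ s t x) = MonoidAlgebra.single x 1 := by
  obtain ⟨μ, h1, h2, -⟩ := lift LL (MonoidAlgebra LL G) (PLet Ds) T (MonoidAlgebra LL G) pLS f ℓ
    (AlgHom.id LL _) (fun a => MonoidAlgebra.single (ns (Ds a.1.1).subtype a.2.1) 1) hrel hfree (by
      intro a q
      have h3 : (pLS (LL := LL) (Ds := Ds)).c a q = (0 : MonoidAlgebra LL G) := rfl
      have h4 : (pLS (LL := LL) (Ds := Ds)).m a q = pm a q := rfl
      rw [h3, map_zero, zero_add, h4]
      induction q using MonoidAlgebra.induction_linear with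
      | zero =>
        rw [map_zero, map_zero, mul_zero]
        exact Finsupp.sum_zero_index.symm
      | add q q' h h' =>
        rw [map_add, map_add, mul_add, h rfl rfl, h' rfl rfl, lin, lin, lin,
          Finsupp.sum_add_index']
        · intro b
          rw [map_zero, zero_mul]
        · intro b r r'
          rw [map_add, add_mul]
      | single h r =>
        rw [pm_single, lin, Finsupp.sum_single_index]
        · change MonoidAlgebra.single _ 1 * MonoidAlgebra.single h r =
            MonoidAlgebra.single _ r * MonoidAlgebra.single _ 1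
          rw [MonoidAlgebra.single_mul_single, MonoidAlgebra.single_mul_single, one_mul, mul_one]
          congr 1
          exact (pco_spec _ _ _).symm
        · rw [map_zero, zero_mul])
  refine ⟨μ, h1, fun s t x => ?_⟩
  rw [pJ, map_mul, h1, h2]
  change MonoidAlgebra.single _ 1 * MonoidAlgebra.single _ 1 = _
  rw [MonoidAlgebra.single_mul_single, mul_one]
  congr 1
  exact nt_spec (Ds s).subtype x

/-- The augmentation. -/
theorem exists_au (f : MonoidAlgebra LL G →ₐ[LL] T) (ℓ : PLet Ds → T)
    (hrel : (pLS (LL := LL) (Ds := Ds)).Rel (f : MonoidAlgebra LL G →+* T) ℓ)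
    (hfree : FreeW (f : MonoidAlgebra LL G →+* T) ℓ) :
    ∃ au : T →ₐ[LL] MonoidAlgebra LL G, (∀ q, au (f q) = q) ∧
      ∀ s t x, au (pJ f ℓ s t x) = 0 := by
  obtain ⟨au, h1, h2, -⟩ := lift LL (MonoidAlgebra LL G) (PLet Ds) T (MonoidAlgebra LL G) pLS f ℓ
    (AlgHom.id LL _) (fun _ => 0) hrel hfree (by
      intro a q
      have h3 : (pLS (LL := LL) (Ds := Ds)).c a q = (0 : MonoidAlgebra LL G) := rfl
      rw [h3, map_zero, zero_add, zero_mul, lin]
      exact (Finset.sum_eq_zero fun i _ => mul_zero _).symm)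
  refine ⟨au, h1, fun s t x => ?_⟩
  rw [pJ, map_mul, h2, mul_zero]

end Fam

end Pool.Agent.Hier
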