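import Pool.Agent.Lib.MP_8f66f0_al_Hier.KTX
import Pool.Agent.Lib.MP_8f66f0_al_Hier.PathA

/-! The polynomial ring over a group algebra as an example of Land-Tamme data. -/

set_option autoImplicit false

namespace Pool.Agent.Hier

open Pool.Agent.Wald Polynomial

variable {LL E : Type} [CommRing LL] [Group E]

private theorem nkp_wd (u : List Unit) :
    wd (fun _ : Unit => (X : (MonoidAlgebra LL E)[X])) u = X ^ u.length := by
  induction u with
  | nil => rfl
  | cons a u ih => rw [wd, ih, List.length_cons, pow_succ]

private theorem nkp_coeff (x : List Unit →₀ MonoidAlgebra LL E) (n : ℕ) :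
    (ev ((CAlgHom : MonoidAlgebra LL E →ₐ[LL] (MonoidAlgebra LL E)[X]) :
      MonoidAlgebra LL E →+* (MonoidAlgebra LL E)[X]) (fun _ : Unit => X) x).coeff n =
      x (List.replicate n ()) := by
  induction x using Finsupp.induction_linear with
  | zero =>
    rw [ev, Finsupp.sum_zero_index]
    rfl
  | add x y hx hy =>
    rw [Finsupp.add_apply, ← hx, ← hy, ← coeff_add]
    congr 1
    rw [ev, Finsupp.sum_add_index']
    · rfl
    · intro u
      rw [map_zero, zero_mul]
    · intro u a b
      rw [map_add, add_mul]
  | single u a =>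
    rw [ev, Finsupp.sum_single_index]
    · rw [nkp_wd]
      change (C a * X ^ u.length).coeff n = _
      rw [coeff_C_mul_X_pow]
      have hu : u = List.replicate u.length () := by
        rw [List.eq_replicate_iff]
        exact ⟨rfl, fun b _ => rfl⟩
      by_cases h : n = u.length
      · rw [if_pos h, h, ← hu, Finsupp.single_eq_same]
      · rw [if_neg h, Finsupp.single_eq_of_ne]
        intro h'
        apply h
        rw [← h', List.length_replicate]
    · rw [map_zero, zero_mul]

/-- The polynomial ring `LL[E][x]`. -/
theorem isLT_poly : IsLT LL (CAlgHom : MonoidAlgebra LL E →ₐ[LL] (MonoidAlgebra LL E)[X])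
    (MonoidAlgebra.of LL E) (fun _ : Unit => (X : (MonoidAlgebra LL E)[X])) := by
  refine ⟨⟨?_, ?_⟩, ?_, LinearMap.id, fun x => gr_of_id x⟩
  · intro x y hxy
    refine Finsupp.ext fun u => ?_
    have hu : u = List.replicate u.length () := by
      rw [List.eq_replicate_iff]
      exact ⟨rfl, fun b _ => rfl⟩
    rw [hu, ← nkp_coeff, ← nkp_coeff, hxy]
  · intro p
    refine ⟨p.toFinsupp.coeff.embDomain ⟨fun n => List.replicate n (), fun m n h => ?_⟩, ?_⟩
    · have h1 := congrArg List.length h
      rwa [List.length_replicate, List.length_replicate] at h1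
    · refine Polynomial.ext fun n => ?_
      rw [nkp_coeff]
      exact Finsupp.embDomain_apply_self _ _ _
  · intro _ q
    refine ⟨0, Finsupp.single () q, ?_⟩
    rw [Finsupp.sum_single_index]
    · rw [gr_of_id, map_zero, zero_add]
      change X * C q = C q * X
      rw [X_mul_C]
    · rw [map_zero, map_zero, zero_mul]

/-- `NK_1` of the group algebra vanishes. -/
theorem nk_poly (h : SL LL E) :
    GenK1 (C : MonoidAlgebra LL E →+* (MonoidAlgebra LL E)[X]) :=
  genK1_of_KT _ (h _ _ _ _ _ _ isLT_poly)

end Pool.Agent.Hier
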