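import Pool.Agent.Lib.MP_8f66f0_al_Hier.Constr
import Pool.Agent.Lib.MP_8f66f0_al_Hier.Lift
import Pool.Agent.Lib.MP_8f66f0_al_WaldL.NilV

/-! The letter system of the bimodule `LL[G]` over `LL[E]`. -/

set_option autoImplicit false

namespace Pool.Agent.Hier

open Pool.Agent.Wald Pool.Agent.Ind

section Nil
variable {LL : Type} [CommRing LL] {E G : Type} [Group E] [Group G] (φ : E →* G)

/-- Right cosets of the image. -/
abbrev nV : Type := Quotient (QuotientGroup.rightRel φ.range)

/-- The coset of `g`. -/
def nmk (g : G) : nV φ := Quotient.mk _ g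

/-- A representative. -/
noncomputable def ns (v : nV φ) : G := v.out

theorem nmk_ns (v : nV φ) : nmk φ (ns φ v) = v := Quotient.out_eq v

theorem nmk_mul (e : E) (g : G) : nmk φ (φ e * g) = nmk φ g := by
  refine Quotient.sound ?_
  change QuotientGroup.rightRel φ.range (φ e * g) g
  rw [QuotientGroup.rightRel_apply]
  exact ⟨e⁻¹, by rw [map_inv]; group⟩

theorem ns_spec (g : G) : ∃ e : E, φ e * ns φ (nmk φ g) = g := by
  have h : QuotientGroup.rightRel φ.range (ns φ (nmk φ g)) g :=
    Quotient.exact (nmk_ns φ (nmk φ g))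
  rw [QuotientGroup.rightRel_apply] at h
  obtain ⟨e, he⟩ := h
  exact ⟨e, by rw [he]; group⟩

/-- The component of `g` in `E`. -/
noncomputable def nt (g : G) : E := (ns_spec φ g).choose

theorem nt_spec (g : G) : φ (nt φ g) * ns φ (nmk φ g) = g := (ns_spec φ g).choose_spec

variable {φ} in
theorem nt_mul (hφ : Function.Injective φ) (e : E) (g : G) :
    nt φ (φ e * g) = e * nt φ g := by
  apply hφ
  have h1 := nt_spec φ (φ e * g)
  have h2 := nt_spec φ g
  rw [nmk_mul] at h1
  rw [map_mul]
  have h3 : φ (nt φ (φ e * g)) = φ e * g * (ns φ (nmk φ g))⁻¹ :=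
    eq_mul_inv_of_mul_eq h1
  rw [h3]
  have h4 : φ (nt φ g) = g * (ns φ (nmk φ g))⁻¹ := by
    rw [← eq_mul_inv_iff_mul_eq] at h2
    exact h2
  rw [h4, mul_assoc]

variable {φ} in
theorem nt_ns (hφ : Function.Injective φ) (v : nV φ) : nt φ (ns φ v) = 1 := by
  apply hφ
  have h1 := nt_spec φ (ns φ v)
  rw [nmk_ns] at h1
  rw [map_one]
  exact mul_eq_right.1 h1

/-- The components of an element of `LL[G]` in the cosets of `E`. -/
noncomputable def nJ : MonoidAlgebra LL G →ₗ[LL] (nV φ →₀ MonoidAlgebra LL E) :=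
  (Finsupp.lsum LL fun g => (Finsupp.lsingle (nmk φ g)).comp
    ((MonoidAlgebra.coeffLinearEquiv LL).symm.toLinearMap.comp
      (Finsupp.lsingle (nt φ g)))).comp
    (MonoidAlgebra.coeffLinearEquiv LL).toLinearMap

theorem nJ_single (g : G) (a : LL) : nJ φ (MonoidAlgebra.single g a) =
    Finsupp.single (nmk φ g) (MonoidAlgebra.single (nt φ g) a) := by
  change Finsupp.lsum LL _ (Finsupp.single g a) = _
  rw [Finsupp.lsum_single]
  rfl

variable {φ} in
theorem nJ_left (hφ : Function.Injective φ) (r : MonoidAlgebra LL E) (x : MonoidAlgebra LL G) :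
    nJ φ (WaldL.inc φ r * x) = r • nJ φ x := by
  induction r using MonoidAlgebra.induction_linear with
  | zero => rw [map_zero, zero_mul, map_zero, zero_smul]
  | add r r' h h' => rw [map_add, add_mul, map_add, h, h', add_smul]
  | single e b =>
    induction x using MonoidAlgebra.induction_linear with
    | zero => rw [mul_zero, map_zero, smul_zero]
    | add x x' h h' => rw [mul_add, map_add, h, h', map_add, smul_add]
    | single g a =>
      have h1 : WaldL.inc φ (MonoidAlgebra.single e b) = MonoidAlgebra.single (φ e) b :=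
        MonoidAlgebra.mapDomain_single
      rw [h1, MonoidAlgebra.single_mul_single, nJ_single, nJ_single, nmk_mul, nt_mul hφ,
        Finsupp.smul_single, smul_eq_mul, MonoidAlgebra.single_mul_single]

/-- The element of `LL[G]` with the given components. -/
noncomputable def nJi (x : nV φ →₀ MonoidAlgebra LL E) : MonoidAlgebra LL G :=
  x.sum fun v r => WaldL.inc φ r * MonoidAlgebra.single (ns φ v) (1 : LL)

theorem nJi_nJ (x : MonoidAlgebra LL G) : nJi φ (nJ φ x) = x := by
  induction x using MonoidAlgebra.induction_linear with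
  | zero =>
    rw [map_zero]
    exact Finsupp.sum_zero_index
  | add x x' h h' =>
    rw [map_add, nJi, Finsupp.sum_add_index', ← nJi, ← nJi, h, h']
    · intro v
      rw [map_zero, zero_mul]
    · intro v r r'
      rw [map_add, add_mul]
  | single g a =>
    rw [nJ_single, nJi, Finsupp.sum_single_index]
    · have h1 : WaldL.inc φ (MonoidAlgebra.single (nt φ g) a) =
          MonoidAlgebra.single (φ (nt φ g)) a := MonoidAlgebra.mapDomain_single
      rw [h1, MonoidAlgebra.single_mul_single, nt_spec, mul_one]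
    · rw [map_zero, zero_mul]

/-- Right multiplication by `LL[E]` in coordinates. -/
noncomputable def nm (v : nV φ) : MonoidAlgebra LL E →ₗ[LL] (nV φ →₀ MonoidAlgebra LL E) where
  toFun q := nJ φ (MonoidAlgebra.single (ns φ v) 1 * WaldL.inc φ q)
  map_add' q q' := by rw [map_add, mul_add, map_add]
  map_smul' a q := by
    have h1 : WaldL.inc φ (a • q) = a • WaldL.inc φ q := by
      exact MonoidAlgebra.mapDomain_smul _ _ _
    rw [h1, mul_smul_comm, map_smul, RingHom.id_apply]

variable {φ} in
theorem nJ_mul_sum (hφ : Function.Injective φ) (x y : MonoidAlgebra LL G) :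
    nJ φ (x * y) = (nJ φ x).sum fun v r => r • nJ φ (MonoidAlgebra.single (ns φ v) 1 * y) := by
  conv_lhs => rw [← nJi_nJ φ x]
  rw [nJi, Finsupp.sum_mul, map_finsuppSum]
  refine Finsupp.sum_congr fun v _ => ?_
  rw [mul_assoc, nJ_left hφ]

variable {φ} in
/-- The letter system. -/
noncomputable def nLS (hφ : Function.Injective φ) : LS LL (MonoidAlgebra LL E) (nV φ) where
  c := fun _ => 0
  m := nm φ
  c_one := fun _ => rfl
  m_one := fun v => by
    change nJ φ (MonoidAlgebra.single (ns φ v) 1 * WaldL.inc φ 1) = _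
    rw [map_one, mul_one, nJ_single, nmk_ns, nt_ns hφ]
    rfl
  c_mul := fun a q q' => by
    simp
  m_mul := fun a q q' => by
    change nJ φ (MonoidAlgebra.single (ns φ a) 1 * WaldL.inc φ (q * q')) = _
    rw [map_mul (WaldL.inc φ), ← mul_assoc, nJ_mul_sum hφ]
    rfl

end Nil

end Pool.Agent.Hier
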