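import Pool.Agent.Lib.MP_8f66f0_al_Hier.PathA
import Pool.Agent.Lib.MP_8f66f0_al_WaldP.FamPath

/-! Nilpotent matrices over path systems whose stabilizers are contained in subgroups with the
property `SL`. -/

set_option autoImplicit false

namespace Pool.Agent.Hier

open Pool.Agent.Wald Pool.Agent.WaldP Matrix

section JJ
variable {LL : Type} [CommRing LL] {G : Type} [Group G] {ι : Type} {Ds : ι → Subgroup G}
  {T : Type} [Ring T] [Algebra LL T]

/-- The linear extension of a function on the group. -/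
noncomputable def plin (F : G → T) : MonoidAlgebra LL G →ₗ[LL] T :=
  (Finsupp.lsum LL fun g => LinearMap.toSpanSingleton LL T (F g)).comp
    (MonoidAlgebra.coeffLinearEquiv LL).toLinearMap

theorem plin_single (F : G → T) (g : G) (r : LL) :
    plin F (MonoidAlgebra.single g r) = r • F g := by
  change Finsupp.lsum LL _ (Finsupp.single g r) = _
  rw [Finsupp.lsum_single]
  rfl

open Classical in
/-- The images of the products of `i` elements. -/
noncomputable def pJJ (S : PSys G ι) (f : MonoidAlgebra LL G →ₐ[LL] T) (ℓ : PLet Ds → T) :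
    ℕ → ι → ι → G → T
  | 0, _, _, g => f (MonoidAlgebra.single g 1)
  | i + 1, s, t, g =>
    if h : ∃ p : ι × G × G, p.2.1 ∈ S.X s p.1 ∧ p.2.2 ∈ PY S.D S.X i p.1 t ∧ g = p.2.1 * p.2.2 then
      pJ f ℓ s (Classical.choose h).1 (Classical.choose h).2.1 *
        pJJ S f ℓ i (Classical.choose h).1 t (Classical.choose h).2.2
    else 0

theorem pJJ_mul (S : PSys G ι) (hle : ∀ t, S.D t ≤ Ds t) (f : MonoidAlgebra LL G →ₐ[LL] T)
    (ℓ : PLet Ds → T)
    (hrel : (pLS (LL := LL) (Ds := Ds)).Rel (f : MonoidAlgebra LL G →+* T) ℓ) (i : ℕ) :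
    (∀ r t, ∀ d ∈ S.D r, ∀ k ∈ PY S.D S.X i r t,
      pJJ S f ℓ i r t (d * k) = f (MonoidAlgebra.single d 1) * pJJ S f ℓ i r t k) ∧
    ∀ s r t, ∀ u ∈ S.X s r, ∀ k ∈ PY S.D S.X i r t,
      pJJ S f ℓ (i + 1) s t (u * k) = pJ f ℓ s r u * pJJ S f ℓ i r t k := by
  have key : ∀ i, (∀ r t, ∀ d ∈ S.D r, ∀ k ∈ PY S.D S.X i r t,
      pJJ S f ℓ i r t (d * k) = f (MonoidAlgebra.single d 1) * pJJ S f ℓ i r t k) →
      ∀ s r t, ∀ u ∈ S.X s r, ∀ k ∈ PY S.D S.X i r t,
      pJJ S f ℓ (i + 1) s t (u * k) = pJ f ℓ s r u * pJJ S f ℓ i r t k := by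
    intro i hL s r t u hu k hk
    have h : ∃ p : ι × G × G, p.2.1 ∈ S.X s p.1 ∧ p.2.2 ∈ PY S.D S.X i p.1 t ∧
        u * k = p.2.1 * p.2.2 := ⟨(r, u, k), hu, hk, rfl⟩
    have e0 : pJJ S f ℓ (i + 1) s t (u * k) =
        pJ f ℓ s (Classical.choose h).1 (Classical.choose h).2.1 *
          pJJ S f ℓ i (Classical.choose h).1 t (Classical.choose h).2.2 := by
      rw [pJJ, dif_pos h]
    rw [e0]
    obtain ⟨h1, h2, h3⟩ := Classical.choose_spec h
    obtain ⟨p, hp⟩ : ∃ p, p = Classical.choose h := ⟨_, rfl⟩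
    rw [← hp] at h1 h2 h3 ⊢
    obtain ⟨r', u', k'⟩ := p
    dsimp only at h1 h2 h3 ⊢
    obtain ⟨h4, h5⟩ := S.uniq i s r s r' t u hu u' h1 k hk k' h2 h3
    subst h4
    have h6 : u' = u * (u⁻¹ * u') := by group
    have h7 : k = (u⁻¹ * u') * k' := by
      rw [mul_assoc, ← h3]
      group
    have h8 := pJ_right f ℓ hrel s r (u⁻¹ * u') (hle r h5) u
    rw [← h6] at h8
    have h9 := hL r t (u⁻¹ * u') h5 k' h2
    rw [← h7] at h9
    rw [h8, h9, mul_assoc]
  induction i with
  | zero =>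
    have h0 : ∀ r t, ∀ d ∈ S.D r, ∀ k ∈ PY S.D S.X 0 r t,
        pJJ S f ℓ 0 r t (d * k) = f (MonoidAlgebra.single d 1) * pJJ S f ℓ 0 r t k := by
      intro r t d _ k _
      rw [pJJ, pJJ, ← map_mul, MonoidAlgebra.single_mul_single, mul_one]
    exact ⟨h0, key 0 h0⟩
  | succ i ih =>
    have h0 : ∀ r t, ∀ d ∈ S.D r, ∀ k ∈ PY S.D S.X (i + 1) r t,
        pJJ S f ℓ (i + 1) r t (d * k) =
          f (MonoidAlgebra.single d 1) * pJJ S f ℓ (i + 1) r t k := by
      rintro r t d hd k ⟨q, u, hu, k', hk', rfl⟩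
      rw [ih.2 r q t u hu k' hk', ← mul_assoc, ih.2 r q t (d * u) (S.left _ _ d hd u hu) k' hk',
        pJ_left f ℓ r q d (hle r hd) u, mul_assoc]
    exact ⟨h0, key (i + 1) h0⟩

theorem plin_mul (S : PSys G ι) (hle : ∀ t, S.D t ≤ Ds t) (f : MonoidAlgebra LL G →ₐ[LL] T)
    (ℓ : PLet Ds → T)
    (hrel : (pLS (LL := LL) (Ds := Ds)).Rel (f : MonoidAlgebra LL G →+* T) ℓ) (i : ℕ)
    (s r t : ι) {y z : MonoidAlgebra LL G} (hy : WaldL.SuppIn (S.X s r) y)
    (hz : WaldL.SuppIn (PY S.D S.X i r t) z) :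
    plin (pJJ S f ℓ (i + 1) s t) (y * z) = plin (pJ f ℓ s r) y * plin (pJJ S f ℓ i r t) z := by
  refine hy.induction (p := fun y => plin (pJJ S f ℓ (i + 1) s t) (y * z) =
    plin (pJ f ℓ s r) y * plin (pJJ S f ℓ i r t) z) ?_ ?_ ?_
  · rw [zero_mul, map_zero, map_zero, zero_mul]
  · intro y y' h1 h2
    rw [add_mul, map_add, map_add, add_mul, h1, h2]
  · intro u hu a
    refine hz.induction (p := fun z => plin (pJJ S f ℓ (i + 1) s t)
      (MonoidAlgebra.single u a * z) = plin (pJ f ℓ s r) (MonoidAlgebra.single u a) *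
        plin (pJJ S f ℓ i r t) z) ?_ ?_ ?_
    · rw [mul_zero, map_zero, map_zero, mul_zero]
    · intro z z' h1 h2
      rw [mul_add, map_add, map_add, mul_add, h1, h2]
    · intro k hk b
      rw [MonoidAlgebra.single_mul_single, plin_single, plin_single, plin_single,
        (pJJ_mul S hle f ℓ hrel i).2 s r t u hu k hk, smul_mul_smul_comm]

theorem plin_pow (S : PSys G ι) (hle : ∀ t, S.D t ≤ Ds t) (f : MonoidAlgebra LL G →ₐ[LL] T)
    (ℓ : PLet Ds → T)
    (hrel : (pLS (LL := LL) (Ds := Ds)).Rel (f : MonoidAlgebra LL G →+* T) ℓ) {I : Type}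
    [Fintype I] [DecidableEq I] {ty : I → ι} (N : PNil LL S I ty) (i : ℕ) :
    ∀ a b, ((Matrix.of fun a b => plin (pJ f ℓ (ty a) (ty b)) (N.ν a b) : Matrix I I T) ^ i) a b =
      plin (pJJ S f ℓ i (ty a) (ty b)) ((N.ν ^ i) a b) := by
  induction i with
  | zero =>
    intro a b
    rw [pow_zero, pow_zero, Matrix.one_apply, Matrix.one_apply]
    by_cases h : a = b
    · rw [if_pos h, if_pos h]
      have h1 : (1 : MonoidAlgebra LL G) = MonoidAlgebra.single 1 1 := rfl
      rw [h1, plin_single, one_smul, pJJ, ← h1, map_one]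
    · rw [if_neg h, if_neg h, map_zero]
  | succ i ih =>
    intro a b
    rw [pow_succ', pow_succ', Matrix.mul_apply, Matrix.mul_apply, map_sum]
    refine Finset.sum_congr rfl fun c _ => ?_
    rw [ih c b, plin_mul S hle f ℓ hrel i (ty a) (ty c) (ty b) (N.supp a c) (N.pow_supp i c b)]
    rfl

/-- Vanishing over a path system whose stabilizers are contained in subgroups with the property
`SL`. -/
theorem vanish_sl (hfam : S_fam) (S : PSys G ι) (hle : ∀ t, S.D t ≤ Ds t)
    (hSL : ∀ s, SL LL (Ds s)) {I : Type} [Fintype I] [DecidableEq I] {ty : I → ι}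
    (N : PNil LL S I ty) {K : Type} [CommGroup K] (κ : K1Fun (MonoidAlgebra LL G) K) :
    κ.f (1 - N.ν) = 1 := by
  obtain ⟨T, _, _, f, ℓ, hrel, hfree⟩ := con LL (MonoidAlgebra LL G) (PLet Ds) pLS
  obtain ⟨μ, hμf, hμJ⟩ := exists_mu f ℓ hrel hfree
  obtain ⟨au, hauf, hauJ⟩ := exists_au f ℓ hrel hfree
  have hKT := kt_fam hfam hSL f ℓ hrel hfree
  obtain ⟨M, hM⟩ : ∃ M : Matrix I I T, M =
      Matrix.of fun a b => plin (pJ f ℓ (ty a) (ty b)) (N.ν a b) := ⟨_, rfl⟩
  have hpow := plin_pow S hle f ℓ hrel N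
  rw [← hM] at hpow
  have hMm : M ^ N.m = 0 := by
    ext a b
    rw [hpow, N.pow, Matrix.zero_apply, map_zero, Matrix.zero_apply]
  have hunit : IsUnit (1 - M) := IsNilpotent.isUnit_one_sub ⟨N.m, hMm⟩
  have hμ : ∀ s t (y : MonoidAlgebra LL G), μ (plin (pJ f ℓ s t) y) = y := by
    intro s t y
    induction y using MonoidAlgebra.induction_linear with
    | zero => rw [map_zero, map_zero]
    | add x y hx hy => rw [map_add, map_add, hx, hy]
    | single g r =>
      rw [plin_single, map_smul, hμJ, MonoidAlgebra.smul_single, smul_eq_mul, mul_one]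
  have hau : ∀ s t (y : MonoidAlgebra LL G), au (plin (pJ f ℓ s t) y) = 0 := by
    intro s t y
    induction y using MonoidAlgebra.induction_linear with
    | zero => rw [map_zero, map_zero]
    | add x y hx hy => rw [map_add, map_add, hx, hy, add_zero]
    | single g r => rw [plin_single, map_smul, hauJ, smul_zero]
  have h1 := kt_retract (f : MonoidAlgebra LL G →+* T) (au : T →+* MonoidAlgebra LL G)
    (fun q => hauf q) hKT (nPull (μ : T →+* MonoidAlgebra LL G) κ) (1 - M) hunit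
  have h2 : (1 - M).map (au : T →+* MonoidAlgebra LL G) = 1 := by
    rw [Matrix.map_sub _ (fun a b => map_sub _ a b), Matrix.map_one _ (map_zero _) (map_one _),
      sub_eq_self]
    apply Matrix.ext
    intro a b
    rw [hM]
    exact hau _ _ _
  have h3 : (1 - M).map (μ : T →+* MonoidAlgebra LL G) = 1 - N.ν := by
    rw [Matrix.map_sub _ (fun a b => map_sub _ a b), Matrix.map_one _ (map_zero _) (map_one _)]
    congr 1
    apply Matrix.ext
    intro a b
    rw [hM]
    exact hμ _ _ _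
  rw [h2, Matrix.map_one _ (map_zero _) (map_one _), K1Fun.f_one] at h1
  have h4 : κ.f ((1 - M).map (μ : T →+* MonoidAlgebra LL G)) = 1 := h1
  rw [h3] at h4
  exact h4

end JJ

section Restrict
variable {LL : Type} [CommRing LL] {G : Type} [Group G] {T : Type}

/-- The restriction of a path system to a set of types. -/
def psRes (S : PSys G T) (R : Set T) : PSys G R where
  D := fun t => S.D t
  X := fun s t => S.X s t
  left := fun s t => S.left s t
  right := fun s t => S.right s t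
  uniq := by
    have hPY : ∀ (i : ℕ) (s t : R) (g : G), g ∈ PY (fun t : R => S.D t) (fun s t : R => S.X s t)
        i s t → g ∈ PY S.D S.X i s t := by
      intro i
      induction i with
      | zero =>
        rintro s t g ⟨h1, h2⟩
        exact ⟨congrArg Subtype.val h1, h2⟩
      | succ i ih =>
        rintro s t g ⟨r, u, hu, h, hh, rfl⟩
        exact ⟨r, u, hu, h, ih r t h hh, rfl⟩
    intro i s t s' t' l u hu u' hu' h hh h' hh' e
    obtain ⟨h1, h2⟩ := S.uniq i s t s' t' l u hu u' hu' h (hPY i t l h hh) h' (hPY i t' l h' hh') e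
    exact ⟨Subtype.ext h1, h2⟩

/-- `K` is contained in a subgroup with the property `SL`. -/
def SubS (LL : Type) [CommRing LL] (K : Subgroup G) : Prop :=
  ∃ D : Subgroup G, K ≤ D ∧ SL LL D

theorem SubS.mono {K K' : Subgroup G} (h : SubS LL K) (hle : K' ≤ K) : SubS LL K' := by
  obtain ⟨D, h1, h2⟩ := h
  exact ⟨D, hle.trans h1, h2⟩

/-- Vanishing over a path system, for the types of the rows only. -/
theorem vanish_sub (hfam : S_fam) {S : PSys G T} {I : Type} [Fintype I] [DecidableEq I]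
    {ty : I → T} (N : PNil LL S I ty) (hD : ∀ a, SubS LL (S.D (ty a))) {K : Type} [CommGroup K]
    (κ : K1Fun (MonoidAlgebra LL G) K) : κ.f (1 - N.ν) = 1 := by
  have h1 : ∀ t : Set.range ty, ∃ D : Subgroup G, (psRes S (Set.range ty)).D t ≤ D ∧ SL LL D := by
    rintro ⟨_, a, rfl⟩
    exact hD a
  choose Ds hle hSL using h1
  let N' : PNil LL (psRes S (Set.range ty)) I (fun a => ⟨ty a, a, rfl⟩) :=
    ⟨N.ν, N.supp, N.m, N.pow⟩
  exact vanish_sl hfam (psRes S (Set.range ty)) hle hSL N' κ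

end Restrict

end Pool.Agent.Hier
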