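import Pool.Agent.Lib.MP_8f66f0_al_Hier.BlkD

/-! Block L, first part: the blocks `d_b a_{i_2} ⋯ a_{i_m}` and the right ideal spanned by the
words which start with a `d`-letter. -/

set_option autoImplicit false

namespace Pool.Agent.Hier.LB

open Pool.Agent.Wald Pool.Agent.Ind Pool.Agent.Hier Function

variable {LL C Q' I J T : Type} [CommRing LL] [Group C] [Ring Q'] [Algebra LL Q'] [Ring T]
  [Algebra LL T] (ρ : C →* Q') (f : Q' →ₐ[LL] T) (a : I → T) (d : J → T)

/-- The homomorphism `f ∘ ρ`. -/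
def fr : C →* T := (f : Q' →* T).comp ρ

theorem fr_apply (c : C) : fr ρ f c = f (ρ c) := rfl

theorem gr_fr (r : MonoidAlgebra LL C) : gr LL (fr ρ f) r = f (gr LL ρ r) := by
  induction r using MonoidAlgebra.induction_linear with
  | zero => simp
  | add g h hg hh => rw [map_add, hg, hh, map_add, map_add]
  | single c l =>
    change MonoidAlgebra.lift LL T C (fr ρ f) (MonoidAlgebra.single c l) =
      f (MonoidAlgebra.lift LL Q' C ρ (MonoidAlgebra.single c l))
    rw [MonoidAlgebra.lift_single, MonoidAlgebra.lift_single, map_smul, fr_apply]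

/-- The blocks. -/
def bk (x : J × List I) : T := d x.1 * wd a x.2

/-- The size of a block. -/
def bsz (x : J × List I) : ℕ := x.2.length

theorem bk_nil (b : J) : bk a d (b, []) = d b := by
  change d b * 1 = d b
  rw [mul_one]

theorem bk_cons (b : J) (i : I) (u : List I) : bk a d (b, i :: u) = bk a d (b, u) * a i := by
  change d b * (wd a u * a i) = d b * wd a u * a i
  rw [mul_assoc]

/-- Combinations of blocks of size `n`. -/
def Vn (n : ℕ) : Submodule LL T :=
  Submodule.span LL {t | ∃ (c : C) (x : J × List I), bsz x = n ∧ t = f (ρ c) * bk a d x}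

/-- Combinations of nonempty words in blocks of size `< n`. -/
def Wn (n : ℕ) : Submodule LL T :=
  Submodule.span LL {t | ∃ (c : C) (s : List (J × List I)), s ≠ [] ∧ (∀ x ∈ s, bsz x < n) ∧
    t = f (ρ c) * wd (bk a d) s}

/-- The right ideal: combinations of nonempty words in the blocks. -/
def rr : Submodule LL T :=
  Submodule.span LL {t | ∃ (c : C) (s : List (J × List I)), s ≠ [] ∧
    t = f (ρ c) * wd (bk a d) s}

variable {ρ f a d}

theorem Wn_le_rr (n : ℕ) : Wn ρ f a d n ≤ rr ρ f a d :=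
  Submodule.span_mono fun _ ⟨c, s, h1, _, h2⟩ => ⟨c, s, h1, h2⟩

theorem Vn_le_Wn (n : ℕ) : Vn ρ f a d n ≤ Wn ρ f a d (n + 1) :=
  Submodule.span_mono fun _ ⟨c, x, h1, h2⟩ => ⟨c, [x], by simp, by simp [h1], by
    rw [h2, wd_cons, wd_nil, one_mul]⟩

theorem Vn_le_rr (n : ℕ) : Vn ρ f a d n ≤ rr ρ f a d := (Vn_le_Wn n).trans (Wn_le_rr _)

theorem Wn_mono {n m : ℕ} (h : n ≤ m) : Wn ρ f a d n ≤ Wn ρ f a d m :=
  Submodule.span_mono fun _ ⟨c, s, h1, h2, h3⟩ => ⟨c, s, h1, fun x hx =>
    lt_of_lt_of_le (h2 x hx) h, h3⟩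

theorem mul_mem_of_gen {S : Set T} {N : Submodule LL T} {t y : T}
    (h : ∀ x ∈ S, x * y ∈ N) (ht : t ∈ Submodule.span LL S) : t * y ∈ N := by
  induction ht using Submodule.span_induction with
  | mem x hx => exact h x hx
  | zero => simp
  | add x y _ _ hx hy => rw [add_mul]; exact add_mem hx hy
  | smul l x _ hx => rw [smul_mul_assoc]; exact Submodule.smul_mem _ _ hx

theorem mul_mem_of_gen' {S : Set T} {N : Submodule LL T} {t y : T}
    (h : ∀ x ∈ S, y * x ∈ N) (ht : t ∈ Submodule.span LL S) : y * t ∈ N := by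
  induction ht using Submodule.span_induction with
  | mem x hx => exact h x hx
  | zero => simp
  | add x y _ _ hx hy => rw [mul_add]; exact add_mem hx hy
  | smul l x _ hx => rw [mul_smul_comm]; exact Submodule.smul_mem _ _ hx

theorem Vn_mul_a {n : ℕ} {t : T} (ht : t ∈ Vn ρ f a d n) (i : I) :
    t * a i ∈ Vn ρ f a d (n + 1) := by
  refine mul_mem_of_gen ?_ ht
  rintro _ ⟨c, ⟨b, u⟩, h1, rfl⟩
  rw [mul_assoc, ← bk_cons]
  refine Submodule.subset_span ⟨c, (b, i :: u), ?_, rfl⟩
  change u.length = n at h1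
  change (i :: u).length = n + 1
  rw [List.length_cons, h1]

theorem wd_mul_a {s : List (J × List I)} (hs : s ≠ []) (i : I) : ∃ x s',
    s = x :: s' ∧ wd (bk a d) s * a i = wd (bk a d) ((x.1, i :: x.2) :: s') := by
  cases s with
  | nil => exact absurd rfl hs
  | cons x s' =>
    refine ⟨x, s', rfl, ?_⟩
    rw [wd_cons, wd_cons, mul_assoc]
    congr 1
    exact (bk_cons a d x.1 i x.2).symm

theorem Wn_mul_a {n : ℕ} {t : T} (ht : t ∈ Wn ρ f a d n) (i : I) :
    t * a i ∈ Wn ρ f a d (n + 1) := by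
  refine mul_mem_of_gen ?_ ht
  rintro _ ⟨c, s, h1, h2, rfl⟩
  obtain ⟨x, s', e1, e2⟩ := wd_mul_a (a := a) (d := d) h1 i
  rw [mul_assoc, e2]
  refine Submodule.subset_span ⟨c, _, by simp, ?_, rfl⟩
  intro y hy
  rcases List.mem_cons.mp hy with h | h
  · rw [h]
    have := h2 x (by rw [e1]; exact List.mem_cons_self)
    change x.2.length < n at this
    change (i :: x.2).length < n + 1
    rw [List.length_cons]
    omega
  · have := h2 y (by rw [e1]; exact List.mem_cons_of_mem _ h)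
    omega

theorem Wn_mul_d {n : ℕ} {t : T} (ht : t ∈ Wn ρ f a d n) (b : J) :
    t * d b ∈ Wn ρ f a d (n + 1) := by
  refine mul_mem_of_gen ?_ ht
  rintro _ ⟨c, s, h1, h2, rfl⟩
  rw [mul_assoc, ← bk_nil a d b, ← wd_cons]
  refine Submodule.subset_span ⟨c, _, by simp, ?_, rfl⟩
  intro y hy
  rcases List.mem_cons.mp hy with h | h
  · rw [h]
    exact Nat.succ_pos n
  · have := h2 y h
    omega

theorem rr_mul_a {t : T} (ht : t ∈ rr ρ f a d) (i : I) : t * a i ∈ rr ρ f a d := by
  refine mul_mem_of_gen ?_ ht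
  rintro _ ⟨c, s, h1, rfl⟩
  obtain ⟨x, s', e1, e2⟩ := wd_mul_a (a := a) (d := d) h1 i
  rw [mul_assoc, e2]
  exact Submodule.subset_span ⟨c, _, by simp, rfl⟩

theorem rr_mul_wd {t : T} (ht : t ∈ rr ρ f a d) (s : List (J × List I)) :
    t * wd (bk a d) s ∈ rr ρ f a d := by
  refine mul_mem_of_gen ?_ ht
  rintro _ ⟨c, s', h1, rfl⟩
  rw [mul_assoc, ← wd_append]
  exact Submodule.subset_span ⟨c, _, by simp [h1], rfl⟩

theorem rr_mul_d {t : T} (ht : t ∈ rr ρ f a d) (b : J) : t * d b ∈ rr ρ f a d := by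
  have := rr_mul_wd ht [(b, ([] : List I))]
  rwa [wd_cons, wd_nil, one_mul, bk_nil] at this

theorem rho_mul_rr {t : T} (ht : t ∈ rr ρ f a d) (c : C) : f (ρ c) * t ∈ rr ρ f a d := by
  refine mul_mem_of_gen' ?_ ht
  rintro _ ⟨c', s', h1, rfl⟩
  rw [← mul_assoc, ← map_mul, ← map_mul]
  exact Submodule.subset_span ⟨c * c', _, h1, rfl⟩

theorem gr_mul_rr {t : T} (ht : t ∈ rr ρ f a d) (r : MonoidAlgebra LL C) :
    f (gr LL ρ r) * t ∈ rr ρ f a d := by
  induction r using MonoidAlgebra.induction_linear with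
  | zero => simp
  | add g h hg hh => rw [map_add, map_add, add_mul]; exact add_mem hg hh
  | single c l =>
    change f (MonoidAlgebra.lift LL Q' C ρ (MonoidAlgebra.single c l)) * _ ∈ _
    rw [MonoidAlgebra.lift_single, map_smul, smul_mul_assoc]
    exact Submodule.smul_mem _ _ (rho_mul_rr ht c)

/-- The hypothesis on the `d`-letters. -/
def HD (ρ : C →* Q') (f : Q' →ₐ[LL] T) (d : J → T) : Prop :=
  ∀ b q, d b * f q ∈ Submodule.span LL {t | ∃ c b', t = f (ρ c) * d b'}

/-- **The triangular rule**. -/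
theorem tri_VW (hCl : Cl (f : Q' →+* T) (Sum.elim a d)) (hd : HD ρ f d) (b : J) (u : List I)
    (q : Q') : bk a d (b, u) * f q ∈ Vn ρ f a d u.length ⊔ Wn ρ f a d u.length := by
  induction u generalizing q with
  | nil =>
    rw [bk_nil]
    refine Submodule.mem_sup_left ?_
    refine Submodule.span_mono ?_ (hd b q)
    rintro _ ⟨c, b', rfl⟩
    exact ⟨c, (b', []), rfl, by rw [bk_nil]⟩
  | cons i u ih =>
    obtain ⟨q₀, x, hx⟩ := hCl (Sum.inl i) q
    change a i * f q = f q₀ + lin (f : Q' →+* T) (Sum.elim a d) x at hx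
    rw [bk_cons, mul_assoc, hx, mul_add, List.length_cons]
    have hVW : Vn ρ f a d u.length ⊔ Wn ρ f a d u.length ≤ Wn ρ f a d (u.length + 1) :=
      sup_le (Vn_le_Wn _) (Wn_mono (Nat.le_succ _))
    refine add_mem (Submodule.mem_sup_right (hVW (ih q₀))) ?_
    rw [lin, Finsupp.sum, Finset.mul_sum]
    refine Submodule.sum_mem _ fun l _ => ?_
    rw [← mul_assoc]
    change bk a d (b, u) * f (x l) * _ ∈ _
    have h1 := ih (x l)
    cases l with
    | inl j =>
      obtain ⟨v, hv, w, hw, e⟩ := Submodule.mem_sup.mp h1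
      rw [← e, add_mul]
      exact add_mem (Submodule.mem_sup_left (Vn_mul_a hv j))
        (Submodule.mem_sup_right (Wn_mul_a hw j))
    | inr b' =>
      refine Submodule.mem_sup_right ?_
      obtain ⟨v, hv, w, hw, e⟩ := Submodule.mem_sup.mp h1
      rw [← e, add_mul]
      refine add_mem ?_ (Wn_mul_d hw b')
      refine mul_mem_of_gen ?_ hv
      rintro _ ⟨c, y, h2, rfl⟩
      refine Submodule.subset_span ⟨c, [(b', []), y], by simp, ?_, ?_⟩
      · intro z hz
        rcases List.mem_cons.mp hz with h | h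
        · rw [h]
          exact Nat.succ_pos _
        · rw [List.mem_singleton.mp h, h2]
          exact Nat.lt_succ_self _
      · rw [wd_cons, wd_cons, wd_nil, one_mul, bk_nil, mul_assoc]
        rfl

theorem bk_mul_rr (hCl : Cl (f : Q' →+* T) (Sum.elim a d)) (hd : HD ρ f d) (x : J × List I)
    (q : Q') : bk a d x * f q ∈ rr ρ f a d :=
  (sup_le (Vn_le_rr _) (Wn_le_rr _)) (tri_VW hCl hd x.1 x.2 q)

theorem wd_mul_rr (hCl : Cl (f : Q' →+* T) (Sum.elim a d)) (hd : HD ρ f d)
    (s : List (J × List I)) {y : T} (hy : y ∈ rr ρ f a d) : wd (bk a d) s * y ∈ rr ρ f a d := by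
  induction s generalizing y with
  | nil => rwa [wd_nil, one_mul]
  | cons x s ih =>
    rw [wd_cons, mul_assoc]
    refine ih ?_
    refine mul_mem_of_gen' ?_ hy
    rintro _ ⟨c, t, _, rfl⟩
    rw [← mul_assoc]
    exact rr_mul_wd (bk_mul_rr hCl hd x (ρ c)) t

theorem rr_mul_f (hCl : Cl (f : Q' →+* T) (Sum.elim a d)) (hd : HD ρ f d) {t : T}
    (ht : t ∈ rr ρ f a d) (q : Q') : t * f q ∈ rr ρ f a d := by
  refine mul_mem_of_gen ?_ ht
  rintro _ ⟨c, s, h1, rfl⟩
  cases s with
  | nil => exact absurd rfl h1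
  | cons x s =>
    rw [wd_cons, mul_assoc, mul_assoc]
    exact rho_mul_rr (wd_mul_rr hCl hd s (bk_mul_rr hCl hd x q)) c

theorem rr_mul_word (w : List (I ⊕ J)) {t : T} (ht : t ∈ rr ρ f a d) :
    t * wd (Sum.elim a d) w ∈ rr ρ f a d := by
  induction w with
  | nil => rwa [wd_nil, mul_one]
  | cons l w ih =>
    rw [wd_cons, ← mul_assoc]
    cases l with
    | inl i => exact rr_mul_a ih i
    | inr b => exact rr_mul_d ih b

/-- `rr` is a right ideal. -/
theorem rr_mul (hCl : Cl (f : Q' →+* T) (Sum.elim a d)) (hd : HD ρ f d)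
    (hs : Surjective (ev (f : Q' →+* T) (Sum.elim a d))) {t : T} (ht : t ∈ rr ρ f a d) (y : T) :
    t * y ∈ rr ρ f a d := by
  obtain ⟨z, rfl⟩ := hs y
  rw [ev, Finsupp.sum, Finset.mul_sum]
  refine Submodule.sum_mem _ fun w _ => ?_
  rw [← mul_assoc]
  exact rr_mul_word w (rr_mul_f hCl hd ht (z w))

end Pool.Agent.Hier.LB
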