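import Pool.Agent.Lib.MP_8f66f0_al_Hier.Defs
import Pool.Agent.Lib.MP_8f66f0_al_Wald.GrDefs

/-! Block G: the trees of amalgams and HNN extensions give `OneStep` data.

Notation: `[x] = x⁻¹ A` (the coset of `x⁻¹`), so `[x] = [x']` iff `x' x⁻¹ ∈ A`, `e⁻¹ • [x] = [x e]`. -/

set_option autoImplicit false

namespace Pool.Agent.Hier

open Pool.Agent.Wald

/-- `gam`. PROOF. (1) For every `g` there are `a ∈ A` with `a g ∉ SA` and `b ∈ B` with `b g ∉ SB`:
the least predicate `R` with `R e` (`e ∈ A ⊓ B`), `R (a h)` (`a ∈ A`, `a ∉ B`, `h ∉ SA`, `R h`),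
`R (b h)` (`b ∈ B`, `b ∉ A`, `h ∉ SB`, `R h`) is stable under left multiplication by `A ⊓ B`, `A`,
`B`, so it is everything (`gen`); if `g ∈ SA` then `g = a h` (`disj`, `disjA`, `leftB`).
(2) For `v ≠ v₀` choose `y_v ∉ SA`, `[y_v] = v` (so `y_v ∈ SB`), `b_v ∈ B` with `b_v y_v ∉ SB`,
`p v = [b_v y_v]`, `rk v = len y_v`, `len y_v = len (b_v y_v) + 1`. `y_(p v) = a b_v y_v ∉ SA`: if
`a ∈ B` the length is that of `b_v y_v`, otherwise `b_v y_v ∈ SA` (`leftA`) is longer than `y_(p v)`.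
(3) Let `z`, `w ∈ B z`, `y ∈ B z`, `y ∉ SB`. Then `dl z [w] [y]` is in the closure: if `[w] ≠ [y]` then
`w ∈ SB`, `y_[w] = a w` with `a ∈ A ⊓ B`, `p [w] = [y]`. `mem`: `z = y_v e`, `w = z`, `w = b_v z`. -/
def S_gam : Prop := ∀ (G : Type) [Group G] (T : AmTree G), Nonempty (OneStep G T.A T.B)

/-- `ghnn`. PROOF. Call `y` good for `v` if `y ∈ V`, `v = y⁻¹ H` or `y ∉ V`, `v = y⁻¹ t H`.
(1) Every `v = x⁻¹ H ≠ v₀` has a good `y`: the set of `x` with this property (or `v = v₀`) is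
stable under right multiplication by `H`, `t`, `t⁻¹` (`rightH`, `edge`; new `y` is `y h`, `y t`, `y t⁻¹`,
or `t`, `1` if `v = v₀`). (2) Two good `y`, `y'` for `v` differ by an element of `E` on the left and
are both in `V` or both not in `V` (`mp`, `mm`, `pm`). (3) `p v = y_v⁻¹ t H` if `y_v ∈ V`, `y_v⁻¹ H`
otherwise, `rk v = len y_v + 1`, `rk v₀ = 0`: `pp`, `pm`, `mp`, `mm`. (4) `mem`: `z = y_v e`; `z` is good for
`z⁻¹ H` (`z ∈ V`) or `z⁻¹ t H` (`z ∉ V`), and the other end of the edge is the parent. -/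
def S_ghnn : Prop := ∀ (G : Type) [Group G] (T : HnnTree G), Nonempty (OneStep G T.H T.E)

end Pool.Agent.Hier
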